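import Mathlib

set_option autoImplicit false

namespace Pool.Agent.Lib.MP_8b1d3b_lc

open Module Submodule

section

variable {K R : Type*} [Field K] [CommRing R] [Algebra K R]

theorem pow_le_pow_of_one_mem {V : Submodule K R} (h1 : (1 : R) ∈ V) {i j : ℕ} (h : i ≤ j) :
    V ^ i ≤ V ^ j := by
  induction h with
  | refl => exact le_rfl
  | step _ ih =>
    refine ih.trans ?_
    intro x hx
    rw [pow_succ]
    simpa using Submodule.mul_mem_mul hx h1

theorem pow_mono_left {V W : Submodule K R} (h : V ≤ W) (i : ℕ) : V ^ i ≤ W ^ i := by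
  induction i with
  | zero => simp
  | succ i ih =>
    rw [pow_succ, pow_succ]
    exact mul_le_mul' ih h

theorem fg_pow {V : Submodule K R} (h : V.FG) (i : ℕ) : (V ^ i).FG := h.pow i

theorem sup_span_pow_succ (V : Submodule K R) (g : R) (T : ℕ) :
    (V ⊔ span K {g}) ^ (T + 1) =
      V ^ (T + 1) ⊔ map (LinearMap.mulLeft K g) ((V ⊔ span K {g}) ^ T) := by
  have hmap : ∀ U : Submodule K R, map (LinearMap.mulLeft K g) U = span K {g} * U := by
    intro U
    ext x
    rw [Submodule.mem_span_singleton_mul]
    simp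
  rw [hmap]
  induction T with
  | zero => simp
  | succ T ih =>
    apply le_antisymm
    · rw [pow_succ (V ⊔ span K {g}) (T + 1)]
      nth_rewrite 1 [ih]
      rw [Submodule.sup_mul, Submodule.mul_sup, mul_assoc, ← pow_succ, ← pow_succ]
      refine sup_le (sup_le le_sup_left ?_) le_sup_right
      refine le_trans ?_ le_sup_right
      rw [mul_comm]
      exact mul_le_mul' le_rfl (pow_mono_left le_sup_left _)
    · refine sup_le (pow_mono_left le_sup_left _) ?_
      rw [pow_succ' (V ⊔ span K {g}) (T + 1)]
      exact mul_le_mul' le_sup_right le_rfl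

theorem finrank_sup_span_pow_succ_le {V : Submodule K R} (hV : V.FG) (g : R) (T : ℕ) :
    finrank K ((V ⊔ span K {g}) ^ (T + 1) : Submodule K R) ≤
      finrank K (V ^ (T + 1) : Submodule K R) +
        finrank K ((V ⊔ span K {g}) ^ T : Submodule K R) := by
  have hV' : (V ⊔ span K {g}).FG := hV.sup (Submodule.fg_span_singleton g)
  have := Module.Finite.iff_fg.mpr (fg_pow hV (T + 1))
  have := Module.Finite.iff_fg.mpr (fg_pow hV' T)
  rw [sup_span_pow_succ]
  have h1 := Submodule.finrank_sup_add_finrank_inf_eq (V ^ (T + 1))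
    (map (LinearMap.mulLeft K g) ((V ⊔ span K {g}) ^ T))
  have h2 := Submodule.finrank_map_le (LinearMap.mulLeft K g) ((V ⊔ span K {g}) ^ T)
  omega

theorem finrank_sup_span_pow_succ_add_le [IsDomain R] {V : Submodule K R} (hV : V.FG)
    (h1 : (1 : R) ∈ V) {g : R} (hg0 : g ≠ 0) {E : ℕ} (hE : 1 ≤ E) (hg : g ∈ V ^ E) (T : ℕ)
    (hT : E ≤ T + 1) :
    finrank K ((V ⊔ span K {g}) ^ (T + 1) : Submodule K R) +
        finrank K (V ^ (T + 1 - E) : Submodule K R) ≤
      finrank K (V ^ (T + 1) : Submodule K R) +
        finrank K ((V ⊔ span K {g}) ^ T : Submodule K R) := by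
  have hV' : (V ⊔ span K {g}).FG := hV.sup (Submodule.fg_span_singleton g)
  have := Module.Finite.iff_fg.mpr (fg_pow hV (T + 1))
  have := Module.Finite.iff_fg.mpr (fg_pow hV' T)
  have := Module.Finite.iff_fg.mpr (fg_pow hV (T + 1 - E))
  rw [sup_span_pow_succ]
  have h1' := Submodule.finrank_sup_add_finrank_inf_eq (V ^ (T + 1))
    (map (LinearMap.mulLeft K g) ((V ⊔ span K {g}) ^ T))
  have h2 := Submodule.finrank_map_le (LinearMap.mulLeft K g) ((V ⊔ span K {g}) ^ T)
  have hinj : Function.Injective (LinearMap.mulLeft K g) := fun x y hxy =>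
    mul_left_cancel₀ hg0 (by simpa using hxy)
  have h3 : finrank K (V ^ (T + 1 - E) : Submodule K R) =
      finrank K (map (LinearMap.mulLeft K g) (V ^ (T + 1 - E))) :=
    (Submodule.equivMapOfInjective _ hinj _).finrank_eq
  have h4 : map (LinearMap.mulLeft K g) (V ^ (T + 1 - E)) ≤
      V ^ (T + 1) ⊓ map (LinearMap.mulLeft K g) ((V ⊔ span K {g}) ^ T) := by
    refine le_inf ?_ (Submodule.map_mono ?_)
    · rintro _ ⟨x, hx, rfl⟩
      have := Submodule.mul_mem_mul hg hx
      rw [← pow_add, show E + (T + 1 - E) = T + 1 by omega] at this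
      simpa using this
    · exact (pow_le_pow_of_one_mem h1 (by omega)).trans (pow_mono_left le_sup_left T)
  have h5 := Submodule.finrank_mono h4
  omega

theorem finrank_sup_span_pow_le_sum {V : Submodule K R} (hV : V.FG) (g : R) (T : ℕ) :
    finrank K ((V ⊔ span K {g}) ^ T : Submodule K R) ≤
      ∑ i ∈ Finset.range (T + 1), finrank K (V ^ i : Submodule K R) := by
  induction T with
  | zero =>
    have h0 : (V ⊔ span K {g}) ^ 0 = V ^ 0 := by simp
    rw [h0]
    simp
  | succ T ih =>
    rw [Finset.sum_range_succ]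
    have := finrank_sup_span_pow_succ_le hV g T
    omega

theorem finrank_sup_span_pow_le_mul [IsDomain R] {V : Submodule K R} (hV : V.FG)
    (h1 : (1 : R) ∈ V) {g : R} {E : ℕ} (hE : 1 ≤ E) (hg : g ∈ V ^ E) (T : ℕ) :
    finrank K ((V ⊔ span K {g}) ^ T : Submodule K R) ≤
      E * finrank K (V ^ T : Submodule K R) := by
  by_cases hg0 : g = 0
  · subst hg0
    have : V ⊔ span K {(0 : R)} = V := by simp
    rw [this]
    exact Nat.le_mul_of_pos_left _ hE
  have key : ∀ T : ℕ, finrank K ((V ⊔ span K {g}) ^ T : Submodule K R) +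
      ∑ i ∈ Finset.range (T + 1 - E), finrank K (V ^ i : Submodule K R) ≤
      ∑ i ∈ Finset.range (T + 1), finrank K (V ^ i : Submodule K R) := by
    intro T
    induction T with
    | zero =>
      have : 0 + 1 - E = 0 := by omega
      have h0 : (V ⊔ span K {g}) ^ 0 = V ^ 0 := by simp
      rw [this, h0]
      simp
    | succ T ih =>
      rw [Finset.sum_range_succ _ (T + 1)]
      by_cases hT : E ≤ T + 1
      · have h := finrank_sup_span_pow_succ_add_le hV h1 hg0 hE hg T hT
        rw [show T + 1 + 1 - E = (T + 1 - E) + 1 by omega, Finset.sum_range_succ]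
        omega
      · have h := finrank_sup_span_pow_succ_le hV g T
        rw [show T + 1 + 1 - E = 0 by omega]
        rw [show T + 1 - E = 0 by omega] at ih
        simp only [Finset.range_zero, Finset.sum_empty] at ih ⊢
        omega
  have h2 := key T
  have h3 : ∑ i ∈ Finset.range (T + 1), finrank K (V ^ i : Submodule K R) =
      ∑ i ∈ Finset.range (T + 1 - E), finrank K (V ^ i : Submodule K R) +
      ∑ i ∈ Finset.Ico (T + 1 - E) (T + 1), finrank K (V ^ i : Submodule K R) :=
    (Finset.sum_range_add_sum_Ico _ (by omega)).symm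
  have h4 : ∑ i ∈ Finset.Ico (T + 1 - E) (T + 1), finrank K (V ^ i : Submodule K R) ≤
      (Finset.Ico (T + 1 - E) (T + 1)).card • finrank K (V ^ T : Submodule K R) := by
    apply Finset.sum_le_card_nsmul
    intro i hi
    have := Module.Finite.iff_fg.mpr (fg_pow hV T)
    apply Submodule.finrank_mono
    apply pow_le_pow_of_one_mem h1
    have := (Finset.mem_Ico.mp hi).2
    omega
  rw [Nat.card_Ico, smul_eq_mul] at h4
  have h5 : (T + 1 - (T + 1 - E)) * finrank K (V ^ T : Submodule K R) ≤
      E * finrank K (V ^ T : Submodule K R) := Nat.mul_le_mul_right _ (by omega)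
  omega

theorem finrank_one_sup_span_pow_le (s : Finset R) (T : ℕ) :
    finrank K (((1 : Submodule K R) ⊔ span K (s : Set R)) ^ T : Submodule K R) ≤
      (T + s.card).choose s.card := by
  classical
  induction s using Finset.induction_on generalizing T with
  | empty =>
    have h0 : ((1 : Submodule K R) ⊔ span K ((∅ : Finset R) : Set R)) ^ T = span K {(1 : R)} := by
      simp [← Submodule.one_eq_span]
    rw [h0]
    exact (finrank_span_le_card ({(1 : R)} : Set R)).trans (by simp)
  | insert x s hx ih =>
    have hfg : ((1 : Submodule K R) ⊔ span K (s : Set R)).FG := by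
      rw [Submodule.one_eq_span]
      exact (Submodule.fg_span_singleton _).sup (Submodule.fg_span s.finite_toSet)
    have heq : (1 : Submodule K R) ⊔ span K ((insert x s : Finset R) : Set R) =
        ((1 : Submodule K R) ⊔ span K (s : Set R)) ⊔ span K {x} := by
      rw [Finset.coe_insert, Submodule.span_insert, sup_assoc, sup_comm (span K (s : Set R))]
    rw [heq, Finset.card_insert_of_notMem hx]
    refine (finrank_sup_span_pow_le_sum hfg x T).trans ?_
    refine (Finset.sum_le_sum fun i _ => ih i).trans ?_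
    rw [Nat.sum_range_add_choose]
    exact le_of_eq (by congr 1)

theorem finrank_sup_span_finset_pow_le [IsDomain R] {V : Submodule K R} (hV : V.FG)
    (h1 : (1 : R) ∈ V) {E : ℕ} (hE : 1 ≤ E) (s : Finset R) (hs : ∀ g ∈ s, g ∈ V ^ E) (T : ℕ) :
    finrank K ((V ⊔ span K (s : Set R)) ^ T : Submodule K R) ≤
      E ^ s.card * finrank K (V ^ T : Submodule K R) := by
  classical
  induction s using Finset.induction_on with
  | empty =>
    have h0 : V ⊔ span K ((∅ : Finset R) : Set R) = V := by simp
    rw [h0]
    simp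
  | insert x s hx ih =>
    have hfg : (V ⊔ span K (s : Set R)).FG := hV.sup (Submodule.fg_span s.finite_toSet)
    have heq : V ⊔ span K ((insert x s : Finset R) : Set R) =
        (V ⊔ span K (s : Set R)) ⊔ span K {x} := by
      rw [Finset.coe_insert, Submodule.span_insert, sup_assoc, sup_comm (span K (s : Set R))]
    rw [heq, Finset.card_insert_of_notMem hx]
    have hx' : x ∈ (V ⊔ span K (s : Set R)) ^ E :=
      pow_mono_left le_sup_left E (hs x (Finset.mem_insert_self _ _))
    refine (finrank_sup_span_pow_le_mul hfg (Submodule.mem_sup_left h1) hE hx' T).trans ?_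
    rw [pow_succ', mul_assoc]
    exact Nat.mul_le_mul_left _ (ih fun g hg => hs g (Finset.mem_insert_of_mem hg))

end

end Pool.Agent.Lib.MP_8b1d3b_lc
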