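import Mathlib
import Pool.Agent.Lib.MP_8b1d3b_lc.Hilbert

set_option autoImplicit false

namespace Pool.Agent.Lib.MP_8b1d3b_lc

open Module Submodule MvPolynomial

section

variable {L : Type*} [Field L] {σ : Type*}

theorem monomial_mem_pow {V : Submodule L (MvPolynomial σ L)}
    (hX : ∀ i, X i ∈ V) (a : σ →₀ ℕ) (c : L) : monomial a c ∈ V ^ a.degree := by
  induction a using Finsupp.induction_linear generalizing c with
  | zero =>
    simp only [map_zero, pow_zero]
    exact Submodule.mem_one.mpr ⟨c, rfl⟩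
  | add a b ha hb =>
    rw [map_add, pow_add, ← mul_one c, ← monomial_mul]
    exact Submodule.mul_mem_mul (ha c) (hb 1)
  | single i n =>
    rw [Finsupp.degree_single, ← C_mul_X_pow_eq_monomial, ← smul_eq_C_mul]
    exact Submodule.smul_mem _ _ (Submodule.pow_mem_pow V (hX i) n)

theorem homogeneous_mem_pow {V : Submodule L (MvPolynomial σ L)}
    (hX : ∀ i, X i ∈ V) {p : MvPolynomial σ L} {e : ℕ}
    (hp : p.IsHomogeneous e) : p ∈ V ^ e := by
  rw [p.as_sum]
  refine Submodule.sum_mem _ fun a ha => ?_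
  have : a.degree = e := by
    have := hp (mem_support_iff.mp ha)
    rwa [Finsupp.degree_eq_weight_one]
  rw [← this]
  exact monomial_mem_pow hX a _

theorem homogeneousComponent_mul_homogeneous (q f : MvPolynomial σ L) {δ : ℕ}
    (hf : f.IsHomogeneous δ) (e : ℕ) :
    homogeneousComponent e (q * f) =
      if δ ≤ e then homogeneousComponent (e - δ) q * f else 0 := by
  classical
  let : GradedAlgebra (homogeneousSubmodule σ L) := MvPolynomial.gradedAlgebra
  have h := DirectSum.coe_decompose_mul_of_right_mem (homogeneousSubmodule σ L) (a := q) (b := f)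
    (i := δ) e hf
  have h2 : ∀ (p : MvPolynomial σ L) (i : ℕ),
      ((DirectSum.decompose (homogeneousSubmodule σ L) p i : homogeneousSubmodule σ L i) :
        MvPolynomial σ L) = homogeneousComponent i p := fun p i =>
    MvPolynomial.decomposition.decompose'_apply p i
  rw [h2, h2] at h
  exact h

theorem homogeneous_mem_pow_div [Finite σ] {V : Submodule L (MvPolynomial σ L)}
    (h1 : (1 : MvPolynomial σ L) ∈ V) (hX : ∀ i, X i ∈ V) {D : ℕ} (hD : 1 ≤ D)
    {F : Set (MvPolynomial σ L)} (hF : ∀ f ∈ F, f ∈ V ∧ ∃ δ, D ≤ δ ∧ f.IsHomogeneous δ)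
    (hrad : ∀ i, (X i : MvPolynomial σ L) ∈ (Ideal.span F).radical) :
    ∃ c : ℕ, ∀ (e : ℕ) (p : MvPolynomial σ L), p.IsHomogeneous e → p ∈ V ^ (c + e / D) := by
  have hle : idealOfVars σ L ≤ (Ideal.span F).radical := by
    rw [Ideal.span_le]
    rintro _ ⟨i, rfl⟩
    exact hrad i
  obtain ⟨c, hc⟩ := Ideal.exists_pow_le_of_le_radical_of_fg hle (idealOfVars_fg σ L)
  refine ⟨c, fun e => ?_⟩
  induction e using Nat.strong_induction_on with
  | _ e ih =>
    intro p hp
    by_cases he : e < c
    · exact pow_le_pow_of_one_mem h1 (he.le.trans (Nat.le_add_right _ _))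
        (homogeneous_mem_pow hX hp)
    have hpI : p ∈ Ideal.span F := by
      apply hc
      rw [mem_pow_idealOfVars_iff]
      intro a ha
      have h0 : a.degree = e := by
        have := hp (mem_support_iff.mp ha)
        rwa [Finsupp.degree_eq_weight_one]
      omega
    have key : ∀ r ∈ Ideal.span F, ∀ q : MvPolynomial σ L,
        homogeneousComponent e (q * r) ∈ V ^ (c + e / D) := by
      intro r hr
      induction hr using Submodule.span_induction with
      | mem f hf =>
        intro q
        obtain ⟨hfV, δ, hδ, hfh⟩ := hF f hf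
        rw [homogeneousComponent_mul_homogeneous q f hfh]
        split_ifs with hδe
        · have h2 := ih (e - δ) (by omega) _ (homogeneousComponent_isHomogeneous (e - δ) q)
          have h3 := Submodule.mul_mem_mul h2 hfV
          rw [← pow_succ] at h3
          refine pow_le_pow_of_one_mem h1 ?_ h3
          have h4 : (e - δ) / D + 1 = (e - δ + D) / D := (Nat.add_div_right _ hD).symm
          have h5 : (e - δ + D) / D ≤ e / D := Nat.div_le_div_right (by omega)
          omega
        · exact Submodule.zero_mem _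
      | zero => intro q; simp
      | add x y _ _ hx hy =>
        intro q
        rw [mul_add, map_add]
        exact Submodule.add_mem _ (hx q) (hy q)
      | smul a x _ hx =>
        intro q
        rw [smul_eq_mul, ← mul_assoc]
        exact hx _
    have := key p hpI 1
    rwa [one_mul, homogeneousComponent_eq_self hp] at this

theorem pow_le_finrank [Fintype σ] {U : Submodule L (MvPolynomial σ L)} (hU : U.FG) (B : ℕ)
    (h : ∀ a : σ →₀ ℕ, (∀ i, a i < B) → monomial a (1 : L) ∈ U) :
    B ^ Fintype.card σ ≤ finrank L U := by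
  classical
  have := Module.Finite.iff_fg.mpr hU
  let ι := σ → Fin B
  let ex : ι → (σ →₀ ℕ) := fun a => Finsupp.equivFunOnFinite.symm fun i => (a i : ℕ)
  have hex : Function.Injective ex := by
    intro a b hab
    funext i
    have := congrArg (fun f : σ →₀ ℕ => f i) hab
    exact Fin.ext (by simpa [ex] using this)
  let v : ι → U := fun a => ⟨monomial (ex a) 1, h _ fun i => by simp [ex]⟩
  have hv : LinearIndependent L v := by
    apply LinearIndependent.of_comp U.subtype
    have h0 := (basisMonomials σ L).linearIndependent.comp ex hex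
    have e : (⇑U.subtype ∘ v) = (⇑(basisMonomials σ L) ∘ ex) := by
      funext a
      simp [v]
    rw [e]
    exact h0
  have h2 := hv.fintype_card_le_finrank
  simpa [ι] using h2

theorem choose_bound (m T : ℕ) : ((m + 1) * T).choose m ≤ 3 ^ (m + 1) * T ^ m := by
  have h1 : ((((m + 1) * T).choose m : ℕ) : ℝ) ≤ (((m + 1) * T : ℕ) : ℝ) ^ m / m.factorial :=
    Nat.choose_le_pow_div m ((m + 1) * T)
  have h2 : ((m + 1 : ℕ) : ℝ) ^ (m + 1) / (m + 1).factorial ≤ Real.exp ((m + 1 : ℕ) : ℝ) :=
    Real.pow_div_factorial_le_exp _ (by positivity) (m + 1)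
  have h3 : Real.exp ((m + 1 : ℕ) : ℝ) ≤ 3 ^ (m + 1) := by
    rw [← mul_one ((m + 1 : ℕ) : ℝ), Real.exp_nat_mul]
    exact pow_le_pow_left₀ (Real.exp_pos 1).le (Real.exp_one_lt_d9.le.trans (by norm_num)) _
  have h4 : ((m + 1 : ℕ) : ℝ) ^ (m + 1) / (m + 1).factorial =
      ((m + 1 : ℕ) : ℝ) ^ m / m.factorial := by
    rw [Nat.factorial_succ, pow_succ]
    have : (0 : ℝ) < (m + 1 : ℕ) := by positivity
    have : (0 : ℝ) < m.factorial := by positivity
    push_cast
    field_simp
  have h5 : (((m + 1) * T : ℕ) : ℝ) ^ m / m.factorial =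
      (((m + 1 : ℕ) : ℝ) ^ m / m.factorial) * (T : ℝ) ^ m := by
    push_cast
    rw [mul_pow]
    ring
  have h6 : ((((m + 1) * T).choose m : ℕ) : ℝ) ≤ 3 ^ (m + 1) * (T : ℝ) ^ m := by
    refine h1.trans ?_
    rw [h5, ← h4]
    exact mul_le_mul_of_nonneg_right (h2.trans h3) (by positivity)
  exact_mod_cast h6

theorem degree_bound [Fintype σ] {V : Submodule L (MvPolynomial σ L)} (hV : V.FG)
    (h1 : (1 : MvPolynomial σ L) ∈ V) (hX : ∀ i, X i ∈ V) {D : ℕ} (hD : 1 ≤ D)
    {F : Set (MvPolynomial σ L)} (hF : ∀ f ∈ F, f ∈ V ∧ ∃ δ, D ≤ δ ∧ f.IsHomogeneous δ)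
    (hrad : ∀ i, (X i : MvPolynomial σ L) ∈ (Ideal.span F).radical) {Γ : ℕ}
    (hΓ : ∀ T, finrank L (V ^ T : Submodule L (MvPolynomial σ L)) ≤
      Γ * (T + Fintype.card σ).choose (Fintype.card σ)) :
    D ^ Fintype.card σ ≤ Γ * 3 ^ (Fintype.card σ + 1) := by
  classical
  obtain ⟨c, hc⟩ := homogeneous_mem_pow_div h1 hX hD hF hrad
  set m := Fintype.card σ with hm
  set T := c + m + 1 with hT
  have h2 : (D * T) ^ m ≤ finrank L (V ^ (c + m * T) : Submodule L (MvPolynomial σ L)) := by
    apply pow_le_finrank (fg_pow hV _)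
    intro a ha
    have h3 := hc a.degree _ (isHomogeneous_monomial (1 : L) rfl)
    refine pow_le_pow_of_one_mem h1 ?_ h3
    have h4 : a.degree ≤ D * (m * T) := by
      rw [Finsupp.degree_eq_sum]
      calc ∑ i, a i ≤ ∑ _i : σ, D * T := Finset.sum_le_sum fun i _ => (ha i).le
        _ = D * (m * T) := by
          rw [Finset.sum_const, Finset.card_univ, smul_eq_mul]
          ring
    have h5 : a.degree / D ≤ m * T := by
      apply Nat.div_le_of_le_mul h4
    omega
  have h3 := h2.trans (hΓ _)
  have h4 : (c + m * T + m).choose m ≤ ((m + 1) * T).choose m := by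
    apply Nat.choose_le_choose
    have : (m + 1) * T = m * T + T := by ring
    omega
  have h5 := h3.trans (Nat.mul_le_mul_left Γ (h4.trans (choose_bound m T)))
  rw [mul_pow, ← mul_assoc] at h5
  exact Nat.le_of_mul_le_mul_right h5 (by positivity)

end

end Pool.Agent.Lib.MP_8b1d3b_lc
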