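import Mathlib

set_option autoImplicit false

namespace Pool.Agent.Lib.MP_8b1d3b_lc

open Finset

section

variable {A : Type*} [CommRing A] {ι : Type*} [DecidableEq ι] {x : ι → A}

theorem mul_pow_congr {p α β : A} (h : p * α = p * β) (e : ℕ) : p * α ^ e = p * β ^ e := by
  induction e with
  | zero => simp
  | succ e ih =>
    calc p * α ^ (e + 1) = (p * α ^ e) * α := by ring
      _ = (p * α) * β ^ e := by rw [ih]; ring
      _ = p * β ^ (e + 1) := by rw [h]; ring

theorem mul_prod_congr {κ : Type*} {p : A} {α β : κ → A} (T : Finset κ)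
    (h : ∀ j ∈ T, p * α j = p * β j) : p * ∏ j ∈ T, α j = p * ∏ j ∈ T, β j := by
  classical
  induction T using Finset.induction_on with
  | empty => simp
  | insert j T hj ih =>
    rw [prod_insert hj, prod_insert hj]
    have h1 := ih fun k hk => h k (mem_insert_of_mem hk)
    have h2 := h j (mem_insert_self _ _)
    calc p * (α j * ∏ j ∈ T, α j) = α j * (p * ∏ j ∈ T, α j) := by ring
      _ = (p * α j) * ∏ j ∈ T, β j := by rw [h1]; ring
      _ = p * (β j * ∏ j ∈ T, β j) := by rw [h2]; ring

theorem prod_mul_eq_zero (hx : ∀ i, x i * x i = 0) {J : Finset ι} {i : ι} (hi : i ∈ J) :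
    (∏ r ∈ J, x r) * x i = 0 := by
  rw [← mul_prod_erase J x hi, mul_right_comm, hx, zero_mul]

theorem prod_mul_sum_self (hx : ∀ i, x i * x i = 0) (J : Finset ι) :
    (∏ r ∈ J, x r) * ∑ r ∈ J, x r = 0 := by
  rw [mul_sum]
  exact sum_eq_zero fun i hi => prod_mul_eq_zero hx hi

theorem add_pow_succ_of_sq_zero {z y : A} (hy : y * y = 0) (k : ℕ) :
    (y + z) ^ (k + 1) = z ^ (k + 1) + ((k + 1 : ℕ) : A) * (y * z ^ k) := by
  induction k with
  | zero => simp [add_comm]
  | succ k ih =>
    rw [pow_succ, ih]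
    push_cast
    linear_combination ((k : A) + 1) * z ^ k * hy

theorem sum_pow_card (hx : ∀ i, x i * x i = 0) (G : Finset ι) :
    (∑ r ∈ G, x r) ^ G.card = (G.card.factorial : A) * ∏ r ∈ G, x r := by
  induction G using Finset.induction_on with
  | empty => simp
  | insert i G hi ih =>
    rw [card_insert_of_notMem hi, sum_insert hi, prod_insert hi, add_pow_succ_of_sq_zero (hx i),
      pow_succ, ih, mul_assoc, prod_mul_sum_self hx, Nat.factorial_succ]
    push_cast
    ring

theorem sum_pow_eq_zero (hx : ∀ i, x i * x i = 0) (G : Finset ι) {e : ℕ} (he : G.card < e) :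
    (∑ r ∈ G, x r) ^ e = 0 := by
  obtain ⟨k, rfl⟩ := Nat.exists_eq_add_of_lt he
  rw [add_assoc, add_comm k 1, ← add_assoc, pow_add, pow_succ, sum_pow_card hx,
    mul_assoc (G.card.factorial : A), prod_mul_sum_self hx]
  simp

theorem prod_mul_sum_pow (hx : ∀ i, x i * x i = 0) {J G : Finset ι} (h : J ⊆ G) (e : ℕ) :
    (∏ r ∈ J, x r) * (∑ r ∈ G, x r) ^ e = (∏ r ∈ J, x r) * (∑ r ∈ G \ J, x r) ^ e := by
  apply mul_pow_congr
  rw [← sum_sdiff h, mul_add, prod_mul_sum_self hx, add_zero]

theorem prod_mul_sum_pow_eq (hx : ∀ i, x i * x i = 0) {J G : Finset ι} (h : J ⊆ G) {e : ℕ}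
    (he : J.card + e = G.card) :
    (∏ r ∈ J, x r) * (∑ r ∈ G, x r) ^ e = (e.factorial : A) * ∏ r ∈ G, x r := by
  have h1 : (G \ J).card = e := by
    rw [card_sdiff_of_subset h]; omega
  rw [prod_mul_sum_pow hx h, ← h1, sum_pow_card hx, ← prod_sdiff h]
  ring

theorem prod_mul_sum_pow_eq_zero (hx : ∀ i, x i * x i = 0) {J G : Finset ι} (h : J ⊆ G) {e : ℕ}
    (he : G.card < J.card + e) :
    (∏ r ∈ J, x r) * (∑ r ∈ G, x r) ^ e = 0 := by
  have h1 : (G \ J).card < e := by
    have := card_le_card h
    rw [card_sdiff_of_subset h]; omega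
  rw [prod_mul_sum_pow hx h, sum_pow_eq_zero hx _ h1, mul_zero]

end

section

variable {S A : Type*} [CommRing S] [CommRing A] [Algebra S A]

theorem prod_sum_smul_eq_permanent {n : Type*} [Fintype n] [DecidableEq n] (M : Matrix n n S)
    {x : n → A} (hx : ∀ i, x i * x i = 0) :
    ∏ c, ∑ r, M r c • x r = M.permanent • ∏ r, x r := by
  rw [prod_univ_sum, Fintype.piFinset_univ]
  have h1 : ∑ p : n → n, ∏ c, M (p c) c • x (p c) =
      ∑ p : n → n with Function.Bijective p, ∏ c, M (p c) c • x (p c) := by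
    refine (sum_subset (filter_subset _ _) fun p _ hp => ?_).symm
    have hp' : ¬ Function.Injective p := by
      intro h
      exact hp (mem_filter.mpr ⟨mem_univ _, Finite.injective_iff_bijective.mp h⟩)
    obtain ⟨a, b, hab, hne⟩ : ∃ a b, p a = p b ∧ a ≠ b := by
      by_contra hcon
      push Not at hcon
      exact hp' fun a b hab => hcon a b hab
    rw [prod_smul, ← mul_prod_erase univ (fun c => x (p c)) (mem_univ a),
      ← mul_prod_erase _ (fun c => x (p c)) (mem_erase.mpr ⟨hne.symm, mem_univ b⟩),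
      ← mul_assoc, hab, hx, zero_mul, smul_zero]
  rw [h1, Matrix.permanent, sum_smul]
  refine sum_bij (fun p h => Equiv.ofBijective p (mem_filter.1 h).2) (fun _ _ => mem_univ _)
    (fun _ _ _ _ h => by injection h)
    (fun b _ => ⟨b, mem_filter.2 ⟨mem_univ _, b.bijective⟩, DFunLike.coe_injective rfl⟩) ?_
  intro p hp
  rw [prod_smul]
  congr 1
  exact (Equiv.ofBijective p (mem_filter.1 hp).2).prod_comp x

/-- The indicator exponent vector of a finite set. -/
noncomputable def ind {ι : Type*} (J : Finset ι) : ι →₀ ℕ := ∑ i ∈ J, Finsupp.single i 1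

theorem ind_apply {ι : Type*} [DecidableEq ι] (J : Finset ι) (i : ι) :
    ind J i = if i ∈ J then 1 else 0 := by
  simp [ind, Finsupp.finsetSum_apply, Finsupp.single_apply]

theorem coeff_ind_mul_X {ι : Type*} [DecidableEq ι] (J : Finset ι) (i : ι)
    (P : MvPolynomial ι S) :
    MvPolynomial.coeff (ind J) (P * MvPolynomial.X i) =
      if i ∈ J then MvPolynomial.coeff (ind (J.erase i)) P else 0 := by
  rw [MvPolynomial.coeff_mul_X']
  by_cases hi : i ∈ J
  · have h1 : i ∈ (ind J).support := by simp [ind_apply, hi]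
    rw [if_pos h1, if_pos hi]
    congr 1
    ext k
    by_cases hk : k = i
    · subst hk; simp [ind_apply, hi]
    · simp [ind_apply, hk]
  · have h1 : i ∉ (ind J).support := by simp [ind_apply, hi]
    rw [if_neg h1, if_neg hi]

/-- The sum over the matchings of the rows `J` into the columns `T` of the product of entries. -/
noncomputable def Pm {ι κ : Type*} [Fintype ι] (w : ι → κ → S) (T : Finset κ) (J : Finset ι) :
    S :=
  MvPolynomial.coeff (ind J)
    (∏ j ∈ T, (1 + ∑ i, MvPolynomial.C (w i j) * MvPolynomial.X i : MvPolynomial ι S))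

variable {ι κ : Type*} [Fintype ι] [DecidableEq ι] [DecidableEq κ]

omit [DecidableEq κ] in
theorem Pm_empty (w : ι → κ → S) (J : Finset ι) : Pm w ∅ J = if J = ∅ then 1 else 0 := by
  rw [Pm, prod_empty, MvPolynomial.coeff_one]
  by_cases hJ : J = ∅
  · subst hJ; simp [ind]
  · rw [if_neg hJ, if_neg]
    intro h
    obtain ⟨i, hi⟩ := nonempty_iff_ne_empty.mpr hJ
    have := congrArg (fun f : ι →₀ ℕ => f i) h
    simp [ind_apply, hi] at this

theorem Pm_insert (w : ι → κ → S) {T : Finset κ} {j : κ} (hj : j ∉ T) (J : Finset ι) :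
    Pm w (insert j T) J = Pm w T J + ∑ i ∈ J, w i j * Pm w T (J.erase i) := by
  rw [Pm, prod_insert hj, mul_comm, mul_add, mul_one, MvPolynomial.coeff_add, mul_sum,
    MvPolynomial.coeff_sum]
  congr 1
  rw [← sum_filter_add_sum_filter_not univ (fun i => i ∈ J)]
  have e1 : filter (fun i => i ∈ J) univ = J := by ext; simp
  rw [e1, sum_eq_zero (s := filter (fun i => ¬ i ∈ J) univ), add_zero]
  · refine sum_congr rfl fun i hi => ?_
    rw [mul_left_comm, MvPolynomial.coeff_C_mul, coeff_ind_mul_X, if_pos hi]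
    rfl
  · intro i hi
    rw [mul_left_comm, MvPolynomial.coeff_C_mul, coeff_ind_mul_X, if_neg (mem_filter.mp hi).2,
      mul_zero]

theorem Pm_empty_right (w : ι → κ → S) (T : Finset κ) : Pm w T ∅ = 1 := by
  induction T using Finset.induction_on with
  | empty => simp [Pm_empty]
  | insert j T hj ih => simp [Pm_insert w hj, ih]

theorem Pm_eq_zero (w : ι → κ → S) (T : Finset κ) (J : Finset ι) (h : T.card < J.card) :
    Pm w T J = 0 := by
  induction T using Finset.induction_on generalizing J with
  | empty =>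
    rw [Pm_empty, if_neg]
    rintro rfl
    simp at h
  | insert j T hj ih =>
    rw [card_insert_of_notMem hj] at h
    rw [Pm_insert w hj, ih J (by omega), zero_add]
    refine sum_eq_zero fun i hi => ?_
    rw [ih _ (by rw [card_erase_of_mem hi]; omega), mul_zero]

theorem Pm_isHomogeneous {σ L : Type*} [CommRing L] (w : ι → κ → MvPolynomial σ L)
    (hw : ∀ i j, (w i j).IsHomogeneous 1) (T : Finset κ) (J : Finset ι) :
    (Pm w T J).IsHomogeneous J.card := by
  induction T using Finset.induction_on generalizing J with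
  | empty =>
    rw [Pm_empty]
    split_ifs with h
    · subst h; exact MvPolynomial.isHomogeneous_one _ _
    · exact MvPolynomial.isHomogeneous_zero _ _ _
  | insert j T hj ih =>
    rw [Pm_insert w hj]
    refine (ih J).add (MvPolynomial.IsHomogeneous.sum _ _ _ fun i hi => ?_)
    have := (hw i j).mul (ih (J.erase i))
    rwa [card_erase_of_mem hi, show 1 + (J.card - 1) = J.card by
      have := card_pos.mpr ⟨i, hi⟩; omega] at this

theorem sum_sum_insert {M : Type*} [AddCommMonoid M] (F : Finset ι → ι → M) :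
    ∑ J : Finset ι, ∑ i ∈ J, F (J.erase i) i = ∑ J : Finset ι, ∑ i with i ∉ J, F J i := by
  rw [sum_comm' (t' := univ) (s' := fun i => filter (fun J => i ∈ J) univ) (by simp),
    sum_comm' (s := univ) (t := fun J => filter (fun i => i ∉ J) univ) (t' := univ)
      (s' := fun i => filter (fun J => i ∉ J) univ) (by simp)]
  refine sum_congr rfl fun i _ => ?_
  refine sum_nbij' (fun J => J.erase i) (fun J => insert i J) ?_ ?_ ?_ ?_ ?_
  · intro J _; simp
  · intro J _; simp
  · intro J hJ; exact insert_erase (by simpa using hJ)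
  · intro J hJ; exact erase_insert (by simpa using hJ)
  · intro J _; rfl

theorem prod_expand (w : ι → κ → S) {x : ι → A} (hx : ∀ i, x i * x i = 0) (y : A)
    (T : Finset κ) :
    ∏ j ∈ T, (y + ∑ i, w i j • x i) =
      ∑ J : Finset ι, Pm w T J • ((∏ r ∈ J, x r) * y ^ (T.card - J.card)) := by
  induction T using Finset.induction_on with
  | empty =>
    rw [prod_empty, sum_eq_single ∅]
    · simp [Pm_empty]
    · intro J _ hJ; simp [Pm_empty, hJ]
    · simp
  | insert j T hj ih =>
    rw [prod_insert hj, ih, card_insert_of_notMem hj, add_mul, mul_sum, mul_sum]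
    simp_rw [Pm_insert w hj, add_smul]
    rw [sum_add_distrib]
    congr 1
    · refine sum_congr rfl fun J _ => ?_
      by_cases h : T.card < J.card
      · simp [Pm_eq_zero w T J h]
      · rw [show T.card + 1 - J.card = (T.card - J.card) + 1 by omega, mul_smul_comm, pow_succ]
        congr 1
        ring
    · have h1 := sum_sum_insert (fun (J : Finset ι) (i : ι) =>
        (w i j * Pm w T J) • (x i * (∏ r ∈ J, x r) * y ^ (T.card - J.card)))
      have h2 : ∑ J : Finset ι, (∑ i ∈ J, w i j * Pm w T (J.erase i)) •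
          ((∏ r ∈ J, x r) * y ^ (T.card + 1 - J.card)) =
          ∑ J : Finset ι, ∑ i ∈ J, (w i j * Pm w T (J.erase i)) •
            (x i * (∏ r ∈ J.erase i, x r) * y ^ (T.card - (J.erase i).card)) := by
        refine sum_congr rfl fun J _ => ?_
        rw [sum_smul]
        refine sum_congr rfl fun i hi => ?_
        rw [mul_prod_erase J x hi, card_erase_of_mem hi,
          show T.card - (J.card - 1) = T.card + 1 - J.card by
            have := card_pos.mpr ⟨i, hi⟩; omega]
      rw [h2, h1]
      refine sum_congr rfl fun J _ => ?_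
      rw [sum_mul, sum_filter]
      refine sum_congr rfl fun i _ => ?_
      split_ifs with hi
      · rw [smul_mul_smul_comm, ← mul_assoc, mul_comm (x i), prod_mul_eq_zero hx hi]
        simp
      · rw [smul_mul_smul_comm, mul_assoc]

omit [Fintype ι] in
theorem Pm_erase_eq {Q : Type*} [CommRing Q] (P P' : Finset ι → Q) (w : ι → Q)
    (hrec : ∀ J, P J = P' J + ∑ i ∈ J, w i * P' (J.erase i))
    (hP : ∀ J, J.Nonempty → P J = 0) (h0 : P' ∅ = 1) (J : Finset ι) :
    P' J = (-1) ^ J.card * (J.card.factorial : Q) * ∏ i ∈ J, w i := by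
  induction J using Finset.strongInduction with
  | H J ih =>
    rcases J.eq_empty_or_nonempty with rfl | hJ
    · simp [h0]
    have h1 := hrec J
    rw [hP J hJ] at h1
    obtain ⟨k, hk⟩ : ∃ k, J.card = k + 1 := Nat.exists_eq_succ_of_ne_zero hJ.card_pos.ne'
    have h2 : ∑ i ∈ J, w i * P' (J.erase i) =
        ∑ _i ∈ J, (-1) ^ k * (k.factorial : Q) * ∏ i ∈ J, w i := by
      refine sum_congr rfl fun i hi => ?_
      rw [ih _ (erase_ssubset hi), card_erase_of_mem hi, hk, Nat.add_sub_cancel,
        ← mul_prod_erase J w hi]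
      ring
    rw [h2, sum_const, hk, nsmul_eq_mul] at h1
    rw [hk, Nat.factorial_succ]
    push_cast at h1 ⊢
    linear_combination -h1

omit [Fintype ι] in
theorem esymm_erase_eq {Q : Type*} [CommRing Q] (w : ι → Q) (G : Finset ι) {i : ι} (hi : i ∈ G)
    (D : ℕ) (h : ∀ ρ, 1 ≤ ρ → ρ ≤ D → ∑ J ∈ powersetCard ρ G, ∏ r ∈ J, w r = 0) (ρ : ℕ)
    (hρ : ρ ≤ D) : ∑ J ∈ powersetCard ρ (G.erase i), ∏ r ∈ J, w r = (-w i) ^ ρ := by
  induction ρ with
  | zero => simp
  | succ ρ ih =>
    have h1 := h (ρ + 1) (by omega) hρ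
    rw [← insert_erase hi, powersetCard_succ_insert (notMem_erase i G), sum_union, sum_image]
      at h1
    · have h2 : ∑ J ∈ powersetCard ρ (G.erase i), ∏ r ∈ insert i J, w r =
          w i * ∑ J ∈ powersetCard ρ (G.erase i), ∏ r ∈ J, w r := by
        rw [mul_sum]
        refine sum_congr rfl fun J hJ => ?_
        rw [prod_insert]
        intro hiJ
        exact notMem_erase i G ((mem_powersetCard.mp hJ).1 hiJ)
      rw [h2, ih (by omega)] at h1
      rw [pow_succ]
      linear_combination h1
    · intro J hJ J' hJ' hJJ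
      have h3 : i ∉ J := fun hiJ => notMem_erase i G ((mem_powersetCard.mp hJ).1 hiJ)
      have h4 : i ∉ J' := fun hiJ => notMem_erase i G ((mem_powersetCard.mp hJ').1 hiJ)
      rw [← erase_insert h3, ← erase_insert h4]
      exact congrArg (fun t => Finset.erase t i) hJJ
    · rw [disjoint_left]
      intro J hJ hJ'
      obtain ⟨J', _, rfl⟩ := mem_image.mp hJ'
      exact notMem_erase i G ((mem_powersetCard.mp hJ).1 (mem_insert_self _ _))

end

end Pool.Agent.Lib.MP_8b1d3b_lc
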