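import Mathlib
import Pool.Agent.Lib.MP_8b1d3b_lc.SqZero

set_option autoImplicit false

namespace Pool.Agent.Lib.MP_8b1d3b_lc

open Finset

/-- The matrix substituted into the permanent. -/
def Mx {S β α Φ δ γ ν : Type*} [CommRing S] [DecidableEq β] (u : β × α → γ → S) (lam : δ → S) :
    (β × α) ⊕ δ ⊕ ν → γ ⊕ (β × Φ) ⊕ (β × δ) → S
  | Sum.inl bi, Sum.inl j => u bi j
  | Sum.inl bi, Sum.inr (Sum.inl c) => if bi.1 = c.1 then 1 else 0
  | Sum.inl bi, Sum.inr (Sum.inr c) => if bi.1 = c.1 then 1 else 0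
  | Sum.inr (Sum.inl _), Sum.inl _ => 0
  | Sum.inr (Sum.inl _), Sum.inr (Sum.inl _) => 0
  | Sum.inr (Sum.inl _), Sum.inr (Sum.inr c) => -lam c.2
  | Sum.inr (Sum.inr _), Sum.inl _ => 1
  | Sum.inr (Sum.inr _), Sum.inr _ => 0

section

variable {S A : Type*} [CommRing S] [CommRing A] [Algebra S A]
variable {β α Φ δ γ ν : Type*} [Fintype β] [Fintype α] [Fintype Φ] [Fintype δ] [Fintype γ]
  [Fintype ν] [DecidableEq β] [DecidableEq α] [DecidableEq Φ] [DecidableEq δ] [DecidableEq γ]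
  [DecidableEq ν]

omit [Fintype Φ] [Fintype γ] [DecidableEq α] [DecidableEq Φ] [DecidableEq δ] [DecidableEq γ]
  [DecidableEq ν] in
theorem col_inl (u : β × α → γ → S) (lam : δ → S) (x : (β × α) ⊕ δ ⊕ ν → A) (j : γ) :
    ∑ r, (Mx (Φ := Φ) u lam r (Sum.inl j)) • x r =
      ∑ t, x (Sum.inr (Sum.inr t)) + ∑ bi, u bi j • x (Sum.inl bi) := by
  simp [Fintype.sum_sum_type, Mx, add_comm]

omit [Fintype Φ] [Fintype γ] [DecidableEq α] [DecidableEq Φ] [DecidableEq δ] [DecidableEq γ]
  [DecidableEq ν] in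
theorem col_filler (u : β × α → γ → S) (lam : δ → S) (x : (β × α) ⊕ δ ⊕ ν → A) (c : β × Φ) :
    ∑ r, (Mx u lam r (Sum.inr (Sum.inl c))) • x r = ∑ i, x (Sum.inl (c.1, i)) := by
  simp only [Fintype.sum_sum_type, Mx, zero_smul, sum_const_zero, add_zero,
    Fintype.sum_prod_type, ite_smul, one_smul]
  rw [sum_comm]
  simp

omit [Fintype Φ] [Fintype γ] [DecidableEq α] [DecidableEq Φ] [DecidableEq δ] [DecidableEq γ]
  [DecidableEq ν] in
theorem col_gadget (u : β × α → γ → S) (lam : δ → S) (x : (β × α) ⊕ δ ⊕ ν → A) (c : β × δ) :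
    ∑ r, (Mx (Φ := Φ) u lam r (Sum.inr (Sum.inr c))) • x r =
      ∑ i, x (Sum.inl (c.1, i)) - lam c.2 • ∑ s, x (Sum.inr (Sum.inl s)) := by
  simp only [Fintype.sum_sum_type, Mx, zero_smul, sum_const_zero, add_zero,
    Fintype.sum_prod_type, ite_smul, one_smul]
  rw [sum_comm, smul_sum, sub_eq_add_neg, ← sum_neg_distrib]
  simp

omit [DecidableEq Φ] in
theorem gadget_identity (u : β × α → γ → S) (lam : δ → S) {D : ℕ}
    (hδ : Fintype.card δ = D + 1) (hα : Fintype.card α = Fintype.card Φ + (D + 1))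
    (hγ : Fintype.card γ = Fintype.card ν + (D + 1))
    (hlam : ∀ z z0 : A, ∏ s, (z - lam s • z0) = z ^ (D + 1) - z0 ^ (D + 1))
    {x : (β × α) ⊕ δ ⊕ ν → A} (hx : ∀ r, x r * x r = 0) (b0 : β) (i0 : α) (j0 : γ) :
    x (Sum.inl (b0, i0)) *
      ((∏ j ∈ univ.erase j0, ∑ r, (Mx (Φ := Φ) u lam r (Sum.inl j)) • x r) *
        ∏ c : (β × Φ) ⊕ (β × δ), ∑ r, (Mx u lam r (Sum.inr c)) • x r) =
    (-(((D + 1).factorial * (Fintype.card Φ).factorial * (Fintype.card ν).factorial *
        (Fintype.card α).factorial ^ (Fintype.card β - 1) : ℕ) : S) *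
      ∑ J ∈ powersetCard D (univ.erase i0),
        Pm (fun i j => u (b0, i) j) (univ.erase j0) J) • ∏ r, x r := by
  set a' := Fintype.card Φ with ha'
  set n' := Fintype.card ν with hn'
  set a := Fintype.card α with ha
  set X0 := x (Sum.inl (b0, i0)) with hX0
  set z : β → A := fun b => ∑ i, x (Sum.inl (b, i)) with hz
  set z0 : A := ∑ s, x (Sum.inr (Sum.inl s)) with hz0
  set y : A := ∑ t, x (Sum.inr (Sum.inr t)) with hy
  set xb : β → A := fun b => ∏ i, x (Sum.inl (b, i)) with hxb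
  set O : A := ∏ b ∈ univ.erase b0, xb b with hO
  set T := (univ : Finset γ).erase j0 with hT
  have hTc : T.card = n' + D := by
    rw [hT, card_erase_of_mem (mem_univ _), card_univ, hγ]; omega
  have hxb' : ∀ b i, x (Sum.inl (b, i)) * x (Sum.inl (b, i)) = 0 := fun b i => hx _
  have e1 : ∏ c : (β × Φ) ⊕ (β × δ), ∑ r, (Mx u lam r (Sum.inr c)) • x r =
      ∏ b, (z b ^ a' * (z b ^ (D + 1) - z0 ^ (D + 1))) := by
    rw [Fintype.prod_sum_type, prod_mul_distrib, Fintype.prod_prod_type, Fintype.prod_prod_type]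
    congr 1
    · refine prod_congr rfl fun b _ => ?_
      simp_rw [col_filler]
      rw [prod_const, card_univ]
    · refine prod_congr rfl fun b _ => ?_
      simp_rw [col_gadget]
      exact hlam _ _
  have s1 : X0 * z b0 ^ a = 0 := by
    have := prod_mul_sum_pow_eq_zero (x := fun i => x (Sum.inl (b0, i))) (hxb' b0)
      (J := {i0}) (G := univ) (subset_univ _) (e := a) (by simp [ha])
    simpa using this
  have s2 : z0 ^ (D + 1) * z0 ^ (D + 1) = 0 := by
    rw [← pow_add]
    exact sum_pow_eq_zero (x := fun s => x (Sum.inr (Sum.inl s))) (fun s => hx _) univ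
      (by rw [card_univ, hδ]; omega)
  have s2' : z0 ^ (D + 1) = ((D + 1).factorial : A) * ∏ s, x (Sum.inr (Sum.inl s)) := by
    have := sum_pow_card (x := fun s => x (Sum.inr (Sum.inl s))) (fun s => hx _) univ
    rwa [card_univ, hδ] at this
  have s3 : z0 ^ (D + 1) * ∏ b ∈ univ.erase b0, (z b ^ a' * (z b ^ (D + 1) - z0 ^ (D + 1))) =
      z0 ^ (D + 1) * (((a.factorial : A)) ^ (Fintype.card β - 1) * O) := by
    rw [mul_prod_congr (β := fun b => (a.factorial : A) * xb b), prod_mul_distrib, prod_const,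
      card_erase_of_mem (mem_univ _), card_univ]
    intro b _
    have h1 := sum_pow_card (x := fun i => x (Sum.inl (b, i))) (hxb' b) univ
    rw [card_univ] at h1
    have h2 : z b ^ a = z b ^ a' * z b ^ (D + 1) := by rw [hα, pow_add]
    change z b ^ a = (a.factorial : A) * xb b at h1
    rw [← h1, h2]
    linear_combination (-z b ^ a') * s2
  have s4 : O * ∏ j ∈ T, ∑ r, (Mx (Φ := Φ) u lam r (Sum.inl j)) • x r =
      O * ∏ j ∈ T, (y + ∑ i, u (b0, i) j • x (Sum.inl (b0, i))) := by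
    apply mul_prod_congr
    intro j _
    rw [col_inl, mul_add, mul_add, Fintype.sum_prod_type,
      ← add_sum_erase _ _ (mem_univ b0), mul_add]
    congr 1
    rw [add_eq_left, mul_sum]
    refine sum_eq_zero fun b hb => ?_
    rw [mul_sum]
    refine sum_eq_zero fun i _ => ?_
    rw [mul_smul_comm, hO, ← mul_prod_erase _ _ hb, mul_right_comm]
    have := prod_mul_eq_zero (x := fun i => x (Sum.inl (b, i))) (hxb' b) (mem_univ i)
    change xb b * x (Sum.inl (b, i)) = 0 at this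
    rw [this, zero_mul, smul_zero]
  have s5 : ∀ J : Finset α, X0 * z b0 ^ a' *
      ((∏ r ∈ J, x (Sum.inl (b0, r))) * y ^ (T.card - J.card)) =
      if J ∈ powersetCard D (univ.erase i0) then
        ((a'.factorial : A) * xb b0) * ((n'.factorial : A) * ∏ t, x (Sum.inr (Sum.inr t)))
      else 0 := by
    intro J
    by_cases hi : i0 ∈ J
    · rw [if_neg fun h => notMem_erase i0 univ ((mem_powersetCard.mp h).1 hi)]
      have := prod_mul_eq_zero (x := fun i => x (Sum.inl (b0, i))) (hxb' b0) hi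
      linear_combination (z b0 ^ a' * y ^ (T.card - J.card)) * this
    have hins : X0 * ∏ r ∈ J, x (Sum.inl (b0, r)) = ∏ r ∈ insert i0 J, x (Sum.inl (b0, r)) := by
      rw [prod_insert hi]
    have hre : X0 * z b0 ^ a' * ((∏ r ∈ J, x (Sum.inl (b0, r))) * y ^ (T.card - J.card)) =
        ((∏ r ∈ insert i0 J, x (Sum.inl (b0, r))) * z b0 ^ a') * y ^ (T.card - J.card) := by
      rw [← hins]; ring
    rw [hre]
    rcases lt_trichotomy J.card D with h | h | h
    · rw [if_neg fun h' => h.ne (mem_powersetCard.mp h').2]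
      have := sum_pow_eq_zero (x := fun t => x (Sum.inr (Sum.inr t))) (fun t => hx _) univ
        (e := T.card - J.card) (by rw [card_univ, hTc]; omega)
      change y ^ (T.card - J.card) = 0 at this
      rw [this, mul_zero]
    · rw [if_pos (mem_powersetCard.mpr ⟨fun r hr => mem_erase.mpr
        ⟨fun h' : r = i0 => hi (h' ▸ hr), mem_univ _⟩, h⟩)]
      have h1 := prod_mul_sum_pow_eq (x := fun i => x (Sum.inl (b0, i))) (hxb' b0)
        (J := insert i0 J) (G := univ) (subset_univ _) (e := a')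
        (by rw [card_insert_of_notMem hi, card_univ, ← ha, hα]; omega)
      have h2 := sum_pow_card (x := fun t => x (Sum.inr (Sum.inr t))) (fun t => hx _) univ
      rw [card_univ] at h2
      rw [show T.card - J.card = n' by omega]
      exact congrArg₂ (· * ·) h1 h2
    · rw [if_neg fun h' => h.ne' (mem_powersetCard.mp h').2]
      have h1 := prod_mul_sum_pow_eq_zero (x := fun i => x (Sum.inl (b0, i))) (hxb' b0)
        (J := insert i0 J) (G := univ) (subset_univ _) (e := a')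
        (by rw [card_insert_of_notMem hi, card_univ, ← ha, hα]; omega)
      change _ * z b0 ^ a' = 0 at h1
      rw [h1, zero_mul]
  have s6 : ∏ r, x r = xb b0 * O * ((∏ s, x (Sum.inr (Sum.inl s))) *
      ∏ t, x (Sum.inr (Sum.inr t))) := by
    rw [Fintype.prod_sum_type, Fintype.prod_sum_type, Fintype.prod_prod_type,
      ← mul_prod_erase _ _ (mem_univ b0)]
  have s7 : X0 * z b0 ^ a' * ∏ j ∈ T, (y + ∑ i, u (b0, i) j • x (Sum.inl (b0, i))) =
      (∑ J ∈ powersetCard D (univ.erase i0), Pm (fun i j => u (b0, i) j) T J) •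
        (((a'.factorial : A) * xb b0) *
          ((n'.factorial : A) * ∏ t, x (Sum.inr (Sum.inr t)))) := by
    rw [prod_expand (fun i j => u (b0, i) j) (x := fun i => x (Sum.inl (b0, i))) (hxb' b0) y T,
      mul_sum, sum_smul]
    simp_rw [mul_smul_comm, s5, smul_ite, smul_zero]
    rw [← sum_filter]
    congr 1
    ext J
    simp
  rw [e1, ← mul_prod_erase _ _ (mem_univ b0), s6]
  set P := ∏ j ∈ T, ∑ r, (Mx (Φ := Φ) u lam r (Sum.inl j)) • x r
  set Q := ∏ j ∈ T, (y + ∑ i, u (b0, i) j • x (Sum.inl (b0, i)))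
  set H := ∏ b ∈ univ.erase b0, (z b ^ a' * (z b ^ (D + 1) - z0 ^ (D + 1)))
  have h2 : z b0 ^ a = z b0 ^ a' * z b0 ^ (D + 1) := by rw [hα, pow_add]
  rw [h2] at s1
  have s8 : X0 * (P * (z b0 ^ a' * (z b0 ^ (D + 1) - z0 ^ (D + 1)) * H)) =
      -((a.factorial : A) ^ (Fintype.card β - 1) * z0 ^ (D + 1) * O) *
        (X0 * z b0 ^ a' * Q) := by
    linear_combination (P * H) * s1 - (X0 * P * z b0 ^ a') * s3 -
      (X0 * z b0 ^ a' * z0 ^ (D + 1) * (a.factorial : A) ^ (Fintype.card β - 1)) * s4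
  rw [s8, s7, s2', Algebra.smul_def, Algebra.smul_def]
  simp only [map_mul, map_neg, map_natCast]
  push_cast
  ring

end

end Pool.Agent.Lib.MP_8b1d3b_lc
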