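import Mathlib
import Pool.Agent.Lib.MP_8b1d3b_lc.Gadget

set_option autoImplicit false

namespace Pool.Agent.Lib.MP_8b1d3b_lc

open Finset MvPolynomial

theorem exists_faithful_sqzero (S : Type*) [CommRing S] (ι : Type*) [Fintype ι] [DecidableEq ι] :
    ∃ I : Ideal (MvPolynomial ι S),
      (∀ r, Ideal.Quotient.mk I (X r) * Ideal.Quotient.mk I (X r) = 0) ∧
      ∀ s : S, s • ∏ r, Ideal.Quotient.mk I (X r) = 0 → s = 0 := by
  refine ⟨Ideal.span (Set.range fun r => X r * X r), fun r => ?_, fun s hs => ?_⟩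
  · rw [← map_mul, Ideal.Quotient.eq_zero_iff_mem]
    exact Ideal.subset_span ⟨r, rfl⟩
  have h1 : ∀ p ∈ Ideal.span (Set.range fun r : ι => (X r * X r : MvPolynomial ι S)),
      ∀ q, coeff (ind univ) (q * p) = 0 := by
    intro p hp
    induction hp using Submodule.span_induction with
    | mem p hp =>
      obtain ⟨r, rfl⟩ := hp
      intro q
      rw [← mul_assoc, coeff_ind_mul_X, if_pos (mem_univ r), coeff_ind_mul_X,
        if_neg (notMem_erase r univ)]
    | zero => simp
    | add p p' _ _ hp hp' => intro q; rw [mul_add, coeff_add, hp, hp', add_zero]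
    | smul a p _ hp => intro q; rw [smul_eq_mul, ← mul_assoc, hp]
  have h2 : ∀ J : Finset ι, coeff (ind J) (∏ r ∈ J, X r : MvPolynomial ι S) = 1 := by
    intro J
    induction J using Finset.induction_on with
    | empty => simp [ind]
    | insert i J hi ih =>
      rw [prod_insert hi, mul_comm, coeff_ind_mul_X, if_pos (mem_insert_self _ _),
        erase_insert hi, ih]
  rw [← map_prod, ← Ideal.Quotient.mkₐ_eq_mk S, ← map_smul, Ideal.Quotient.mkₐ_eq_mk,
    Ideal.Quotient.eq_zero_iff_mem] at hs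
  have h3 := h1 _ hs 1
  rwa [one_mul, coeff_smul, h2, smul_eq_mul, mul_one] at h3

theorem prod_sub_root {L A : Type*} [Field L] [CommRing A] (f : L →+* A) {d : ℕ} (hd : 0 < d)
    {ζ : L} (hζ : IsPrimitiveRoot ζ d) (z z0 : A) :
    ∏ s : Fin d, (z - f (ζ ^ (s : ℕ)) * z0) = z ^ d - z0 ^ d := by
  have h1 : IsPrimitiveRoot (Polynomial.C ζ : Polynomial L) d :=
    hζ.map_of_injective Polynomial.C_injective
  have h2 := X_pow_sub_C_eq_prod h1 (α := Polynomial.X) hd rfl
  have h3 := congrArg (Polynomial.eval₂RingHom (Polynomial.eval₂RingHom f z0) z) h2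
  rw [map_prod] at h3
  rw [Fin.prod_univ_eq_prod_range (fun s => z - f (ζ ^ s) * z0) d]
  simp only [map_sub, map_pow, Polynomial.coe_eval₂RingHom, Polynomial.eval₂_X,
    Polynomial.eval₂_C, Polynomial.eval₂_pow, Polynomial.eval₂_mul] at h3
  simpa using h3.symm

theorem aeval_pderiv_permanent {L S : Type*} [CommRing L] [CommRing S] [Algebra L S]
    {n : Type*} [Fintype n] [DecidableEq n] (M : Matrix n n S) (r c : n) :
    aeval (fun v : n × n => M v.1 v.2) (pderiv (r, c)
      (Matrix.permanent (Matrix.of fun i j : n => (X (i, j) : MvPolynomial (n × n) L)))) =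
    (M.updateCol c (Pi.single r 1)).permanent := by
  simp only [Matrix.permanent, map_sum]
  refine sum_congr rfl fun σ _ => ?_
  have h0 : ∀ s : Finset n, c ∉ s →
      pderiv (r, c) (∏ i ∈ s, (X (σ i, i) : MvPolynomial (n × n) L)) = 0 := by
    intro s
    induction s using Finset.induction_on with
    | empty => simp
    | insert i s hi ih =>
      intro hc
      rw [prod_insert hi, Derivation.leibniz, ih fun h => hc (mem_insert_of_mem h),
        pderiv_X_of_ne, smul_zero, smul_zero, add_zero]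
      intro h
      exact hc ((Prod.mk.inj h).2 ▸ mem_insert_self _ _)
  rw [← mul_prod_erase _ _ (mem_univ c), ← mul_prod_erase _ _ (mem_univ c)]
  simp only [Matrix.of_apply]
  rw [Derivation.leibniz, h0 _ (notMem_erase c univ), smul_zero, zero_add, smul_eq_mul, map_mul,
    map_prod, mul_comm, Matrix.updateCol_self]
  congr 1
  · by_cases h : σ c = r
    · subst h; simp
    · rw [pderiv_X_of_ne (fun h' => h (Prod.mk.inj h').1), map_zero, Pi.single_eq_of_ne h]
  · refine prod_congr rfl fun i hi => ?_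
    rw [Matrix.updateCol_ne (ne_of_mem_erase hi), aeval_X]

theorem minor_identity {L S : Type*} [Field L] [CommRing S] [Algebra L S]
    {β α Φ γ ν n : Type*} [Fintype β] [Fintype α] [Fintype Φ] [Fintype γ]
    [Fintype ν] [DecidableEq β] [DecidableEq α] [DecidableEq γ]
    [DecidableEq ν] [Fintype n] [DecidableEq n] {D : ℕ} {ζ : L} (hζ : IsPrimitiveRoot ζ (D + 1))
    (hα : Fintype.card α = Fintype.card Φ + (D + 1))
    (hγ : Fintype.card γ = Fintype.card ν + (D + 1))
    (eR : n ≃ (β × α) ⊕ Fin (D + 1) ⊕ ν) (eC : n ≃ γ ⊕ (β × Φ) ⊕ (β × Fin (D + 1)))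
    (u : β × α → γ → S) (b0 : β) (i0 : α) (j0 : γ) :
    Matrix.permanent ((Matrix.of fun i j : n =>
        Mx u (fun s : Fin (D + 1) => algebraMap L S (ζ ^ (s : ℕ))) (eR i) (eC j)).updateCol
        (eC.symm (Sum.inl j0)) (Pi.single (eR.symm (Sum.inl (b0, i0))) 1)) =
    -(((D + 1).factorial * (Fintype.card Φ).factorial * (Fintype.card ν).factorial *
        (Fintype.card α).factorial ^ (Fintype.card β - 1) : ℕ) : S) *
      ∑ J ∈ powersetCard D (univ.erase i0),
        Pm (fun i j => u (b0, i) j) (univ.erase j0) J := by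
  obtain ⟨I, hI1, hI2⟩ := exists_faithful_sqzero S ((β × α) ⊕ Fin (D + 1) ⊕ ν)
  set x : (β × α) ⊕ Fin (D + 1) ⊕ ν → _ := fun r => Ideal.Quotient.mk I (X r) with hx
  set lam : Fin (D + 1) → S := fun s => algebraMap L S (ζ ^ (s : ℕ)) with hlam
  have h1 := gadget_identity (Φ := Φ) u lam (by simp) hα hγ (x := x) (fun z z0 => by
    have := prod_sub_root ((algebraMap S (MvPolynomial _ S ⧸ I)).comp (algebraMap L S))
      (Nat.succ_pos D) hζ z z0
    simpa [hlam, Algebra.smul_def] using this) hI1 b0 i0 j0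
  have h2 := prod_sum_smul_eq_permanent ((Matrix.of fun i j : n =>
        Mx u lam (eR i) (eC j)).updateCol
        (eC.symm (Sum.inl j0)) (Pi.single (eR.symm (Sum.inl (b0, i0))) 1))
        (x := fun i => x (eR i)) (fun i => hI1 _)
  rw [eR.prod_comp x] at h2
  rw [← sub_eq_zero]
  apply hI2
  rw [sub_smul, sub_eq_zero]
  change _ • ∏ r, x r = _ • ∏ r, x r
  rw [← h1, ← h2, ← eC.symm.prod_comp, Fintype.prod_sum_type, ← mul_assoc,
    ← mul_prod_erase _ _ (mem_univ j0)]
  congr 1
  · congr 1
    · simp only [Matrix.updateCol_self]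
      rw [sum_eq_single (eR.symm (Sum.inl (b0, i0)))]
      · simp
      · intro r _ hr; simp [Pi.single_eq_of_ne hr]
      · simp
    · refine prod_congr rfl fun j hj => ?_
      rw [← eR.sum_comp]
      refine sum_congr rfl fun r _ => ?_
      rw [Matrix.updateCol_ne]
      · simp
      · intro h
        exact ne_of_mem_erase hj (Sum.inl.inj (eC.symm.injective h))
  · refine prod_congr rfl fun c _ => ?_
    rw [← eR.sum_comp]
    refine sum_congr rfl fun r _ => ?_
    rw [Matrix.updateCol_ne]
    · simp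
    · intro h
      exact Sum.inr_ne_inl (eC.symm.injective h)

end Pool.Agent.Lib.MP_8b1d3b_lc
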