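import Mathlib
import Pool.Agent.Lib.MP_8b1d3b_lc.Hilbert

set_option autoImplicit false

namespace Pool.Agent.Lib.MP_8b1d3b_lc

open Module Submodule

/-- `Reach s V W`: the subspace `W` is obtained from `V` by adjoining `s` products. -/
inductive Reach {K R : Type*} [Field K] [CommRing R] [Algebra K R] :
    ℕ → Submodule K R → Submodule K R → Prop
  | refl (V : Submodule K R) : Reach 0 V V
  | step {s : ℕ} {V W : Submodule K R} {p q : R} (hp : p ∈ V) (hq : q ∈ V)
      (h : Reach s (V ⊔ span K {p * q}) W) : Reach (s + 1) V W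

section

variable {K R : Type*} [Field K] [CommRing R] [Algebra K R]

theorem Reach.le {s : ℕ} {V W : Submodule K R} (h : Reach s V W) : V ≤ W := by
  induction h with
  | refl V => exact le_rfl
  | step _ _ _ ih => exact le_sup_left.trans ih

theorem Reach.snoc {s : ℕ} {V W : Submodule K R} (h : Reach s V W) {p q : R} (hp : p ∈ W)
    (hq : q ∈ W) : Reach (s + 1) V (W ⊔ span K {p * q}) := by
  induction h with
  | refl V => exact Reach.step hp hq (Reach.refl _)
  | step hp' hq' _ ih => exact Reach.step hp' hq' (ih hp hq)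

theorem Reach.fg {s : ℕ} {V W : Submodule K R} (h : Reach s V W) (hV : V.FG) : W.FG := by
  induction h with
  | refl V => exact hV
  | step _ _ _ ih => exact ih (hV.sup (Submodule.fg_span_singleton _))

theorem Reach.finrank_pow_le [IsDomain R] {s : ℕ} {V W : Submodule K R} (h : Reach s V W)
    (hV : V.FG) (h1 : (1 : R) ∈ V) (T : ℕ) :
    finrank K (W ^ T : Submodule K R) ≤ 2 ^ s * finrank K (V ^ T : Submodule K R) := by
  induction h with
  | refl V => simp
  | @step s V W p q hp hq _ ih =>
    have h2 : p * q ∈ V ^ 2 := by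
      rw [pow_two]
      exact Submodule.mul_mem_mul hp hq
    have h3 := finrank_sup_span_pow_le_mul hV h1 (by norm_num) h2 T
    refine (ih (hV.sup (Submodule.fg_span_singleton _)) (Submodule.mem_sup_left h1)).trans ?_
    rw [pow_succ, mul_assoc]
    exact Nat.mul_le_mul_left _ h3

theorem Reach.map {R' : Type*} [CommRing R'] [Algebra K R'] (φ : R →ₐ[K] R') {s : ℕ}
    {V W : Submodule K R} (h : Reach s V W) {V' : Submodule K R'} (hV : ∀ x ∈ V, φ x ∈ V') :
    ∃ W' : Submodule K R', Reach s V' W' ∧ ∀ x ∈ W, φ x ∈ W' := by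
  induction h generalizing V' with
  | refl V => exact ⟨V', Reach.refl _, hV⟩
  | @step s V W p q hp hq _ ih =>
    obtain ⟨W', h1, h2⟩ := ih (V' := V' ⊔ span K {φ p * φ q}) (by
      intro x hx
      obtain ⟨y, hy, z, hz, rfl⟩ := Submodule.mem_sup.mp hx
      obtain ⟨c, rfl⟩ := Submodule.mem_span_singleton.mp hz
      rw [map_add, map_smul, map_mul]
      exact Submodule.add_mem_sup (hV y hy)
        (Submodule.smul_mem _ _ (Submodule.mem_span_singleton_self _)))
    exact ⟨W', Reach.step (hV p hp) (hV q hq) h1, h2⟩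

/-- The span of the formal differentials `w * dv`. -/
def diffSpan (W V : Submodule K R) : Submodule K (Derivation K R R → R) :=
  span K {F | ∃ w ∈ W, ∃ v ∈ V, F = fun D : Derivation K R R => w * D v}

theorem diffSpan_mono {W W' V : Submodule K R} (h : W ≤ W') : diffSpan W V ≤ diffSpan W' V := by
  apply Submodule.span_mono
  rintro F ⟨w, hw, v, hv, rfl⟩
  exact ⟨w, h hw, v, hv, rfl⟩

theorem diffSpan_sup_decomp {W V : Submodule K R} {g : R} {F : Derivation K R R → R}
    (hF : F ∈ diffSpan W (V ⊔ span K {g})) :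
    ∃ w ∈ W, F - (fun D : Derivation K R R => w * D g) ∈ diffSpan W V := by
  induction hF using Submodule.span_induction with
  | mem F hF =>
    obtain ⟨w, hw, v, hv, rfl⟩ := hF
    obtain ⟨y, hy, z, hz, rfl⟩ := Submodule.mem_sup.mp hv
    obtain ⟨c, rfl⟩ := Submodule.mem_span_singleton.mp hz
    refine ⟨c • w, W.smul_mem c hw, Submodule.subset_span ⟨w, hw, y, hy, ?_⟩⟩
    funext D
    simp only [map_add, Derivation.map_smul, Pi.sub_apply, smul_mul_assoc, mul_add,
      mul_smul_comm, add_sub_cancel_right]
  | zero =>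
    refine ⟨0, W.zero_mem, ?_⟩
    have : (0 : Derivation K R R → R) - (fun D : Derivation K R R => 0 * D g) = 0 := by
      funext D; simp
    rw [this]
    exact Submodule.zero_mem _
  | add F G _ _ hF hG =>
    obtain ⟨w, hw, h1⟩ := hF
    obtain ⟨w', hw', h2⟩ := hG
    refine ⟨w + w', W.add_mem hw hw', ?_⟩
    have : F + G - (fun D : Derivation K R R => (w + w') * D g) =
        (F - fun D : Derivation K R R => w * D g) + (G - fun D : Derivation K R R => w' * D g) := by
      funext D; simp only [Pi.sub_apply, Pi.add_apply]; ring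
    rw [this]
    exact Submodule.add_mem _ h1 h2
  | smul c F _ hF =>
    obtain ⟨w, hw, h1⟩ := hF
    refine ⟨c • w, W.smul_mem c hw, ?_⟩
    have : c • F - (fun D : Derivation K R R => (c • w) * D g) =
        c • (F - fun D : Derivation K R R => w * D g) := by
      funext D; simp only [Pi.sub_apply, Pi.smul_apply, smul_sub, smul_mul_assoc]
    rw [this]
    exact Submodule.smul_mem _ _ h1

/-- The Baur and Strassen theorem, in the form: the differential of `f`. -/
theorem Reach.baur_strassen_aux {s : ℕ} {V W : Submodule K R} (h : Reach s V W)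
    (h1 : (1 : R) ∈ V) {f : R} (hf : f ∈ W) :
    ∃ W' : Submodule K R, Reach (3 * s) V W' ∧
      (fun D : Derivation K R R => D f) ∈ diffSpan W' V := by
  induction h with
  | refl V =>
    refine ⟨V, Reach.refl V, Submodule.subset_span ⟨1, h1, f, hf, ?_⟩⟩
    funext D; simp
  | @step s V W p q hp hq _ ih =>
    obtain ⟨W', hW', hd⟩ := ih (Submodule.mem_sup_left h1) hf
    obtain ⟨w, hw, hd'⟩ := diffSpan_sup_decomp hd
    have hVW' : V ≤ W' := le_sup_left.trans hW'.le
    have r1 := hW'.snoc hw (hVW' hp)
    have r2 := r1.snoc (Submodule.mem_sup_left hw) (Submodule.mem_sup_left (hVW' hq))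
    refine ⟨(W' ⊔ span K {w * p}) ⊔ span K {w * q}, ?_, ?_⟩
    · rw [show 3 * (s + 1) = 3 * s + 1 + 1 + 1 by ring]
      exact Reach.step hp hq r2
    · have e : (fun D : Derivation K R R => D f) =
          ((fun D : Derivation K R R => D f) - fun D : Derivation K R R => w * D (p * q)) +
          (fun D : Derivation K R R => (w * p) * D q) +
          (fun D : Derivation K R R => (w * q) * D p) := by
        funext D
        simp only [Pi.add_apply, Pi.sub_apply, Derivation.leibniz, smul_eq_mul]
        ring
      rw [e]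
      refine Submodule.add_mem _ (Submodule.add_mem _ ?_ ?_) ?_
      · exact diffSpan_mono (le_sup_left.trans le_sup_left) hd'
      · exact Submodule.subset_span ⟨w * p, Submodule.mem_sup_left
          (Submodule.mem_sup_right (Submodule.mem_span_singleton_self _)), q, hq, rfl⟩
      · exact Submodule.subset_span ⟨w * q,
          Submodule.mem_sup_right (Submodule.mem_span_singleton_self _), p, hp, rfl⟩

theorem Reach.baur_strassen {s : ℕ} {V W : Submodule K R} (h : Reach s V W)
    (h1 : (1 : R) ∈ V) {f : R} (hf : f ∈ W) :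
    ∃ W' : Submodule K R, Reach (3 * s) V W' ∧
      ∀ D : Derivation K R R, (∀ v ∈ V, D v ∈ (1 : Submodule K R)) → D f ∈ W' := by
  obtain ⟨W', hW', hd⟩ := h.baur_strassen_aux h1 hf
  refine ⟨W', hW', fun D hD => ?_⟩
  have key : ∀ F ∈ diffSpan W' V, F D ∈ W' := by
    intro F hF
    induction hF using Submodule.span_induction with
    | mem F hF =>
      obtain ⟨w, hw, v, hv, rfl⟩ := hF
      obtain ⟨c, hc⟩ := Submodule.mem_one.mp (hD v hv)
      show w * D v ∈ W'
      rw [← hc, mul_comm, ← Algebra.smul_def]
      exact W'.smul_mem c hw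
    | zero => exact W'.zero_mem
    | add F G _ _ hF hG => exact W'.add_mem hF hG
    | smul c F _ hF => exact W'.smul_mem c hF
  exact key _ hd

end

end Pool.Agent.Lib.MP_8b1d3b_lc
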