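import Mathlib
import Pool.Agent.Lib.MP_8b1d3b_lc.Minor
import Pool.Agent.Lib.MP_8b1d3b_lc.Reach
import Pool.Agent.Lib.MP_8b1d3b_lc.Degree

set_option autoImplicit false

namespace Pool.Agent.Lib.MP_8b1d3b_lc

open Finset MvPolynomial Module

/-- The space of affine linear polynomials. -/
noncomputable def aff (σ L : Type*) [Field L] : Submodule L (MvPolynomial σ L) :=
  1 ⊔ Submodule.span L (Set.range X)

theorem one_mem_aff {σ L : Type*} [Field L] : (1 : MvPolynomial σ L) ∈ aff σ L :=
  Submodule.mem_sup_left (Submodule.mem_one.mpr ⟨1, by simp⟩)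

theorem C_mem_aff {σ L : Type*} [Field L] (c : L) : (C c : MvPolynomial σ L) ∈ aff σ L :=
  Submodule.mem_sup_left (Submodule.mem_one.mpr ⟨c, rfl⟩)

theorem X_mem_aff {σ L : Type*} [Field L] (i : σ) : (X i : MvPolynomial σ L) ∈ aff σ L :=
  Submodule.mem_sup_right (Submodule.subset_span ⟨i, rfl⟩)

theorem aff_le {σ L : Type*} [Field L] {U : Submodule L (MvPolynomial σ L)}
    (h1 : (1 : MvPolynomial σ L) ∈ U) (hX : ∀ i, X i ∈ U) : aff σ L ≤ U := by
  refine sup_le (Submodule.one_le.mpr h1) (Submodule.span_le.mpr ?_)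
  rintro _ ⟨i, rfl⟩
  exact hX i

theorem aff_fg {σ L : Type*} [Field L] [Finite σ] : (aff σ L).FG := by
  rw [aff, Submodule.one_eq_span]
  exact (Submodule.fg_span_singleton _).sup (Submodule.fg_span (Set.finite_range _))

theorem finrank_aff_pow_le {σ L : Type*} [Field L] [Fintype σ] (T : ℕ) :
    finrank L (aff σ L ^ T : Submodule L (MvPolynomial σ L)) ≤
      (T + Fintype.card σ).choose (Fintype.card σ) := by
  classical
  have h := finrank_one_sup_span_pow_le (K := L) (univ.image (X : σ → MvPolynomial σ L)) T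
  rw [card_image_of_injective _ X_injective, card_univ, coe_image, coe_univ, Set.image_univ] at h
  exact h

theorem core_bound {L : Type*} [Field L] [CharZero L]
    {β α Φ γ ν n : Type*} [Fintype β] [Fintype α] [Fintype Φ] [Fintype γ]
    [Fintype ν] [DecidableEq β] [DecidableEq α] [DecidableEq γ]
    [DecidableEq ν] [Fintype n] [DecidableEq n] {D : ℕ} (hD : 1 ≤ D) {ζ : L}
    (hζ : IsPrimitiveRoot ζ (D + 1))
    (hα : Fintype.card α = Fintype.card Φ + (D + 1))
    (hγ : Fintype.card γ = Fintype.card ν + (D + 1))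
    (eR : n ≃ (β × α) ⊕ Fin (D + 1) ⊕ ν) (eC : n ≃ γ ⊕ (β × Φ) ⊕ (β × Fin (D + 1)))
    {s : ℕ} {W : Submodule L (MvPolynomial (n × n) L)} (hW : Reach s (aff (n × n) L) W)
    (hper : Matrix.permanent (Matrix.of fun i j : n => (X (i, j) : MvPolynomial (n × n) L)) ∈ W) :
    D ^ (Fintype.card β * Fintype.card α * Fintype.card γ) ≤
      2 ^ (3 * s) * (Fintype.card α * D) ^
        (Fintype.card β * 2 ^ Fintype.card α + Fintype.card β * Fintype.card γ * D) *
      3 ^ (Fintype.card β * Fintype.card α * Fintype.card γ + 1) := by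
  classical
  obtain ⟨W1, hW1, hW1'⟩ := hW.baur_strassen one_mem_aff hper
  let σ := (β × α) × γ
  let R := MvPolynomial σ L
  let u : β × α → γ → R := fun bi j => X (bi, j)
  let lam : Fin (D + 1) → R := fun s => algebraMap L R (ζ ^ (s : ℕ))
  let M : Matrix n n R := Matrix.of fun i j : n => Mx u lam (eR i) (eC j)
  let φ : MvPolynomial (n × n) L →ₐ[L] R := aeval fun v : n × n => M v.1 v.2
  let μ : β → Finset α → R := fun b J => Pm (fun i j => u (b, i) j) univ J
  let ε : β → γ → ℕ → R := fun b j ρ => ∑ J ∈ powersetCard ρ (univ : Finset α), ∏ r ∈ J, u (b, r) j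
  let Ex1 : Finset R := (univ.filter fun p : β × Finset α => p.2.Nonempty).image
    fun p => μ p.1 p.2 ^ D
  let Ex2 : Finset R := (univ : Finset ((β × γ) × Fin D)).image
    fun p => ε p.1.1 p.1.2 (p.2 + 1) ^ D
  let Ex : Finset R := Ex1 ∪ Ex2
  have hu : ∀ bi j, (u bi j).IsHomogeneous 1 := fun bi j => isHomogeneous_X _ _
  have hμ : ∀ b J, (μ b J).IsHomogeneous J.card := fun b J =>
    Pm_isHomogeneous _ (fun i j => hu _ _) _ _
  have hε : ∀ b j ρ, (ε b j ρ).IsHomogeneous ρ := by
    intro b j ρ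
    refine IsHomogeneous.sum _ _ _ fun J hJ => ?_
    have := IsHomogeneous.prod J (fun r => u (b, r) j) (fun _ => 1) fun r _ => hu _ _
    rwa [sum_const, smul_eq_mul, mul_one, (mem_powersetCard.mp hJ).2] at this
  have hEx : ∀ g ∈ Ex, ∃ δ, D ≤ δ ∧ δ ≤ Fintype.card α * D ∧ g.IsHomogeneous δ := by
    intro g hg
    rcases mem_union.mp hg with hg | hg
    · obtain ⟨p, hp, rfl⟩ := mem_image.mp hg
      have h1 : 1 ≤ p.2.card := (mem_filter.mp hp).2.card_pos
      exact ⟨p.2.card * D, Nat.le_mul_of_pos_left _ h1,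
        Nat.mul_le_mul_right _ (card_le_univ _), (hμ _ _).pow D⟩
    · obtain ⟨p, _, rfl⟩ := mem_image.mp hg
      have h1 := p.2.2
      exact ⟨(p.2 + 1) * D, Nat.le_mul_of_pos_left _ (Nat.succ_pos _),
        Nat.mul_le_mul_right _ (by omega), (hε _ _ _).pow D⟩
  have hExc : Ex.card ≤
      Fintype.card β * 2 ^ Fintype.card α + Fintype.card β * Fintype.card γ * D := by
    refine (card_union_le _ _).trans (add_le_add ?_ ?_)
    · refine card_image_le.trans ((card_filter_le _ _).trans ?_)
      simp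
    · refine card_image_le.trans ?_
      simp
  have hE : 1 ≤ Fintype.card α * D := Nat.mul_pos (by omega) hD
  let V1 : Submodule L R := aff σ L ⊔ Submodule.span L (Ex : Set R)
  have hV1fg : V1.FG := aff_fg.sup (Submodule.fg_span Ex.finite_toSet)
  have hV1 : ∀ T, finrank L (V1 ^ T : Submodule L R) ≤
      (Fintype.card α * D) ^ Ex.card * finrank L (aff σ L ^ T : Submodule L R) := by
    intro T
    refine finrank_sup_span_finset_pow_le aff_fg one_mem_aff hE Ex (fun g hg => ?_) T
    obtain ⟨δ, _, h2, h3⟩ := hEx g hg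
    exact pow_le_pow_of_one_mem one_mem_aff h2 (homogeneous_mem_pow X_mem_aff h3)
  have hM : ∀ r c, Mx (Φ := Φ) (ν := ν) u lam r c ∈ aff σ L := by
    rintro (bi | t | t) (j | c | c)
    · exact X_mem_aff _
    · simp only [Mx]; split_ifs; exacts [one_mem_aff, Submodule.zero_mem _]
    · simp only [Mx]; split_ifs; exacts [one_mem_aff, Submodule.zero_mem _]
    · exact Submodule.zero_mem _
    · exact Submodule.zero_mem _
    · exact Submodule.neg_mem _ (C_mem_aff _)
    · exact one_mem_aff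
    · exact Submodule.zero_mem _
    · exact Submodule.zero_mem _
  have hφ : ∀ p ∈ aff (n × n) L, φ p ∈ V1 := by
    intro p hp
    have : aff (n × n) L ≤ V1.comap φ.toLinearMap := by
      apply aff_le
      · show φ 1 ∈ V1
        rw [map_one]
        exact Submodule.mem_sup_left one_mem_aff
      · intro v
        show φ (X v) ∈ V1
        rw [aeval_X]
        exact Submodule.mem_sup_left (hM _ _)
    exact this hp
  obtain ⟨W2, hW2, hW2'⟩ := hW1.map φ hφ
  let κ : ℕ := (D + 1).factorial * (Fintype.card Φ).factorial * (Fintype.card ν).factorial *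
        (Fintype.card α).factorial ^ (Fintype.card β - 1)
  have hκ : (κ : L) ≠ 0 := by
    rw [Nat.cast_ne_zero]
    positivity
  let f : σ → R := fun v => ∑ J ∈ powersetCard D (univ.erase v.1.2),
    Pm (fun i j => u (v.1.1, i) j) (univ.erase v.2) J
  have hf : ∀ v, f v ∈ W2 := by
    rintro ⟨⟨b0, i0⟩, j0⟩
    have h1 := hW1' (pderiv (eR.symm (Sum.inl (b0, i0)), eC.symm (Sum.inl j0))) (by
      intro p hp
      have : aff (n × n) L ≤ (1 : Submodule L (MvPolynomial (n × n) L)).comap
          (pderiv (eR.symm (Sum.inl (b0, i0)), eC.symm (Sum.inl j0))).toLinearMap := by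
        apply aff_le
        · simp
        · intro v
          show pderiv (eR.symm (Sum.inl (b0, i0)), eC.symm (Sum.inl j0))
            (X v : MvPolynomial (n × n) L) ∈ (1 : Submodule L (MvPolynomial (n × n) L))
          rw [pderiv_X, Pi.single_apply]
          split_ifs
          · exact Submodule.mem_one.mpr ⟨1, by simp⟩
          · exact Submodule.zero_mem _
      exact this hp)
    have h2 := hW2' _ h1
    rw [aeval_pderiv_permanent M, minor_identity hζ hα hγ eR eC u b0 i0 j0] at h2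
    have h3 := W2.smul_mem (-(κ : L)⁻¹) h2
    have h4 : (-(κ : L)⁻¹) • (-(κ : R) * f ((b0, i0), j0)) = f ((b0, i0), j0) := by
      rw [neg_mul, neg_smul_neg, ← map_natCast (algebraMap L R), ← Algebra.smul_def, smul_smul,
        inv_mul_cancel₀ hκ, one_smul]
    rw [← h4]
    exact h3
  have hfh : ∀ v, (f v).IsHomogeneous D := by
    intro v
    refine IsHomogeneous.sum _ _ _ fun J hJ => ?_
    rw [← (mem_powersetCard.mp hJ).2]
    exact Pm_isHomogeneous _ (fun i j => hu _ _) _ _
  let F : Set R := Set.range f ∪ (Ex : Set R)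
  have hle : V1 ≤ W2 := hW2.le
  have hF : ∀ g ∈ F, g ∈ W2 ∧ ∃ δ, D ≤ δ ∧ g.IsHomogeneous δ := by
    rintro g (⟨v, rfl⟩ | hg)
    · exact ⟨hf v, D, le_rfl, hfh v⟩
    · obtain ⟨δ, h1, _, h3⟩ := hEx g hg
      exact ⟨hle (Submodule.mem_sup_right (Submodule.subset_span hg)), δ, h1, h3⟩
  have hrad : ∀ v : σ, (X v : R) ∈ (Ideal.span F).radical := by
    rintro ⟨⟨b0, i0⟩, j0⟩
    let I := (Ideal.span F).radical
    let ψ : R →+* R ⧸ I := Ideal.Quotient.mk I
    have hred : IsReduced (R ⧸ I) :=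
      (Ideal.isRadical_iff_quotient_reduced I).mp (Ideal.radical_isRadical _)
    have hF0 : ∀ g ∈ F, ψ g = 0 := fun g hg =>
      Ideal.Quotient.eq_zero_iff_mem.mpr (Ideal.le_radical (Ideal.subset_span hg))
    have hμ0 : ∀ J : Finset α, J.Nonempty → ψ (μ b0 J) = 0 := by
      intro J hJ
      have := hF0 (μ b0 J ^ D) (Or.inr (mem_coe.mpr (mem_union_left _
        (mem_image.mpr ⟨(b0, J), mem_filter.mpr ⟨mem_univ _, hJ⟩, rfl⟩))))
      rw [map_pow] at this
      exact IsReduced.eq_zero _ ⟨D, this⟩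
    have hε0 : ∀ ρ, 1 ≤ ρ → ρ ≤ D →
        ∑ J ∈ powersetCard ρ (univ : Finset α), ∏ r ∈ J, ψ (u (b0, r) j0) = 0 := by
      intro ρ h1 h2
      have := hF0 (ε b0 j0 ρ ^ D) (Or.inr (mem_coe.mpr (mem_union_right _
        (mem_image.mpr ⟨((b0, j0), ⟨ρ - 1, by omega⟩), mem_univ _, by
          simp only [show ρ - 1 + 1 = ρ by omega]⟩))))
      rw [map_pow] at this
      have h3 := IsReduced.eq_zero _ ⟨D, this⟩
      simpa only [ε, map_sum, map_prod] using h3
    have h1 := Pm_erase_eq (fun J => ψ (μ b0 J))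
      (fun J => ψ (Pm (fun i j => u (b0, i) j) (univ.erase j0) J)) (fun i => ψ (u (b0, i) j0))
      (fun J => by
        have := Pm_insert (fun i j => u (b0, i) j) (notMem_erase j0 univ) J
        rw [insert_erase (mem_univ j0)] at this
        simp only [μ, this, map_add, map_sum, map_mul])
      hμ0 (by simp only [Pm_empty_right, map_one])
    have h2 := esymm_erase_eq (fun i => ψ (u (b0, i) j0)) univ (mem_univ i0) D hε0 D le_rfl
    have h3 := hF0 (f ((b0, i0), j0)) (Or.inl ⟨_, rfl⟩)
    have h4 : ψ (f ((b0, i0), j0)) = (D.factorial : R ⧸ I) * ψ (u (b0, i0) j0) ^ D := by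
      simp only [f, map_sum]
      rw [sum_congr rfl fun J hJ => by rw [h1 J, (mem_powersetCard.mp hJ).2], ← mul_sum, h2,
        neg_pow (ψ _), mul_right_comm, ← mul_assoc, ← mul_pow]
      simp [mul_comm]
    rw [h4] at h3
    have h5 : IsUnit (D.factorial : R ⧸ I) := by
      have h6 : IsUnit (D.factorial : L) := (Nat.cast_ne_zero.mpr D.factorial_ne_zero).isUnit
      simpa using h6.map (ψ.comp (algebraMap L R))
    have h7 := IsReduced.eq_zero _ ⟨D, h5.mul_right_eq_zero.mp h3⟩
    exact Ideal.Quotient.eq_zero_iff_mem.mp h7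
  have hcard : Fintype.card σ = Fintype.card β * Fintype.card α * Fintype.card γ := by
    simp [σ]
  have key := degree_bound (hW2.fg hV1fg) (hle (Submodule.mem_sup_left one_mem_aff))
    (fun i => hle (Submodule.mem_sup_left (X_mem_aff i))) hD hF hrad
    (Γ := 2 ^ (3 * s) * (Fintype.card α * D) ^ Ex.card) (fun T => by
      refine (hW2.finrank_pow_le hV1fg (Submodule.mem_sup_left one_mem_aff) T).trans ?_
      rw [mul_assoc]
      refine Nat.mul_le_mul_left _ ((hV1 T).trans ?_)
      exact Nat.mul_le_mul_left _ (finrank_aff_pow_le T))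
  rw [hcard] at key
  refine key.trans (Nat.mul_le_mul_right _ (Nat.mul_le_mul_left _ ?_))
  exact Nat.pow_le_pow_right hE hExc

end Pool.Agent.Lib.MP_8b1d3b_lc
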