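import Mathlib

set_option autoImplicit false

namespace Pool.Agent.Lib.MP_8b1d3b_lc.D5

open Finset

section

variable (F : Type*) [Field F] (J : Type*)

/-- Functions on the cube of degree at most `m`. -/
def V (m : ℕ) : Submodule F ((J → Bool) → F) :=
  Submodule.span F (insert 1 {f | ∃ (j : J) (φ : Bool → F), f = fun ω => φ (ω j)}) ^ m

variable {F J}

theorem V_mul {a b : ℕ} {f g : (J → Bool) → F} (hf : f ∈ V F J a) (hg : g ∈ V F J b) :
    f * g ∈ V F J (a + b) := by
  unfold V at *
  rw [pow_add]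
  exact Submodule.mul_mem_mul hf hg

theorem one_mem_V (m : ℕ) : (1 : (J → Bool) → F) ∈ V F J m := by
  induction m with
  | zero => simp [V, Submodule.one_eq_span]
  | succ m ih =>
    have h : (1 : (J → Bool) → F) ∈ V F J 1 := by
      unfold V
      rw [pow_one]
      exact Submodule.subset_span (Set.mem_insert _ _)
    simpa using V_mul ih h

theorem V_mono {a b : ℕ} (h : a ≤ b) {f : (J → Bool) → F} (hf : f ∈ V F J a) : f ∈ V F J b := by
  obtain ⟨c, rfl⟩ := Nat.exists_eq_add_of_le h
  simpa using V_mul hf (one_mem_V c)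

theorem const_mem_V (m : ℕ) (c : F) : (fun _ => c : (J → Bool) → F) ∈ V F J m := by
  have h := (V F J m).smul_mem c (one_mem_V m)
  convert h using 1
  funext ω
  simp

theorem coord_mem_V (j : J) (φ : Bool → F) : (fun ω => φ (ω j) : (J → Bool) → F) ∈ V F J 1 := by
  unfold V
  rw [pow_one]
  exact Submodule.subset_span (Set.mem_insert_of_mem _ ⟨j, φ, rfl⟩)

theorem prod_mem_V {ι : Type*} (s : Finset ι) (f : ι → (J → Bool) → F) (m : ι → ℕ)
    (h : ∀ i ∈ s, f i ∈ V F J (m i)) : ∏ i ∈ s, f i ∈ V F J (∑ i ∈ s, m i) := by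
  classical
  induction s using Finset.induction_on with
  | empty => simpa using one_mem_V 0
  | insert i s hi ih =>
    rw [prod_insert hi, sum_insert hi]
    exact V_mul (h i (mem_insert_self _ _)) (ih fun j hj => h j (mem_insert_of_mem hj))

theorem pow_mem_V {a : ℕ} {f : (J → Bool) → F} (hf : f ∈ V F J a) (n : ℕ) :
    f ^ n ∈ V F J (n * a) := by
  simpa using prod_mem_V (range n) (fun _ => f) (fun _ => a) fun _ _ => hf

theorem factor_mem_V [Fintype F] {τ : ℕ} (L : Fin τ → (J → Bool) → F) (hL : ∀ i, L i ∈ V F J 1)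
    (f : (J → Bool) → F) (hf : ∀ ω ω', (∀ i, L i ω = L i ω') → f ω = f ω') :
    f ∈ V F J (Fintype.card F * τ) := by
  classical
  let g : (Fin τ → F) → F := fun c => if h : ∃ ω, ∀ i, L i ω = c i then f h.choose else 0
  have h1 : f = ∑ c : Fin τ → F,
      g c • ∏ i, (1 - (L i - fun _ => c i) ^ (Fintype.card F - 1)) := by
    funext ω
    rw [Finset.sum_apply, sum_eq_single (fun i => L i ω)]
    · have h2 : ∃ ω', ∀ i, L i ω' = L i ω := ⟨ω, fun _ => rfl⟩
      have h3 : Fintype.card F - 1 ≠ 0 := by
        have := Fintype.one_lt_card (α := F)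
        omega
      simp only [g, dif_pos h2, Pi.smul_apply, Finset.prod_apply, Pi.sub_apply, Pi.pow_apply,
        Pi.one_apply, sub_self, zero_pow h3, sub_zero, prod_const_one, smul_eq_mul, mul_one]
      exact (hf _ _ h2.choose_spec).symm
    · intro c _ hc
      obtain ⟨i, hi⟩ := Function.ne_iff.1 hc
      simp only [Pi.smul_apply, Finset.prod_apply, Pi.sub_apply, Pi.pow_apply, Pi.one_apply]
      rw [prod_eq_zero (mem_univ i), smul_zero]
      rw [FiniteField.pow_card_sub_one_eq_one _ (sub_ne_zero.2 hi.symm), sub_self]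
    · simp
  rw [h1]
  refine Submodule.sum_mem _ fun c _ => Submodule.smul_mem _ _ ?_
  have h4 := prod_mem_V univ (fun i => (1 - (L i - fun _ => c i) ^ (Fintype.card F - 1)))
    (fun _ => Fintype.card F) fun i _ => Submodule.sub_mem _ (one_mem_V _)
      (V_mono (by omega) (pow_mem_V (Submodule.sub_mem _ (hL i) (const_mem_V 1 (c i))) _))
  simpa [mul_comm] using h4

variable [Fintype J] [DecidableEq J]

/-- Number of ones. -/
def wt (γ : J → Bool) : ℕ := #{j | γ j = true}

/-- The monomial basis attached to the nonconstant functions `Y j`. -/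
def E (Y : J → Bool → F) (γ : J → Bool) : (J → Bool) → F :=
  fun ω => ∏ j, if γ j = true then Y j (ω j) else 1

theorem exists_affine {Y : Bool → F} (hY : Y false ≠ Y true) (ψ : Bool → F) :
    ∃ a b : F, ∀ t, ψ t = a + b * Y t := by
  have h : Y true - Y false ≠ 0 := sub_ne_zero.2 hY.symm
  refine ⟨ψ false - (ψ true - ψ false) / (Y true - Y false) * Y false,
    (ψ true - ψ false) / (Y true - Y false), fun t => ?_⟩
  cases t
  · ring
  · field_simp
    ring

theorem E_update (Y : J → Bool → F) (γ : J → Bool) (j : J) (b : Bool) (ω : J → Bool) :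
    E Y (Function.update γ j b) ω = (if b = true then Y j (ω j) else 1) *
      ∏ i ∈ univ.erase j, if γ i = true then Y i (ω i) else 1 := by
  unfold E
  rw [← mul_prod_erase univ _ (mem_univ j), Function.update_self]
  congr 1
  refine prod_congr rfl fun i hi => ?_
  rw [Function.update_of_ne (ne_of_mem_erase hi)]

theorem wt_update (γ : J → Bool) (j : J) (b : Bool) : wt (Function.update γ j b) ≤ wt γ + 1 := by
  unfold wt
  refine le_trans (card_le_card ?_) (card_insert_le j _)
  intro i hi
  rw [mem_insert]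
  by_cases h : i = j
  · exact Or.inl h
  · right
    simpa [Function.update_of_ne h] using hi

theorem V_le_span {Y : J → Bool → F} (hY : ∀ j, Y j false ≠ Y j true) (m : ℕ) :
    V F J m ≤ Submodule.span F (E Y '' {γ | wt γ ≤ m}) := by
  induction m with
  | zero =>
    unfold V
    rw [pow_zero, Submodule.one_eq_span, Submodule.span_le, Set.singleton_subset_iff]
    refine Submodule.subset_span ⟨fun _ => false, by simp [wt], ?_⟩
    funext ω
    simp [E]
  | succ m ih =>
    unfold V at *
    rw [pow_succ]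
    refine le_trans (mul_le_mul' ih le_rfl) ?_
    rw [Submodule.span_mul_span, Submodule.span_le]
    rintro _ ⟨_, ⟨γ, hγ, rfl⟩, g, hg, rfl⟩
    rcases hg with rfl | ⟨j, φ, rfl⟩
    · refine Submodule.subset_span ⟨γ, ?_, by simp⟩
      exact le_trans hγ (Nat.le_succ m)
    · obtain ⟨a, b, hab⟩ := exists_affine (hY j) fun t => (if γ j = true then Y j t else 1) * φ t
      have h1 : (E Y γ * fun ω => φ (ω j)) =
          a • E Y (Function.update γ j false) + b • E Y (Function.update γ j true) := by
        funext ω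
        have h2 := E_update Y γ j (γ j) ω
        rw [Function.update_eq_self] at h2
        simp only [Pi.mul_apply, Pi.add_apply, Pi.smul_apply, smul_eq_mul, h2, E_update]
        have h3 := hab (ω j)
        simp only [Bool.false_eq_true, if_false, if_true]
        linear_combination (∏ i ∈ univ.erase j, if γ i = true then Y i (ω i) else 1) * h3
      change (E Y γ * fun ω => φ (ω j)) ∈ _
      rw [h1]
      refine Submodule.add_mem _ (Submodule.smul_mem _ _ ?_) (Submodule.smul_mem _ _ ?_)
      · exact Submodule.subset_span ⟨_, le_trans (wt_update γ j _) (Nat.succ_le_succ hγ), rfl⟩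
      · exact Submodule.subset_span ⟨_, le_trans (wt_update γ j _) (Nat.succ_le_succ hγ), rfl⟩

theorem single_mem_V (ω₀ : J → Bool) :
    (Pi.single ω₀ 1 : (J → Bool) → F) ∈ V F J (Fintype.card J) := by
  have h := prod_mem_V (F := F) univ (fun j ω => if ω j = ω₀ j then 1 else 0) (fun _ => 1)
    fun j _ => coord_mem_V j fun t => if t = ω₀ j then 1 else 0
  convert h using 1
  · simp
  · funext ω
    rw [Finset.prod_apply, prod_ite_zero, Pi.single_apply]
    simp [funext_iff]

theorem linearIndependent_E {Y : J → Bool → F} (hY : ∀ j, Y j false ≠ Y j true) :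
    LinearIndependent F (E Y) := by
  refine linearIndependent_of_top_le_span_of_card_eq_finrank ?_ (by simp)
  intro f _
  rw [pi_eq_sum_univ' f]
  refine Submodule.sum_mem _ fun ω _ => Submodule.smul_mem _ _ ?_
  exact Submodule.span_mono (Set.image_subset_range _ _) (V_le_span hY _ (single_mem_V ω))

theorem rank_ineq {Y : J → Bool → F} (hY : ∀ j, Y j false ≠ Y j true) {s m : ℕ}
    (Γ Bad : Finset (J → Bool)) (T : Fin s → (J → Bool) → F)
    (h : ∀ γ ∈ Γ, ∃ w : Fin s → (J → Bool) → F, (∀ i, w i ∈ V F J m) ∧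
      ∀ ω, ω ∉ Bad → E Y γ ω = ∑ i, T i ω * w i ω) :
    #Γ ≤ s * #{γ : J → Bool | wt γ ≤ m} + #Bad := by
  let b : (Fin s × {γ : J → Bool // wt γ ≤ m}) ⊕ Bad → (J → Bool) → F :=
    Sum.elim (fun p => T p.1 * E Y p.2) fun ω => Pi.single ω.1 1
  have h1 : Module.finrank F (Submodule.span F (Set.range b)) ≤
      s * #{γ : J → Bool | wt γ ≤ m} + #Bad := by
    refine le_trans (finrank_range_le_card b) (le_of_eq ?_)
    simp [Fintype.card_subtype]
  have h2 := finrank_span_eq_card ((linearIndependent_E hY).comp (fun γ : Γ => γ.1)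
    Subtype.val_injective)
  rw [Fintype.card_coe] at h2
  rw [← h2]
  refine le_trans (Submodule.finrank_mono ?_) h1
  rw [Submodule.span_le]
  rintro _ ⟨⟨γ, hγ⟩, rfl⟩
  obtain ⟨w, hw, hE⟩ := h γ hγ
  have h3 : E Y γ = ∑ i, T i * w i +
      ∑ ω ∈ Bad, (E Y γ ω - ∑ i, T i ω * w i ω) • (Pi.single ω 1 : (J → Bool) → F) := by
    funext ω
    simp only [Pi.add_apply, Finset.sum_apply, Pi.mul_apply, Pi.smul_apply, Pi.single_apply,
      smul_eq_mul, mul_ite, mul_one, mul_zero, sum_ite_eq]
    split_ifs with hω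
    · ring
    · rw [hE ω hω, add_zero]
  change E Y γ ∈ _
  rw [h3]
  refine Submodule.add_mem _ (Submodule.sum_mem _ fun i _ => ?_)
    (Submodule.sum_mem _ fun ω hω => Submodule.smul_mem _ _ ?_)
  · have h4 := Submodule.mem_map_of_mem (f := LinearMap.mulLeft F (T i)) (V_le_span hY m (hw i))
    rw [Submodule.map_span] at h4
    refine Submodule.span_mono ?_ h4
    rintro _ ⟨_, ⟨γ', hγ', rfl⟩, rfl⟩
    exact ⟨Sum.inl (i, ⟨γ', hγ'⟩), rfl⟩
  · exact Submodule.subset_span ⟨Sum.inr ⟨ω, hω⟩, rfl⟩

end

end Pool.Agent.Lib.MP_8b1d3b_lc.D5
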