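import Mathlib
import Pool.Agent.Lib.MP_8b1d3b_lc.D5Filt

set_option autoImplicit false

namespace Pool.Agent.Lib.MP_8b1d3b_lc.D5

open Finset

theorem sum_prod_pi {J C : Type*} [Fintype J] [DecidableEq J] [Fintype C] (f : J → C → ℝ) :
    ∑ c : J → C, ∏ j, f j (c j) = ∏ j, ∑ x, f j x := by
  rw [prod_univ_sum, Fintype.piFinset_univ]

theorem pow_card_filter {J : Type*} [Fintype J] (p : J → Prop) [DecidablePred p] (x : ℝ) :
    x ^ #{j | p j} = ∏ j, if p j then x else 1 := by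
  rw [prod_ite, prod_const_one, mul_one, prod_const]

theorem sum_blocks {k e : ℕ} {C : Type*} [Fintype C] (G : Fin k → (Fin e → C) → ℝ) :
    ∑ c : Fin k × Fin e → C, ∏ i, G i (fun j => c (i, j)) = ∏ i, ∑ c', G i c' := by
  rw [← sum_prod_pi]
  exact Fintype.sum_equiv (Equiv.curry _ _ _) _ _ fun c => rfl

theorem ball_le {J : Type*} [Fintype J] [DecidableEq J] {θ : ℝ} (h0 : 0 ≤ θ) (h1 : θ ≤ 1)
    (m : ℕ) : θ ^ m * (#{γ : J → Bool | wt γ ≤ m} : ℝ) ≤ (1 + θ) ^ Fintype.card J := by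
  have h2 : ∑ γ : J → Bool, θ ^ wt γ = (1 + θ) ^ Fintype.card J := by
    simp only [wt, pow_card_filter]
    rw [sum_prod_pi fun (_ : J) (b : Bool) => if b = true then θ else 1]
    simp [add_comm]
  rw [← h2, card_filter]
  push_cast
  rw [mul_sum]
  refine sum_le_sum fun γ _ => ?_
  split_ifs with h
  · rw [mul_one]
    exact pow_le_pow_of_le_one h0 h1 h
  · rw [mul_zero]
    positivity

theorem levels {Γ : Type*} [Fintype Γ] (d : Γ → ℕ) {n0 : ℕ} (hd : ∀ γ, d γ ≤ n0) {θ κ ε A : ℝ}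
    (hθ : 0 ≤ θ) (hκ : 0 < κ) (hε : 0 ≤ ε) (a : ℕ → ℝ) (ha : ∀ l, 0 ≤ a l)
    (haA : ∀ l, θ ^ l * a l ≤ A) (h : ∀ l, (#{γ | d γ = l} : ℝ) ≤ a l + ε) :
    ∑ γ, θ ^ d γ ≤ (n0 + 1) * (A + κ * ε / 2) + (∑ γ, (θ ^ 2) ^ d γ) / (2 * κ) := by
  have h1 : ∀ x : ℝ, ∑ γ, x ^ d γ = ∑ l ∈ range (n0 + 1), x ^ l * (#{γ | d γ = l} : ℝ) := by
    intro x
    rw [← sum_fiberwise_of_maps_to (s := univ) (t := range (n0 + 1)) (g := d)
      fun γ _ => mem_range.2 (Nat.lt_succ_of_le (hd γ))]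
    refine sum_congr rfl fun l _ => ?_
    rw [sum_congr rfl fun γ hγ => by rw [(mem_filter.1 hγ).2]]
    simp [mul_comm]
  rw [h1, h1, sum_div]
  have h2 : ((n0 : ℝ) + 1) * (A + κ * ε / 2) = ∑ _l ∈ range (n0 + 1), (A + κ * ε / 2) := by
    simp [mul_add]
  rw [h2, ← sum_add_distrib]
  refine sum_le_sum fun l _ => ?_
  have h3 := h l
  have h4 := haA l
  have h5 := ha l
  rw [← pow_mul, mul_comm 2 l, pow_mul]
  have hx : 0 ≤ θ ^ l := by positivity
  generalize θ ^ l = x at *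
  have hN : (0 : ℝ) ≤ (#{γ | d γ = l} : ℝ) := by positivity
  generalize (#{γ | d γ = l} : ℝ) = N at *
  have h6 : x ≤ κ / 2 + x ^ 2 / (2 * κ) := by
    have : κ / 2 + x ^ 2 / (2 * κ) - x = (κ - x) ^ 2 / (2 * κ) := by
      field_simp
      ring
    have h7 : 0 ≤ (κ - x) ^ 2 / (2 * κ) := by positivity
    linarith
  have h8 : 0 ≤ x ^ 2 / (2 * κ) := by positivity
  rw [show x ^ 2 * N / (2 * κ) = x ^ 2 / (2 * κ) * N by ring]
  generalize x ^ 2 / (2 * κ) = y at *
  rcases le_total N (a l) with h9 | h9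
  · nlinarith [mul_le_mul_of_nonneg_left h9 hx, mul_nonneg h8 hN, mul_nonneg hκ.le hε]
  · nlinarith [mul_le_mul_of_nonneg_right h6 (sub_nonneg.2 h9), mul_nonneg h8 h5,
      mul_le_mul_of_nonneg_left (show N - a l ≤ ε by linarith) hκ.le]

/-- Distance from `γ` to the nearest of the words that agree with `U` or vanish on each block. -/
def dd {k e : ℕ} (U γ : Fin k × Fin e → Bool) : ℕ :=
  ∑ i, min #{j | γ (i, j) = true} #{j | γ (i, j) ≠ U (i, j)}

theorem dd_le {k e : ℕ} (U γ : Fin k × Fin e → Bool) : dd U γ ≤ k * e := by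
  unfold dd
  calc _ ≤ ∑ _i : Fin k, e := sum_le_sum fun i _ => le_trans (min_le_left _ _)
        (le_trans (card_filter_le _ _) (by simp))
    _ = k * e := by simp

theorem upper {k e : ℕ} (U : Fin k × Fin e → Bool) {x : ℝ} (hx : 0 ≤ x) :
    ∑ γ, x ^ dd U γ ≤ (2 * (1 + x) ^ e) ^ k := by
  have h1 := sum_blocks fun (i : Fin k) (c : Fin e → Bool) =>
    x ^ #{j | c j = true} + x ^ #{j | c j ≠ U (i, j)}
  have h2 : ∀ i : Fin k, ∑ c : Fin e → Bool, (x ^ #{j | c j = true} + x ^ #{j | c j ≠ U (i, j)}) =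
      2 * (1 + x) ^ e := by
    intro i
    simp only [sum_add_distrib, pow_card_filter]
    rw [sum_prod_pi fun (_ : Fin e) (b : Bool) => if b = true then x else 1,
      sum_prod_pi fun (j : Fin e) (b : Bool) => if b ≠ U (i, j) then x else 1]
    have h3 : ∀ j : Fin e, (∑ b : Bool, if b ≠ U (i, j) then x else 1) = 1 + x := by
      intro j
      cases U (i, j) <;> simp [add_comm]
    simp only [h3]
    simp [add_comm, two_mul]
  simp only [h2, prod_const, card_univ, Fintype.card_fin] at h1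
  rw [← h1]
  refine sum_le_sum fun γ _ => ?_
  rw [dd, ← prod_pow_eq_pow_sum]
  refine prod_le_prod (fun i _ => by positivity) fun i _ => ?_
  rcases min_choice #{j | γ (i, j) = true} #{j | γ (i, j) ≠ U (i, j)} with h | h
  · rw [h]
    exact le_add_of_nonneg_right (by positivity)
  · rw [h]
    exact le_add_of_nonneg_left (by positivity)

theorem pow_min_ge {η : ℝ} (h0 : 0 ≤ η) (h1 : η ≤ 1) (a b : ℕ) :
    (η ^ 2) ^ a + (η ^ 2) ^ b - η ^ a * η ^ b ≤ (η ^ 2) ^ min a b := by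
  rcases le_total a b with h | h
  · rw [min_eq_left h, ← pow_mul η 2 b, mul_comm 2 b, pow_mul]
    have h2 := pow_le_pow_of_le_one h0 h1 h
    nlinarith [pow_nonneg h0 b]
  · rw [min_eq_right h, ← pow_mul η 2 a, mul_comm 2 a, pow_mul]
    have h2 := pow_le_pow_of_le_one h0 h1 h
    nlinarith [pow_nonneg h0 a]

theorem lower {k e : ℕ} {B : Type*} [Fintype B] (use : B → Bool)
    (hB : Fintype.card B ≤ 3 * #{b | use b = true}) {η : ℝ} (h0 : 0 ≤ η) (h1 : η ≤ 1)
    (he : (1 - (1 - η) ^ 2 / 6) ^ e ≤ 1 / 2) :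
    (3 / 2 * ((Fintype.card B : ℝ) * (1 + η ^ 2)) ^ e) ^ k ≤
      ∑ β : Fin k × Fin e → B, ∑ γ, (η ^ 2) ^ dd (fun j => use (β j)) γ := by
  have h2 := sum_blocks fun (_ : Fin k) (c : Fin e → B × Bool) =>
    (η ^ 2) ^ min #{j | (c j).2 = true} #{j | (c j).2 ≠ use (c j).1}
  have h3 : ∑ β : Fin k × Fin e → B, ∑ γ, (η ^ 2) ^ dd (fun j => use (β j)) γ =
      ∑ c : Fin k × Fin e → B × Bool, ∏ i : Fin k,
        (η ^ 2) ^ min #{j | (c (i, j)).2 = true} #{j | (c (i, j)).2 ≠ use (c (i, j)).1} := by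
    rw [← Fintype.sum_prod_type']
    refine Fintype.sum_equiv (Equiv.arrowProdEquivProdArrow _ _ _).symm _ _ fun c => ?_
    rw [dd, ← prod_pow_eq_pow_sum]
    rfl
  rw [h3, h2, prod_const, card_univ, Fintype.card_fin]
  refine pow_le_pow_left₀ (by positivity) ?_ k
  refine le_trans ?_ (sum_le_sum fun c _ => pow_min_ge h0 h1 _ _)
  simp only [sum_sub_distrib, sum_add_distrib, pow_card_filter, ← prod_mul_distrib]
  rw [sum_prod_pi fun (_ : Fin e) (c : B × Bool) => if c.2 = true then η ^ 2 else 1,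
    sum_prod_pi fun (_ : Fin e) (c : B × Bool) => if c.2 ≠ use c.1 then η ^ 2 else 1,
    sum_prod_pi fun (_ : Fin e) (c : B × Bool) =>
      (if c.2 = true then η else 1) * if c.2 ≠ use c.1 then η else 1]
  have h4 : (∑ c : B × Bool, if c.2 = true then η ^ 2 else 1) =
      (Fintype.card B : ℝ) * (1 + η ^ 2) := by
    rw [Fintype.sum_prod_type]
    simp [add_comm, mul_add]
  have h5 : (∑ c : B × Bool, if c.2 ≠ use c.1 then η ^ 2 else 1) =
      (Fintype.card B : ℝ) * (1 + η ^ 2) := by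
    rw [Fintype.sum_prod_type]
    have h6 : ∀ b : B, (∑ t : Bool, if t ≠ use b then η ^ 2 else 1) = 1 + η ^ 2 := by
      intro b
      cases use b <;> simp [add_comm]
    simp only [h6]
    simp [mul_add]
  have h7 : (∑ c : B × Bool, (if c.2 = true then η else 1) * if c.2 ≠ use c.1 then η else 1) =
      (Fintype.card B : ℝ) * (1 + η ^ 2) - (#{b | use b = true} : ℝ) * (1 - η) ^ 2 := by
    rw [Fintype.sum_prod_type]
    have h6 : ∀ b : B, (∑ t : Bool, (if t = true then η else 1) * if t ≠ use b then η else 1) =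
        (1 + η ^ 2) - (if use b = true then 1 else 0) * (1 - η) ^ 2 := by
      intro b
      cases use b
      · simp
        ring
      · simp
        ring
    simp only [h6, sum_sub_distrib, ← sum_mul, sum_boole]
    simp [mul_add]
  rw [h4, h5, h7]
  simp only [prod_const, card_univ, Fintype.card_fin]
  have hB' : (Fintype.card B : ℝ) ≤ 3 * (#{b | use b = true} : ℝ) := by exact_mod_cast hB
  have hB2 : (#{b | use b = true} : ℝ) ≤ (Fintype.card B : ℝ) := by
    exact_mod_cast card_filter_le _ _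
  have hc : (0 : ℝ) ≤ (Fintype.card B : ℝ) := by positivity
  generalize (Fintype.card B : ℝ) = b at *
  generalize (#{b | use b = true} : ℝ) = u at *
  have h8 : b * (1 + η ^ 2) - u * (1 - η) ^ 2 ≤ b * (1 + η ^ 2) * (1 - (1 - η) ^ 2 / 6) := by
    have h9 : b * (1 + η ^ 2) ≤ 6 * u := by
      have h13 : η ^ 2 ≤ 1 := pow_le_one₀ h0 h1
      nlinarith [mul_le_mul_of_nonneg_left h13 hc]
    nlinarith [mul_le_mul_of_nonneg_right h9 (sq_nonneg (1 - η))]
  have h10 : 0 ≤ b * (1 + η ^ 2) - u * (1 - η) ^ 2 := by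
    nlinarith [mul_le_mul_of_nonneg_right hB2 (sq_nonneg (1 - η)), mul_nonneg hc h0]
  have h11 := pow_le_pow_left₀ h10 h8 e
  rw [mul_pow (b * (1 + η ^ 2))] at h11
  have h12 : 0 ≤ (b * (1 + η ^ 2)) ^ e := by positivity
  nlinarith [mul_le_mul_of_nonneg_left he h12]

end Pool.Agent.Lib.MP_8b1d3b_lc.D5
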