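import Mathlib
import Pool.Agent.Lib.MP_8b1d3b_lc.D5Count

set_option autoImplicit false

namespace Pool.Agent.Lib.MP_8b1d3b_lc.D5

open Finset

theorem sum_bad {F J : Type*} [Fintype F] [DecidableEq F] [Fintype J] [DecidableEq J]
    (Bad : Finset (J → F)) :
    ∑ β : J → Bool → F, #{ω : J → Bool | (fun j => β j (ω j)) ∈ Bad} =
      2 ^ Fintype.card J * (#Bad * Fintype.card F ^ Fintype.card J) := by
  simp only [card_filter]
  rw [sum_comm]
  have h : ∀ ω : J → Bool, (∑ β : J → Bool → F, if (fun j => β j (ω j)) ∈ Bad then 1 else 0) =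
      #Bad * Fintype.card F ^ Fintype.card J := by
    intro ω
    let ε : (J → Bool → F) ≃ (J → F) × (J → F) :=
      { toFun := fun β => (fun j => β j (ω j), fun j => β j (!ω j))
        invFun := fun a j t => if t = ω j then a.1 j else a.2 j
        left_inv := fun β => by
          funext j t
          cases t <;> cases h : ω j <;> simp [h]
        right_inv := fun a => by simp }
    rw [Fintype.sum_equiv ε (fun β => if (fun j => β j (ω j)) ∈ Bad then 1 else 0)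
      (fun a => if a.1 ∈ Bad then 1 else 0) fun β => rfl, Fintype.sum_prod_type]
    have h1 : ∀ x : J → F, (∑ _y : J → F, if x ∈ Bad then 1 else 0) =
        (if x ∈ Bad then 1 else 0) * Fintype.card F ^ Fintype.card J := by
      intro x
      split_ifs <;> simp
    rw [sum_congr rfl fun x _ => h1 x, ← sum_mul, sum_boole]
    simp
  simp only [h]
  simp

theorem averaged {F : Type*} [Fintype F] [DecidableEq F] [Nonempty F] {k e s D : ℕ}
    (use : (Bool → F) → Bool) (huse : Fintype.card (Bool → F) ≤ 3 * #{b | use b = true})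
    (Bad : Finset (Fin k × Fin e → F))
    (h : ∀ (β : Fin k × Fin e → Bool → F) (l : ℕ), #{γ | dd (fun j => use (β j)) γ = l} ≤
      s * #{γ : Fin k × Fin e → Bool | wt γ ≤ D + l} +
        #{ω : Fin k × Fin e → Bool | (fun j => β j (ω j)) ∈ Bad})
    {η κ : ℝ} (h0 : 0 < η) (h1 : η ≤ 1) (he : (1 - (1 - η) ^ 2 / 6) ^ e ≤ 1 / 2) (hκ : 0 < κ) :
    (3 / 2 * (1 + η ^ 2) ^ e) ^ k ≤
      (((k * e : ℕ) : ℝ) + 1) * (s * (1 + η ^ 2) ^ (k * e) / (η ^ 2) ^ D +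
        κ * (2 ^ (k * e) * (#Bad / (Fintype.card F : ℝ) ^ (k * e))) / 2) +
      (2 * (1 + (η ^ 2) ^ 2) ^ e) ^ k / (2 * κ) := by
  have hθ : 0 < η ^ 2 := by positivity
  have hθ1 : η ^ 2 ≤ 1 := pow_le_one₀ h0.le h1
  have h2 : ∀ β : Fin k × Fin e → Bool → F, ∑ γ, (η ^ 2) ^ dd (fun j => use (β j)) γ ≤
      (((k * e : ℕ) : ℝ) + 1) * (s * (1 + η ^ 2) ^ (k * e) / (η ^ 2) ^ D +
        κ * (#{ω : Fin k × Fin e → Bool | (fun j => β j (ω j)) ∈ Bad} : ℝ) / 2) +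
      (2 * (1 + (η ^ 2) ^ 2) ^ e) ^ k / (2 * κ) := by
    intro β
    refine le_trans (levels _ (dd_le _) hθ.le hκ (Nat.cast_nonneg _)
      (fun l => s * (#{γ : Fin k × Fin e → Bool | wt γ ≤ D + l} : ℝ)) (fun l => by positivity)
      (A := s * (1 + η ^ 2) ^ (k * e) / (η ^ 2) ^ D) (fun l => ?_)
      fun l => by exact_mod_cast h β l) ?_
    · have h3 := ball_le (J := Fin k × Fin e) hθ.le hθ1 (D + l)
      simp only [Fintype.card_prod, Fintype.card_fin] at h3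
      rw [le_div_iff₀ (by positivity)]
      calc _ = s * ((η ^ 2) ^ (D + l) * (#{γ : Fin k × Fin e → Bool | wt γ ≤ D + l} : ℝ)) := by
            ring
        _ ≤ _ := by gcongr
    · gcongr
      exact upper _ (by positivity)
  have h3 := le_trans (lower use huse h0.le h1 he) (sum_le_sum fun β _ => h2 β)
  have h4 : ∑ β : Fin k × Fin e → Bool → F,
      (#{ω : Fin k × Fin e → Bool | (fun j => β j (ω j)) ∈ Bad} : ℝ) =
      2 ^ (k * e) * (#Bad * (Fintype.card F : ℝ) ^ (k * e)) := by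
    have h5 := sum_bad Bad
    simp only [Fintype.card_prod, Fintype.card_fin] at h5
    exact_mod_cast h5
  simp only [sum_add_distrib, ← mul_sum, ← sum_div, sum_const, card_univ, Fintype.card_fun,
    Fintype.card_prod, Fintype.card_fin, Fintype.card_bool, nsmul_eq_mul, h4] at h3
  have hq : (0 : ℝ) < (Fintype.card F : ℝ) ^ (k * e) := by
    have := Fintype.card_pos (α := F)
    positivity
  have h6 : (3 / 2 * (((Fintype.card F ^ 2 : ℕ) : ℝ) * (1 + η ^ 2)) ^ e) ^ k =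
      ((Fintype.card F : ℝ) ^ (k * e)) ^ 2 * (3 / 2 * (1 + η ^ 2) ^ e) ^ k := by
    push_cast
    simp only [mul_pow, ← pow_mul]
    ring
  have h7 : (((Fintype.card F ^ 2) ^ (k * e) : ℕ) : ℝ) = ((Fintype.card F : ℝ) ^ (k * e)) ^ 2 := by
    push_cast
    rw [← pow_mul, ← pow_mul, mul_comm]
  rw [h6, h7] at h3
  generalize (Fintype.card F : ℝ) ^ (k * e) = Q at *
  refine le_of_mul_le_mul_left (le_trans h3 (le_of_eq ?_)) (pow_pos hq 2)
  field_simp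

theorem final_step {k : ℕ} {a b c x B n s M : ℝ} (ha : 0 < a) (hb : 0 < b) (hc : 0 ≤ c)
    (hn : 0 ≤ n) (hs : 0 ≤ s) (hM : 0 ≤ M) (hx : (4 / 5) ^ k ≤ x) (hbc : c * b ≤ 2 ^ 11 * a ^ 2)
    (hB : B ≤ M * (2 / 2 ^ 13) ^ k)
    (h : ∀ κ : ℝ, 0 < κ → (3 / 2 * a) ^ k ≤
      n * (s * a ^ k / x + κ * (c ^ k * B) / 2) + (2 * b) ^ k / (2 * κ)) :
    (6 / 5 : ℝ) ^ k ≤ 2 * n * (s + M) := by
  have h1 := h ((2 * b) ^ k / (3 / 2 * a) ^ k) (by positivity)
  have h2 : (2 * b) ^ k / (2 * ((2 * b) ^ k / (3 / 2 * a) ^ k)) = (3 / 2 * a) ^ k / 2 := by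
    field_simp
  have h3 : s * a ^ k / x ≤ s * (5 / 4 * a) ^ k := by
    rw [div_le_iff₀ (lt_of_lt_of_le (by positivity) hx)]
    calc s * a ^ k = s * (5 / 4 * a) ^ k * (4 / 5) ^ k := by
          rw [mul_assoc, ← mul_pow]
          congr 2
          ring
      _ ≤ _ := by gcongr
  have h4 : (2 * b) ^ k / (3 / 2 * a) ^ k * (c ^ k * B) ≤ M * (5 / 4 * a) ^ k := by
    calc _ ≤ (2 * b) ^ k / (3 / 2 * a) ^ k * (c ^ k * (M * (2 / 2 ^ 13) ^ k)) := by gcongr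
      _ = M * (2 * b / (3 / 2 * a) * c * (2 / 2 ^ 13)) ^ k := by
          simp only [mul_pow, div_pow]
          ring
      _ ≤ _ := by
          have h8 : 2 * b / (3 / 2 * a) * c * (2 / 2 ^ 13) = c * b / (3072 * a) := by
            field_simp
            ring
          have h9 : c * b / (3072 * a) ≤ 5 / 4 * a := by
            rw [div_le_iff₀ (by positivity)]
            nlinarith [sq_nonneg a]
          rw [h8]
          gcongr
  have h5 : (3 / 2 * a) ^ k = (6 / 5) ^ k * (5 / 4 * a) ^ k := by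
    rw [← mul_pow]
    congr 1
    ring
  have h6 : 0 < (5 / 4 * a) ^ k := by positivity
  rw [h2] at h1
  have h7 : n * (s * a ^ k / x + (2 * b) ^ k / (3 / 2 * a) ^ k * (c ^ k * B) / 2) ≤
      n * ((s + M) * (5 / 4 * a) ^ k) := by
    gcongr
    nlinarith [mul_nonneg hM h6.le]
  refine le_of_mul_le_mul_right ?_ h6
  nlinarith

theorem one_sub_pow_le {x : ℝ} (h0 : 0 ≤ x) (h1 : x ≤ 1) {m : ℕ} (hm : 1 ≤ m * x) :
    (1 - x) ^ m ≤ 1 / 2 := by
  have h2 : 1 + m * x ≤ (1 + x) ^ m := one_add_mul_le_pow (by linarith) m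
  have h3 : (1 - x) ^ m * (1 + x) ^ m ≤ 1 := by
    rw [← mul_pow]
    exact pow_le_one₀ (by nlinarith) (by nlinarith)
  have h4 : 0 ≤ (1 - x) ^ m := pow_nonneg (by linarith) m
  nlinarith [mul_le_mul_of_nonneg_left (show (2 : ℝ) ≤ (1 + x) ^ m by linarith) h4]

theorem block_bound {N : ℕ} (hN : 20 ≤ N) :
    (2 : ℝ) ^ (6 * N ^ 2) * (1 + ((1 - 1 / (N : ℝ)) ^ 2) ^ 2) ^ (6 * N ^ 2) ≤
      2 ^ 11 * ((1 + (1 - 1 / (N : ℝ)) ^ 2) ^ (6 * N ^ 2)) ^ 2 := by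
  have hN' : (20 : ℝ) ≤ N := by exact_mod_cast hN
  have hδ0 : 0 < 1 / (N : ℝ) := by positivity
  have hδ : 1 / (N : ℝ) ≤ 1 / 20 := one_div_le_one_div_of_le (by norm_num) hN'
  have hδN : (1 / (N : ℝ)) ^ 2 * (N : ℝ) ^ 2 = 1 := by field_simp
  generalize 1 / (N : ℝ) = δ at *
  have h1 : 2 * (1 + ((1 - δ) ^ 2) ^ 2) ≤ Real.exp (7 / 6 * δ ^ 2) * (1 + (1 - δ) ^ 2) ^ 2 := by
    refine le_trans ?_ (mul_le_mul_of_nonneg_right (Real.add_one_le_exp _) (by positivity))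
    have h2 : 6 * (2 - δ) ^ 2 ≤ 7 * (1 + (1 - δ) ^ 2) ^ 2 := by
      have h3 : 19 / 10 ≤ 1 + (1 - δ) ^ 2 := by nlinarith
      nlinarith
    nlinarith [mul_le_mul_of_nonneg_left h2 (sq_nonneg δ)]
  have h4 : Real.exp (7 / 6 * δ ^ 2) ^ (6 * N ^ 2) ≤ 2 ^ 11 := by
    rw [← Real.exp_nat_mul]
    have h5 : ((6 * N ^ 2 : ℕ) : ℝ) * (7 / 6 * δ ^ 2) = (7 : ℕ) * 1 := by
      push_cast
      linear_combination 7 * hδN
    rw [h5, Real.exp_nat_mul]
    calc _ ≤ (2.7182818286 : ℝ) ^ 7 := by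
          gcongr
          exact Real.exp_one_lt_d9.le
      _ ≤ _ := by norm_num
  calc _ = (2 * (1 + ((1 - δ) ^ 2) ^ 2)) ^ (6 * N ^ 2) := by rw [mul_pow]
    _ ≤ (Real.exp (7 / 6 * δ ^ 2) * (1 + (1 - δ) ^ 2) ^ 2) ^ (6 * N ^ 2) := by gcongr
    _ = Real.exp (7 / 6 * δ ^ 2) ^ (6 * N ^ 2) * ((1 + (1 - δ) ^ 2) ^ (6 * N ^ 2)) ^ 2 := by
        rw [mul_pow, ← pow_mul, ← pow_mul, mul_comm 2]
    _ ≤ _ := by gcongr

end Pool.Agent.Lib.MP_8b1d3b_lc.D5
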