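import Mathlib
import Pool.Agent.Lib.MP_8b1d3b_lc.D5Filt

set_option autoImplicit false

namespace Pool.Agent.Lib.MP_8b1d3b_lc.D5

open Finset MvPolynomial

section

variable {F : Type*} [Field F] {J σ : Type*}

/-- Families of polynomials whose coefficient of `x ^ μ` has degree at most `a + c * |μ|`. -/
def W (a c : ℕ) (P : (J → Bool) → MvPolynomial σ F) : Prop :=
  ∀ μ : σ →₀ ℕ, (fun ω => coeff μ (P ω)) ∈ V F J (a + c * μ.degree)

theorem W_mul {a b c : ℕ} {P Q : (J → Bool) → MvPolynomial σ F} (hP : W a c P) (hQ : W b c Q) :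
    W (a + b) c (P * Q) := by
  classical
  intro μ
  have h : (fun ω => coeff μ ((P * Q) ω)) = ∑ p ∈ antidiagonal μ,
      (fun ω => coeff p.1 (P ω)) * fun ω => coeff p.2 (Q ω) := by
    funext ω
    simp [coeff_mul, Finset.sum_apply]
  rw [h]
  refine Submodule.sum_mem _ fun p hp => V_mono (le_of_eq ?_) (V_mul (hP p.1) (hQ p.2))
  rw [← mem_antidiagonal.1 hp, map_add]
  ring

theorem W_C {a c : ℕ} {u : (J → Bool) → F} (hu : u ∈ V F J a) :
    W (σ := σ) a c fun ω => C (u ω) := by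
  classical
  intro μ
  by_cases h : μ = 0
  · subst h
    simpa using hu
  · have h1 : (fun ω => coeff μ (C (u ω) : MvPolynomial σ F)) = 0 := by
      funext ω
      simp [coeff_C, Ne.symm h]
    rw [h1]
    exact Submodule.zero_mem _

theorem W_prod {ι : Type*} (s : Finset ι) {a c : ℕ} (P : ι → (J → Bool) → MvPolynomial σ F)
    (h : ∀ i ∈ s, W a c (P i)) : W (#s * a) c (∏ i ∈ s, P i) := by
  classical
  induction s using Finset.induction_on with
  | empty =>
    have h1 := W_C (σ := σ) (c := c) (one_mem_V (F := F) (J := J) 0)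
    simp only [Pi.one_apply, map_one] at h1
    simpa using (show W 0 c (1 : (J → Bool) → MvPolynomial σ F) from h1)
  | insert i s hi ih =>
    rw [prod_insert hi, card_insert_of_notMem hi, add_mul, one_mul, add_comm]
    exact W_mul (h i (mem_insert_self _ _)) (ih fun j hj => h j (mem_insert_of_mem hj))

theorem prod_mem_pow {A ι : Type*} [CommRing A] (I : Ideal A) {s t : Finset ι} (hts : t ⊆ s)
    (f : ι → A) (hf : ∀ i ∈ t, f i ∈ I) {m : ℕ} (hm : m ≤ #t) : ∏ i ∈ s, f i ∈ I ^ m := by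
  classical
  rw [← prod_sdiff hts]
  refine Ideal.mul_mem_left _ _ (Ideal.pow_le_pow_right hm ?_)
  rw [← prod_const]
  exact Ideal.prod_mem_prod hf

theorem mem_idealOfVars {p : MvPolynomial σ F} (h : coeff 0 p = 0) : p ∈ idealOfVars σ F := by
  have h1 := (mem_pow_idealOfVars_iff' 1 p).2 fun x hx => by
    have h2 : x = 0 := (Finsupp.degree_eq_zero_iff x).1 (by omega)
    rw [h2, h]
  simpa using h1

theorem prod_coeff [Fintype F] (hF : 3 ≤ Fintype.card F) {ι : Type*} (s : Finset ι) {τ : ℕ}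
    (γ : ι → (J → Bool) → MvPolynomial σ F)
    (hγ : ∀ j ∈ s, ∀ μ, (fun ω => coeff μ (γ j ω)) ∈ V F J τ) (k : ℕ) :
    ∃ T : (J → Bool) → F, ∀ μ : σ →₀ ℕ, μ.degree = k →
      ∃ w ∈ V F J (2 * k * (Fintype.card F * τ)),
        ∀ ω, coeff μ (∏ j ∈ s, γ j ω) = T ω * w ω := by
  classical
  obtain ⟨r, hr⟩ : ∃ r, Fintype.card F = r + 3 := ⟨Fintype.card F - 3, by omega⟩
  let g : ι → (J → Bool) → F := fun j ω => coeff 0 (γ j ω)
  let u : ι → (J → Bool) → F := fun j => 1 - g j ^ (r + 2)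
  let v : ι → (J → Bool) → F := fun j => g j ^ (r + 1) + u j
  let a : ι → (J → Bool) → MvPolynomial σ F := fun j ω =>
    1 + C (v j ω) * (γ j ω - C (g j ω))
  have hpow : ∀ x : F, x ≠ 0 → x ^ (r + 2) = 1 := fun x hx => by
    have h := FiniteField.pow_card_sub_one_eq_one x hx
    rwa [hr] at h
  have hu0 : ∀ j ω, g j ω ≠ 0 → u j ω = 0 := fun j ω h => by simp [u, hpow _ h]
  have hfac : ∀ j ω, γ j ω = C (g j ω + u j ω) * (C (-u j ω) + a j ω) := by
    intro j ω
    by_cases h : g j ω = 0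
    · simp [a, v, u, h]
    · have h1 : (C (g j ω) : MvPolynomial σ F) * C (g j ω) ^ (r + 1) = 1 := by
        rw [← pow_succ', ← map_pow, hpow _ h, map_one]
      simp only [a, v, Pi.add_apply, Pi.pow_apply, hu0 j ω h, add_zero, neg_zero, map_zero,
        zero_add, map_pow]
      linear_combination (C (g j ω) - γ j ω) * h1
  have hu : ∀ j ∈ s, u j ∈ V F J ((r + 2) * τ) := fun j hj =>
    Submodule.sub_mem _ (one_mem_V _) (pow_mem_V (hγ j hj 0) _)
  have hv : ∀ j ∈ s, v j ∈ V F J ((r + 2) * τ) := fun j hj =>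
    Submodule.add_mem _ (V_mono (Nat.mul_le_mul_right _ (by omega)) (pow_mem_V (hγ j hj 0) _))
      (hu j hj)
  have ha : ∀ j ∈ s, W 0 ((r + 3) * τ) (a j) := by
    intro j hj μ
    by_cases h : μ = 0
    · subst h
      have h1 : (fun ω => coeff 0 (a j ω)) = 1 := by
        funext ω
        simp [a, g, coeff_C_mul]
      rw [h1]
      exact one_mem_V _
    · have h1 : (fun ω => coeff μ (a j ω)) = v j * fun ω => coeff μ (γ j ω) := by
        funext ω
        simp [a, coeff_C_mul, coeff_C, coeff_one, Ne.symm h]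
      rw [h1]
      refine V_mono ?_ (V_mul (hv j hj) (hγ j hj μ))
      have h2 : 1 ≤ μ.degree := Nat.one_le_iff_ne_zero.2 fun h3 =>
        h ((Finsupp.degree_eq_zero_iff μ).1 h3)
      nlinarith [Nat.mul_le_mul_left ((r + 3) * τ) h2]
  let Φ : Finset ι → (J → Bool) → MvPolynomial σ F := fun t =>
    (∏ j ∈ t, fun ω => C (-u j ω)) * ∏ j ∈ s \ t, a j
  refine ⟨fun ω => if #{j ∈ s | g j ω = 0} ≤ k then ∏ j ∈ s, (g j ω + u j ω) else 0,
    fun μ hμ => ⟨∑ t ∈ s.powerset with #t ≤ k, fun ω => coeff μ (Φ t ω), ?_, fun ω => ?_⟩⟩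
  · refine Submodule.sum_mem _ fun t ht => ?_
    obtain ⟨ht1, ht2⟩ := mem_filter.1 ht
    have h1 := W_prod (σ := σ) t (c := (r + 3) * τ) (fun j ω => C (-u j ω)) fun j hj =>
      W_C (u := -u j) (Submodule.neg_mem _ (hu j (mem_powerset.1 ht1 hj)))
    have h2 := W_prod (s \ t) a fun j hj => ha j (mem_sdiff.1 hj).1
    refine V_mono ?_ (W_mul h1 h2 μ)
    rw [hμ, hr]
    nlinarith [Nat.mul_le_mul_right ((r + 2) * τ) ht2, Nat.zero_le (k * τ)]
  · beta_reduce
    split_ifs with hk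
    · rw [prod_congr rfl fun j _ => hfac j ω, prod_mul_distrib, ← map_prod, coeff_C_mul]
      congr 1
      rw [prod_add, coeff_sum, Finset.sum_apply, sum_filter]
      refine sum_congr rfl fun t ht => ?_
      split_ifs with htk
      · simp [Φ, Finset.prod_apply]
      · have h1 : ¬ t ⊆ {j ∈ s | g j ω = 0} := fun h => htk (le_trans (card_le_card h) hk)
        obtain ⟨j, hj1, hj2⟩ := not_subset.1 h1
        have h2 : g j ω ≠ 0 := fun h => hj2 (mem_filter.2 ⟨mem_powerset.1 ht hj1, h⟩)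
        rw [prod_eq_zero hj1 (by rw [hu0 j ω h2]; simp)]
        simp
    · rw [zero_mul]
      have h1 := prod_mem_pow (idealOfVars σ F) (filter_subset (fun j => g j ω = 0) s)
        (fun j => γ j ω) (fun j hj => mem_idealOfVars (mem_filter.1 hj).2) (m := k + 1) (by omega)
      exact (mem_pow_idealOfVars_iff' _ _).1 h1 μ (by omega)

end

end Pool.Agent.Lib.MP_8b1d3b_lc.D5
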