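import Mathlib

set_option autoImplicit false

namespace Pool.Agent.Lib.MP_8b1d3b_lc.D5

open Finset

section

variable {F : Type*} [Field F]

theorem pi_surjective {M : Type*} [AddCommGroup M] [Module F M] {τ : ℕ}
    (l : Fin τ → M →ₗ[F] F) (hl : LinearIndependent F l) :
    Function.Surjective (LinearMap.pi l) := by
  rw [← LinearMap.range_eq_top]
  by_contra h
  obtain ⟨f, hf0, hf⟩ := Submodule.exists_le_ker_of_lt_top _ (lt_top_iff_ne_top.2 h)
  apply hf0
  have h1 : ∑ i, f (Pi.single i 1) • l i = 0 := by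
    ext z
    have h2 : f (LinearMap.pi l z) = 0 := hf ⟨z, rfl⟩
    rw [pi_eq_sum_univ' (LinearMap.pi l z), map_sum] at h2
    simpa [mul_comm] using h2
  have h3 := Fintype.linearIndependent_iff.1 hl _ h1
  ext i
  simpa using h3 i

variable [Fintype F] [DecidableEq F]

theorem few_zeros {τ : ℕ} (c : Fin τ → F) (k : ℕ) :
    (#{y : Fin τ → F | #{i | y i + c i = 0} ≤ k} : ℝ) ≤
      2 ^ k * ((Fintype.card F : ℝ) - 1 / 2) ^ τ := by
  have h1 : ∀ i : Fin τ, ∑ x : F, (if x + c i = 0 then (1 / 2 : ℝ) else 1) =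
      (Fintype.card F : ℝ) - 1 / 2 := by
    intro i
    have h2 : ∀ x : F, (if x + c i = 0 then (1 / 2 : ℝ) else 1) =
        1 - if x = -c i then 1 / 2 else 0 := by
      intro x
      simp only [add_eq_zero_iff_eq_neg]
      split_ifs <;> norm_num
    simp only [h2, sum_sub_distrib, sum_ite_eq', mem_univ, if_true]
    simp
  have h3 : ((Fintype.card F : ℝ) - 1 / 2) ^ τ =
      ∑ y : Fin τ → F, ∏ i, (if y i + c i = 0 then (1 / 2 : ℝ) else 1) := by
    rw [← Fintype.piFinset_univ, ← prod_univ_sum (fun _ => univ)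
      fun i (x : F) => if x + c i = 0 then (1 / 2 : ℝ) else 1]
    simp only [h1]
    simp
  rw [h3, mul_sum, card_filter]
  push_cast
  refine sum_le_sum fun y _ => ?_
  rw [prod_ite, prod_const_one, mul_one, prod_const]
  split_ifs with h
  · rw [one_div, inv_pow, ← div_eq_mul_inv, one_le_div (by positivity)]
    exact pow_le_pow_right₀ (by norm_num) h
  · positivity

theorem dichotomy {J ι : Type*} [Fintype J] [DecidableEq J] [Fintype ι]
    (lam : ι → (J → F) →ₗ[F] F) (c : ι → F) (τ k : ℕ) :
    (∃ L : Fin τ → (J → F) →ₗ[F] F, ∀ z z', (∀ i, L i z = L i z') → ∀ m, lam m z = lam m z') ∨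
      (#{z : J → F | #{m | lam m z + c m = 0} ≤ k} : ℝ) * (Fintype.card F : ℝ) ^ τ ≤
        2 ^ k * ((Fintype.card F : ℝ) - 1 / 2) ^ τ * (Fintype.card F : ℝ) ^ Fintype.card J := by
  classical
  obtain ⟨κ, a, ha, hsp, hli⟩ := exists_linearIndependent' F lam
  have : Fintype κ := Fintype.ofInjective a ha
  by_cases hκ : Fintype.card κ ≤ τ
  · left
    obtain ⟨e⟩ : Nonempty (κ ↪ Fin τ) := Function.Embedding.nonempty_of_card_le (by simpa using hκ)
    refine ⟨Function.extend e (lam ∘ a) 0, fun z z' h m => ?_⟩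
    have h1 : lam m ∈ Submodule.span F (Set.range (lam ∘ a)) := by
      rw [hsp]
      exact Submodule.subset_span ⟨m, rfl⟩
    refine Submodule.span_induction (p := fun l _ => l z = l z') ?_ (by simp) ?_ ?_ h1
    · rintro _ ⟨x, rfl⟩
      have h2 := h (e x)
      rwa [e.injective.extend_apply] at h2
    · intro x y _ _ hx hy
      simp [hx, hy]
    · intro r x _ hx
      simp [hx]
  · right
    obtain ⟨e⟩ : Nonempty (Fin τ ↪ κ) :=
      Function.Embedding.nonempty_of_card_le (by simpa using (not_le.1 hκ).le)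
    have hs := pi_surjective _ (hli.comp e e.injective)
    set Λ := LinearMap.pi ((lam ∘ a) ∘ e) with hΛ
    have hfib : ∀ y : Fin τ → F, #{z | Λ z = y} = #{z | Λ z = 0} := fun y =>
      AddMonoidHom.card_fiber_eq_of_mem_range Λ (hs y) (hs 0)
    have hcount : ∀ Y : Finset (Fin τ → F), #{z | Λ z ∈ Y} = #Y * #{z | Λ z = 0} := by
      intro Y
      rw [card_eq_sum_card_fiberwise (f := Λ) (s := {z | Λ z ∈ Y}) (t := Y)
          fun z hz => (mem_filter.1 hz).2,
        ← smul_eq_mul, ← sum_const]
      refine sum_congr rfl fun y hy => ?_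
      rw [← hfib y, filter_filter]
      congr 1
      ext z
      simp only [mem_filter, mem_univ, true_and, and_iff_right_iff_imp]
      rintro rfl
      exact hy
    have htot := hcount univ
    simp only [mem_univ, filter_true, card_univ, Fintype.card_fun, Fintype.card_fin] at htot
    have hle : #{z : J → F | #{m | lam m z + c m = 0} ≤ k} ≤
        #{z | Λ z ∈ ({y : Fin τ → F | #{i | y i + c (a (e i)) = 0} ≤ k} : Finset _)} := by
      refine card_le_card fun z hz => ?_
      simp only [mem_filter, mem_univ, true_and] at hz ⊢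
      refine le_trans ?_ hz
      refine card_le_card_of_injOn (fun i => a (e i)) (fun i hi => ?_)
        fun i _ j _ hij => e.injective (ha hij)
      simpa [hΛ] using hi
    rw [hcount] at hle
    have h4 := few_zeros (fun i => c (a (e i))) k
    have h5 : ((Fintype.card F : ℝ)) ^ Fintype.card J =
        (Fintype.card F : ℝ) ^ τ * (#{z | Λ z = 0} : ℝ) := by exact_mod_cast htot
    have h6 : (#{z : J → F | #{m | lam m z + c m = 0} ≤ k} : ℝ) ≤
        (#{y : Fin τ → F | #{i | y i + c (a (e i)) = 0} ≤ k} : ℝ) * (#{z | Λ z = 0} : ℝ) := by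
      exact_mod_cast hle
    rw [h5]
    calc _ ≤ (2 ^ k * ((Fintype.card F : ℝ) - 1 / 2) ^ τ * (#{z | Λ z = 0} : ℝ)) *
          (Fintype.card F : ℝ) ^ τ := by
          gcongr
          exact le_trans h6 (by gcongr)
      _ = _ := by ring

end

end Pool.Agent.Lib.MP_8b1d3b_lc.D5
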