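import Mathlib
import Pool.Agent.Lib.MP_8b1d3b_lc.D5Prod
import Pool.Agent.Lib.MP_8b1d3b_lc.D5Rank
import Pool.Agent.Lib.MP_8b1d3b_lc.D5Count

set_option autoImplicit false

namespace Pool.Agent.Lib.MP_8b1d3b_lc.D5

open Finset MvPolynomial

section

variable {F : Type*} [Field F]

theorem coeff_blocks {k : ℕ} (m : Fin k → F) (α : Fin k → Bool) :
    coeff (∑ i, Finsupp.single (i, α i) 1)
      (∏ i, (X (i, false) + X (i, true) * C (m i)) : MvPolynomial (Fin k × Bool) F) =
      ∏ i, if α i = true then m i else 1 := by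
  have h1 : ∀ i, (X (i, false) + X (i, true) * C (m i) : MvPolynomial (Fin k × Bool) F) =
      ∑ b : Bool, monomial (Finsupp.single (i, b) 1) (if b = true then m i else 1) := by
    intro i
    rw [Fintype.sum_bool, add_comm, mul_comm]
    simp [X, C_mul_monomial]
  simp only [h1]
  rw [prod_univ_sum, Fintype.piFinset_univ, coeff_sum, sum_eq_single α]
  · rw [← monomial_sum_prod, coeff_monomial, if_pos rfl]
  · intro α' _ hα
    rw [← monomial_sum_prod, coeff_monomial, if_neg]
    intro h
    obtain ⟨i, hi⟩ := Function.ne_iff.1 hα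
    have h2 := DFunLike.congr_fun h (i, α i)
    rw [Finsupp.finsetSum_apply, Finsupp.finsetSum_apply, sum_eq_zero, sum_eq_single i] at h2
    · simp at h2
    · intro j _ hj
      simp [Finsupp.single_apply, hj]
    · simp
    · intro j _
      rw [Finsupp.single_apply, if_neg]
      intro h3
      obtain ⟨rfl, h4⟩ := Prod.mk.inj h3
      exact hi h4
  · simp

theorem linear_mem_V {J : Type*} [Fintype J] [DecidableEq J] (L : (J → F) →ₗ[F] F)
    (β : J → Bool → F) : (fun ω : J → Bool => L fun j => β j (ω j)) ∈ V F J 1 := by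
  have h : (fun ω : J → Bool => L fun j => β j (ω j)) =
      ∑ j, fun ω : J → Bool => β j (ω j) * L fun i => if j = i then 1 else 0 := by
    funext ω
    rw [L.pi_apply_eq_sum_univ, Finset.sum_apply]
    rfl
  rw [h]
  exact Submodule.sum_mem _ fun j _ =>
    coord_mem_V j fun t => β j t * L fun i => if j = i then 1 else 0

theorem prod_sub_mem {A ι : Type*} [CommRing A] (I : Ideal A) (s : Finset ι) (f g : ι → A)
    (h : ∀ i ∈ s, f i - g i ∈ I) : ∏ i ∈ s, f i - ∏ i ∈ s, g i ∈ I := by
  rw [← Ideal.Quotient.eq, map_prod, map_prod]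
  exact prod_congr rfl fun i hi => Ideal.Quotient.eq.2 (h i hi)

/-- The monomial of `γ` is a coefficient of the hard polynomial times a function of low degree. -/
theorem exists_shift [DecidableEq F] {k e : ℕ} (y : Fin k × Fin e → Bool → F)
    (hy : ∀ j t, y j t ≠ 0) (γ : Fin k × Fin e → Bool) :
    ∃ (α : Fin k → Bool) (v : (Fin k × Fin e → Bool) → F),
      v ∈ V F (Fin k × Fin e) (dd (fun j => decide (y j false ≠ y j true)) γ) ∧
      ∀ ω, E (fun j t => if y j false ≠ y j true then y j t else if t = true then 1 else 0) γ ω =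
        (∏ i, if α i = true then ∏ j, y (i, j) (ω (i, j)) else 1) * v ω := by
  let U : Fin k × Fin e → Bool := fun j => decide (y j false ≠ y j true)
  let Y : Fin k × Fin e → Bool → F := fun j t =>
    if y j false ≠ y j true then y j t else if t = true then 1 else 0
  let α : Fin k → Bool := fun i => decide (#{j | γ (i, j) ≠ U (i, j)} ≤ #{j | γ (i, j) = true})
  let φ : Fin k × Fin e → Bool → F := fun j t =>
    (if γ j = true then Y j t else 1) * (if α j.1 = true then y j t else 1)⁻¹
  refine ⟨α, ∏ j, fun ω => φ j (ω j), ?_, fun ω => ?_⟩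
  · have h1 := prod_mem_V (F := F) univ (fun j (ω : Fin k × Fin e → Bool) => φ j (ω j))
      (fun j => if γ j ≠ (α j.1 && U j) then 1 else 0) fun j _ => by
        split_ifs with h
        · exact coord_mem_V j (φ j)
        · have h2 : ∀ t, φ j t = φ j false := by
            intro t
            rw [not_not] at h
            by_cases h3 : y j false = y j true
            · have h4 : y j t = y j false := by cases t <;> simp [h3]
              simp [φ, h, U, h3, h4]
            · cases h5 : α j.1 <;> simp [φ, h, U, Y, h3, h5, hy]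
          simp only [h2]
          exact const_mem_V 0 _
    refine V_mono (le_of_eq ?_) h1
    rw [Fintype.sum_prod_type, dd]
    refine sum_congr rfl fun i _ => ?_
    by_cases h : #{j | γ (i, j) ≠ U (i, j)} ≤ #{j | γ (i, j) = true}
    · have h2 : α i = true := decide_eq_true h
      rw [min_eq_right h, card_filter]
      simp [h2]
    · have h2 : α i = false := decide_eq_false h
      rw [min_eq_left (not_le.1 h).le, card_filter]
      simp [h2]
  · have h1 : (∏ i, if α i = true then ∏ j, y (i, j) (ω (i, j)) else 1) =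
        ∏ j : Fin k × Fin e, if α j.1 = true then y j (ω j) else 1 := by
      rw [Fintype.prod_prod_type]
      refine prod_congr rfl fun i _ => ?_
      split_ifs <;> simp
    rw [h1, Finset.prod_apply, ← prod_mul_distrib]
    refine prod_congr rfl fun j _ => ?_
    have h2 : (if α j.1 = true then y j (ω j) else 1) ≠ 0 := by
      split_ifs
      exacts [hy _ _, one_ne_zero]
    simp only [φ]
    rw [mul_left_comm, mul_inv_cancel₀ h2, mul_one]

theorem core [Fintype F] [DecidableEq F] (hF : 3 ≤ Fintype.card F) {k e s M : ℕ} (τ : ℕ)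
    (u : F → F) (hu : ∀ x, u x ≠ 0) {r : Fin M → ℕ} {w : Fin s → ℕ}
    (lam : (l : Fin M) → Fin (r l) → (Fin k × Fin e → F) →ₗ[F] F)
    (p : (l : Fin M) → Fin (r l) → MvPolynomial (Fin k × Bool) F)
    (cf : (i : Fin s) → Fin (w i) → Fin M → F)
    (h : ∀ z : Fin k × Fin e → F,
      ∑ i, ∏ j, ∑ l, cf i j l • ∏ m, (C (lam l m z) + p l m) =
        ∏ i, (X (i, false) + X (i, true) * C (∏ j, u (z (i, j))))) :
    ∃ Bad : Finset (Fin k × Fin e → F),
      (#Bad : ℝ) * (Fintype.card F : ℝ) ^ τ ≤
        M * (2 ^ k * ((Fintype.card F : ℝ) - 1 / 2) ^ τ * (Fintype.card F : ℝ) ^ (k * e)) ∧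
      ∀ (β : Fin k × Fin e → Bool → F) (l : ℕ),
        #{γ | dd (fun j => decide (u (β j false) ≠ u (β j true))) γ = l} ≤
          s * #{γ : Fin k × Fin e → Bool |
            wt γ ≤ 2 * k * (Fintype.card F * (Fintype.card F * τ)) + l} +
          #{ω : Fin k × Fin e → Bool | (fun j => β j (ω j)) ∈ Bad} := by
  classical
  let Low : Fin M → Prop := fun l => ∃ L : Fin τ → (Fin k × Fin e → F) →ₗ[F] F,
    ∀ z z', (∀ i, L i z = L i z') → ∀ m, lam l m z = lam l m z'
  let B : Fin M → Finset (Fin k × Fin e → F) := fun l =>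
    if Low l then ∅ else univ.filter fun z => #{m | lam l m z + coeff 0 (p l m) = 0} ≤ k
  refine ⟨univ.biUnion B, ?_, fun β l => ?_⟩
  · have h1 : (#(univ.biUnion B) : ℝ) ≤ ∑ l, (#(B l) : ℝ) := by exact_mod_cast card_biUnion_le
    refine le_trans (mul_le_mul_of_nonneg_right h1 (by positivity)) ?_
    rw [sum_mul]
    refine le_trans (sum_le_card_nsmul _ _ (2 ^ k * ((Fintype.card F : ℝ) - 1 / 2) ^ τ *
      (Fintype.card F : ℝ) ^ (k * e)) fun l _ => ?_) (by simp)
    by_cases hl : Low l
    · have h2 : (3 : ℝ) ≤ Fintype.card F := by exact_mod_cast hF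
      have h3 : (0 : ℝ) ≤ (Fintype.card F : ℝ) - 1 / 2 := by linarith
      simp only [B, if_pos hl, card_empty, Nat.cast_zero, zero_mul]
      positivity
    · have h2 := (dichotomy (lam l) (fun m => coeff 0 (p l m)) τ k).resolve_left hl
      simpa [B, if_neg hl] using h2
  · let pt : (Fin k × Fin e → Bool) → Fin k × Fin e → F := fun ω j => β j (ω j)
    let gl : (i : Fin s) → Fin (w i) → (Fin k × Fin e → Bool) → MvPolynomial (Fin k × Bool) F :=
      fun i j ω => ∑ l with Low l, cf i j l • ∏ m, (C (lam l m (pt ω)) + p l m)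
    have hgl : ∀ i j μ, (fun ω => coeff μ (gl i j ω)) ∈
        V F (Fin k × Fin e) (Fintype.card F * τ) := by
      intro i j μ
      have h1 : (fun ω => coeff μ (gl i j ω)) = ∑ l with Low l,
          cf i j l • fun ω => coeff μ (∏ m, (C (lam l m (pt ω)) + p l m)) := by
        funext ω
        simp [gl, coeff_sum, Finset.sum_apply]
      rw [h1]
      refine Submodule.sum_mem _ fun l hl => Submodule.smul_mem _ _ ?_
      obtain ⟨L, hL⟩ := (mem_filter.1 hl).2
      refine factor_mem_V (fun i ω => L i (pt ω)) (fun i => linear_mem_V (L i) β) _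
        fun ω ω' hω => ?_
      simp only [hL _ _ hω]
    choose T hT using fun i => prod_coeff hF univ (gl i) (fun j _ => hgl i j) k
    refine rank_ineq (Y := fun j t => if u (β j false) ≠ u (β j true) then u (β j t)
      else if t = true then 1 else 0) (fun j => ?_) _ _ T fun γ hγ => ?_
    · split_ifs with h1 <;> simp_all
    · obtain ⟨α, v, hv, hE⟩ := exists_shift (fun j t => u (β j t)) (fun j t => hu _) γ
      rw [(mem_filter.1 hγ).2] at hv
      have hdeg : (∑ i, Finsupp.single (i, α i) 1 : Fin k × Bool →₀ ℕ).degree = k := by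
        simp [map_sum]
      choose w' hw' hTw using fun i => hT i _ hdeg
      refine ⟨fun i => w' i * v, fun i => V_mul (hw' i) hv, fun ω hω => ?_⟩
      rw [hE ω, ← coeff_blocks (fun i => ∏ j, u (β (i, j) (ω (i, j)))) α, ← h (pt ω), coeff_sum,
        sum_mul]
      refine sum_congr rfl fun i _ => ?_
      beta_reduce
      rw [Pi.mul_apply, ← mul_assoc, ← hTw i ω]
      congr 1
      rw [← sub_eq_zero, ← coeff_sub]
      refine (mem_pow_idealOfVars_iff' (k + 1) _).1 (prod_sub_mem _ _ _ _ fun j _ => ?_) _
        (by omega)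
      simp only [gl]
      rw [← sum_filter_add_sum_filter_not univ Low, add_sub_cancel_left]
      refine Ideal.sum_mem _ fun l hl => ?_
      rw [smul_eq_C_mul]
      refine Ideal.mul_mem_left _ _ ?_
      have hl' := (mem_filter.1 hl).2
      have h2 : ¬ #{m | lam l m (pt ω) + coeff 0 (p l m) = 0} ≤ k := by
        intro h3
        apply hω
        simp only [mem_filter, mem_univ, true_and, mem_biUnion]
        exact ⟨l, by simpa [B, if_neg hl'] using h3⟩
      refine prod_mem_pow _ (filter_subset (fun m => lam l m (pt ω) + coeff 0 (p l m) = 0) univ) _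
        (fun m hm => mem_idealOfVars ?_) (by omega)
      simpa using (mem_filter.1 hm).2

end

end Pool.Agent.Lib.MP_8b1d3b_lc.D5
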