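import Mathlib
import Pool.Agent.Lib.MP_8b1d3b_lc.Minor

set_option autoImplicit false

namespace Pool.Agent.Lib.MP_8b1d3b_lc.H13

open Finset

section

variable {S : Type*} [CommRing S]
variable {ι κ ι' κ' : Type*} [Fintype ι] [Fintype κ] [DecidableEq ι] [DecidableEq κ]
  [Fintype ι'] [Fintype κ'] [DecidableEq ι'] [DecidableEq κ']

/-- The permanent of a matrix whose rows and columns have different index types. -/
def perm (M : ι → κ → S) : S := ∑ e : κ ≃ ι, ∏ c, M (e c) c

theorem perm_reindex (M : ι → κ → S) (e1 : ι' ≃ ι) (e2 : κ' ≃ κ) :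
    perm (fun r c => M (e1 r) (e2 c)) = perm M := by
  unfold perm
  refine Fintype.sum_equiv (Equiv.equivCongr e2 e1) _ _ fun e => ?_
  rw [← e2.prod_comp]
  simp

theorem perm_transpose (M : ι → κ → S) : perm (fun c r => M r c) = perm M := by
  unfold perm
  refine Fintype.sum_equiv ⟨Equiv.symm, Equiv.symm, fun _ => rfl, fun _ => rfl⟩ _ _ fun e => ?_
  rw [← e.prod_comp]
  simp

theorem perm_eq_permanent (M : Matrix ι ι S) : perm M = M.permanent := by
  unfold perm Matrix.permanent
  congr 1

theorem map_perm {S' F : Type*} [CommRing S'] [FunLike F S S'] [RingHomClass F S S'] (φ : F)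
    (M : ι → κ → S) : φ (perm M) = perm fun r c => φ (M r c) := by
  simp only [perm, map_sum, map_prod]

theorem perm_scale (M : ι → κ → S) (a : ι → S) (b : κ → S) :
    perm (fun r c => a r * M r c * b c) = (∏ r, a r) * (∏ c, b c) * perm M := by
  unfold perm
  rw [mul_sum]
  refine sum_congr rfl fun e _ => ?_
  rw [prod_mul_distrib, prod_mul_distrib, e.prod_comp a]
  ring

theorem perm_zero_row (M : ι → κ → S) (r : ι) (h : ∀ c, M r c = 0) : perm M = 0 := by
  unfold perm
  refine sum_eq_zero fun e _ => prod_eq_zero (mem_univ (e.symm r)) ?_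
  rw [e.apply_symm_apply, h]

theorem perm_swap {ι₂ : Type*} [Fintype ι₂] [DecidableEq ι₂] (M : ι → κ → S) (N : ι₂ → κ → S) :
    perm (Sum.elim M N) = perm (Sum.elim N M) := by
  rw [← perm_reindex (Sum.elim M N) (Equiv.sumComm _ _) (Equiv.refl _)]
  congr 1
  funext r c
  rcases r with r | r <;> rfl

theorem perm_isHomogeneous {σ P : Type*} [CommRing P] (M : ι → κ → MvPolynomial σ P)
    (a : ι → ℕ) (b : κ → ℕ) {d : ℕ} (hd : d + ∑ c, b c = ∑ r, a r)
    (h : ∀ r c, M r c = 0 ∨ ∃ e, e + b c = a r ∧ (M r c).IsHomogeneous e) :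
    (perm M).IsHomogeneous d := by
  unfold perm
  refine MvPolynomial.IsHomogeneous.sum _ _ _ fun e _ => ?_
  by_cases h0 : ∃ c, M (e c) c = 0
  · obtain ⟨c, hc⟩ := h0
    rw [prod_eq_zero (f := fun c => M (e c) c) (mem_univ c) hc]
    exact MvPolynomial.isHomogeneous_zero _ _ _
  · push Not at h0
    choose k hk1 hk2 using fun c => (h (e c) c).resolve_left (h0 c)
    have h1 := MvPolynomial.IsHomogeneous.prod univ (fun c => M (e c) c) k fun c _ => hk2 c
    have h2 : ∑ c, k c + ∑ c, b c = ∑ r, a r := by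
      rw [← sum_add_distrib, ← e.sum_comp a]
      exact sum_congr rfl fun c _ => hk1 c
    rwa [show ∑ c, k c = d by omega] at h1

theorem prod_sum_smul_eq_perm {A : Type*} [CommRing A] [Algebra S A]
    (h : Fintype.card κ = Fintype.card ι) (M : ι → κ → S) {x : ι → A}
    (hx : ∀ i, x i * x i = 0) : ∏ c, ∑ r, M r c • x r = perm M • ∏ r, x r := by
  let e : ι ≃ κ := Fintype.equivOfCardEq h.symm
  have h1 := prod_sum_smul_eq_permanent (Matrix.of fun r c : ι => M r (e c)) hx
  rw [← perm_eq_permanent] at h1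
  have h2 : perm (Matrix.of fun r c : ι => M r (e c)) = perm M :=
    perm_reindex M (Equiv.refl _) e
  rw [← h2, ← h1, ← e.prod_comp]
  rfl

theorem perm_eq_of (h : Fintype.card κ = Fintype.card ι) (M : ι → κ → S) (p : S)
    (H : ∀ (I : Ideal (MvPolynomial ι S)) (x : ι → MvPolynomial ι S ⧸ I),
      (∀ r, x r * x r = 0) → ∏ c, ∑ r, M r c • x r = p • ∏ r, x r) : perm M = p := by
  obtain ⟨I, hI1, hI2⟩ := exists_faithful_sqzero S ι
  rw [← sub_eq_zero]
  apply hI2
  rw [sub_smul, sub_eq_zero, ← H I _ hI1, prod_sum_smul_eq_perm h M hI1]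

/-- Padding a matrix by an identity block. -/
def pad (ν : Type*) [DecidableEq ν] (M : ι → κ → S) : ι ⊕ ν → κ ⊕ ν → S
  | Sum.inl r, Sum.inl c => M r c
  | Sum.inl _, Sum.inr _ => 0
  | Sum.inr _, Sum.inl _ => 0
  | Sum.inr i, Sum.inr j => if i = j then 1 else 0

theorem perm_pad (ν : Type*) [Fintype ν] [DecidableEq ν] (h : Fintype.card κ = Fintype.card ι)
    (M : ι → κ → S) : perm (pad ν M) = perm M := by
  refine perm_eq_of (by simp [h]) _ _ fun I x hx => ?_
  have h1 := prod_sum_smul_eq_perm h M (x := fun r => x (Sum.inl r)) fun r => hx _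
  simp only [Fintype.prod_sum_type, Fintype.sum_sum_type, pad, zero_smul, sum_const_zero,
    add_zero, zero_add, ite_smul, one_smul, sum_ite_eq', mem_univ, if_true]
  rw [h1, smul_mul_assoc]

end

section

variable {S : Type*} [CommRing S]
variable {ι κ β π : Type*}

/-- The lower part of the summation gadget. -/
def starLow [DecidableEq β] {p : ℕ} (g : Fin p → S) (N : β → π → κ → S) :
    Option β × π → κ ⊕ (β × Fin p) → S
  | (none, _), Sum.inl _ => 0
  | (some b, i), Sum.inl c => N b i c
  | (none, _), Sum.inr c => -g c.2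
  | (some b, _), Sum.inr c => if b = c.1 then 1 else 0

/-- Extension of rows by zero. -/
def ext0 (ν : Type*) (M : ι → κ → S) : ι → κ ⊕ ν → S := fun r => Sum.elim (M r) fun _ => 0

/-- The summation gadget. -/
def star [DecidableEq β] {p : ℕ} (g : Fin p → S) (M : ι → κ → S) (N : β → π → κ → S) :
    ι ⊕ (Option β × π) → κ ⊕ (β × Fin p) → S :=
  Sum.elim (ext0 _ M) (starLow g N)

theorem prod_sub_sq_zero {A : Type*} [CommRing A] [DecidableEq β] (m : β → A) {y : A}
    (hy : y * y = 0) (T : Finset β) :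
    ∏ b ∈ T, (m b - y) = ∏ b ∈ T, m b - y * ∑ b ∈ T, ∏ b' ∈ T.erase b, m b' := by
  induction T using Finset.induction_on with
  | empty => simp
  | insert j T hj ih =>
    have h1 : ∑ b ∈ T, ∏ b' ∈ (insert j T).erase b, m b' =
        m j * ∑ b ∈ T, ∏ b' ∈ T.erase b, m b' := by
      rw [mul_sum]
      refine sum_congr rfl fun b hb => ?_
      have hne : j ≠ b := fun h => hj (h ▸ hb)
      rw [erase_insert_of_ne hne, prod_insert fun h => hj (mem_of_mem_erase h)]
    rw [prod_insert hj, prod_insert hj, sum_insert hj, erase_insert hj, ih, h1]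
    linear_combination (∑ b ∈ T, ∏ b' ∈ T.erase b, m b') * hy

variable [Fintype ι] [Fintype κ] [DecidableEq ι] [DecidableEq κ]
  [Fintype β] [Fintype π] [DecidableEq β] [DecidableEq π]

theorem star_identity {A : Type*} [CommRing A] [Algebra S A] {p : ℕ} (hp : 0 < p)
    (hπ : Fintype.card π = p) (hκ : Fintype.card κ = Fintype.card ι + p) (g : Fin p → S)
    (hg : ∀ z z0 : A, ∏ s, (z - g s • z0) = z ^ p - z0 ^ p)
    (M : ι → κ → S) (N : β → π → κ → S) {x : ι ⊕ (Option β × π) → A}
    (hx : ∀ r, x r * x r = 0) :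
    ∏ c, ∑ r, star g M N r c • x r =
      (-((p.factorial ^ Fintype.card β : ℕ) : S) * ∑ b, perm (Sum.elim M (N b))) •
        ∏ r, x r := by
  set m : Option β → A := fun b => ∏ i, x (Sum.inr (b, i)) with hm
  have hcard : Fintype.card κ = Fintype.card (ι ⊕ π) := by simp [hκ, hπ]
  have hz : ∀ b, (∑ i, x (Sum.inr (b, i))) ^ p = (p.factorial : A) * m b := by
    intro b
    have := sum_pow_card (x := fun i => x (Sum.inr (b, i))) (fun i => hx _) univ
    rwa [card_univ, hπ] at this
  obtain ⟨i0⟩ : Nonempty π := Fintype.card_pos_iff.mp (by omega)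
  have hm0 : m none * m none = 0 := by
    have := prod_mul_eq_zero (x := fun i => x (Sum.inr (none, i))) (fun i => hx _) (mem_univ i0)
    nth_rewrite 2 [hm]
    simp only
    rw [← mul_prod_erase _ _ (mem_univ i0), ← mul_assoc, this, zero_mul]
  have e1 : ∀ c : β × Fin p, ∑ r, star g M N r (Sum.inr c) • x r =
      ∑ i, x (Sum.inr (some c.1, i)) - g c.2 • ∑ i, x (Sum.inr (none, i)) := by
    intro c
    simp only [Fintype.sum_sum_type, Fintype.sum_prod_type, Fintype.sum_option, star, ext0,
      Sum.elim_inl, Sum.elim_inr, starLow, zero_smul, sum_const_zero, zero_add, ite_smul,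
      one_smul, neg_smul, sum_neg_distrib, ← smul_sum]
    rw [sum_comm]
    simp only [sum_ite_eq', mem_univ, if_true]
    ring
  have e2 : ∀ c : κ, ∑ r, star g M N r (Sum.inl c) • x r =
      ∑ r, M r c • x (Sum.inl r) + ∑ b, ∑ i, N b i c • x (Sum.inr (some b, i)) := by
    intro c
    simp only [Fintype.sum_sum_type, Fintype.sum_prod_type, Fintype.sum_option, star, ext0,
      Sum.elim_inl, Sum.elim_inr, starLow, zero_smul, sum_const_zero, zero_add]
  have e3 : ∏ c : β × Fin p, ∑ r, star g M N r (Sum.inr c) • x r =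
      (p.factorial : A) ^ Fintype.card β *
        (∏ b, m (some b) - m none * ∑ b, ∏ b' ∈ univ.erase b, m (some b')) := by
    rw [← prod_sub_sq_zero (fun b => m (some b)) hm0 univ, ← card_univ, ← prod_const,
      ← prod_mul_distrib, Fintype.prod_prod_type]
    refine prod_congr rfl fun b _ => ?_
    simp only [e1]
    rw [hg, hz, hz, mul_sub]
  have e4 : ∀ (T : Finset β) (c : κ), (∏ b ∈ T, m (some b)) *
      ∑ b ∈ T, ∑ i, N b i c • x (Sum.inr (some b, i)) = 0 := by
    intro T c
    rw [mul_sum]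
    refine sum_eq_zero fun b hb => ?_
    rw [mul_sum]
    refine sum_eq_zero fun i _ => ?_
    have := prod_mul_eq_zero (x := fun i => x (Sum.inr (some b, i))) (fun i => hx _) (mem_univ i)
    rw [mul_smul_comm, ← mul_prod_erase _ _ hb, mul_right_comm]
    change N b i c • (m (some b) * x (Sum.inr (some b, i)) * _) = 0
    rw [hm]
    simp only
    rw [this, zero_mul, smul_zero]
  have e5 : ∀ (N' : π → κ → S) (b : Option β),
      ∏ c, (∑ r, M r c • x (Sum.inl r) + ∑ i, N' i c • x (Sum.inr (b, i))) =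
        perm (Sum.elim M N') • ((∏ r, x (Sum.inl r)) * m b) := by
    intro N' b
    have := prod_sum_smul_eq_perm hcard (Sum.elim M N')
      (x := Sum.elim (fun r => x (Sum.inl r)) fun i => x (Sum.inr (b, i)))
      (by rintro (r | r) <;> exact hx _)
    simpa only [Fintype.sum_sum_type, Fintype.prod_sum_type, Sum.elim_inl, Sum.elim_inr]
      using this
  have e6 : (∏ b, m (some b)) * ∏ c : κ, ∑ r, star g M N r (Sum.inl c) • x r = 0 := by
    rw [mul_prod_congr (β := fun c => ∑ r, M r c • x (Sum.inl r) +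
      ∑ i, (0 : S) • x (Sum.inr (none, i))) univ (fun c _ => by
        rw [e2, mul_add, e4, mul_add]; simp), e5 (fun _ _ => 0) none,
      perm_zero_row _ (Sum.inr i0) (fun _ => rfl), zero_smul, mul_zero]
  have e7 : ∀ b, (∏ b' ∈ univ.erase b, m (some b')) *
      ∏ c : κ, ∑ r, star g M N r (Sum.inl c) • x r =
      perm (Sum.elim M (N b)) • ((∏ r, x (Sum.inl r)) * ∏ b', m (some b')) := by
    intro b
    rw [mul_prod_congr (β := fun c => ∑ r, M r c • x (Sum.inl r) +
      ∑ i, N b i c • x (Sum.inr (some b, i))) univ (fun c _ => by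
        rw [e2, ← add_sum_erase _ _ (mem_univ b), ← add_assoc, mul_add, e4, add_zero]),
      e5 (N b) (some b), mul_smul_comm, ← mul_prod_erase _ _ (mem_univ b)]
    congr 1
    ring
  have e8 : ∏ r, x r = (∏ r, x (Sum.inl r)) * (m none * ∏ b', m (some b')) := by
    rw [Fintype.prod_sum_type, Fintype.prod_prod_type, Fintype.prod_option]
  have e9 : (∑ b, ∏ b' ∈ univ.erase b, m (some b')) *
      ∏ c : κ, ∑ r, star g M N r (Sum.inl c) • x r =
      (∑ b, perm (Sum.elim M (N b))) • ((∏ r, x (Sum.inl r)) * ∏ b', m (some b')) := by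
    rw [sum_mul, sum_smul]
    exact sum_congr rfl fun b _ => e7 b
  rw [Fintype.prod_sum_type, e3, e8, Algebra.smul_def]
  rw [Algebra.smul_def] at e9
  simp only [map_mul, map_neg, map_natCast]
  rw [Nat.cast_pow]
  linear_combination (p.factorial : A) ^ Fintype.card β * e6 -
    (p.factorial : A) ^ Fintype.card β * m none * e9

theorem perm_star {L : Type*} [Field L] [Algebra L S] {p : ℕ} (hp : 0 < p) {ζ : L}
    (hζ : IsPrimitiveRoot ζ p)
    (hπ : Fintype.card π = p) (hκ : Fintype.card κ = Fintype.card ι + p)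
    (M : ι → κ → S) (N : β → π → κ → S) :
    perm (star (fun s : Fin p => algebraMap L S (ζ ^ (s : ℕ))) M N) =
      -((p.factorial ^ Fintype.card β : ℕ) : S) * ∑ b, perm (Sum.elim M (N b)) := by
  refine perm_eq_of (by simp [hκ, hπ]; ring) _ _ fun I x hx => ?_
  refine star_identity hp hπ hκ _ (fun z z0 => ?_) M N hx
  have := prod_sub_root ((algebraMap S (MvPolynomial _ S ⧸ I)).comp (algebraMap L S)) hp hζ z z0
  simpa [Algebra.smul_def] using this

end

end Pool.Agent.Lib.MP_8b1d3b_lc.H13
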