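import Mathlib
import Pool.Agent.Lib.MP_8b1d3b_lc.H13Perm

set_option autoImplicit false

namespace Pool.Agent.Lib.MP_8b1d3b_lc.D5

open Finset

theorem chain {A : Type*} [CommRing A] (ξ x1 c : A) (hξ : ξ * ξ = 0) (e : ℕ)
    (v w z : Fin e → A) (hv : ∀ j, v j * v j = 0) (hw : ∀ j, w j * w j = 0)
    (L : Fin (e + 1) → A) (hL0 : L 0 = x1 * ξ)
    (hL : ∀ j : Fin e, L j.succ = -c * v j + (z j + 1) * w j) :
    (∏ j, ((v j + L j.castSucc) * (w j + z j * v j))) * L (Fin.last e) =
        x1 * (∏ j, (z j * (z j + 1) - c)) * (ξ * ∏ j, (v j * w j)) ∧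
      (∏ j, ((v j + L j.castSucc) * (w j + z j * v j))) * ξ = ξ * ∏ j, (v j * w j) := by
  induction e with
  | zero => simp [hL0]
  | succ e ih =>
    obtain ⟨h1, h2⟩ := ih (fun j => v j.castSucc) (fun j => w j.castSucc) (fun j => z j.castSucc)
      (fun j => hv _) (fun j => hw _) (fun j => L j.castSucc) (by simpa using hL0)
      (fun j => by rw [← hL]; rfl)
    have h3 : L (Fin.last (e + 1)) = -c * v (Fin.last e) + (z (Fin.last e) + 1) * w (Fin.last e) := by
      rw [← hL]; rfl
    simp only [Fin.prod_univ_castSucc]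
    rw [h3]
    have hv' := hv (Fin.last e)
    have hw' := hw (Fin.last e)
    set P := ∏ j : Fin e, ((v j.castSucc + L j.castSucc.castSucc) *
      (w j.castSucc + z j.castSucc * v j.castSucc))
    set U := ∏ j : Fin e, (z j.castSucc * (z j.castSucc + 1) - c)
    set Q := ∏ j : Fin e, (v j.castSucc * w j.castSucc)
    set l := L (Fin.last e).castSucc
    set v0 := v (Fin.last e)
    set w0 := w (Fin.last e)
    set z0 := z (Fin.last e)
    constructor
    · linear_combination (z0 * (z0 + 1) - c) * v0 * w0 * h1 +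
        (P * (-c * w0 - c * z0 * v0 + z0 * (z0 + 1) * w0 - c * z0 * l)) * hv' +
        (P * (v0 + l) * (z0 + 1)) * hw'
    · linear_combination v0 * w0 * h2 + P * z0 * ξ * hv' + (w0 + z0 * v0) * ξ * h1 +
        (w0 + z0 * v0) * x1 * U * Q * hξ

section

variable {S : Type*} [CommRing S] {e : ℕ}

/-- Weights of the edges that leave the `j`-th stage of the cycle. -/
def out (x1 c : S) (z : Fin e → S) : Fin (e + 1) → Option (Fin e × Bool) → S :=
  Fin.cases (fun a => if a = none then x1 else 0)
    fun j a => (if a = some (j, false) then -c else 0) + if a = some (j, true) then z j + 1 else 0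

/-- One block: a long cycle with loops. -/
def blk (x0 x1 c : S) (z : Fin e → S) (a : Option (Fin e × Bool)) : Option (Fin e × Bool) → S
  | none => (if a = none then x0 else 0) + out x1 c z (Fin.last e) a
  | some (j, false) => (if a = some (j, false) then 1 else 0) + out x1 c z j.castSucc a
  | some (j, true) => (if a = some (j, true) then 1 else 0) + if a = some (j, false) then z j else 0

theorem blk_prod {A : Type*} [CommRing A] [Algebra S A] (x0 x1 c : S) (z : Fin e → S)
    (y : Option (Fin e × Bool) → A) (hy : ∀ a, y a * y a = 0) :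
    ∏ b, ∑ a, blk x0 x1 c z a b • y a =
      (x0 + x1 * ∏ j, (z j * (z j + 1) - c)) • ∏ a, y a := by
  obtain ⟨h1, h2⟩ := chain (y none) (algebraMap S A x1) (algebraMap S A c) (hy _) e
    (fun j => y (some (j, false))) (fun j => y (some (j, true))) (fun j => algebraMap S A (z j))
    (fun j => hy _) (fun j => hy _) (fun j => ∑ a, out x1 c z j a • y a)
    (by simp [out, ite_smul, Algebra.smul_def])
    (fun j => by
      simp only [out, Fin.cases_succ, add_smul, ite_smul, zero_smul, sum_add_distrib, sum_ite_eq',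
        mem_univ, if_true]
      simp [Algebra.smul_def, add_mul])
  have h3 : ∀ j : Fin e, ∏ b : Bool, ∑ a, blk x0 x1 c z a (some (j, b)) • y a =
      (y (some (j, false)) + ∑ a, out x1 c z j.castSucc a • y a) *
        (y (some (j, true)) + algebraMap S A (z j) * y (some (j, false))) := by
    intro j
    rw [Fintype.prod_bool, mul_comm]
    simp only [blk, add_smul, ite_smul, zero_smul, one_smul, sum_add_distrib, sum_ite_eq',
      mem_univ, if_true, ← Algebra.smul_def]
  have h4 : ∑ a, blk x0 x1 c z a none • y a =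
      algebraMap S A x0 * y none + ∑ a, out x1 c z (Fin.last e) a • y a := by
    simp only [blk, add_smul, ite_smul, zero_smul, one_smul, sum_add_distrib, sum_ite_eq',
      mem_univ, if_true, ← Algebra.smul_def]
  have h5 : ∏ a, y a = y none * ∏ j : Fin e, (y (some (j, false)) * y (some (j, true))) := by
    rw [Fintype.prod_option, Fintype.prod_prod_type]
    simp [mul_comm]
  rw [Fintype.prod_option, Fintype.prod_prod_type, h4, h5]
  simp only [h3]
  rw [Algebra.smul_def]
  simp only [map_add, map_mul, map_prod, map_sub, map_one]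
  linear_combination h1 + algebraMap S A x0 * h2

theorem out_mem (H : AddSubgroup S) {x1 c : S} {z : Fin e → S} (h1 : (1 : S) ∈ H) (hx : x1 ∈ H)
    (hc : c ∈ H) (hz : ∀ j, z j ∈ H) (j : Fin (e + 1)) (a : Option (Fin e × Bool)) :
    out x1 c z j a ∈ H := by
  refine Fin.cases ?_ (fun j => ?_) j
  · simp only [out, Fin.cases_zero]
    split_ifs
    exacts [hx, H.zero_mem]
  · simp only [out, Fin.cases_succ]
    refine H.add_mem ?_ ?_
    · split_ifs
      exacts [H.neg_mem hc, H.zero_mem]
    · split_ifs
      exacts [H.add_mem (hz j) h1, H.zero_mem]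

theorem blk_mem (H : AddSubgroup S) {x0 x1 c : S} {z : Fin e → S} (h1 : (1 : S) ∈ H)
    (hx0 : x0 ∈ H) (hx : x1 ∈ H) (hc : c ∈ H) (hz : ∀ j, z j ∈ H)
    (a b : Option (Fin e × Bool)) : blk x0 x1 c z a b ∈ H := by
  rcases b with _ | ⟨j, _ | _⟩
  · refine H.add_mem ?_ (out_mem H h1 hx hc hz _ _)
    split_ifs
    exacts [hx0, H.zero_mem]
  · refine H.add_mem ?_ (out_mem H h1 hx hc hz _ _)
    split_ifs
    exacts [h1, H.zero_mem]
  · refine H.add_mem ?_ ?_
    · split_ifs
      exacts [h1, H.zero_mem]
    · split_ifs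
      exacts [hz j, H.zero_mem]

theorem exists_gadget (H : AddSubgroup S) {k n : ℕ} (hn : k * (2 * e + 1) ≤ n)
    (x : Fin k → Bool → S) (c : S) (z : Fin k × Fin e → S) (h1 : (1 : S) ∈ H)
    (hx : ∀ i b, x i b ∈ H) (hc : c ∈ H) (hz : ∀ j, z j ∈ H) :
    ∃ A : Matrix (Fin n) (Fin n) S, (∀ r s, A r s ∈ H) ∧
      A.permanent = ∏ i, (x i false + x i true * ∏ j, (z (i, j) * (z (i, j) + 1) - c)) := by
  let M : Fin k × Option (Fin e × Bool) → Fin k × Option (Fin e × Bool) → S := fun r s =>
    if r.1 = s.1 then blk (x s.1 false) (x s.1 true) c (fun j => z (s.1, j)) r.2 s.2 else 0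
  have hM : H13.perm M =
      ∏ i, (x i false + x i true * ∏ j, (z (i, j) * (z (i, j) + 1) - c)) := by
    refine H13.perm_eq_of rfl _ _ fun I y hy => ?_
    rw [Fintype.prod_prod_type, Fintype.prod_prod_type, ← Finset.prod_smul]
    refine prod_congr rfl fun i _ => ?_
    rw [← blk_prod (x i false) (x i true) c (fun j => z (i, j)) (fun a => y (i, a)) fun a => hy _]
    refine prod_congr rfl fun b _ => ?_
    rw [Fintype.sum_prod_type, sum_comm]
    simp [M, ite_smul]
  have hcard : Fintype.card (Fin n) =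
      Fintype.card ((Fin k × Option (Fin e × Bool)) ⊕ Fin (n - k * (2 * e + 1))) := by
    simp only [Fintype.card_fin, Fintype.card_sum, Fintype.card_prod, Fintype.card_option,
      Fintype.card_bool]
    rw [mul_comm e 2]
    omega
  let ε := Fintype.equivOfCardEq hcard
  refine ⟨Matrix.of fun r s => H13.pad _ M (ε r) (ε s), fun r s => ?_, ?_⟩
  · simp only [Matrix.of_apply]
    rcases ε r with r | r <;> rcases ε s with s | s
    · simp only [H13.pad, M]
      split_ifs
      exacts [blk_mem H h1 (hx _ _) (hx _ _) hc (fun j => hz _) _ _, H.zero_mem]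
    · exact H.zero_mem
    · exact H.zero_mem
    · simp only [H13.pad]
      split_ifs
      exacts [h1, H.zero_mem]
  · rw [← H13.perm_eq_permanent, ← hM, ← H13.perm_pad (Fin (n - k * (2 * e + 1))) rfl M]
    exact H13.perm_reindex (H13.pad _ M) ε ε

end

end Pool.Agent.Lib.MP_8b1d3b_lc.D5
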