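import Mathlib
import Pool.Agent.Lib.MP_8b1d3b_lc.D5Perm
import Pool.Agent.Lib.MP_8b1d3b_lc.D5Core
import Pool.Agent.Lib.MP_8b1d3b_lc.D5Avg

set_option autoImplicit false

namespace Pool.Agent.Lib.MP_8b1d3b_lc.D5

open Finset MvPolynomial

section

variable {F : Type*} [Field F] [Fintype F]

theorem exists_rootless : ∃ c : F, ∀ x : F, x * (x + 1) - c ≠ 0 := by
  by_contra h
  push Not at h
  have h1 : Function.Surjective fun x : F => x * (x + 1) := fun c => by
    obtain ⟨x, hx⟩ := h c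
    exact ⟨x, sub_eq_zero.1 hx⟩
  have h2 := Finite.injective_iff_surjective.2 h1 (a₁ := 0) (a₂ := -1) (by simp)
  simp at h2

theorem card_use [DecidableEq F] (hF : 3 ≤ Fintype.card F) (c : F) :
    Fintype.card (Bool → F) ≤ 3 * #{b : Bool → F |
      decide (b false * (b false + 1) - c ≠ b true * (b true + 1) - c) = true} := by
  have h1 := card_filter_add_card_filter_not (s := (univ : Finset (Bool → F)))
    fun b => decide (b false * (b false + 1) - c ≠ b true * (b true + 1) - c) = true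
  have h2 : #{b : Bool → F |
      ¬ decide (b false * (b false + 1) - c ≠ b true * (b true + 1) - c) = true} ≤
      Fintype.card F + Fintype.card F := by
    refine le_trans (card_le_card (t := univ.image (fun (x : F) (_ : Bool) => x) ∪
      univ.image fun (x : F) (t : Bool) => if t = true then -1 - x else x) fun b hb => ?_)
      (le_trans (card_union_le _ _) (add_le_add card_image_le card_image_le))
    have h3 : (b true - b false) * (b true - (-1 - b false)) = 0 := by
      have h4 : b false * (b false + 1) - c = b true * (b true + 1) - c := by simpa using hb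
      linear_combination -h4
    rw [mem_union]
    rcases mul_eq_zero.1 h3 with h | h
    · refine Or.inl (mem_image.2 ⟨b false, mem_univ _, ?_⟩)
      funext t
      cases t <;> simp [sub_eq_zero.1 h]
    · refine Or.inr (mem_image.2 ⟨b false, mem_univ _, ?_⟩)
      funext t
      cases t <;> simp [sub_eq_zero.1 h]
  rw [card_univ] at h1
  have h5 : Fintype.card (Bool → F) = Fintype.card F * Fintype.card F := by simp [sq]
  have h6 := Nat.mul_le_mul_right (Fintype.card F) hF
  omega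

omit [Fintype F] in
/-- Families that are an affine function of the point plus a fixed polynomial. -/
def Aff (F : Type*) [Field F] (J σ : Type*) : Submodule F ((J → F) → MvPolynomial σ F) where
  carrier := {a | ∃ (l : (J → F) →ₗ[F] F) (p : MvPolynomial σ F), ∀ z, a z = C (l z) + p}
  add_mem' := by
    rintro a b ⟨l, p, h⟩ ⟨l', p', h'⟩
    exact ⟨l + l', p + p', fun z => by simp [h, h']; ring⟩
  zero_mem' := ⟨0, 0, by simp⟩
  smul_mem' := by
    rintro r a ⟨l, p, h⟩
    exact ⟨r • l, r • p, fun z => by simp [h, smul_eq_C_mul, mul_add]⟩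

omit [Fintype F] in
theorem map_mem_of_affine {R S ρ : Type*} [CommRing R] [CommRing S] [Algebra F S] (φ : R →+* F)
    (H : Submodule F S) (h1 : (1 : S) ∈ H) (A : ρ → S) (hA : ∀ x, A x ∈ H)
    (a : MvPolynomial ρ R) (ha : a.totalDegree ≤ 1) :
    eval₂Hom ((algebraMap F S).comp φ) A a ∈ H := by
  rw [a.as_sum, map_sum]
  refine Submodule.sum_mem _ fun m hm => ?_
  have h2 := le_trans (le_totalDegree hm) ha
  rw [eval₂Hom_monomial, RingHom.comp_apply, ← Algebra.smul_def]
  refine H.smul_mem _ ?_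
  rcases Nat.le_one_iff_eq_zero_or_eq_one.1 h2 with h | h
  · have h3 : m = 0 := (Finsupp.degree_eq_zero_iff m).1 h
    simpa [h3] using h1
  · obtain ⟨x, rfl⟩ := (Finsupp.sum_eq_one_iff m).1 h
    simpa using hA x

theorem bad_bound {q B M : ℝ} {k J r m : ℕ} (hq : (m : ℝ) = q) (h3 : 3 ≤ q) (hM : 0 ≤ M)
    (h : B * q ^ (2 * m * r) ≤ M * (2 ^ k * (q - 1 / 2) ^ (2 * m * r) * q ^ J)) :
    B / q ^ J ≤ M * (2 ^ k * (1 / 2) ^ r) := by
  have hq0 : 0 < q := by linarith
  have h1 : (1 - 1 / (2 * q)) ^ (2 * m) ≤ 1 / 2 := by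
    refine one_sub_pow_le (by positivity) ?_ ?_
    · rw [div_le_one (by positivity)]
      linarith
    · push_cast
      rw [hq, mul_one_div_cancel (by positivity)]
  have h0 : 0 ≤ 1 - 1 / (2 * q) := by
    rw [sub_nonneg, div_le_one (by positivity)]
    linarith
  have h2 : (q - 1 / 2) ^ (2 * m * r) ≤ (1 / 2) ^ r * q ^ (2 * m * r) := by
    have h4 : q - 1 / 2 = (1 - 1 / (2 * q)) * q := by field_simp
    rw [h4, mul_pow, pow_mul]
    gcongr
  rw [div_le_iff₀ (by positivity)]
  refine le_of_mul_le_mul_right (le_trans h ?_) (pow_pos hq0 (2 * m * r))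
  calc _ ≤ M * (2 ^ k * ((1 / 2) ^ r * q ^ (2 * m * r)) * q ^ J) := by gcongr
    _ = _ := by ring

theorem depth_five {R : Type*} [CommRing R] (hF : 3 ≤ Fintype.card F) (φ : R →+* F)
    {n t s M : ℕ} (ht : 0 < t) (hn : (600 * Fintype.card F ^ 2 * t) ^ 3 ≤ n)
    (P : Fin M → List (MvPolynomial (Fin n × Fin n) R))
    (hP : ∀ l, ∀ a ∈ P l, a.totalDegree ≤ 1)
    (G : Fin s → List (MvPolynomial (Fin n × Fin n) R))
    (hG : ∀ i, ∀ g ∈ G i, g ∈ Submodule.span R (Set.range fun l => (P l).prod))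
    (h : ∑ i, (G i).prod = Matrix.permanent (Matrix.of fun i j : Fin n =>
      (X (i, j) : MvPolynomial (Fin n × Fin n) R))) :
    2 ^ t ≤ 2 * n * (s + M) := by
  classical
  obtain ⟨c, hc⟩ := exists_rootless (F := F)
  obtain ⟨q, hq⟩ : ∃ q, Fintype.card F = q := ⟨_, rfl⟩
  obtain ⟨k, hk⟩ : ∃ k, k = 4 * t := ⟨_, rfl⟩
  obtain ⟨τ, hτ⟩ : ∃ τ, τ = 2 * q * (13 * k) := ⟨_, rfl⟩
  obtain ⟨N, hN⟩ : ∃ N, N = 20 * (q * (q * τ)) := ⟨_, rfl⟩
  obtain ⟨e, he⟩ : ∃ e, e = 6 * N ^ 2 := ⟨_, rfl⟩
  have hq3 : 3 ≤ q := hq ▸ hF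
  have hpos : 1 ≤ q * (q * τ) := by
    rw [hτ, hk]
    exact Nat.one_le_iff_ne_zero.2 (by positivity)
  have hke : k * (2 * e + 1) ≤ n := by
    refine le_trans ?_ hn
    have h1 : t ≤ (q ^ 2 * t) ^ 3 :=
      le_trans (Nat.le_mul_of_pos_left _ (by positivity)) (Nat.le_self_pow (by norm_num) _)
    have h2 : k * (2 * e + 1) = 207667200 * (q ^ 2 * t) ^ 3 + 4 * t := by
      rw [he, hN, hτ, hk]
      ring
    have h3 : (600 * q ^ 2 * t) ^ 3 = 216000000 * (q ^ 2 * t) ^ 3 := by ring
    rw [hq, h2, h3]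
    omega
  have hone : (1 : (Fin k × Fin e → F) → MvPolynomial (Fin k × Bool) F) ∈ Aff F _ _ :=
    ⟨0, 1, by simp⟩
  obtain ⟨A, hA, hper⟩ := exists_gadget (Aff F (Fin k × Fin e) (Fin k × Bool)).toAddSubgroup hke
    (fun i b _ => X (i, b)) (fun _ => C c) (fun j z => C (z j)) hone
    (fun i b => ⟨0, X (i, b), by simp⟩) ⟨0, C c, by simp⟩
    fun j => ⟨LinearMap.proj j, 0, by simp⟩
  let Φ := eval₂Hom ((algebraMap F _).comp φ) fun x : Fin n × Fin n => A x.1 x.2
  choose lam p hlp using fun (l : Fin M) (m : Fin (P l).length) =>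
    map_mem_of_affine φ (Aff F _ _) hone (fun x : Fin n × Fin n => A x.1 x.2)
      (fun x => hA x.1 x.2) (P l)[m.1] (hP l _ (List.getElem_mem _))
  choose cf hcf using fun (i : Fin s) (j : Fin (G i).length) =>
    (Submodule.mem_span_range_iff_exists_fun R).1 (hG i (G i)[j.1] (List.getElem_mem _))
  obtain ⟨Bad, hBad, hineq⟩ := core hF τ (fun x => x * (x + 1) - c) hc lam p
    (fun i j l => φ (cf i j l)) fun z => by
      have h1 := congrFun (congrArg Φ h) z
      rw [← H13.perm_eq_permanent, H13.map_perm] at h1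
      have h2 : (fun r c => Φ (Matrix.of (fun i j : Fin n =>
          (X (i, j) : MvPolynomial (Fin n × Fin n) R)) r c)) = A := by
        funext r c
        simp [Φ]
      rw [h2, H13.perm_eq_permanent, hper] at h1
      simp only [Finset.prod_apply, Pi.add_apply, Pi.mul_apply, Pi.sub_apply, Pi.one_apply] at h1
      simp only [map_prod, map_sub, map_mul, map_add, map_one]
      rw [← h1, map_sum, Finset.sum_apply]
      refine sum_congr rfl fun i _ => ?_
      rw [← Fin.prod_univ_getElem, map_prod, Finset.prod_apply]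
      refine prod_congr rfl fun j _ => ?_
      rw [← hcf, map_sum, Finset.sum_apply]
      refine sum_congr rfl fun l _ => ?_
      rw [smul_eq_C_mul (P l).prod, map_mul, ← Fin.prod_univ_getElem, map_prod, Pi.mul_apply,
        Finset.prod_apply, smul_eq_C_mul]
      simp only [← hlp]
      simp [Φ]
  have hN20 : 20 ≤ N := by omega
  have hN' : (20 : ℝ) ≤ N := by exact_mod_cast hN20
  have hδ0 : 0 < 1 / (N : ℝ) := by positivity
  have hδ : 1 / (N : ℝ) ≤ 1 / 20 := one_div_le_one_div_of_le (by norm_num) hN'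
  have hη0 : 0 < 1 - 1 / (N : ℝ) := by linarith
  have hhalf : (1 - (1 - (1 - 1 / (N : ℝ))) ^ 2 / 6) ^ e ≤ 1 / 2 := by
    refine one_sub_pow_le (by positivity) (by nlinarith) (le_of_eq ?_)
    rw [he]
    push_cast
    field_simp
    ring
  have havg := fun (κ : ℝ) (hκ : 0 < κ) => averaged _ (card_use hF c) Bad hineq hη0
    (by linarith) hhalf hκ
  rw [hq] at hBad havg
  rw [hτ] at hBad
  have hB := bad_bound rfl (by exact_mod_cast hq3) (Nat.cast_nonneg M) hBad
  have hfin := final_step (k := k) (a := (1 + (1 - 1 / (N : ℝ)) ^ 2) ^ e)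
    (b := (1 + ((1 - 1 / (N : ℝ)) ^ 2) ^ 2) ^ e) (c := 2 ^ e)
    (x := ((1 - 1 / (N : ℝ)) ^ 2) ^ (2 * k * (q * (q * τ))))
    (B := #Bad / (q : ℝ) ^ (k * e)) (n := ((k * e : ℕ) : ℝ) + 1) (s := s) (M := M)
    (by positivity) (by positivity) (by positivity) (by positivity) (by positivity)
    (by positivity) ?_ (he ▸ block_bound hN20) ?_ fun κ hκ => by
      have h1 := havg κ hκ
      rwa [pow_mul' (1 + (1 - 1 / (N : ℝ)) ^ 2) k e, pow_mul' (2 : ℝ) k e] at h1
  · have h1 : (2 : ℝ) ^ t ≤ (6 / 5) ^ k := by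
      rw [hk, pow_mul]
      gcongr
      norm_num
    have h2 : ((k * e : ℕ) : ℝ) + 1 ≤ n := by
      have h3 : k * e + 1 ≤ n := by nlinarith
      exact_mod_cast h3
    have h4 : (2 : ℝ) ^ t ≤ 2 * n * (s + M) := le_trans h1 (le_trans hfin (by gcongr))
    exact_mod_cast h4
  · rw [← pow_mul, show 2 * (2 * k * (q * (q * τ))) = 4 * (q * (q * τ)) * k by ring, pow_mul]
    gcongr
    have h1 := one_add_mul_le_pow (a := -(1 / (N : ℝ))) (by linarith) (4 * (q * (q * τ)))
    refine le_trans (le_of_eq ?_) h1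
    have h2 : (0 : ℝ) < (q * (q * τ) : ℕ) := by exact_mod_cast hpos
    rw [hN, Nat.cast_mul 4, Nat.cast_mul 20]
    field_simp
    norm_num
  · refine le_trans hB (le_of_eq ?_)
    rw [pow_mul, ← mul_pow]
    norm_num

end

end Pool.Agent.Lib.MP_8b1d3b_lc.D5
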