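import Mathlib

/-! Linear algebra at a corank-one matrix, and Jacobi's formula. -/

set_option autoImplicit false
set_option linter.unusedSectionVars false

namespace Pool.Agent.Lib.MP_8b1d3b_lc.DC

open Finset Matrix

variable {n : Type*} [Fintype n] [DecidableEq n]

theorem derivation_prod {R : Type*} [CommRing R] [Algebra ℂ R] (D : Derivation ℂ R R)
    {ι : Type*} [DecidableEq ι] (s : Finset ι) (g : ι → R) :
    D (∏ i ∈ s, g i) = ∑ j ∈ s, ∏ i ∈ s, Function.update g j (D (g j)) i := by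
  induction s using Finset.induction_on with
  | empty => simp
  | insert a s ha ih =>
    rw [Finset.prod_insert ha, Finset.sum_insert ha, Derivation.leibniz, ih, Finset.prod_insert ha,
      Function.update_self, smul_eq_mul, smul_eq_mul, Finset.mul_sum, add_comm]
    congr 1
    · rw [mul_comm]
      congr 1
      refine Finset.prod_congr rfl fun i hi => ?_
      rw [Function.update_of_ne (by rintro rfl; exact ha hi)]
    · refine Finset.sum_congr rfl fun j hj => ?_
      rw [Finset.prod_insert ha, Function.update_of_ne (by rintro rfl; exact ha hj)]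

theorem jacobi {R : Type*} [CommRing R] [Algebra ℂ R] (D : Derivation ℂ R R) (A : Matrix n n R) :
    D A.det = ∑ j, ∑ i, A.adjugate j i * D (A i j) := by
  have h1 : D A.det = ∑ j, (A.updateCol j (fun i => D (A i j))).det := by
    simp only [Matrix.det_apply, map_sum]
    rw [Finset.sum_comm]
    refine Finset.sum_congr rfl fun s _ => ?_
    rw [Units.smul_def, map_zsmul, derivation_prod, Finset.smul_sum]
    refine Finset.sum_congr rfl fun j _ => ?_
    rw [Units.smul_def]
    congr 1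
    refine Finset.prod_congr rfl fun i _ => ?_
    by_cases h : i = j
    · subst h
      simp
    · rw [Function.update_of_ne h, Matrix.updateCol_ne h]
  rw [h1]
  refine Finset.sum_congr rfl fun j _ => ?_
  rw [← Matrix.cramer_apply, Matrix.cramer_eq_adjugate_mulVec]
  rfl

theorem isUnit_add_vecMulVec (a : Matrix n n ℂ) (ha : a.det = 0) (x y : n → ℂ)
    (hc : y ⬝ᵥ (a.adjugate *ᵥ x) ≠ 0) : IsUnit (a + vecMulVec x y) := by
  rw [← Matrix.mulVec_injective_iff_isUnit]
  have key : ∀ w, (a + vecMulVec x y) *ᵥ w = 0 → w = 0 := by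
    intro w hw
    have hb : (a + vecMulVec x y) *ᵥ w = a *ᵥ w + (y ⬝ᵥ w) • x := by
      rw [Matrix.add_mulVec, Matrix.vecMulVec_mulVec]
      simp
    have h1 : a.adjugate *ᵥ ((a + vecMulVec x y) *ᵥ w) = 0 := by rw [hw, Matrix.mulVec_zero]
    rw [hb, Matrix.mulVec_add, Matrix.mulVec_mulVec, Matrix.adjugate_mul, ha, zero_smul,
      Matrix.zero_mulVec, zero_add, Matrix.mulVec_smul] at h1
    have h2 : y ⬝ᵥ w = 0 := by
      have := congrArg (fun z => y ⬝ᵥ z) h1
      simp only [dotProduct_smul, smul_eq_mul, dotProduct_zero] at this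
      exact (mul_eq_zero.1 this).resolve_right hc
    rw [hb, h2, zero_smul, add_zero] at hw
    have h3 : ∃ i, (y ᵥ* a.adjugate) i ≠ 0 := by
      by_contra! h
      apply hc
      rw [Matrix.dotProduct_mulVec, show y ᵥ* a.adjugate = 0 from funext h, zero_dotProduct]
    obtain ⟨i, hi⟩ := h3
    have h4 : (y ᵥ* a.adjugate) i = (a.updateRow i y).det := by
      rw [← Matrix.cramer_transpose_apply, Matrix.cramer_eq_adjugate_mulVec,
        ← Matrix.adjugate_transpose, Matrix.mulVec_transpose]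
    rw [h4] at hi
    refine Matrix.eq_zero_of_mulVec_eq_zero hi ?_
    funext k
    by_cases hk : k = i
    · subst hk
      simpa [Matrix.mulVec] using h2
    · have := congrFun hw k
      simpa [Matrix.mulVec, Matrix.updateRow_ne hk] using this
  intro w w' h
  have := key (w - w') (by rw [Matrix.mulVec_sub]; exact sub_eq_zero.2 h)
  exact sub_eq_zero.1 this

/-- The local structure at a corank-one matrix. -/
theorem corank_one (a : Matrix n n ℂ) (ha : a.det = 0) (x y : n → ℂ)
    (hc : y ⬝ᵥ (a.adjugate *ᵥ x) ≠ 0) :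
    ∃ (u v : n → ℂ) (c : ℂ), a *ᵥ v = 0 ∧ u ᵥ* a = 0 ∧ y ⬝ᵥ v = 1 ∧ x ⬝ᵥ u = 1 ∧
      (∀ j i, a.adjugate j i = c * (u i * v j)) ∧
      (∀ t, u ⬝ᵥ t = 0 → ∃ w, y ⬝ᵥ w = 0 ∧ a *ᵥ w = t) ∧
      (∀ t, t ⬝ᵥ v = 0 → ∃ w, x ⬝ᵥ w = 0 ∧ w ᵥ* a = t) := by
  have hb := isUnit_add_vecMulVec a ha x y hc
  set c := y ⬝ᵥ (a.adjugate *ᵥ x) with hcdef
  set v := c⁻¹ • (a.adjugate *ᵥ x) with hv
  set u := c⁻¹ • (y ᵥ* a.adjugate) with hu
  have hav : a *ᵥ v = 0 := by
    rw [hv, Matrix.mulVec_smul, Matrix.mulVec_mulVec, Matrix.mul_adjugate, ha, zero_smul,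
      Matrix.zero_mulVec, smul_zero]
  have hua : u ᵥ* a = 0 := by
    rw [hu, Matrix.smul_vecMul, Matrix.vecMul_vecMul, Matrix.adjugate_mul, ha, zero_smul,
      Matrix.vecMul_zero, smul_zero]
  have hyv : y ⬝ᵥ v = 1 := by
    rw [hv, dotProduct_smul, ← hcdef, smul_eq_mul, inv_mul_cancel₀ hc]
  have hxu : x ⬝ᵥ u = 1 := by
    rw [hu, dotProduct_smul, dotProduct_comm, ← Matrix.dotProduct_mulVec, ← hcdef, smul_eq_mul,
      inv_mul_cancel₀ hc]
  have hR : ∀ w, (a + vecMulVec x y) *ᵥ w = a *ᵥ w + (y ⬝ᵥ w) • x := by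
    intro w
    rw [Matrix.add_mulVec, Matrix.vecMulVec_mulVec]
    simp
  have hL : ∀ w, w ᵥ* (a + vecMulVec x y) = w ᵥ* a + (x ⬝ᵥ w) • y := by
    intro w
    rw [Matrix.vecMul_add, Matrix.vecMul_vecMulVec, dotProduct_comm]
  refine ⟨u, v, c, hav, hua, hyv, hxu, ?_, ?_, ?_⟩
  · intro j i
    have h1 : a.adjugate j = (c * v j) • u := by
      apply (Matrix.vecMul_injective_iff_isUnit.2 hb)
      simp only
      rw [hL, hL, Matrix.smul_vecMul, hua, smul_zero, dotProduct_smul, hxu]
      have h2 : a.adjugate j ᵥ* a = 0 := by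
        have := congrFun (Matrix.adjugate_mul a) j
        rw [ha, zero_smul] at this
        exact this
      rw [h2]
      congr 2
      rw [hv, Pi.smul_apply, smul_eq_mul, smul_eq_mul, mul_one, ← mul_assoc, mul_inv_cancel₀ hc,
        one_mul, dotProduct_comm]
      rfl
    rw [h1, Pi.smul_apply, smul_eq_mul]
    ring
  · intro t ht
    obtain ⟨w, hw⟩ := (Matrix.mulVec_surjective_iff_isUnit.2 hb) t
    simp only [hR] at hw
    have h1 := congrArg (fun z => u ⬝ᵥ z) hw
    simp only [dotProduct_add, dotProduct_smul, Matrix.dotProduct_mulVec, hua, zero_dotProduct,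
      zero_add, ht, smul_eq_mul, dotProduct_comm u x, hxu, mul_one] at h1
    exact ⟨w, h1, by rw [← hw, h1, zero_smul, add_zero]⟩
  · intro t ht
    obtain ⟨w, hw⟩ := (Matrix.vecMul_surjective_iff_isUnit.2 hb) t
    simp only [hL] at hw
    have h1 := congrArg (fun z => z ⬝ᵥ v) hw
    simp only [add_dotProduct, smul_dotProduct, ← Matrix.dotProduct_mulVec, hav, dotProduct_zero,
      zero_add, ht, smul_eq_mul, hyv, mul_one] at h1
    exact ⟨w, h1, by rw [← hw, h1, zero_smul, add_zero]⟩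

/-- Common vectors `x, y` for finitely many nonzero matrices, with `y 0 = 1`. -/
theorem exists_common {J : Type*} [Finite J] (N : J → Matrix n n ℂ) (hN : ∀ j, N j ≠ 0) (o : n) :
    ∃ x y : n → ℂ, y o = 1 ∧ ∀ j, y ⬝ᵥ (N j *ᵥ x) ≠ 0 := by
  have h1 : ∀ j, ∃ p : n × n, N j p.1 p.2 ≠ 0 := by
    intro j
    by_contra! h
    exact hN j (by ext a b; exact h (a, b))
  choose p hp using h1
  obtain ⟨x, hx⟩ := Module.Dual.exists_forall_ne_zero_of_forall_exists (K := ℂ) (M := n → ℂ)
    (fun j => (LinearMap.proj (p j).1).comp (Matrix.mulVecLin (N j))) (fun j =>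
      ⟨Pi.single (p j).2 1, by simpa using hp j⟩)
  obtain ⟨y, hy⟩ := Module.Dual.exists_forall_ne_zero_of_forall_exists (K := ℂ) (M := n → ℂ)
    (fun j : Option J => dotProductBilin ℂ ℂ (j.elim (Pi.single o 1) (fun j => N j *ᵥ x))) (by
      rintro (_ | j)
      · exact ⟨Pi.single o 1, by simp⟩
      · exact ⟨Pi.single (p j).1 1, by simpa using hx j⟩)
  have h0 : y o ≠ 0 := by simpa using hy none
  refine ⟨x, (y o)⁻¹ • y, by simp [h0], fun j => ?_⟩
  rw [smul_dotProduct, smul_eq_mul]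
  refine mul_ne_zero (inv_ne_zero h0) ?_
  have := hy (some j)
  rw [dotProduct_comm]
  simpa using this

end Pool.Agent.Lib.MP_8b1d3b_lc.DC
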