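import Pool.Agent.Lib.MP_8b1d3b_lc.DCSpan
import Pool.Agent.Lib.MP_8b1d3b_lc.DCLin

/-! The dimension count, given points on the determinantal hypersurface. -/

set_option autoImplicit false
set_option linter.unusedSectionVars false

namespace Pool.Agent.Lib.MP_8b1d3b_lc.DC

open Finset Matrix

theorem exists_idx (κ : Type*) [Fintype κ] (T : ℕ) :
    ∃ s : Finset (κ → ℕ), s.card = (Fintype.card κ + T).choose T ∧ ∀ e ∈ s, ∑ k, e k ≤ T := by
  classical
  refine ⟨((Finset.univ : Finset (Option κ)).finsuppAntidiag T).image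
    (fun e k => e (some k)), ?_, ?_⟩
  · rw [Finset.card_image_of_injOn, Finset.card_finsuppAntidiag_nat_eq_choose, Finset.card_univ,
      Fintype.card_option]
    · congr 1
      omega
    · intro e he e' he' h
      simp only [Finset.mem_coe, Finset.mem_finsuppAntidiag, Finset.subset_univ, and_true,
        Fintype.sum_option] at he he'
      have h' : ∀ k, e (some k) = e' (some k) := congrFun h
      ext (_ | k)
      · simp only [h'] at he
        omega
      · exact h' k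
  · intro e he
    obtain ⟨e', he', rfl⟩ := Finset.mem_image.1 he
    simp only [Finset.mem_finsuppAntidiag, Finset.subset_univ, and_true,
      Fintype.sum_option] at he'
    change ∑ k, e' (some k) ≤ T
    omega

/-- Polynomials in `(z, w)` of degree at most `S` in `z` and homogeneous of degree `T` in `w`. -/
noncomputable def LiftSp (τ σ : Type*) (S T : ℕ) : Submodule ℂ (MvPolynomial (τ ⊕ σ) ℂ) :=
  (MvPolynomial.restrictTotalDegree τ ℂ S).map
      (MvPolynomial.rename (R := ℂ) (Sum.inl : τ → τ ⊕ σ)).toLinearMap *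
    Submodule.span ℂ (Set.range fun i : σ => MvPolynomial.X (R := ℂ) (Sum.inr i : τ ⊕ σ)) ^ T

theorem exists_lift {τ σ : Type*} (w : σ → MvPolynomial τ ℂ) {S T : ℕ} {p : MvPolynomial τ ℂ}
    (hp : p ∈ MvPolynomial.restrictTotalDegree τ ℂ S * Submodule.span ℂ (Set.range w) ^ T) :
    ∃ Θ ∈ LiftSp τ σ S T, MvPolynomial.aeval (Sum.elim MvPolynomial.X w) Θ = p := by
  have : (LiftSp τ σ S T).map (MvPolynomial.aeval (R := ℂ) (Sum.elim MvPolynomial.X w)).toLinearMap
      = MvPolynomial.restrictTotalDegree τ ℂ S * Submodule.span ℂ (Set.range w) ^ T := by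
    rw [LiftSp, Submodule.map_mul, Submodule.map_pow, ← Submodule.map_comp, Submodule.map_span,
      ← Set.range_comp]
    congr 2
    · have : (MvPolynomial.aeval (R := ℂ) (Sum.elim MvPolynomial.X w)).toLinearMap ∘ₗ
          (MvPolynomial.rename (R := ℂ) (Sum.inl : τ → τ ⊕ σ)).toLinearMap = LinearMap.id := by
        refine LinearMap.ext fun q => ?_
        simp only [LinearMap.comp_apply, AlgHom.toLinearMap_apply, MvPolynomial.aeval_rename,
          Sum.elim_comp_inl, MvPolynomial.aeval_X_left_apply, LinearMap.id_apply]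
      rw [this, Submodule.map_id]
    · congr 2
      funext i
      simp
  rw [← this] at hp
  exact hp

theorem lift_mem {τ σ : Type*} {S T : ℕ} {Θ : MvPolynomial (τ ⊕ σ) ℂ} (hΘ : Θ ∈ LiftSp τ σ S T)
    {P : Type*} [CommRing P] [Algebra ℂ P] (Z : τ → P) (W : σ → P) (𝒵 𝒲 : Submodule ℂ P)
    (h1 : (1 : P) ∈ 𝒵) (hZ : ∀ o, Z o ∈ 𝒵) (hW : ∀ i, W i ∈ 𝒲) :
    MvPolynomial.aeval (Sum.elim Z W) Θ ∈ 𝒵 ^ S * 𝒲 ^ T := by
  have : (LiftSp τ σ S T).map (MvPolynomial.aeval (R := ℂ) (Sum.elim Z W)).toLinearMap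
      ≤ 𝒵 ^ S * 𝒲 ^ T := by
    rw [LiftSp, Submodule.map_mul, Submodule.map_pow, ← Submodule.map_comp, Submodule.map_span,
      ← Set.range_comp]
    refine mul_le_mul' ?_ (pow_le_pow_left' ?_ _)
    · rintro _ ⟨q, hq, rfl⟩
      simp only [LinearMap.comp_apply, AlgHom.toLinearMap_apply, MvPolynomial.aeval_rename,
        Sum.elim_comp_inl]
      exact aeval_mem_pow _ h1 _ hZ _ ((MvPolynomial.mem_restrictTotalDegree _ _ _).1 hq)
    · rw [Submodule.span_le]
      rintro _ ⟨i, rfl⟩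
      simpa using hW i
  exact this ⟨Θ, hΘ, rfl⟩

theorem pderiv_eq_C {τ : Type*} (i : τ) (p : MvPolynomial τ ℂ) (hp : p.totalDegree ≤ 1) :
    ∃ c : ℂ, MvPolynomial.pderiv i p = MvPolynomial.C c := by
  classical
  have h := aeval_mem_pow (Submodule.span ℂ (Set.range fun o : Option τ =>
    o.elim (1 : MvPolynomial τ ℂ) MvPolynomial.X)) (Submodule.subset_span ⟨none, rfl⟩)
    MvPolynomial.X (fun i => Submodule.subset_span ⟨some i, rfl⟩) p hp
  rw [pow_one, MvPolynomial.aeval_X_left_apply] at h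
  clear hp
  induction h using Submodule.span_induction with
  | mem x hx =>
    obtain ⟨_ | k, rfl⟩ := hx
    · exact ⟨0, by simp⟩
    · refine ⟨if k = i then 1 else 0, ?_⟩
      by_cases hk : k = i
      · subst hk
        simp
      · simp [hk, MvPolynomial.pderiv_X_of_ne hk]
  | zero => exact ⟨0, by simp⟩
  | add x y _ _ hx hy =>
    obtain ⟨a, ha⟩ := hx
    obtain ⟨b, hb⟩ := hy
    exact ⟨a + b, by rw [map_add, ha, hb, map_add]⟩
  | smul a x _ hx =>
    obtain ⟨b, hb⟩ := hx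
    exact ⟨a * b, by rw [Derivation.map_smul, hb, MvPolynomial.smul_eq_C_mul, map_mul]⟩

theorem totalDegree_aeval_le {τ σ : Type*} (π : σ → MvPolynomial τ ℂ)
    (hπ : ∀ i, (π i).totalDegree ≤ 1) (p : MvPolynomial σ ℂ) (hp : p.totalDegree ≤ 1) :
    (MvPolynomial.aeval π p).totalDegree ≤ 1 := by
  have h := aeval_mem_pow (MvPolynomial.restrictTotalDegree τ ℂ 1)
    ((MvPolynomial.mem_restrictTotalDegree _ _ _).2 (by simp)) π
    (fun i => (MvPolynomial.mem_restrictTotalDegree _ _ _).2 (hπ i)) p hp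
  rw [pow_one] at h
  exact (MvPolynomial.mem_restrictTotalDegree _ _ _).1 h

/-- The affine polynomial `a + b X`. -/
noncomputable def lin (a b : ℂ) : Polynomial ℂ := Polynomial.C a + Polynomial.X * Polynomial.C b

@[simp] theorem lin_coeff_zero (a b : ℂ) : (lin a b).coeff 0 = a := by simp [lin]

@[simp] theorem lin_coeff_one (a b : ℂ) : (lin a b).coeff 1 = b := by
  simp [lin, Polynomial.coeff_C]

theorem sum_smul_lin {κ : Type*} [Fintype κ] (x u d : κ → ℂ) :
    ∑ k, x k • lin (u k) (d k) = lin (x ⬝ᵥ u) (x ⬝ᵥ d) := by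
  simp only [lin, dotProduct, map_sum, Finset.mul_sum, ← Finset.sum_add_distrib,
    Polynomial.smul_eq_C_mul, map_mul]
  refine Finset.sum_congr rfl fun k _ => ?_
  ring

theorem coeff_zero_aeval {τ : Type*} (h : τ → Polynomial ℂ) (p : MvPolynomial τ ℂ) :
    (MvPolynomial.aeval h p).coeff 0 = MvPolynomial.eval (fun i => (h i).coeff 0) p := by
  induction p using MvPolynomial.induction_on with
  | C a => simp
  | add p q hp hq => simp [hp, hq]
  | mul_X p i hp => simp [hp]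

theorem coeff_one_aeval {ρ : Type*} (z : Option ρ → ℂ) (ds : ℂ) (p : MvPolynomial (Option ρ) ℂ) :
    (MvPolynomial.aeval (fun o : Option ρ => lin (z o) (o.elim ds fun _ => 0)) p).coeff 1 =
      ds * MvPolynomial.eval z (MvPolynomial.pderiv none p) := by
  classical
  induction p using MvPolynomial.induction_on with
  | C a => simp
  | add p q hp hq => simp [hp, hq, mul_add]
  | mul_X p i hp =>
    rw [map_mul, Polynomial.mul_coeff_one, hp, coeff_zero_aeval]
    rcases i with _ | i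
    · simp
      ring
    · simp
      ring

theorem directions {m : ℕ} (a A' : Matrix (Fin (m + 1)) (Fin (m + 1)) ℂ) (x y u v : Fin (m + 1) → ℂ)
    (hy : y 0 = 1) (hyv : y ⬝ᵥ v = 1) (hne : u ⬝ᵥ (A' *ᵥ v) ≠ 0)
    (hR : ∀ t, u ⬝ᵥ t = 0 → ∃ w, y ⬝ᵥ w = 0 ∧ a *ᵥ w = t)
    (hL : ∀ t, t ⬝ᵥ v = 0 → ∃ w, x ⬝ᵥ w = 0 ∧ w ᵥ* a = t) (t : Fin (m + 1) ⊕ Fin m → ℂ) :
    ∃ (ds : ℂ) (dv du : Fin (m + 1) → ℂ), y ⬝ᵥ dv = 0 ∧ x ⬝ᵥ du = 0 ∧
      (∀ k, (ds • (A' *ᵥ v) + a *ᵥ dv) k = t (Sum.inl k)) ∧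
      ∀ k : Fin m, (ds • (u ᵥ* A') + du ᵥ* a) k.succ - y k.succ * (ds • (u ᵥ* A') + du ᵥ* a) 0 =
        t (Sum.inr k) := by
  set ds := (u ⬝ᵥ fun k => t (Sum.inl k)) / (u ⬝ᵥ (A' *ᵥ v)) with hds
  obtain ⟨dv, hdv, hdv'⟩ := hR ((fun k => t (Sum.inl k)) - ds • (A' *ᵥ v)) (by
    rw [dotProduct_sub, dotProduct_smul, hds, smul_eq_mul, div_mul_cancel₀ _ hne, sub_self])
  set r := ds • (u ᵥ* A') with hr
  set s : Fin m → ℂ := fun k => t (Sum.inr k) - (r k.succ - y k.succ * r 0) with hs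
  set w0 := -∑ k, s k * v k.succ with hw0
  obtain ⟨du, hdu, hdu'⟩ := hL (Fin.cons w0 fun k => s k + y k.succ * w0) (by
    simp only [dotProduct, Fin.sum_univ_succ, Fin.cons_zero, Fin.cons_succ, hy, one_mul] at hyv ⊢
    simp only [add_mul, Finset.sum_add_distrib]
    have h1 : ∑ k : Fin m, y k.succ * w0 * v k.succ = w0 * ∑ k : Fin m, y k.succ * v k.succ := by
      rw [Finset.mul_sum]
      exact Finset.sum_congr rfl fun k _ => by ring
    rw [h1]
    linear_combination w0 * hyv + hw0)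
  refine ⟨ds, dv, du, hdv, hdu, fun k => ?_, fun k => ?_⟩
  · rw [hdv']
    simp
  · rw [hdu']
    simp only [Pi.add_apply, Fin.cons_succ, Fin.cons_zero, hs, ← hr]
    ring

theorem eval_jacobi {n τ : Type*} [Fintype n] [DecidableEq n] (A : Matrix n n (MvPolynomial τ ℂ))
    (ψ : MvPolynomial τ ℂ →+* ℂ) (i : τ) :
    ψ (MvPolynomial.pderiv i A.det) =
      ∑ l, ∑ k, (A.map ψ).adjugate l k * ψ (MvPolynomial.pderiv i (A k l)) := by
  rw [jacobi, map_sum]
  refine Finset.sum_congr rfl fun l _ => ?_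
  rw [map_sum]
  refine Finset.sum_congr rfl fun k _ => ?_
  rw [map_mul]
  congr 1
  exact congrFun (congrFun (RingHom.map_adjugate ψ A) l) k

/-- Index set of the test lines: a point and a target vector. -/
abbrev Pt (J : Type*) (m : ℕ) := J × (Fin (m + 1) ⊕ Fin m → ℂ)

theorem count_of_points {σ ρ J B : Type*} [Fintype ρ] [Finite J] [Fintype B] {m : ℕ}
    (π : σ → MvPolynomial (Option ρ) ℂ) (hπ : ∀ i, (π i).totalDegree ≤ 1)
    (A : Matrix (Fin (m + 1)) (Fin (m + 1)) (MvPolynomial σ ℂ))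
    (hA : ∀ i j, (A i j).totalDegree ≤ 1) (S T T1 T2 : ℕ)
    (Θ : B → MvPolynomial (Option ρ ⊕ σ) ℂ) (hΘ : ∀ β, Θ β ∈ LiftSp (Option ρ) σ S T)
    (z : J → Option ρ → ℂ)
    (h0 : ∀ j, MvPolynomial.eval (z j) (MvPolynomial.aeval π A.det) = 0)
    (h1 : ∀ j, MvPolynomial.eval (z j) (MvPolynomial.pderiv none (MvPolynomial.aeval π A.det)) ≠ 0)
    (hind : LinearIndependent ℂ fun β j => MvPolynomial.eval (Sum.elim (z j) fun i =>
      MvPolynomial.eval (z j) (MvPolynomial.aeval π (MvPolynomial.pderiv i A.det))) (Θ β)) :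
    (m + 1 + T1).choose T1 * (m + T2).choose T2 * Fintype.card B ≤
      (Fintype.card ρ + 1 + (S + T1 + T2)).choose (S + T1 + T2) * (m + (T + T2)).choose (T + T2) *
        (m + (T + T1)).choose (T + T1) := by
  classical
  set Ap : Matrix (Fin (m + 1)) (Fin (m + 1)) (MvPolynomial (Option ρ) ℂ) :=
    A.map (MvPolynomial.aeval π) with hAp
  have hdet : Ap.det = MvPolynomial.aeval π A.det := (AlgHom.map_det (MvPolynomial.aeval π) A).symm
  have hApd : ∀ k l, (Ap k l).totalDegree ≤ 1 := fun k l => totalDegree_aeval_le π hπ _ (hA k l)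
  set a : J → Matrix (Fin (m + 1)) (Fin (m + 1)) ℂ := fun j => Ap.map (MvPolynomial.eval (z j))
    with ha
  set A' : J → Matrix (Fin (m + 1)) (Fin (m + 1)) ℂ := fun j => Matrix.of fun k l =>
    MvPolynomial.eval (z j) (MvPolynomial.pderiv none (Ap k l)) with hA'
  have ha0 : ∀ j, (a j).det = 0 := fun j => by
    rw [← h0 j, ← hdet]
    exact (RingHom.map_det (MvPolynomial.eval (z j)) Ap).symm
  have hJ1 : ∀ j, ∑ l, ∑ k, (a j).adjugate l k * A' j k l ≠ 0 := fun j => by
    have := h1 j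
    rw [← hdet, eval_jacobi] at this
    exact this
  have hN : ∀ j, (a j).adjugate ≠ 0 := fun j h => hJ1 j (by simp [h])
  obtain ⟨x, y, hy, hxy⟩ := exists_common (fun j => (a j).adjugate) hN 0
  choose u v c hav hua hyv hxu hadj hR hL using fun j => corank_one (a j) (ha0 j) x y (hxy j)
  have hsum : ∀ j (M : Matrix (Fin (m + 1)) (Fin (m + 1)) ℂ),
      ∑ l, ∑ k, (a j).adjugate l k * M k l = c j * (u j ⬝ᵥ (M *ᵥ v j)) := by
    intro j M
    simp only [hadj, dotProduct, Matrix.mulVec, Finset.mul_sum]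
    rw [Finset.sum_comm]
    exact Finset.sum_congr rfl fun k _ => Finset.sum_congr rfl fun l _ => by ring
  have hne : ∀ j, u j ⬝ᵥ (A' j *ᵥ v j) ≠ 0 := fun j h => hJ1 j (by rw [hsum, h, mul_zero])
  choose Ai hAi using fun i k l => pderiv_eq_C i (A k l) (hA k l)
  have hJ2 : ∀ j i, MvPolynomial.eval (z j) (MvPolynomial.aeval π (MvPolynomial.pderiv i A.det)) =
      c j * (u j ⬝ᵥ (Matrix.of (Ai i) *ᵥ v j)) := by
    intro j i
    have := eval_jacobi A ((MvPolynomial.eval (z j)).comp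
      (MvPolynomial.aeval π : MvPolynomial σ ℂ →ₐ[ℂ] _).toRingHom) i
    rw [← hsum]
    refine this.trans ?_
    refine Finset.sum_congr rfl fun l _ => Finset.sum_congr rfl fun k _ => ?_
    rw [hAi]
    congr 1
    simp
  choose ds dv du hdv hdu hE1 hE2 using fun (p : Pt J m) =>
    directions (a p.1) (A' p.1) x y (u p.1) (v p.1) hy (hyv p.1) (hne p.1) (hR p.1) (hL p.1) p.2
  let Z : Option ρ → (Pt J m → Polynomial ℂ) := fun o p => lin (z p.1 o) (o.elim (ds p) fun _ => 0)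
  let U : Fin (m + 1) → (Pt J m → Polynomial ℂ) := fun k p => lin (u p.1 k) (du p k)
  let V : Fin (m + 1) → (Pt J m → Polynomial ℂ) := fun k p => lin (v p.1 k) (dv p k)
  let γ : Unit → (Pt J m → Polynomial ℂ) := fun _ p => Polynomial.C (c p.1)
  let 𝒵 : Submodule ℂ (Pt J m → Polynomial ℂ) := Submodule.span ℂ (Set.range fun o : Option (Option ρ) => o.elim 1 Z)
  let 𝒰 : Submodule ℂ (Pt J m → Polynomial ℂ) := Submodule.span ℂ (Set.range U)
  let 𝒱 : Submodule ℂ (Pt J m → Polynomial ℂ) := Submodule.span ℂ (Set.range V)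
  let 𝒢 : Submodule ℂ (Pt J m → Polynomial ℂ) := Submodule.span ℂ (Set.range γ)
  have hZ1 : (1 : (Pt J m → Polynomial ℂ)) ∈ 𝒵 := Submodule.subset_span ⟨none, rfl⟩
  have hZ : ∀ o, Z o ∈ 𝒵 := fun o => Submodule.subset_span ⟨some o, rfl⟩
  have hU : ∀ k, U k ∈ 𝒰 := fun k => Submodule.subset_span ⟨k, rfl⟩
  have hV : ∀ k, V k ∈ 𝒱 := fun k => Submodule.subset_span ⟨k, rfl⟩
  have hU1 : (1 : (Pt J m → Polynomial ℂ)) ∈ 𝒰 := by
    have : ∑ k, x k • U k = 1 := by
      funext p
      rw [Finset.sum_apply]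
      refine (sum_smul_lin x (u p.1) (du p)).trans ?_
      rw [hxu, hdu]
      simp [lin]
    rw [← this]
    exact Submodule.sum_mem _ fun k _ => Submodule.smul_mem _ _ (hU k)
  have hV1 : (1 : (Pt J m → Polynomial ℂ)) ∈ 𝒱 := by
    have : ∑ k, y k • V k = 1 := by
      funext p
      rw [Finset.sum_apply]
      refine (sum_smul_lin y (v p.1) (dv p)).trans ?_
      rw [hyv, hdv]
      simp [lin]
    rw [← this]
    exact Submodule.sum_mem _ fun k _ => Submodule.smul_mem _ _ (hV k)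
  let M : Fin (m + 1) → Fin (m + 1) → (Pt J m → Polynomial ℂ) := fun k l => MvPolynomial.aeval Z (Ap k l)
  have hM : ∀ k l, M k l ∈ 𝒵 := fun k l => by
    simpa using aeval_mem_pow 𝒵 hZ1 Z hZ _ (hApd k l)
  have hM0 : ∀ k l p, (M k l p).coeff 0 = a p.1 k l := fun k l p => by
    simp only [M]
    rw [show MvPolynomial.aeval Z (Ap k l) p = MvPolynomial.aeval (fun o => Z o p) (Ap k l) from
      MvPolynomial.comp_aeval_apply Z (Pi.evalAlgHom ℂ (fun _ => Polynomial ℂ) p) _,
      coeff_zero_aeval]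
    simp [Z, ha]
  have hM1 : ∀ k l p, (M k l p).coeff 1 = ds p * A' p.1 k l := fun k l p => by
    simp only [M]
    rw [show MvPolynomial.aeval Z (Ap k l) p = MvPolynomial.aeval (fun o => Z o p) (Ap k l) from
      MvPolynomial.comp_aeval_apply Z (Pi.evalAlgHom ℂ (fun _ => Polynomial ℂ) p) _]
    exact coeff_one_aeval (z p.1) (ds p) _
  let E1 : Fin (m + 1) → (Pt J m → Polynomial ℂ) := fun k => ∑ l, M k l * V l
  let R : Fin (m + 1) → (Pt J m → Polynomial ℂ) := fun l => ∑ k, M k l * U k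
  let E2 : Fin m → (Pt J m → Polynomial ℂ) := fun k => R k.succ - y k.succ • R 0
  have hE1m : ∀ k, E1 k ∈ 𝒵 * 𝒱 := fun k =>
    Submodule.sum_mem _ fun l _ => Submodule.mul_mem_mul (hM k l) (hV l)
  have hRm : ∀ l, R l ∈ 𝒵 * 𝒰 := fun l =>
    Submodule.sum_mem _ fun k _ => Submodule.mul_mem_mul (hM k l) (hU k)
  have hE2m : ∀ k, E2 k ∈ 𝒵 * 𝒰 := fun k =>
    Submodule.sub_mem _ (hRm _) (Submodule.smul_mem _ _ (hRm _))
  have hE1l : ∀ k p, Lead 1 (p.2 (Sum.inl k)) (E1 k p) := fun k p => by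
    have e0 : (E1 k p).coeff 0 = 0 := by
      simp only [E1, Finset.sum_apply, Pi.mul_apply, Polynomial.finsetSum_coeff,
        Polynomial.mul_coeff_zero, hM0, V, lin_coeff_zero]
      exact congrFun (hav p.1) k
    have e1 : (E1 k p).coeff 1 = p.2 (Sum.inl k) := by
      simp only [E1, Finset.sum_apply, Pi.mul_apply, Polynomial.finsetSum_coeff,
        Polynomial.mul_coeff_one, hM0, hM1, V, lin_coeff_zero, lin_coeff_one]
      rw [← hE1 p k]
      simp only [Pi.add_apply, Pi.smul_apply, Matrix.mulVec, dotProduct, smul_eq_mul,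
        Finset.mul_sum, ← Finset.sum_add_distrib]
      exact Finset.sum_congr rfl fun l _ => by ring
    exact e1 ▸ lead_one e0
  have hR0 : ∀ l p, (R l p).coeff 0 = 0 := fun l p => by
    simp only [R, Finset.sum_apply, Pi.mul_apply, Polynomial.finsetSum_coeff,
      Polynomial.mul_coeff_zero, hM0, U, lin_coeff_zero]
    refine Eq.trans ?_ (congrFun (hua p.1) l)
    simp only [Matrix.vecMul, dotProduct]
    exact Finset.sum_congr rfl fun l _ => by ring
  have hR1 : ∀ l p, (R l p).coeff 1 = (ds p • (u p.1 ᵥ* A' p.1) + du p ᵥ* a p.1) l := fun l p => by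
    simp only [R, Finset.sum_apply, Pi.mul_apply, Polynomial.finsetSum_coeff,
      Polynomial.mul_coeff_one, hM0, hM1, U, lin_coeff_zero, lin_coeff_one]
    simp only [Pi.add_apply, Pi.smul_apply, Matrix.vecMul, dotProduct, smul_eq_mul,
      Finset.mul_sum, ← Finset.sum_add_distrib]
    exact Finset.sum_congr rfl fun l _ => by ring
  have hE2l : ∀ k p, Lead 1 (p.2 (Sum.inr k)) (E2 k p) := fun k p => by
    have e0 : (E2 k p).coeff 0 = 0 := by
      simp only [E2, Pi.sub_apply, Pi.smul_apply, Polynomial.coeff_sub, Polynomial.coeff_smul, hR0,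
        smul_zero, sub_zero]
    have e1 : (E2 k p).coeff 1 = p.2 (Sum.inr k) := by
      simp only [E2, Pi.sub_apply, Pi.smul_apply, Polynomial.coeff_sub, Polynomial.coeff_smul, hR1,
        smul_eq_mul]
      exact hE2 p k
    exact e1 ▸ lead_one e0
  let W : σ → (Pt J m → Polynomial ℂ) := fun i => γ () * ∑ k, ∑ l, Ai i k l • (U k * V l)
  have hW : ∀ i, W i ∈ 𝒢 * (𝒰 * 𝒱) := fun i =>
    Submodule.mul_mem_mul (Submodule.subset_span ⟨(), rfl⟩) (Submodule.sum_mem _ fun k _ =>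
      Submodule.sum_mem _ fun l _ => Submodule.smul_mem _ _ (Submodule.mul_mem_mul (hU k) (hV l)))
  let Φ : B → (Pt J m → Polynomial ℂ) := fun β => MvPolynomial.aeval (Sum.elim Z W) (Θ β)
  have hΦm : ∀ β, Φ β ∈ 𝒵 ^ S * (𝒢 * (𝒰 * 𝒱)) ^ T := fun β =>
    lift_mem (hΘ β) Z W _ _ hZ1 hZ hW
  have hΦ0 : ∀ β p, (Φ β p).coeff 0 = MvPolynomial.eval (Sum.elim (z p.1) fun i =>
      MvPolynomial.eval (z p.1) (MvPolynomial.aeval π (MvPolynomial.pderiv i A.det))) (Θ β) := by
    intro β p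
    simp only [Φ]
    rw [show MvPolynomial.aeval (Sum.elim Z W) (Θ β) p =
      MvPolynomial.aeval (fun o => Sum.elim Z W o p) (Θ β) from
      MvPolynomial.comp_aeval_apply _ (Pi.evalAlgHom ℂ (fun _ => Polynomial ℂ) p) _,
      coeff_zero_aeval]
    congr 2
    funext o
    rcases o with o | i
    · simp [Z]
    · simp only [Sum.elim_inr, hJ2, W, γ, U, V, Pi.mul_apply, Finset.sum_apply, Pi.smul_apply,
        Polynomial.mul_coeff_zero, Polynomial.coeff_C_zero, Polynomial.finsetSum_coeff,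
        Polynomial.coeff_smul, lin_coeff_zero, smul_eq_mul, dotProduct, Matrix.mulVec,
        Matrix.of_apply, Finset.mul_sum]
      exact Finset.sum_congr rfl fun k _ => Finset.sum_congr rfl fun l _ => by ring
  obtain ⟨s1, hs1, hs1'⟩ := exists_idx (Fin (m + 1)) T1
  obtain ⟨s2, hs2, hs2'⟩ := exists_idx (Fin m) T2
  let e : s1 × s2 → (Fin (m + 1) ⊕ Fin m →₀ ℕ) := fun i =>
    Finsupp.equivFunOnFinite.symm (Sum.elim i.1.1 i.2.1)
  have he : Function.Injective e := by
    intro i i' h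
    have h' := Finsupp.equivFunOnFinite.symm.injective h
    refine Prod.ext (Subtype.ext ?_) (Subtype.ext ?_)
    · funext k
      exact congrFun h' (Sum.inl k)
    · funext k
      exact congrFun h' (Sum.inr k)
  let G : (s1 × s2) × B → (Pt J m → Polynomial ℂ) := fun i =>
    (∏ k, E1 k ^ i.1.1.1 k) * (∏ k, E2 k ^ i.1.2.1 k) * Φ i.2
  have hG : LinearIndependent ℂ G := by
    refine indep e he _ hind (fun j t => LinearMap.proj (j, t)) G fun j t i β => ?_
    have l1 := lead_prod Finset.univ _ _ _ fun k => (hE1l k (j, t)).pow (i.1.1 k)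
    have l2 := lead_prod Finset.univ _ _ _ fun k => (hE2l k (j, t)).pow (i.2.1 k)
    have l3 := lead_zero (Φ β (j, t))
    rw [hΦ0] at l3
    have := (l1.mul l2).mul l3
    simpa [G, e, Fintype.sum_sum_type, Fintype.prod_sum_type, Finset.prod_apply] using this
  have hGm : ∀ i, G i ∈ 𝒵 ^ (S + T1 + T2) * 𝒰 ^ (T + T2) * 𝒱 ^ (T + T1) * 𝒢 ^ T := by
    intro i
    have m1 := pow_le_pow_of_one (W := 𝒵 * 𝒱) (by simpa using Submodule.mul_mem_mul hZ1 hV1)
      (hs1' _ i.1.1.2) (prod_pow_mem Finset.univ _ E1 hE1m i.1.1.1)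
    have m2 := pow_le_pow_of_one (W := 𝒵 * 𝒰) (by simpa using Submodule.mul_mem_mul hZ1 hU1)
      (hs2' _ i.1.2.2) (prod_pow_mem Finset.univ _ E2 hE2m i.1.2.1)
    have := Submodule.mul_mem_mul (Submodule.mul_mem_mul m1 m2) (hΦm i.2)
    convert this using 1
    ring
  have hSp := (((sp_pow (fun o : Option (Option ρ) => o.elim 1 Z) (S + T1 + T2)).mul
    (sp_pow U (T + T2))).mul (sp_pow V (T + T1))).mul (sp_pow γ T)
  have := hSp.card_le hG hGm
  simp only [Fintype.card_prod, Fintype.card_coe, hs1, hs2, Fintype.card_fin, Fintype.card_option,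
    Fintype.card_unit] at this
  rw [show 1 + T - 1 = T by omega, Nat.choose_self, mul_one] at this
  convert this using 4 <;> omega

end Pool.Agent.Lib.MP_8b1d3b_lc.DC
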