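import Pool.Agent.Lib.MP_8b1d3b_lc.DCAlg

/-! Points on the approximating determinantal hypersurfaces. -/

set_option autoImplicit false
set_option linter.unusedSectionVars false

namespace Pool.Agent.Lib.MP_8b1d3b_lc.DC

open Finset Filter Topology

theorem root_lemma (ψ : Polynomial ℂ) {m : ℕ} (hm : ψ.natDegree ≤ m) {δ : ℝ} (hδ : 0 < δ)
    (h : m * ‖ψ.eval 0‖ < δ * ‖ψ.derivative.eval 0‖) : ∃ s, ‖s‖ ≤ δ ∧ ψ.eval s = 0 := by
  by_contra! hcon
  have h0 : ψ.eval 0 ≠ 0 := hcon 0 (by simpa using hδ.le)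
  have hψ : ψ ≠ 0 := by
    rintro rfl
    simp at h0
  rw [(IsAlgClosed.splits ψ).eval_derivative_eq_eval_mul_sum h0, norm_mul] at h
  have h1 : ‖(ψ.roots.map fun z => 1 / (0 - z)).sum‖ ≤ m * δ⁻¹ := by
    refine (norm_multiset_sum_le _).trans ?_
    refine (Multiset.sum_le_card_nsmul _ δ⁻¹ ?_).trans ?_
    · intro x hx
      simp only [Multiset.map_map, Multiset.mem_map, Function.comp_apply] at hx
      obtain ⟨r, hr, rfl⟩ := hx
      have hr' : ψ.eval r = 0 := (Polynomial.mem_roots hψ).1 hr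
      have : δ < ‖r‖ := by
        by_contra! hle
        exact hcon r hle hr'
      rw [zero_sub, norm_div, norm_one, norm_neg, one_div]
      exact inv_anti₀ hδ this.le
    · rw [Multiset.card_map, Multiset.card_map, nsmul_eq_mul]
      have : ψ.roots.card ≤ m := (Polynomial.card_roots' ψ).trans hm
      gcongr
  have h2 : δ * (‖ψ.eval 0‖ * ‖(ψ.roots.map fun z => 1 / (0 - z)).sum‖) ≤
      δ * (‖ψ.eval 0‖ * (m * δ⁻¹)) := by gcongr
  have h3 : δ * (‖ψ.eval 0‖ * (m * δ⁻¹)) = m * ‖ψ.eval 0‖ := by field_simp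
  linarith

theorem mv_root {ρ : Type*} (G : MvPolynomial (Option ρ) ℂ) {m : ℕ} (hm : G.totalDegree ≤ m)
    (y : ρ → ℂ) {δ : ℝ} (hδ : 0 < δ)
    (h : m * ‖MvPolynomial.eval (fun o : Option ρ => o.elim 0 y) G‖ <
      δ * ‖MvPolynomial.eval (fun o : Option ρ => o.elim 0 y) (MvPolynomial.pderiv none G)‖) :
    ∃ s, ‖s‖ ≤ δ ∧ MvPolynomial.eval (fun o : Option ρ => o.elim s y) G = 0 := by
  set z : Option ρ → ℂ := fun o => o.elim 0 y with hz
  set ψ := MvPolynomial.aeval (fun o : Option ρ => lin (z o) (o.elim 1 fun _ => 0)) G with hψ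
  have hev : ∀ s, ψ.eval s = MvPolynomial.eval (fun o : Option ρ => o.elim s y) G := by
    intro s
    rw [hψ, ← Polynomial.coe_aeval_eq_eval, MvPolynomial.comp_aeval_apply,
      MvPolynomial.aeval_eq_eval]
    congr 2
    funext o
    rcases o with _ | o <;> simp [lin, hz]
  have hd : ψ.derivative.eval 0 = MvPolynomial.eval z (MvPolynomial.pderiv none G) := by
    rw [← Polynomial.coeff_zero_eq_eval_zero, Polynomial.coeff_derivative, zero_add, hψ,
      coeff_one_aeval]
    simp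
  have hdeg : ψ.natDegree ≤ m := by
    have := MvPolynomial.aeval_natDegree_le (n := 1) G hm
      (fun o : Option ρ => lin (z o) (o.elim 1 fun _ => 0)) (fun o => by
        unfold lin
        compute_degree)
    simpa using this
  obtain ⟨s, hs, hs'⟩ := root_lemma ψ hdeg hδ (by rw [hd, hev]; exact h)
  exact ⟨s, hs, by rw [← hev, hs']⟩

theorem tendsto_eval {σ τ N : Type*} {l : Filter N}
    (L : MvPolynomial σ ℂ →ₗ[ℂ] MvPolynomial τ ℂ) (F : N → MvPolynomial σ ℂ)
    (f : MvPolynomial σ ℂ) (Ds : Finset (σ →₀ ℕ)) (hF : ∀ n, (F n).support ⊆ Ds)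
    (hf : f.support ⊆ Ds)
    (hc : ∀ d, Tendsto (fun n => MvPolynomial.coeff d (F n)) l (𝓝 (MvPolynomial.coeff d f)))
    (x : N → τ → ℂ) (x0 : τ → ℂ) (hx : Tendsto x l (𝓝 x0)) :
    Tendsto (fun n => MvPolynomial.eval (x n) (L (F n))) l (𝓝 (MvPolynomial.eval x0 (L f))) := by
  have key : ∀ (G : MvPolynomial σ ℂ), G.support ⊆ Ds → ∀ w : τ → ℂ, MvPolynomial.eval w (L G) =
      ∑ d ∈ Ds, MvPolynomial.coeff d G * MvPolynomial.eval w (L (MvPolynomial.monomial d 1)) := by
    intro G hG w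
    have : G = ∑ d ∈ Ds, MvPolynomial.coeff d G • MvPolynomial.monomial d (1 : ℂ) := by
      conv_lhs => rw [G.as_sum]
      simp only [MvPolynomial.smul_monomial, smul_eq_mul, mul_one]
      refine Finset.sum_subset hG fun d _ hd => ?_
      rw [MvPolynomial.notMem_support_iff.1 hd, map_zero]
    conv_lhs => rw [this]
    simp only [map_sum, map_smul, MvPolynomial.smul_eval]
  simp only [key _ (hF _), key _ hf]
  refine tendsto_finsetSum _ fun d _ => (hc d).mul ?_
  exact ((MvPolynomial.continuous_eval _).tendsto _).comp hx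

theorem totalDegree_det_le {σ : Type*} {m : ℕ} (A : Matrix (Fin m) (Fin m) (MvPolynomial σ ℂ))
    (hA : ∀ i j, (A i j).totalDegree ≤ 1) : A.det.totalDegree ≤ m := by
  rw [Matrix.det_apply]
  refine MvPolynomial.totalDegree_finsetSum_le fun s _ => ?_
  refine (MvPolynomial.totalDegree_smul_le _ _).trans ?_
  refine (MvPolynomial.totalDegree_finsetProd _ _).trans ?_
  refine (Finset.sum_le_card_nsmul _ _ 1 fun i _ => hA _ _).trans (by simp)

theorem exists_grid {ρ : Type*} [Fintype ρ] (s : Finset (ρ → ℕ)) (N : ℕ)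
    (hs : ∀ e ∈ s, ∑ k, e k ≤ N) {η : ℝ} (hη : 0 < η) :
    ∃ Y : Finset (ρ → ℂ), (∀ y ∈ Y, ‖y‖ < η) ∧
      LinearIndependent ℂ fun (β : s) (y : Y) => ∏ k, y.1 k ^ β.1 k := by
  classical
  obtain ⟨S, hS, hS'⟩ := (infinite_of_mem_nhds (0 : ℂ)
    (Metric.ball_mem_nhds 0 hη)).exists_subset_card_eq (N + 1)
  refine ⟨Fintype.piFinset fun _ => S, fun y hy => ?_, ?_⟩
  · rw [pi_norm_lt_iff hη]
    intro k
    simpa using hS (Fintype.mem_piFinset.1 hy k)
  · rw [Fintype.linearIndependent_iff]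
    intro g hg β0
    set Q : MvPolynomial ρ ℂ :=
      ∑ β : s, MvPolynomial.monomial (Finsupp.equivFunOnFinite.symm β.1) (g β) with hQ
    have hQ0 : Q = 0 := by
      refine MvPolynomial.eq_zero_of_eval_zero_at_prod_finset Q (fun _ => S) (fun i => ?_)
        fun x hx => ?_
      · rw [hS', Nat.lt_succ_iff]
        refine (MvPolynomial.degreeOf_le_totalDegree _ _).trans ?_
        refine MvPolynomial.totalDegree_finsetSum_le fun β _ => ?_
        refine (MvPolynomial.totalDegree_monomial_le _ _).trans ?_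
        rw [Finsupp.sum_fintype _ _ (by simp)]
        exact hs _ β.2
      · have := congrFun hg ⟨x, Fintype.mem_piFinset.2 hx⟩
        simp only [Finset.sum_apply, Pi.smul_apply, smul_eq_mul, Pi.zero_apply] at this
        rw [← this, hQ, map_sum]
        refine Finset.sum_congr rfl fun β _ => ?_
        rw [MvPolynomial.eval_monomial, Finsupp.prod_fintype _ _ (by simp)]
        rfl
    have h2 := congrArg (MvPolynomial.coeff (Finsupp.equivFunOnFinite.symm β0.1)) hQ0
    rw [hQ, MvPolynomial.coeff_sum, Finset.sum_eq_single β0] at h2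
    · simpa using h2
    · intro β _ hβ
      rw [MvPolynomial.coeff_monomial, if_neg]
      exact fun h => hβ (Subtype.ext (Finsupp.equivFunOnFinite.symm.injective h))
    · simp

theorem eval_aeval' {τ τ' : Type*} (z : τ' → ℂ) (g : τ → MvPolynomial τ' ℂ)
    (p : MvPolynomial τ ℂ) : MvPolynomial.eval z (MvPolynomial.aeval g p) =
      MvPolynomial.eval (fun o => MvPolynomial.eval z (g o)) p := by
  induction p using MvPolynomial.induction_on with
  | C a => rw [MvPolynomial.aeval_C, MvPolynomial.algebraMap_eq, MvPolynomial.eval_C,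
      MvPolynomial.eval_C]
  | add p q hp hq => rw [map_add, map_add, map_add, hp, hq]
  | mul_X p i hp => rw [map_mul, map_mul, map_mul, hp, MvPolynomial.aeval_X, MvPolynomial.eval_X]

theorem exists_radii {ρ : Type*} [Fintype ρ] (g g' : MvPolynomial (Option ρ) ℂ) (m : ℕ)
    (H0 : MvPolynomial.constantCoeff g = 0) (H1 : MvPolynomial.constantCoeff g' ≠ 0) :
    ∃ δ η : ℝ, 0 < δ ∧ 0 < η ∧ η ≤ δ ∧
      (∀ z : Option ρ → ℂ, ‖z‖ ≤ δ → MvPolynomial.eval z g' ≠ 0) ∧
      ∀ y : ρ → ℂ, ‖y‖ < η → m * ‖MvPolynomial.eval (fun o : Option ρ => o.elim 0 y) g‖ <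
        δ * ‖MvPolynomial.eval (fun o : Option ρ => o.elim 0 y) g'‖ := by
  have e1 : ∀ᶠ z in 𝓝 (0 : Option ρ → ℂ), MvPolynomial.eval z g' ≠ 0 :=
    ((MvPolynomial.continuous_eval g').tendsto 0).eventually_ne (by simpa using H1)
  obtain ⟨δ, hδ, hδ'⟩ := Metric.nhds_basis_closedBall.eventually_iff.1 e1
  have hc : Continuous fun (y : ρ → ℂ) (o : Option ρ) => o.elim (0 : ℂ) y := by
    refine continuous_pi fun o => ?_
    rcases o with _ | o
    · exact continuous_const
    · exact continuous_apply o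
  have h00 : (fun o : Option ρ => o.elim (0 : ℂ) (0 : ρ → ℂ)) = 0 := by
    funext o
    rcases o with _ | o <;> rfl
  have e2 : ∀ᶠ y in 𝓝 (0 : ρ → ℂ), m * ‖MvPolynomial.eval (fun o : Option ρ => o.elim 0 y) g‖ <
      δ * ‖MvPolynomial.eval (fun o : Option ρ => o.elim 0 y) g'‖ := by
    refine ContinuousAt.eventually_lt
      (continuous_const.mul ((MvPolynomial.continuous_eval g).comp hc).norm).continuousAt
      (continuous_const.mul ((MvPolynomial.continuous_eval g').comp hc).norm).continuousAt ?_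
    simp only [h00, MvPolynomial.eval_zero, H0, norm_zero, mul_zero]
    exact mul_pos hδ (norm_pos_iff.2 H1)
  obtain ⟨η, hη, hη'⟩ := Metric.nhds_basis_ball.eventually_iff.1 e2
  refine ⟨δ, min η δ, hδ, lt_min hη hδ, min_le_right _ _, fun z hz => hδ' (by simpa using hz),
    fun y hy => hη' (by simpa using hy.trans_le (min_le_left _ _))⟩

theorem exists_points {σ ρ J B : Type*} [Fintype σ] [Fintype ρ] [Fintype J] [Finite B]
    (f : MvPolynomial σ ℂ) (π : σ → MvPolynomial (Option ρ) ℂ) (hπ : ∀ i, (π i).totalDegree ≤ 1)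
    {m : ℕ} (hb : ∀ ε : ℝ, 0 < ε → ∃ A : Matrix (Fin m) (Fin m) (MvPolynomial σ ℂ),
      (∀ i j, (A i j).totalDegree ≤ 1) ∧
        ∀ d, ‖MvPolynomial.coeff d A.det - MvPolynomial.coeff d f‖ < ε)
    {δ : ℝ} (hδ : 0 < δ) (hδ' : ∀ z : Option ρ → ℂ, ‖z‖ ≤ δ →
      MvPolynomial.eval z (MvPolynomial.pderiv none (MvPolynomial.aeval π f)) ≠ 0)
    (y : J → ρ → ℂ) (hy : ∀ j, ‖y j‖ ≤ δ)
    (hy' : ∀ j, m * ‖MvPolynomial.eval (fun o : Option ρ => o.elim 0 (y j))
        (MvPolynomial.aeval π f)‖ < δ * ‖MvPolynomial.eval (fun o : Option ρ => o.elim 0 (y j))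
          (MvPolynomial.pderiv none (MvPolynomial.aeval π f))‖)
    (Θ : B → MvPolynomial (Option ρ ⊕ σ) ℂ) (val : B → J → ℂ) (hval : LinearIndependent ℂ val)
    (hΘ : ∀ β j s, MvPolynomial.eval (fun o : Option ρ => o.elim s (y j))
      (MvPolynomial.aeval (Sum.elim MvPolynomial.X fun i =>
        MvPolynomial.aeval π (MvPolynomial.pderiv i f)) (Θ β)) = val β j) :
    ∃ (A : Matrix (Fin m) (Fin m) (MvPolynomial σ ℂ)) (z : J → Option ρ → ℂ),
      (∀ i j, (A i j).totalDegree ≤ 1) ∧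
      (∀ j, MvPolynomial.eval (z j) (MvPolynomial.aeval π A.det) = 0) ∧
      (∀ j, MvPolynomial.eval (z j)
        (MvPolynomial.pderiv none (MvPolynomial.aeval π A.det)) ≠ 0) ∧
      LinearIndependent ℂ fun β j => MvPolynomial.eval (Sum.elim (z j) fun i =>
        MvPolynomial.eval (z j) (MvPolynomial.aeval π (MvPolynomial.pderiv i A.det))) (Θ β) := by
  classical
  choose A hA hA' using fun n : ℕ => hb (1 / ((n : ℝ) + 1)) Nat.one_div_pos_of_nat
  have hc : ∀ d, Tendsto (fun n => MvPolynomial.coeff d (A n).det) atTop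
      (𝓝 (MvPolynomial.coeff d f)) := fun d => by
    rw [tendsto_iff_norm_sub_tendsto_zero]
    exact squeeze_zero (fun _ => norm_nonneg _) (fun n => (hA' n d).le)
      tendsto_one_div_add_atTop_nhds_zero_nat
  set Ds := (Finsupp.finite_of_degree_le (σ := σ) m).toFinset ∪ f.support with hDs
  have hF : ∀ n, (A n).det.support ⊆ Ds := fun n d hd => by
    refine Finset.mem_union_left _ ?_
    rw [Set.Finite.mem_toFinset]
    exact (MvPolynomial.le_totalDegree hd).trans (totalDegree_det_le _ (hA n))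
  have hf : f.support ⊆ Ds := Finset.subset_union_right
  let L0 : MvPolynomial σ ℂ →ₗ[ℂ] MvPolynomial (Option ρ) ℂ := (MvPolynomial.aeval π).toLinearMap
  let L1 : MvPolynomial σ ℂ →ₗ[ℂ] MvPolynomial (Option ρ) ℂ :=
    (MvPolynomial.pderiv none : Derivation ℂ _ _).toLinearMap ∘ₗ L0
  let L2 : σ → MvPolynomial σ ℂ →ₗ[ℂ] MvPolynomial (Option ρ) ℂ := fun i =>
    L0 ∘ₗ (MvPolynomial.pderiv i : Derivation ℂ _ _).toLinearMap
  have hdeg : ∀ n, (MvPolynomial.aeval π (A n).det).totalDegree ≤ m := fun n => by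
    rw [AlgHom.map_det]
    exact totalDegree_det_le _ fun i j => totalDegree_aeval_le π hπ _ (hA n i j)
  have hroot : ∀ n j, ∃ s : ℂ, ‖s‖ ≤ δ ∧
      (m * ‖MvPolynomial.eval (fun o : Option ρ => o.elim 0 (y j)) (L0 (A n).det)‖ <
        δ * ‖MvPolynomial.eval (fun o : Option ρ => o.elim 0 (y j)) (L1 (A n).det)‖ →
      MvPolynomial.eval (fun o : Option ρ => o.elim s (y j)) (L0 (A n).det) = 0) := by
    intro n j
    by_cases h : m * ‖MvPolynomial.eval (fun o : Option ρ => o.elim 0 (y j)) (L0 (A n).det)‖ <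
        δ * ‖MvPolynomial.eval (fun o : Option ρ => o.elim 0 (y j)) (L1 (A n).det)‖
    · obtain ⟨s, hs, hs'⟩ := mv_root _ (hdeg n) (y j) hδ h
      exact ⟨s, hs, fun _ => hs'⟩
    · exact ⟨0, by simpa using hδ.le, fun h' => absurd h' h⟩
  choose s hs hs' using hroot
  obtain ⟨s0, hs0, φ, hφ, hlim⟩ := (isCompact_closedBall (0 : J → ℂ) δ).tendsto_subseq (x := s)
    (fun n => by
      rw [mem_closedBall_zero_iff, pi_norm_le_iff_of_nonneg hδ.le]
      exact hs n)
  rw [mem_closedBall_zero_iff, pi_norm_le_iff_of_nonneg hδ.le] at hs0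
  have hc' : ∀ d, Tendsto (fun n => MvPolynomial.coeff d (A (φ n)).det) atTop
      (𝓝 (MvPolynomial.coeff d f)) := fun d => (hc d).comp hφ.tendsto_atTop
  let z : ℕ → J → Option ρ → ℂ := fun n j o => o.elim (s (φ n) j) (y j)
  let z0 : J → Option ρ → ℂ := fun j o => o.elim (s0 j) (y j)
  have hz : ∀ j, Tendsto (fun n => z n j) atTop (𝓝 (z0 j)) := fun j => by
    refine tendsto_pi_nhds.2 fun o => ?_
    rcases o with _ | o
    · exact tendsto_pi_nhds.1 hlim j
    · exact tendsto_const_nhds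
  have hz0 : ∀ j, ‖z0 j‖ ≤ δ := fun j => by
    rw [pi_norm_le_iff_of_nonneg hδ.le]
    rintro (_ | o)
    · exact hs0 j
    · exact (norm_le_pi_norm (y j) o).trans (hy j)
  have T : ∀ (L : MvPolynomial σ ℂ →ₗ[ℂ] MvPolynomial (Option ρ) ℂ) (x : ℕ → Option ρ → ℂ) x0,
      Tendsto x atTop (𝓝 x0) → Tendsto (fun n => MvPolynomial.eval (x n) (L (A (φ n)).det)) atTop
        (𝓝 (MvPolynomial.eval x0 (L f))) := fun L x x0 hx =>
    tendsto_eval L (fun n => (A (φ n)).det) f Ds (fun n => hF _) hf hc' x x0 hx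
  have e1 : ∀ᶠ n in atTop, ∀ j, MvPolynomial.eval (z n j) (L0 (A (φ n)).det) = 0 := by
    refine eventually_all.2 fun j => ?_
    refine (((T L0 _ _ tendsto_const_nhds).norm.const_mul (m : ℝ)).eventually_lt
      ((T L1 _ _ tendsto_const_nhds).norm.const_mul δ) (hy' j)).mono fun n hn => hs' _ _ hn
  have e2 : ∀ᶠ n in atTop, ∀ j, MvPolynomial.eval (z n j) (L1 (A (φ n)).det) ≠ 0 :=
    eventually_all.2 fun j => (T L1 _ _ (hz j)).eventually_ne (hδ' _ (hz0 j))
  have e3 : ∀ᶠ n in atTop, LinearIndependent ℂ fun β j => MvPolynomial.eval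
      (Sum.elim (z n j) fun i => MvPolynomial.eval (z n j) (L2 i (A (φ n)).det)) (Θ β) := by
    refine Tendsto.eventually (f := fun n β j => MvPolynomial.eval
      (Sum.elim (z n j) fun i => MvPolynomial.eval (z n j) (L2 i (A (φ n)).det)) (Θ β))
      ?_ hval.eventually
    refine tendsto_pi_nhds.2 fun β => tendsto_pi_nhds.2 fun j => ?_
    rw [← hΘ β j (s0 j), eval_aeval']
    refine ((MvPolynomial.continuous_eval (Θ β)).tendsto _).comp ?_
    refine tendsto_pi_nhds.2 fun o => ?_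
    rcases o with o | i
    · simpa using tendsto_pi_nhds.1 (hz j) o
    · exact T (L2 i) _ _ (hz j)
  obtain ⟨n, h1, h2, h3⟩ := (e1.and (e2.and e3)).exists
  exact ⟨A (φ n), z n, hA _, h1, h2, h3⟩

end Pool.Agent.Lib.MP_8b1d3b_lc.DC
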