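import Pool.Agent.Lib.MP_8b1d3b_lc.DCAn

/-! The determinantal degree lemma (border version). -/

set_option autoImplicit false
set_option linter.unusedSectionVars false

namespace Pool.Agent.Lib.MP_8b1d3b_lc.DC

open Finset Filter Topology

theorem finite_ineq {σ ρ : Type*} [Fintype σ] [Fintype ρ] (f : MvPolynomial σ ℂ)
    (π : σ → MvPolynomial (Option ρ) ℂ) (hπ : ∀ i, (π i).totalDegree ≤ 1) {D S m : ℕ}
    (H0 : MvPolynomial.constantCoeff (MvPolynomial.aeval π f) = 0)
    (H1 : MvPolynomial.constantCoeff (MvPolynomial.pderiv none (MvPolynomial.aeval π f)) ≠ 0)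
    (H2 : ∀ (T : ℕ) (p : MvPolynomial (Option ρ) ℂ), p.totalDegree ≤ D * T →
      p ∈ MvPolynomial.restrictTotalDegree (Option ρ) ℂ S * (Submodule.span ℂ
        (Set.range fun i => MvPolynomial.aeval π (MvPolynomial.pderiv i f))) ^ T)
    (hb : ∀ ε : ℝ, 0 < ε → ∃ A : Matrix (Fin (m + 1)) (Fin (m + 1)) (MvPolynomial σ ℂ),
      (∀ i j, (A i j).totalDegree ≤ 1) ∧
        ∀ d, ‖MvPolynomial.coeff d A.det - MvPolynomial.coeff d f‖ < ε)
    (T T1 T2 : ℕ) :
    (m + 1 + T1).choose T1 * (m + T2).choose T2 * (Fintype.card ρ + D * T).choose (D * T) ≤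
      (Fintype.card ρ + 1 + (S + T1 + T2)).choose (S + T1 + T2) * (m + (T + T2)).choose (T + T2) *
        (m + (T + T1)).choose (T + T1) := by
  classical
  obtain ⟨δ, η, hδ, hη, hηδ, hδ', hη'⟩ := exists_radii _ _ (m + 1) H0 H1
  obtain ⟨s, hs, hs'⟩ := exists_idx ρ (D * T)
  obtain ⟨Y, hY, hY'⟩ := exists_grid s (D * T) hs' hη
  have hlift : ∀ β : s, ∃ Θ ∈ LiftSp (Option ρ) σ S T, MvPolynomial.aeval (Sum.elim MvPolynomial.X
      fun i => MvPolynomial.aeval π (MvPolynomial.pderiv i f)) Θ =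
        ∏ k, MvPolynomial.X (some k) ^ β.1 k := fun β => by
    refine exists_lift _ (H2 T _ ?_)
    refine (MvPolynomial.totalDegree_finsetProd _ _).trans (le_trans ?_ (hs' _ β.2))
    exact Finset.sum_le_sum fun k _ => (MvPolynomial.totalDegree_X_pow _ _).le
  choose Θ hΘ hΘ' using hlift
  obtain ⟨A, z, hA, h0, h1, hind⟩ := exists_points (J := Y) f π hπ hb hδ hδ' (fun y => y.1)
    (fun y => (hY _ y.2).le.trans hηδ) (fun y => hη' _ (hY _ y.2)) Θ _ hY' (fun β y t => by
      rw [hΘ']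
      simp)
  have := count_of_points π hπ A hA S T T1 T2 Θ hΘ z h0 h1 hind
  rwa [Fintype.card_coe, hs] at this

theorem choose_lower (n k : ℕ) : (k : ℝ) ^ n / n.factorial ≤ (n + k).choose k := by
  rw [Nat.choose_symm_add.symm]
  refine le_trans ?_ (Nat.pow_le_choose n (n + k))
  gcongr
  omega

theorem choose_upper (n k : ℕ) : ((n + k).choose k : ℝ) ≤ ((n : ℝ) + k) ^ n / n.factorial := by
  rw [Nat.choose_symm_add.symm]
  exact_mod_cast Nat.choose_le_pow_div (α := ℝ) n (n + k)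

theorem asympt {r D S m τ : ℕ} (hτ : 0 < τ) (h : ∀ T T1 T2 : ℕ,
    (m + 1 + T1).choose T1 * (m + T2).choose T2 * (r + D * T).choose (D * T) ≤
      (r + 1 + (S + T1 + T2)).choose (S + T1 + T2) * (m + (T + T2)).choose (T + T2) *
        (m + (T + T1)).choose (T + T1)) :
    D ^ r * (r + 1) * τ ^ (2 * m) ≤ 2 * (m + 1) * (2 * τ) ^ r * (τ + 1) ^ (2 * m) := by
  have key : ∀ T : ℕ, 0 < T → (τ : ℝ) ^ (m + 1) / (m + 1).factorial * (τ ^ m / m.factorial) *
      (D ^ r / r.factorial) ≤ ((r + 1 + S) * (T : ℝ)⁻¹ + 2 * τ) ^ (r + 1) / (r + 1).factorial *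
        ((m * (T : ℝ)⁻¹ + (τ + 1)) ^ m / m.factorial) *
        ((m * (T : ℝ)⁻¹ + (τ + 1)) ^ m / m.factorial) := by
    intro T hT
    have hT' : (0 : ℝ) < T := by exact_mod_cast hT
    have h1 : (((m + 1 + τ * T).choose (τ * T) : ℕ) : ℝ) * ((m + τ * T).choose (τ * T) : ℕ) *
        ((r + D * T).choose (D * T) : ℕ) ≤
      ((r + 1 + (S + τ * T + τ * T)).choose (S + τ * T + τ * T) : ℕ) *
        ((m + (T + τ * T)).choose (T + τ * T) : ℕ) * ((m + (T + τ * T)).choose (T + τ * T) : ℕ) := by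
      exact_mod_cast h T (τ * T) (τ * T)
    have l1 := choose_lower (m + 1) (τ * T)
    have l2 := choose_lower m (τ * T)
    have l3 := choose_lower r (D * T)
    have u1 := choose_upper (r + 1) (S + τ * T + τ * T)
    have u2 := choose_upper m (T + τ * T)
    have h2 := (mul_le_mul (mul_le_mul l1 l2 (by positivity) (by positivity)) l3 (by positivity)
      (by positivity)).trans (h1.trans (mul_le_mul (mul_le_mul u1 u2 (by positivity)
        (by positivity)) u2 (by positivity) (by positivity)))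
    have e1 : ((r + 1 : ℕ) : ℝ) + ((S + τ * T + τ * T : ℕ) : ℝ) =
        T * ((r + 1 + S) * (T : ℝ)⁻¹ + 2 * τ) := by
      push_cast
      field_simp
      ring
    have e2 : (m : ℝ) + ((T + τ * T : ℕ) : ℝ) = T * (m * (T : ℝ)⁻¹ + (τ + 1)) := by
      push_cast
      field_simp
      ring
    rw [e1, e2] at h2
    refine le_of_mul_le_mul_left ?_ (pow_pos hT' (r + 1 + m + m))
    convert h2 using 1
    · push_cast
      ring
    · simp only [mul_pow]
      ring
  have hinv : Tendsto (fun T : ℕ => (T : ℝ)⁻¹) atTop (𝓝 0) := tendsto_inv_atTop_nhds_zero_nat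
  have hlim : Tendsto (fun T : ℕ =>
      ((r + 1 + S) * (T : ℝ)⁻¹ + 2 * τ) ^ (r + 1) / (r + 1).factorial *
        ((m * (T : ℝ)⁻¹ + (τ + 1)) ^ m / m.factorial) *
        ((m * (T : ℝ)⁻¹ + (τ + 1)) ^ m / m.factorial)) atTop
      (𝓝 ((((r : ℝ) + 1 + S) * 0 + 2 * τ) ^ (r + 1) / (r + 1).factorial *
        ((m * 0 + (τ + 1)) ^ m / m.factorial) * ((m * 0 + (τ + 1)) ^ m / m.factorial))) := by
    have a1 := ((((hinv.const_mul ((r : ℝ) + 1 + S)).add_const (2 * (τ : ℝ))).pow (r + 1)).div_const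
      ((r + 1).factorial : ℝ))
    have a2 := ((((hinv.const_mul (m : ℝ)).add_const ((τ : ℝ) + 1)).pow m).div_const
      (m.factorial : ℝ))
    exact (a1.mul a2).mul a2
  have hfin := ge_of_tendsto hlim ((eventually_gt_atTop 0).mono key)
  have hτ' : (0 : ℝ) < τ := by exact_mod_cast hτ
  have hm : (0 : ℝ) < m.factorial := by exact_mod_cast m.factorial_pos
  have hr : (0 : ℝ) < r.factorial := by exact_mod_cast r.factorial_pos
  simp only [mul_zero, zero_add, Nat.factorial_succ] at hfin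
  push_cast at hfin
  have hpos : (0 : ℝ) < τ / ((m + 1) * m.factorial * m.factorial * r.factorial * (r + 1)) := by
    positivity
  have : ((D ^ r * (r + 1) * τ ^ (2 * m) : ℕ) : ℝ) ≤
      ((2 * (m + 1) * (2 * τ) ^ r * (τ + 1) ^ (2 * m) : ℕ) : ℝ) := by
    refine le_of_mul_le_mul_left ?_ hpos
    convert hfin using 1
    · push_cast
      field_simp
      ring
    · push_cast
      field_simp
      ring
  exact_mod_cast this

/-- **Degree lemma.** -/
theorem degree_lemma {σ ρ : Type*} [Fintype σ] [Fintype ρ] (f : MvPolynomial σ ℂ)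
    (π : σ → MvPolynomial (Option ρ) ℂ) (hπ : ∀ i, (π i).totalDegree ≤ 1) {D S m : ℕ}
    (H0 : MvPolynomial.constantCoeff (MvPolynomial.aeval π f) = 0)
    (H1 : MvPolynomial.constantCoeff (MvPolynomial.pderiv none (MvPolynomial.aeval π f)) ≠ 0)
    (H2 : ∀ (T : ℕ) (p : MvPolynomial (Option ρ) ℂ), p.totalDegree ≤ D * T →
      p ∈ MvPolynomial.restrictTotalDegree (Option ρ) ℂ S * (Submodule.span ℂ
        (Set.range fun i => MvPolynomial.aeval π (MvPolynomial.pderiv i f))) ^ T)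
    (hb : ∀ ε : ℝ, 0 < ε → ∃ A : Matrix (Fin m) (Fin m) (MvPolynomial σ ℂ),
      (∀ i j, (A i j).totalDegree ≤ 1) ∧
        ∀ d, ‖MvPolynomial.coeff d A.det - MvPolynomial.coeff d f‖ < ε)
    (τ : ℕ) (hτ : 0 < τ) :
    D ^ Fintype.card ρ * (Fintype.card ρ + 1) * τ ^ (2 * m - 2) ≤
      2 * m * (2 * τ) ^ Fintype.card ρ * (τ + 1) ^ (2 * m - 2) := by
  rcases m with _ | m
  · exfalso
    have hf : f = 1 := by
      ext d
      by_contra hne
      obtain ⟨A, -, hA⟩ := hb _ (norm_pos_iff.2 (sub_ne_zero.2 (Ne.symm hne)))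
      have := hA d
      rw [Matrix.det_isEmpty] at this
      exact lt_irrefl _ this
    rw [hf, map_one, map_one] at H0
    exact one_ne_zero H0
  · rw [show 2 * (m + 1) - 2 = 2 * m by omega]
    exact asympt hτ (finite_ineq f π hπ H0 H1 H2 hb)

end Pool.Agent.Lib.MP_8b1d3b_lc.DC
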