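import Mathlib

/-! Spanning-set counts and the leading-term independence lemma used in the degree lemma. -/

set_option autoImplicit false
set_option linter.unusedSectionVars false

namespace Pool.Agent.Lib.MP_8b1d3b_lc.DC

open Finset

section Span

variable {P : Type*} [CommRing P] [Algebra ℂ P]

/-- `W` lies in the span of at most `n` elements. -/
def Sp (n : ℕ) (W : Submodule ℂ P) : Prop :=
  ∃ s : Finset P, s.card ≤ n ∧ W ≤ Submodule.span ℂ (s : Set P)

theorem Sp.mul {n n' : ℕ} {W W' : Submodule ℂ P} (h : Sp n W) (h' : Sp n' W') :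
    Sp (n * n') (W * W') := by
  classical
  obtain ⟨s, hs, hW⟩ := h
  obtain ⟨s', hs', hW'⟩ := h'
  refine ⟨Finset.image₂ (· * ·) s s', (Finset.card_image₂_le _ _ _).trans (Nat.mul_le_mul hs hs'), ?_⟩
  refine (mul_le_mul' hW hW').trans ?_
  rw [Submodule.span_mul_span, Finset.coe_image₂]
  rfl

theorem Sp.card_le {n : ℕ} {W : Submodule ℂ P} (h : Sp n W) {I : Type*} [Fintype I] {G : I → P}
    (hG : LinearIndependent ℂ G) (hm : ∀ i, G i ∈ W) : Fintype.card I ≤ n := by
  obtain ⟨s, hs, hW⟩ := h
  have := linearIndependent_le_span_aux' G hG (s : Set P) (by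
    rintro _ ⟨i, rfl⟩
    exact hW (hm i))
  simpa using this.trans (by simpa using hs)

theorem sp_pow {κ : Type*} [Fintype κ] (g : κ → P) (a : ℕ) :
    Sp ((Fintype.card κ + a - 1).choose a) (Submodule.span ℂ (Set.range g) ^ a) := by
  classical
  refine ⟨(Finset.univ.finsuppAntidiag a).image (fun e : κ →₀ ℕ => ∏ k, g k ^ e k), ?_, ?_⟩
  · refine Finset.card_image_le.trans ?_
    rw [Finset.card_finsuppAntidiag_nat_eq_choose, Finset.card_univ]
  · induction a with
    | zero =>
      rw [pow_zero, Submodule.one_eq_span]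
      refine Submodule.span_mono ?_
      rintro _ rfl
      simp only [Finset.coe_image, Set.mem_image, Finset.mem_coe]
      exact ⟨0, by simp, by simp⟩
    | succ a ih =>
      rw [pow_succ]
      refine (mul_le_mul' ih le_rfl).trans ?_
      rw [Submodule.span_mul_span]
      refine Submodule.span_mono ?_
      rintro _ ⟨x, hx, _, ⟨k, rfl⟩, rfl⟩
      simp only [Finset.coe_image, Set.mem_image, Finset.mem_coe] at hx ⊢
      obtain ⟨e, he, rfl⟩ := hx
      refine ⟨e + Finsupp.single k 1, ?_, ?_⟩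
      · simp only [Finset.mem_finsuppAntidiag, Finset.subset_univ, and_true] at he ⊢
        simp only [Finsupp.coe_add, Pi.add_apply, Finset.sum_add_distrib, he]
        simp [Finsupp.single_apply]
      · simp only [Finsupp.coe_add, Pi.add_apply, pow_add, Finset.prod_mul_distrib]
        congr 1
        rw [Finset.prod_eq_single k]
        · simp
        · intro b _ hb
          simp [hb.symm]
        · simp

theorem prod_pow_mem {κ : Type*} (s : Finset κ) (W : Submodule ℂ P) (g : κ → P)
    (hg : ∀ k, g k ∈ W) (e : κ → ℕ) : ∏ k ∈ s, g k ^ e k ∈ W ^ (∑ k ∈ s, e k) := by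
  classical
  induction s using Finset.induction_on with
  | empty => simpa using ⟨1, map_one _⟩
  | insert a s ha ih =>
    rw [Finset.prod_insert ha, Finset.sum_insert ha, pow_add]
    exact Submodule.mul_mem_mul (Submodule.pow_mem_pow _ (hg a) _) ih

theorem pow_le_pow_of_one {W : Submodule ℂ P} (h1 : (1 : P) ∈ W) {i j : ℕ} (h : i ≤ j) :
    W ^ i ≤ W ^ j := by
  obtain ⟨k, rfl⟩ := Nat.exists_eq_add_of_le h
  intro x hx
  rw [pow_add]
  have := Submodule.mul_mem_mul hx (Submodule.pow_mem_pow _ h1 k)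
  simpa using this

theorem aeval_mem_pow {τ : Type*} (W : Submodule ℂ P) (h1 : (1 : P) ∈ W) (g : τ → P)
    (hg : ∀ i, g i ∈ W) (p : MvPolynomial τ ℂ) {n : ℕ} (hp : p.totalDegree ≤ n) :
    MvPolynomial.aeval g p ∈ W ^ n := by
  rw [p.as_sum, map_sum]
  refine Submodule.sum_mem _ fun d hd => ?_
  rw [MvPolynomial.aeval_monomial, ← Algebra.smul_def]
  refine Submodule.smul_mem _ _ ?_
  refine pow_le_pow_of_one h1 ((MvPolynomial.le_totalDegree hd).trans hp) ?_
  exact prod_pow_mem _ W g hg d

end Span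

section Lead

open Polynomial

/-- `p = X^n (c + X q)`. -/
def Lead (n : ℕ) (c : ℂ) (p : ℂ[X]) : Prop := ∃ q : ℂ[X], p = X ^ n * (C c + X * q)

theorem Lead.mul {n n' : ℕ} {c c' : ℂ} {p p' : ℂ[X]} (h : Lead n c p) (h' : Lead n' c' p') :
    Lead (n + n') (c * c') (p * p') := by
  obtain ⟨q, rfl⟩ := h
  obtain ⟨q', rfl⟩ := h'
  exact ⟨C c * q' + C c' * q + X * q * q', by rw [C_mul]; ring⟩

theorem lead_zero (p : ℂ[X]) : Lead 0 (p.coeff 0) p :=
  ⟨p.divX, by rw [pow_zero, one_mul, add_comm, X_mul_divX_add]⟩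

theorem lead_one {p : ℂ[X]} (h0 : p.coeff 0 = 0) : Lead 1 (p.coeff 1) p := by
  refine ⟨p.divX.divX, ?_⟩
  have h1 := X_mul_divX_add p
  have h2 := X_mul_divX_add p.divX
  rw [h0, C_0, add_zero] at h1
  rw [coeff_divX, zero_add] at h2
  rw [pow_one, add_comm, h2, h1]

theorem Lead.pow {n : ℕ} {c : ℂ} {p : ℂ[X]} (h : Lead n c p) (k : ℕ) :
    Lead (n * k) (c ^ k) (p ^ k) := by
  induction k with
  | zero => exact ⟨0, by simp⟩
  | succ k ih => simpa [pow_succ, Nat.mul_succ] using ih.mul h

theorem lead_prod {κ : Type*} (s : Finset κ) (n : κ → ℕ) (c : κ → ℂ) (p : κ → ℂ[X])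
    (h : ∀ k, Lead (n k) (c k) (p k)) :
    Lead (∑ k ∈ s, n k) (∏ k ∈ s, c k) (∏ k ∈ s, p k) := by
  classical
  induction s using Finset.induction_on with
  | empty => exact ⟨0, by simp⟩
  | insert a s ha ih =>
    rw [Finset.prod_insert ha, Finset.sum_insert ha, Finset.prod_insert ha]
    exact (h a).mul ih

theorem Lead.coeff_self {n : ℕ} {c : ℂ} {p : ℂ[X]} (h : Lead n c p) : p.coeff n = c := by
  obtain ⟨q, rfl⟩ := h
  rw [coeff_X_pow_mul', if_pos le_rfl]
  simp

theorem Lead.coeff_lt {n k : ℕ} {c : ℂ} {p : ℂ[X]} (h : Lead n c p) (hk : k < n) :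
    p.coeff k = 0 := by
  obtain ⟨q, rfl⟩ := h
  rw [coeff_X_pow_mul', if_neg (by omega)]

/-- Leading-term independence. -/
theorem indep {P : Type*} [AddCommGroup P] [Module ℂ P] {κ I B J : Type*} [Fintype κ] [Fintype I]
    [Fintype B] (e : I → κ →₀ ℕ) (he : Function.Injective e) (val : B → J → ℂ)
    (hval : LinearIndependent ℂ val) (φ : J → (κ → ℂ) → P →ₗ[ℂ] ℂ[X]) (G : I × B → P)
    (hG : ∀ j t i β, Lead (∑ k, e i k) ((∏ k, t k ^ e i k) * val β j) (φ j t (G (i, β)))) :
    LinearIndependent ℂ G := by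
  classical
  rw [Fintype.linearIndependent_iff] at hval ⊢
  intro g hg
  suffices H : ∀ n, ∀ i, ∑ k, e i k = n → ∀ β, g (i, β) = 0 from fun x => H _ x.1 rfl x.2
  intro n
  induction n using Nat.strong_induction_on with
  | _ n ih =>
    intro i0 hi0
    apply hval
    funext j
    set Q : MvPolynomial κ ℂ := ∑ i ∈ Finset.univ.filter (fun i => ∑ k, e i k = n),
      MvPolynomial.monomial (e i) (∑ β, g (i, β) * val β j) with hQ
    have hQ0 : Q = 0 := by
      apply MvPolynomial.funext
      intro t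
      have h1 := congrArg (fun p => (φ j t p).coeff n) hg
      simp only [map_sum, map_smul, finsetSum_coeff, coeff_smul, map_zero, coeff_zero,
        Fintype.sum_prod_type] at h1
      rw [map_zero, ← h1, hQ, map_sum, Finset.sum_filter]
      refine Finset.sum_congr rfl fun i _ => ?_
      split_ifs with hi
      · rw [MvPolynomial.eval_monomial, Finsupp.prod_fintype _ _ (by simp), Finset.sum_mul]
        refine Finset.sum_congr rfl fun β _ => ?_
        have := (hG j t i β).coeff_self
        rw [hi] at this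
        rw [this, smul_eq_mul]
        ring
      · symm
        refine Finset.sum_eq_zero fun β _ => ?_
        rcases lt_or_gt_of_ne hi with h | h
        · rw [ih _ h i rfl β, zero_smul]
        · rw [(hG j t i β).coeff_lt h, smul_zero]
    have h2 := congrArg (MvPolynomial.coeff (e i0)) hQ0
    rw [hQ, MvPolynomial.coeff_sum, Finset.sum_eq_single i0] at h2
    · rw [MvPolynomial.coeff_monomial, if_pos rfl] at h2
      simpa using h2
    · intro i _ hi
      rw [MvPolynomial.coeff_monomial, if_neg (fun h => hi (he h))]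
    · intro h
      exact absurd (by simp [hi0]) h

end Lead

end Pool.Agent.Lib.MP_8b1d3b_lc.DC
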