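import Mathlib

set_option autoImplicit false
set_option linter.unusedSectionVars false

namespace Pool.Agent.Lib.MP_8b1d3b_lc

open Finset Module

theorem det_factor {R μ : Type*} [CommRing R] [Fintype μ] [DecidableEq μ] (A A' : Matrix μ μ R)
    (p q : μ → R) (h : ∀ i j, A i j = p i * (q j * A' i j)) :
    A.det = (∏ i, p i) * ((∏ j, q j) * A'.det) := by
  rw [← Matrix.det_mul_row, ← Matrix.det_mul_column]
  congr 1
  ext i j
  simp [h]

theorem isotropic_bound {K V E : Type*} [Field K] [AddCommGroup V] [Module K V]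
    [FiniteDimensional K V] [Fintype E] (u v : V →ₗ[K] (E → K))
    (h : ∀ y, u y ⬝ᵥ v y = 0) :
    finrank K V ≤ finrank K (LinearMap.ker (u.prod v)) + Fintype.card E := by
  classical
  let β : LinearMap.BilinForm K ((E → K) × (E → K)) := LinearMap.mk₂ K
    (fun p q => p.1 ⬝ᵥ q.2 + q.1 ⬝ᵥ p.2)
    (fun p p' q => by simp [add_dotProduct, dotProduct_add]; ring)
    (fun c p q => by simp [smul_dotProduct, dotProduct_smul, mul_add])
    (fun p q q' => by simp [add_dotProduct, dotProduct_add]; ring)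
    (fun c p q => by simp [smul_dotProduct, dotProduct_smul, mul_add])
  have hβ : ∀ p q, β p q = p.1 ⬝ᵥ q.2 + q.1 ⬝ᵥ p.2 := fun _ _ => rfl
  have hker : LinearMap.ker β = ⊥ := by
    rw [LinearMap.ker_eq_bot']
    intro p hp
    ext i
    · have := LinearMap.congr_fun hp (0, Pi.single i 1)
      simpa [hβ] using this
    · have := LinearMap.congr_fun hp (Pi.single i 1, 0)
      simpa [hβ] using this
  set W := LinearMap.range (u.prod v) with hW
  have h1 := LinearMap.BilinForm.finrank_add_finrank_orthogonal' (B := β) W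
  rw [hker, inf_bot_eq, finrank_bot, add_zero, finrank_prod, finrank_fintype_fun_eq_card] at h1
  have h2 : W ≤ β.orthogonal W := by
    rintro _ ⟨y, rfl⟩ _ ⟨y', rfl⟩
    have e := h (y + y')
    simp only [map_add, add_dotProduct, dotProduct_add, h] at e
    change β _ _ = 0
    rw [hβ]
    change u y' ⬝ᵥ v y + u y ⬝ᵥ v y' = 0
    linear_combination e
  have h3 := Submodule.finrank_mono h2
  have h4 := LinearMap.finrank_range_add_finrank_ker (u.prod v)
  rw [← hW] at h4
  omega

variable {K μ R : Type*} [Field K] [Fintype μ] [DecidableEq μ] [CommRing R] {φ : K →+* R}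
  {t e : R} {ev : R →+* K}

/-- The matrix `a + t (N + e N')`. -/
def Mdual (φ : K →+* R) (t e : R) (a N N' : Matrix μ μ K) : Matrix μ μ R :=
  a.map φ + t • (N.map φ + e • N'.map φ)

theorem Mdual_apply (a N N' : Matrix μ μ K) (i j : μ) :
    Mdual φ t e a N N' i j = φ (a i j) + t * (φ (N i j) + e * φ (N' i j)) := rfl

theorem det_Mdual_mul (P Q a N N' : Matrix μ μ K) (hP : P.det = 1) (hQ : Q.det = 1) :
    (Mdual φ t e (P * a * Q) (P * N * Q) (P * N' * Q)).det = (Mdual φ t e a N N').det := by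
  have h : Mdual φ t e (P * a * Q) (P * N * Q) (P * N' * Q) =
      P.map φ * Mdual φ t e a N N' * Q.map φ := by
    simp only [Mdual, Matrix.map_mul, Matrix.mul_add, Matrix.add_mul, Matrix.mul_smul,
      Matrix.smul_mul]
  have hP' : (P.map φ).det = 1 := by
    rw [← RingHom.mapMatrix_apply, ← RingHom.map_det, hP, map_one]
  have hQ' : (Q.map φ).det = 1 := by
    rw [← RingHom.mapMatrix_apply, ← RingHom.map_det, hQ, map_one]
  rw [h, Matrix.det_mul, Matrix.det_mul, hP', hQ', one_mul, mul_one]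

theorem exists_zero_diag (hev : ev t = 0) (hφ : ∀ c, ev (φ c) = c) {D : μ → K} {N N' : Matrix μ μ K} {r : R}
    (h : (Mdual φ t e (Matrix.diagonal D) N N').det = t ^ 3 * r) : ∃ i, D i = 0 := by
  have h1 := congrArg (ev) h
  rw [RingHom.map_det, map_mul, map_pow, hev] at h1
  have h2 : (ev).mapMatrix (Mdual φ t e (Matrix.diagonal D) N N') = Matrix.diagonal D := by
    ext i j
    simp [Mdual_apply, hev, hφ]
  rw [h2, Matrix.det_diagonal] at h1
  simpa [prod_eq_zero_iff] using h1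

theorem corank_two (ht : IsLeftRegular t) {D : μ → K} {N N' : Matrix μ μ K} {r : R} {i₀ i₁ : μ}
    (hi : i₀ ≠ i₁) (h₀ : D i₀ = 0) (h₁ : D i₁ = 0)
    (hN : ∀ i ∈ ({i₀, i₁} : Finset μ), ∀ j ∈ ({i₀, i₁} : Finset μ), N i j = 0 ∧ N' i j = 0)
    (h : (Mdual φ t e (Matrix.diagonal D) N N').det = t ^ 3 * r) : ∃ r', r = t * r' := by
  set I : Finset μ := {i₀, i₁} with hI
  have hD : ∀ i ∈ I, D i = 0 := by
    intro i hi
    simp only [hI, mem_insert, mem_singleton] at hi
    rcases hi with rfl | rfl <;> assumption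
  set p : μ → R := fun i => if i ∈ I then t else 1 with hp
  have hprod : ∏ i, p i = t ^ 2 := by
    rw [hp, prod_ite_mem, univ_inter, prod_const, hI, card_pair hi]
  have h2 := det_factor (Mdual φ t e (Matrix.diagonal D) N N') (Matrix.of fun i j =>
    if i ∈ I ∨ j ∈ I then φ (N i j) + e * φ (N' i j)
      else Mdual φ t e (Matrix.diagonal D) N N' i j) p p (by
    intro i j
    by_cases ha : i ∈ I <;> by_cases hb : j ∈ I
    · simp [ha, hb, hp, Mdual_apply, Matrix.diagonal_apply, hD i ha, hN i ha j hb]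
    · simp [ha, hb, hp, Mdual_apply, Matrix.diagonal_apply, hD i ha]
    · have : i ≠ j := fun h => ha (h ▸ hb)
      simp [ha, hb, hp, Mdual_apply, this]
    · simp [ha, hb, hp])
  rw [hprod, h, ← mul_assoc, ← pow_add, show 2 + 2 = 3 + 1 from rfl, pow_succ t 3, mul_assoc] at h2
  exact ⟨_, ht.pow 3 h2⟩

theorem corank_one_sing (ht : IsLeftRegular t) (he : e * e = 0) {D : μ → K} {N N' : Matrix μ μ K} {r : R} {i₀ : μ}
    (h₀ : D i₀ = 0) (hN : ∀ j, N i₀ j = 0) (hN' : ∀ i, N i i₀ = 0) (hc : N' i₀ i₀ = 0)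
    (h : (Mdual φ t e (Matrix.diagonal D) N N').det = t ^ 3 * r) : r = 0 := by
  set p : μ → R := fun i => if i = i₀ then t * e else 1 with hp
  have hprod : ∏ i, p i = t * e := by simp [hp]
  have h2 := det_factor (Mdual φ t e (Matrix.diagonal D) N N') (Matrix.of fun i j =>
    if i = i₀ ∨ j = i₀ then φ (N' i j)
      else Mdual φ t e (Matrix.diagonal D) N N' i j) p p (by
    intro i j
    by_cases ha : i = i₀ <;> by_cases hb : j = i₀
    · simp [ha, hb, hp, Mdual_apply, h₀, hN, hc]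
    · simp [ha, hb, hp, Mdual_apply, Matrix.diagonal_apply, h₀, hN, mul_assoc]
    · simp [ha, hb, hp, Mdual_apply, hN', mul_assoc]
    · simp [ha, hb, hp])
  rw [hprod, h] at h2
  apply ht.pow 3
  change t ^ 3 * r = t ^ 3 * 0
  rw [h2, ← mul_assoc, mul_mul_mul_comm, he]
  simp

theorem corank_one_lin (ht : IsLeftRegular t) (hev : ev t = 0) (hφ : ∀ c, ev (φ c) = c)
    {D : μ → K} {N : Matrix μ μ K} {r : R} {i₀ : μ}
    (h₀ : D i₀ = 0) (hD : ∀ i, i ≠ i₀ → D i ≠ 0)
    (h : (Mdual φ t e (Matrix.diagonal D) N 0).det = t ^ 3 * r) : N i₀ i₀ = 0 := by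
  set p : μ → R := fun i => if i = i₀ then t else 1 with hp
  have hprod : ∏ i, p i = t := by simp [hp]
  set A' : Matrix μ μ R := Matrix.of fun i j =>
    if i = i₀ then φ (N i j) else Mdual φ t e (Matrix.diagonal D) N 0 i j with hA'
  have h2 := det_factor (Mdual φ t e (Matrix.diagonal D) N 0) A' p (fun _ => 1) (by
    intro i j
    by_cases ha : i = i₀
    · simp [ha, hp, hA', Mdual_apply, Matrix.diagonal_apply, h₀]
    · simp [ha, hp, hA'])
  rw [hprod, h, prod_const_one, one_mul, pow_succ', mul_assoc] at h2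
  have h3 := congrArg (ev) (ht h2)
  rw [RingHom.map_det, map_mul, map_pow, hev, zero_pow two_ne_zero, zero_mul] at h3
  obtain ⟨z, hz, hz'⟩ := Matrix.exists_mulVec_eq_zero_iff.mpr h3.symm
  have h4 : ∀ i, i ≠ i₀ → z i = 0 := by
    intro i hi
    have := congrFun hz' i
    simp [Matrix.mulVec, dotProduct, hA', hi, Mdual_apply, hev, hφ,
      Matrix.diagonal_apply, hD i hi] at this
    exact this
  have h5 : z i₀ ≠ 0 := by
    intro e'
    apply hz
    ext i
    by_cases hi : i = i₀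
    · simp [hi, e']
    · simp [h4 i hi]
  have h6 := congrFun hz' i₀
  simp only [Matrix.mulVec, dotProduct, hA', RingHom.mapMatrix_apply, Matrix.map_apply,
    Matrix.of_apply, if_true, hφ, Pi.zero_apply] at h6
  rw [sum_eq_single i₀ (fun i _ hi => by rw [h4 i hi, mul_zero]) (by simp)] at h6
  exact (mul_eq_zero.mp h6).resolve_right h5

theorem corank_one_quad (ht : IsLeftRegular t) (hev : ev t = 0) (hφ : ∀ c, ev (φ c) = c)
    {D : μ → K} {N : Matrix μ μ K} {r : R} {i₀ : μ}
    (h₀ : D i₀ = 0) (hD : ∀ i, i ≠ i₀ → D i ≠ 0)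
    (h : (Mdual φ t e (Matrix.diagonal D) N 0).det = t ^ 3 * r) :
    ∑ i : {i // i ≠ i₀}, N i₀ i * ((D i)⁻¹ * N i i₀) = 0 := by
  have hc := corank_one_lin ht hev hφ h₀ hD h
  set p : μ → R := fun i => if i = i₀ then t else 1 with hp
  have hprod : ∏ i, p i = t := by simp [hp]
  set A' : Matrix μ μ R := Matrix.of fun i j =>
    if i = i₀ ∨ j = i₀ then φ (N i j)
      else Mdual φ t e (Matrix.diagonal D) N 0 i j with hA'
  have h2 := det_factor (Mdual φ t e (Matrix.diagonal D) N 0) A' p p (by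
    intro i j
    by_cases ha : i = i₀ <;> by_cases hb : j = i₀
    · simp [ha, hb, hp, hA', Mdual_apply, h₀, hc]
    · simp [ha, hb, hp, hA', Mdual_apply, Matrix.diagonal_apply, h₀]
    · simp [ha, hb, hp, hA', Mdual_apply]
    · simp [ha, hb, hp, hA'])
  rw [hprod, h, ← mul_assoc, ← pow_two, pow_succ, mul_assoc] at h2
  have h3 := congrArg (ev) (ht.pow 2 h2)
  rw [RingHom.map_det, map_mul, hev, zero_mul] at h3
  obtain ⟨z, hz, hz'⟩ := Matrix.exists_mulVec_eq_zero_iff.mpr h3.symm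
  have h4 : ∀ i, i ≠ i₀ → z i = - ((D i)⁻¹ * N i i₀) * z i₀ := by
    intro i hi
    have h7 := congrFun hz' i
    simp only [Matrix.mulVec, dotProduct, hA', RingHom.mapMatrix_apply, Matrix.map_apply,
      Matrix.of_apply, hi, false_or, Pi.zero_apply] at h7
    rw [← add_sum_erase _ _ (mem_univ i₀), sum_eq_single i (fun j hj hji => by
      simp [(mem_erase.mp hj).1, Mdual_apply, hev, hφ, Ne.symm hji])
      (by simp [hi])] at h7
    simp only [if_true, hφ, hi, if_false, Mdual_apply, map_add, map_mul, hev,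
      zero_mul, add_zero, Matrix.diagonal_apply_eq] at h7
    have := hD i hi
    field_simp
    linear_combination h7
  have h5 : z i₀ ≠ 0 := by
    intro e'
    apply hz
    ext i
    by_cases hi : i = i₀
    · simp [hi, e']
    · simp [h4 i hi, e']
  have h6 := congrFun hz' i₀
  simp only [Matrix.mulVec, dotProduct, hA', RingHom.mapMatrix_apply, Matrix.map_apply,
    Matrix.of_apply, true_or, if_true, hφ, Pi.zero_apply] at h6
  rw [← add_sum_erase _ _ (mem_univ i₀), hc, zero_mul, zero_add,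
    sum_subtype (p := fun i => i ≠ i₀) _ (by simp)] at h6
  apply mul_right_cancel₀ h5
  rw [zero_mul, sum_mul, ← neg_eq_zero, ← h6, ← sum_neg_distrib]
  refine sum_congr rfl fun i _ => ?_
  rw [h4 i i.2]
  ring

theorem det_dichotomy (ht : IsLeftRegular t) (he : e * e = 0) (hev : ev t = 0)
    (hφ : ∀ c, ev (φ c) = c) {δ : R → K} (hδ : ∀ r, δ (t * r) = 0) {V : Type*} [AddCommGroup V] [Module K V] [FiniteDimensional K V]
    (a : Matrix μ μ K) (B : V →ₗ[K] Matrix μ μ K) (d : V → V → K)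
    (h : ∀ y w, ∃ r : R, (Mdual φ t e a (B y) (B w)).det = t ^ 3 * r ∧
      δ r = d y w) :
    (∃ Λ : Submodule K V, finrank K V + 1 ≤ finrank K Λ + Fintype.card μ ∧
      ∀ y ∈ Λ, ∀ w, d y w = 0) ∨
    ∃ κ : V →ₗ[K] (Fin 2 × Fin 2 → K), ∀ y w, κ y = 0 → κ w = 0 → d y w = 0 := by
  obtain ⟨L, L', D, hD⟩ := Matrix.Pivot.exists_list_transvec_mul_mul_list_transvec_eq_diagonal a
  set P := (L.map Matrix.TransvectionStruct.toMatrix).prod with hP
  set Q := (L'.map Matrix.TransvectionStruct.toMatrix).prod with hQ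
  let B' : V →ₗ[K] Matrix μ μ K :=
    (LinearMap.mulRight K Q) ∘ₗ (LinearMap.mulLeft K P) ∘ₗ B
  have hB' : ∀ y, B' y = P * B y * Q := fun _ => rfl
  have h' : ∀ y w, ∃ r : R,
      (Mdual φ t e (Matrix.diagonal D) (B' y) (B' w)).det = t ^ 3 * r ∧ δ r = d y w := by
    intro y w
    rw [← hD, hB', hB', det_Mdual_mul _ _ _ _ _ (by simp [hP]) (by simp [hQ])]
    exact h y w
  clear_value B'
  obtain ⟨r, hr, -⟩ := h' 0 0
  obtain ⟨i₀, h₀⟩ := exists_zero_diag hev hφ hr
  by_cases h1 : ∃ i₁, i₁ ≠ i₀ ∧ D i₁ = 0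
  · right
    obtain ⟨i₁, hi, h₁⟩ := h1
    let f : Fin 2 → μ := ![i₀, i₁]
    refine ⟨LinearMap.pi fun p => (Matrix.entryLinearMap K K (f p.1) (f p.2)) ∘ₗ B', ?_⟩
    intro y w hy hw
    obtain ⟨r, hr, hd⟩ := h' y w
    suffices hs : ∃ r', r = t * r' by
      obtain ⟨r', rfl⟩ := hs
      rw [← hd, hδ]
    refine corank_two ht hi.symm h₀ h₁ ?_ hr
    have hf : ∀ i ∈ ({i₀, i₁} : Finset μ), ∃ s, f s = i := by
      intro i hi
      simp only [mem_insert, mem_singleton] at hi
      rcases hi with rfl | rfl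
      · exact ⟨0, rfl⟩
      · exact ⟨1, rfl⟩
    intro i hi j hj
    obtain ⟨s, rfl⟩ := hf i hi
    obtain ⟨s', rfl⟩ := hf j hj
    exact ⟨congrFun hy (s, s'), congrFun hw (s, s')⟩
  · left
    push Not at h1
    have hc : ∀ y, B' y i₀ i₀ = 0 := by
      intro y
      obtain ⟨r, hr, -⟩ := h' y 0
      rw [map_zero] at hr
      exact corank_one_lin ht hev hφ h₀ h1 hr
    let u : V →ₗ[K] ({i // i ≠ i₀} → K) :=
      LinearMap.pi fun i => (Matrix.entryLinearMap K K i₀ i.1) ∘ₗ B'
    let v : V →ₗ[K] ({i // i ≠ i₀} → K) :=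
      LinearMap.pi fun i => (D i)⁻¹ • (Matrix.entryLinearMap K K i.1 i₀) ∘ₗ B'
    have huv := isotropic_bound u v (by
      intro y
      obtain ⟨r, hr, -⟩ := h' y 0
      rw [map_zero] at hr
      exact corank_one_quad ht hev hφ h₀ h1 hr)
    refine ⟨LinearMap.ker (u.prod v), ?_, ?_⟩
    · have h2 : Fintype.card {i // i ≠ i₀} + 1 = Fintype.card μ := by
        rw [Fintype.card_subtype_compl, Fintype.card_subtype_eq]
        have : 0 < Fintype.card μ := Fintype.card_pos_iff.mpr ⟨i₀⟩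
        omega
      omega
    · intro y hy w
      obtain ⟨r, hr, hd⟩ := h' y w
      rw [LinearMap.mem_ker] at hy
      rw [← hd, corank_one_sing ht he h₀ ?_ ?_ (hc w) hr]
      · simpa using hδ 0
      · intro j
        by_cases hj : j = i₀
        · rw [hj, hc]
        · exact congrFun (congrArg Prod.fst hy) ⟨j, hj⟩
      · intro j
        by_cases hj : j = i₀
        · rw [hj, hc]
        · have h3 : (D j)⁻¹ * B' y j i₀ = 0 := congrFun (congrArg Prod.snd hy) ⟨j, hj⟩
          exact (mul_eq_zero.mp h3).resolve_left (inv_ne_zero (h1 j hj))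

end Pool.Agent.Lib.MP_8b1d3b_lc
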