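import Mathlib
import Pool.Agent.Lib.MP_8b1d3b_lc.Minor

set_option autoImplicit false
set_option linter.unusedSectionVars false

namespace Pool.Agent.Lib.MP_8b1d3b_lc

open Finset

theorem prod_trunc_aux {A κ : Type*} [CommRing A] {t : A} (ht : t ^ 4 = 0) (z : A) (η : κ → A)
    (G : Finset κ) :
    z ^ 3 * (6 * ∏ c ∈ G, (z + t * η c)) = z ^ G.card * (6 * z ^ 3 + 6 * t * (∑ c ∈ G, η c) * z ^ 2
      + 3 * t ^ 2 * ((∑ c ∈ G, η c) ^ 2 - ∑ c ∈ G, η c ^ 2) * z
      + t ^ 3 * ((∑ c ∈ G, η c) ^ 3 - 3 * (∑ c ∈ G, η c) * (∑ c ∈ G, η c ^ 2)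
        + 2 * ∑ c ∈ G, η c ^ 3)) := by
  classical
  induction G using Finset.induction_on with
  | empty => simp; ring
  | insert c G hc ih =>
    rw [prod_insert hc, sum_insert hc, sum_insert hc, sum_insert hc, card_insert_of_notMem hc]
    linear_combination (z + t * η c) * ih + z ^ G.card * η c *
      ((∑ c ∈ G, η c) ^ 3 - 3 * (∑ c ∈ G, η c) * (∑ c ∈ G, η c ^ 2) + 2 * ∑ c ∈ G, η c ^ 3) * ht

theorem prod_trunc {A κ : Type*} [CommRing A] {t : A} (ht : t ^ 4 = 0) (z : A) (η : κ → A)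
    (G : Finset κ) {g : ℕ} (hG : G.card = g + 3) :
    6 * ∏ c ∈ G, (z + t * η c) = z ^ g * (6 * z ^ 3 + 6 * t * (∑ c ∈ G, η c) * z ^ 2
      + 3 * t ^ 2 * ((∑ c ∈ G, η c) ^ 2 - ∑ c ∈ G, η c ^ 2) * z
      + t ^ 3 * ((∑ c ∈ G, η c) ^ 3 - 3 * (∑ c ∈ G, η c) * (∑ c ∈ G, η c ^ 2)
        + 2 * ∑ c ∈ G, η c ^ 3)) := by
  have ht' : (Polynomial.C t) ^ 4 = 0 := by rw [← map_pow, ht, map_zero]
  have h := prod_trunc_aux ht' Polynomial.X (fun c => Polynomial.C (η c)) G
  rw [hG, pow_add, mul_comm (Polynomial.X ^ g), mul_assoc] at h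
  have h2 := (Polynomial.isRegular_X_pow 3).left h
  have h3 := congrArg (Polynomial.evalRingHom z) h2
  simpa [map_prod, map_sum, Polynomial.eval_finsetSum, Polynomial.eval_prod] using h3

section

variable {T A ι : Type*} [CommRing T] [CommRing A] [Algebra T A] [Fintype ι] [DecidableEq ι]
  {x : ι → A}

/-- The linear form with coefficient vector `v`. -/
def lf (x : ι → A) (v : ι → T) : A := ∑ r, v r • x r

theorem lf_add (v w : ι → T) : lf x (v + w) = lf x v + lf x w := by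
  simp [lf, add_smul, sum_add_distrib]

theorem lf_smul (a : T) (v : ι → T) : lf x (a • v) = algebraMap T A a * lf x v := by
  simp [lf, mul_sum, Algebra.smul_def, mul_assoc]

theorem mono3 (hx : ∀ i, x i * x i = 0) (G : Finset ι) {e : ℕ} (hG : G.card = e + 3)
    {a b c : ι} (ha : a ∈ G) (hb : b ∈ G) (hc : c ∈ G) :
    x a * x b * x c * (∑ r ∈ G, x r) ^ e =
      (e.factorial : A) * ((1 - (if a = b then 1 else 0) - (if a = c then 1 else 0)
        - (if b = c then 1 else 0) + 2 * (if a = b then if a = c then 1 else 0 else 0))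
        * ∏ r ∈ G, x r) := by
  by_cases hab : a = b
  · subst hab
    rw [hx]
    by_cases hac : a = c <;> simp [hac]
    norm_num
  by_cases hac : a = c
  · subst hac
    rw [mul_right_comm (x a), hx]
    simp [hab, Ne.symm hab]
  by_cases hbc : b = c
  · subst hbc
    rw [mul_assoc (x a), hx]
    simp [hab]
  have h := prod_mul_sum_pow_eq hx (J := {a, b, c}) (G := G) (e := e)
    (by intro r hr; simp only [mem_insert, mem_singleton] at hr; rcases hr with h | h | h <;>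
      simp [h, ha, hb, hc])
    (by rw [card_eq_three.mpr ⟨a, b, c, hab, hac, hbc, rfl⟩]; omega)
  rw [prod_insert (by simp [hab, hac]), prod_insert (by simp [hbc]), prod_singleton] at h
  simp [hab, hac, hbc, ← h, mul_assoc]

/-- The sum over ordered triples of distinct positions in `G`, in closed form. -/
def I3 (G : Finset ι) (f g h : ι → T) : T :=
  (∑ r ∈ G, f r) * (∑ r ∈ G, g r) * (∑ r ∈ G, h r) - (∑ r ∈ G, f r * g r) * (∑ r ∈ G, h r)
    - (∑ r ∈ G, f r * h r) * (∑ r ∈ G, g r) - (∑ r ∈ G, g r * h r) * (∑ r ∈ G, f r)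
    + 2 * ∑ r ∈ G, f r * g r * h r

theorem sum3 (hx : ∀ i, x i * x i = 0) (G : Finset ι) {e : ℕ} (hG : G.card = e + 3)
    (f g h : ι → T) :
    (∑ r ∈ G, f r • x r) * (∑ r ∈ G, g r • x r) * (∑ r ∈ G, h r • x r) * (∑ r ∈ G, x r) ^ e =
      (e.factorial : A) * (algebraMap T A (I3 G f g h) * ∏ r ∈ G, x r) := by
  have h1 : (∑ r ∈ G, f r • x r) * (∑ r ∈ G, g r • x r) * (∑ r ∈ G, h r • x r) *
      (∑ r ∈ G, x r) ^ e = ∑ a ∈ G, ∑ b ∈ G, ∑ c ∈ G, algebraMap T A (f a * g b * h c) *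
        (x a * x b * x c * (∑ r ∈ G, x r) ^ e) := by
    rw [sum_mul_sum, sum_mul, sum_mul]
    refine sum_congr rfl fun a _ => ?_
    rw [sum_mul_sum, sum_mul]
    refine sum_congr rfl fun b _ => ?_
    rw [sum_mul]
    refine sum_congr rfl fun c _ => ?_
    simp only [Algebra.smul_def, map_mul]
    ring
  have h2 : I3 G f g h = ∑ a ∈ G, ∑ b ∈ G, ∑ c ∈ G, (f a * g b * h c) *
      (1 - (if a = b then 1 else 0) - (if a = c then 1 else 0)
        - (if b = c then 1 else 0) + 2 * (if a = b then if a = c then 1 else 0 else 0)) := by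
    have e1 : ∑ a ∈ G, ∑ b ∈ G, ∑ c ∈ G, f a * g b * h c =
        (∑ r ∈ G, f r) * (∑ r ∈ G, g r) * (∑ r ∈ G, h r) := by
      rw [sum_mul_sum, sum_mul]
      exact sum_congr rfl fun a _ => by rw [sum_mul_sum]
    have e2 : ∑ a ∈ G, ∑ b ∈ G, ∑ c ∈ G, f a * g b * h c * (if a = b then 1 else 0) =
        (∑ r ∈ G, f r * g r) * (∑ r ∈ G, h r) := by
      rw [sum_mul]
      refine sum_congr rfl fun a ha => ?_
      rw [sum_comm]
      simp [ha, mul_sum]
    have e3 : ∑ a ∈ G, ∑ b ∈ G, ∑ c ∈ G, f a * g b * h c * (if a = c then 1 else 0) =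
        (∑ r ∈ G, f r * h r) * (∑ r ∈ G, g r) := by
      rw [sum_mul_sum]
      refine sum_congr rfl fun a ha => sum_congr rfl fun b _ => ?_
      simp [ha, mul_right_comm]
    have e4 : ∑ a ∈ G, ∑ b ∈ G, ∑ c ∈ G, f a * g b * h c * (if b = c then 1 else 0) =
        (∑ r ∈ G, g r * h r) * (∑ r ∈ G, f r) := by
      rw [mul_comm, sum_mul_sum]
      refine sum_congr rfl fun a _ => sum_congr rfl fun b hb => ?_
      simp [hb, mul_assoc]
    have e5 : ∑ a ∈ G, ∑ b ∈ G, ∑ c ∈ G, f a * g b * h c *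
        (2 * (if a = b then if a = c then 1 else 0 else 0)) =
        2 * ∑ r ∈ G, f r * g r * h r := by
      rw [mul_sum]
      refine sum_congr rfl fun a ha => ?_
      rw [sum_comm]
      simp [ha, mul_comm]
    simp only [mul_add, mul_sub, sum_add_distrib, sum_sub_distrib, mul_one, e1, e2, e3, e4, e5, I3]
  rw [h1, h2, map_sum, sum_mul, mul_sum]
  refine sum_congr rfl fun a ha => ?_
  rw [map_sum, sum_mul, mul_sum]
  refine sum_congr rfl fun b hb => ?_
  rw [map_sum, sum_mul, mul_sum]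
  refine sum_congr rfl fun c hc => ?_
  rw [mono3 hx G hG ha hb hc]
  simp only [map_mul, map_add, map_sub, map_one, map_ofNat, apply_ite (algebraMap T A), map_zero]
  ring

theorem prod_mul_lf (hx : ∀ i, x i * x i = 0) (J : Finset ι) (f : ι → T) :
    (∏ r ∈ J, x r) * lf x f = (∏ r ∈ J, x r) * ∑ r ∈ univ \ J, f r • x r := by
  rw [lf, ← sum_sdiff (subset_univ J), mul_add, mul_sum J, sum_eq_zero (s := J), add_zero]
  intro r hr
  rw [mul_smul_comm, prod_mul_eq_zero hx hr, smul_zero]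

theorem loc3 (hx : ∀ i, x i * x i = 0) (J : Finset ι) {e : ℕ}
    (he : Fintype.card ι = J.card + (e + 3)) (f g h : ι → T) :
    (∏ r ∈ J, x r) * (lf x f * lf x g * lf x h * (∑ r, x r) ^ e) =
      (e.factorial : A) * (algebraMap T A (I3 (univ \ J) f g h) * ∏ r, x r) := by
  have hc : (univ \ J).card = e + 3 := by
    rw [card_sdiff_of_subset (subset_univ J), card_univ]; omega
  have h1 := prod_mul_lf hx J f
  have h2 := prod_mul_lf hx J g
  have h3 := prod_mul_lf hx J h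
  have h4 := prod_mul_sum_pow hx (subset_univ J) e
  have h5 := sum3 hx (univ \ J) hc f g h
  rw [← prod_sdiff (subset_univ J)]
  linear_combination (lf x g * lf x h * (∑ r, x r) ^ e) * h1 +
    ((∑ r ∈ univ \ J, f r • x r) * lf x h * (∑ r, x r) ^ e) * h2 +
    ((∑ r ∈ univ \ J, f r • x r) * (∑ r ∈ univ \ J, g r • x r) * (∑ r, x r) ^ e) * h3 +
    ((∑ r ∈ univ \ J, f r • x r) * (∑ r ∈ univ \ J, g r • x r) *
      (∑ r ∈ univ \ J, h r • x r)) * h4 + (∏ r ∈ J, x r) * h5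

theorem loc1 (hx : ∀ i, x i * x i = 0) (J : Finset ι) {e : ℕ}
    (he : Fintype.card ι = J.card + (e + 1)) (f : ι → T) :
    (∏ r ∈ J, x r) * (lf x f * (∑ r, x r) ^ e) =
      (e.factorial : A) * (algebraMap T A (∑ r ∈ univ \ J, f r) * ∏ r, x r) := by
  rw [← mul_assoc, prod_mul_lf hx, mul_sum, sum_mul, map_sum, sum_mul, mul_sum]
  refine sum_congr rfl fun r hr => ?_
  have hr' : r ∉ J := (mem_sdiff.mp hr).2
  have h := prod_mul_sum_pow_eq hx (J := insert r J) (G := univ) (e := e) (subset_univ _)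
    (by rw [card_insert_of_notMem hr', card_univ]; omega)
  rw [prod_insert hr'] at h
  rw [Algebra.smul_def]
  linear_combination algebraMap T A (f r) * h

theorem I3_erase (G : Finset ι) {r₀ : ι} {f g h : ι → T} (hf : f r₀ = 0) (hg : g r₀ = 0)
    (hh : h r₀ = 0) : I3 (G.erase r₀) f g h = I3 G f g h := by
  simp only [I3]
  rw [sum_erase G hf, sum_erase G hg, sum_erase G hh, sum_erase G (by simp [hf]),
    sum_erase G (by simp [hf]), sum_erase G (by simp [hg]), sum_erase G (by simp [hf])]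

/-- The second polar form of the cubic form attached to `b`. -/
def DD (b y w : ι → T) : T := ∑ j, w j * I3 (univ.erase j) b y y

theorem key0 (hx : ∀ i, x i * x i = 0) {g : ℕ} (hn : Fintype.card ι = g + 5) {r₀ : ι}
    {b : ι → T} (hb₀ : b r₀ = 0) (hb : ∑ r, b r = 0) (γ : A) :
    lf x b * ((∑ r, x r) + γ * x r₀) * (∑ r, x r) ^ (g + 3) = 0 := by
  have h1 := loc1 hx ∅ (e := g + 4) (by simp [hn]) b
  have h2 := loc1 hx {r₀} (e := g + 3) (by simp [hn]; omega) b
  rw [sdiff_singleton_eq_erase, sum_erase _ hb₀, hb, prod_singleton] at h2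
  rw [sdiff_empty, hb, prod_empty] at h1
  simp only [map_zero, zero_mul, mul_zero] at h1 h2
  linear_combination h1 + γ * h2

theorem key2 (hx : ∀ i, x i * x i = 0) {g : ℕ} (hn : Fintype.card ι = g + 5) {r₀ : ι}
    {b y : ι → T} (hb₀ : b r₀ = 0) (hy₀ : y r₀ = 0) :
    lf x b * ((∑ r, x r) - ((g : A) + 2) * x r₀) * (∑ r, x r) ^ (g + 1) * lf x y ^ 2 = 0 := by
  have h1 := loc3 hx ∅ (e := g + 2) (by simp [hn]) b y y
  have h2 := loc3 hx {r₀} (e := g + 1) (by simp [hn]; omega) b y y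
  rw [sdiff_singleton_eq_erase, I3_erase _ hb₀ hy₀ hy₀, prod_singleton] at h2
  rw [sdiff_empty, prod_empty, Nat.factorial_succ (g + 1)] at h1
  push_cast at h1
  linear_combination h1 - ((g : A) + 2) * h2

theorem key3 (hx : ∀ i, x i * x i = 0) {g : ℕ} (hn : Fintype.card ι = g + 5) {r₀ : ι}
    {b y w : ι → T} (hb₀ : b r₀ = 0) (hy₀ : y r₀ = 0) (hw₀ : w r₀ = 0) :
    lf x b * ((∑ r, x r) - ((g : A) + 2) * x r₀) * (∑ r, x r) ^ g * (lf x y ^ 2 * lf x w) =
      - ((g.factorial : A) * (algebraMap T A (DD b y w) * ∏ r, x r)) := by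
  rw [DD, map_sum, sum_mul, mul_sum, ← sum_neg_distrib]
  conv_lhs => rw [show lf x w = ∑ r, w r • x r from rfl, mul_sum, mul_sum]
  refine sum_congr rfl fun j _ => ?_
  by_cases hj : j = r₀
  · subst hj
    simp [hw₀]
  have h1 := loc3 hx {j} (e := g + 1) (by simp [hn]; omega) b y y
  have h2 := loc3 hx {j, r₀} (e := g) (by rw [card_pair hj, hn]; omega) b y y
  have h3 : (univ \ {j, r₀} : Finset ι) = (univ.erase j).erase r₀ := by
    ext r; simp [and_comm]
  rw [h3, I3_erase _ hb₀ hy₀ hy₀, prod_pair hj] at h2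
  rw [sdiff_singleton_eq_erase, prod_singleton, Nat.factorial_succ] at h1
  push_cast at h1
  rw [Algebra.smul_def, map_mul]
  linear_combination algebraMap T A (w j) * h1 - algebraMap T A (w j) * ((g : A) + 2) * h2

end

theorem per_expand_aux {T A ι : Type*} [CommRing T] [CommRing A] [Algebra T A] [Fintype ι]
    [DecidableEq ι] {x : ι → A} (hx : ∀ i, x i * x i = 0) {g : ℕ}
    (hn : Fintype.card ι = g + 5) {r₀ c₀ c₁ : ι} (hc : c₁ ≠ c₀) {t ε : T} (ht : t ^ 4 = 0)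
    (hε : ε * ε = 0) {b : ι → T} (hb₀ : b r₀ = 0) (hb : ∑ r, b r = 0) (M Y W : Matrix ι ι T)
    (hM₀ : ∀ r, M r c₀ = b r) (hM₁ : ∀ r, M r c₁ = 1 - if r = r₀ then (g : T) + 2 else 0)
    (hM : ∀ r, ∀ c ∈ (univ.erase c₀).erase c₁, M r c = 1 + t * (Y r c + ε * W r c))
    (hY₀ : ∀ c, Y r₀ c = 0) (hW₀ : ∀ c, W r₀ c = 0)
    (hY : ∀ r, ∑ c ∈ (univ.erase c₀).erase c₁, Y r c = 0)
    (hW : ∀ r, ∑ c ∈ (univ.erase c₀).erase c₁, W r c = 0) :
    algebraMap T A (6 * M.permanent) * ∏ r, x r = algebraMap T A (- 2 * t ^ 3 * g.factorial * ∑ c ∈ (univ.erase c₀).erase c₁,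
      (DD b (fun r => Y r c) (fun r => Y r c) +
        3 * ε * DD b (fun r => Y r c) (fun r => W r c))) * ∏ r, x r := by
  set G := (univ.erase c₀).erase c₁ with hG
  have hGc : G.card = g + 3 := by
    rw [hG, card_erase_of_mem (by simp [hc]), card_erase_of_mem (mem_univ _), card_univ, hn]
    rfl
  have h0 := prod_sum_smul_eq_permanent M hx
  rw [← mul_prod_erase univ _ (mem_univ c₀), ← mul_prod_erase (univ.erase c₀) _
    (show c₁ ∈ univ.erase c₀ by simp [hc]), ← hG] at h0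
  set φ := algebraMap T (A) with hφ
  have e0 : ∑ r, M r c₀ • x r = lf x b := by simp [lf, hM₀]
  have e1 : ∑ r, M r c₁ • x r = (∑ r, x r) - ((g : A) + 2) * x r₀ := by
    simp only [hM₁, sub_smul, one_smul, sum_sub_distrib, ite_smul, zero_smul, sum_ite_eq',
      mem_univ, if_true]
    rw [Algebra.smul_def]
    simp [map_ofNat]
  set η : ι → A := fun c => lf x (fun r => Y r c + ε * W r c) with hη
  have hη' : ∀ c, η c = lf x (fun r => Y r c) + φ ε * lf x (fun r => W r c) := by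
    intro c
    rw [← lf_smul, ← lf_add]
    rfl
  have e2 : ∏ c ∈ G, ∑ r, M r c • x r = ∏ c ∈ G, ((∑ r, x r) + φ t * η c) := by
    refine prod_congr rfl fun c hc => ?_
    simp only [hη, lf, mul_sum, ← sum_add_distrib]
    refine sum_congr rfl fun r _ => ?_
    rw [hM r c hc]
    simp only [Algebra.smul_def, map_add, map_mul, hφ, map_one]
    ring
  have e3 : ∑ c ∈ G, η c = 0 := by
    simp only [hη, lf]
    rw [sum_comm]
    refine sum_eq_zero fun r _ => ?_
    rw [← sum_smul, sum_add_distrib, ← mul_sum, hY, hW]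
    simp
  have ht' : φ t ^ 4 = 0 := by rw [← map_pow, ht, map_zero]
  have hε' : φ ε * φ ε = 0 := by rw [← map_mul, hε, map_zero]
  have e4 := prod_trunc ht' (∑ r, x r) η G hGc
  rw [e3] at e4
  have k0 := key0 hx hn hb₀ hb (-((g : A) + 2))
  have k2 : lf x b * ((∑ r, x r) - ((g : A) + 2) * x r₀) *
      (∑ r, x r) ^ (g + 1) * ∑ c ∈ G, η c ^ 2 = 0 := by
    rw [mul_sum]
    exact sum_eq_zero fun c _ => key2 hx hn hb₀ (by simp [hY₀, hW₀])
  have k3 : lf x b * ((∑ r, x r) - ((g : A) + 2) * x r₀) *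
      (∑ r, x r) ^ g * ∑ c ∈ G, η c ^ 3 = - (g.factorial * (φ (∑ c ∈ G,
        (DD b (fun r => Y r c) (fun r => Y r c) +
          3 * ε * DD b (fun r => Y r c) (fun r => W r c))) * ∏ r, x r)) := by
    rw [mul_sum, map_sum, sum_mul, mul_sum, ← sum_neg_distrib]
    refine sum_congr rfl fun c _ => ?_
    have a1 := key3 hx hn hb₀ (y := fun r => Y r c) (w := fun r => Y r c) (hY₀ c) (hY₀ c)
    have a2 := key3 hx hn hb₀ (y := fun r => Y r c) (w := fun r => W r c) (hY₀ c) (hW₀ c)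
    rw [hη', map_add, map_mul, map_mul, map_ofNat]
    linear_combination a1 + 3 * φ ε * a2 + (lf x b * ((∑ r, x r) -
      ((g : A) + 2) * x r₀) * (∑ r, x r) ^ g) *
      (3 * lf x (fun r => Y r c) * lf x (fun r => W r c) ^ 2 +
        φ ε * lf x (fun r => W r c) ^ 3) * hε'
  rw [e0, e1, e2] at h0
  rw [Algebra.smul_def] at h0
  simp only [map_mul, map_neg, map_pow, map_ofNat, map_natCast]
  rw [← hφ] at h0
  linear_combination (-6) * h0 + (lf x b * ((∑ r, x r) -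
    ((g : A) + 2) * x r₀)) * e4 + 6 * k0 - 3 * φ t ^ 2 * k2 +
    2 * φ t ^ 3 * k3

theorem per_expand {T ι : Type*} [CommRing T] [Fintype ι] [DecidableEq ι] {g : ℕ}
    (hn : Fintype.card ι = g + 5) {r₀ c₀ c₁ : ι} (hc : c₁ ≠ c₀) {t ε : T} (ht : t ^ 4 = 0)
    (hε : ε * ε = 0) {b : ι → T} (hb₀ : b r₀ = 0) (hb : ∑ r, b r = 0) (M Y W : Matrix ι ι T)
    (hM₀ : ∀ r, M r c₀ = b r) (hM₁ : ∀ r, M r c₁ = 1 - if r = r₀ then (g : T) + 2 else 0)
    (hM : ∀ r, ∀ c ∈ (univ.erase c₀).erase c₁, M r c = 1 + t * (Y r c + ε * W r c))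
    (hY₀ : ∀ c, Y r₀ c = 0) (hW₀ : ∀ c, W r₀ c = 0)
    (hY : ∀ r, ∑ c ∈ (univ.erase c₀).erase c₁, Y r c = 0)
    (hW : ∀ r, ∑ c ∈ (univ.erase c₀).erase c₁, W r c = 0) :
    6 * M.permanent = - 2 * t ^ 3 * g.factorial * ∑ c ∈ (univ.erase c₀).erase c₁,
      (DD b (fun r => Y r c) (fun r => Y r c) +
        3 * ε * DD b (fun r => Y r c) (fun r => W r c)) := by
  obtain ⟨I, hx, hfaith⟩ := exists_faithful_sqzero T ι
  have h := per_expand_aux hx hn hc ht hε hb₀ hb M Y W hM₀ hM₁ hM hY₀ hW₀ hY hW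
  rw [← sub_eq_zero]
  apply hfaith
  have hs : ∀ (a : T) (z : MvPolynomial ι T ⧸ I), a • z = algebraMap T _ a * z :=
    fun a z => Algebra.smul_def a z
  refine (hs _ _).trans ?_
  rw [map_sub, sub_mul, h, sub_self]

end Pool.Agent.Lib.MP_8b1d3b_lc
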