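import Mathlib
import Pool.Agent.Lib.MP_8b1d3b_lc.DcPer
import Pool.Agent.Lib.MP_8b1d3b_lc.DcDet

set_option autoImplicit false
set_option linter.unusedSectionVars false

namespace Pool.Agent.Lib.MP_8b1d3b_lc

open Finset Module

theorem affine_form {σ K : Type*} [CommRing K] [Fintype σ] [DecidableEq σ]
    {p : MvPolynomial σ K} (hp : p.totalDegree ≤ 1) :
    p = MvPolynomial.C (p.coeff 0) +
      ∑ v, MvPolynomial.C (p.coeff (Finsupp.single v 1)) * MvPolynomial.X v := by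
  ext d
  simp only [MvPolynomial.coeff_add, MvPolynomial.coeff_sum, MvPolynomial.coeff_C_mul,
    MvPolynomial.coeff_X, MvPolynomial.coeff_C]
  by_cases h0 : 0 = d
  · subst h0
    simp [Finsupp.single_eq_zero]
  by_cases h1 : ∃ v, d = Finsupp.single v 1
  · obtain ⟨v, rfl⟩ := h1
    simp [h0, Finsupp.single_left_inj]
  push Not at h1
  rw [if_neg h0, zero_add, sum_eq_zero fun v _ => by simp [(h1 v).symm]]
  by_contra hd
  have h2 := (MvPolynomial.le_totalDegree (MvPolynomial.mem_support_iff.mpr hd)).trans hp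
  rcases Nat.le_one_iff_eq_zero_or_eq_one.mp h2 with h3 | h3
  · exact h0 ((Finsupp.degree_eq_zero_iff d).mp h3).symm
  · obtain ⟨v, hv⟩ := (Finsupp.sum_eq_one_iff d).mp h3
    exact h1 v hv

theorem map_permanent {R S n : Type*} [CommRing R] [CommRing S] [Fintype n] [DecidableEq n]
    (f : R →+* S) (M : Matrix n n R) : f M.permanent = (M.map f).permanent := by
  simp [Matrix.permanent, map_sum, map_prod]

theorem map_DD {R S ι : Type*} [CommRing R] [CommRing S] [Fintype ι] [DecidableEq ι]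
    (f : R →+* S) (b y w : ι → R) :
    DD (fun r => f (b r)) (fun r => f (y r)) (fun r => f (w r)) = f (DD b y w) := by
  simp [DD, I3, map_sum, map_ofNat]

variable {K ι : Type*} [Field K] [Fintype ι] [DecidableEq ι]

/-- The weight vector `(0, -(g + 3), 1, ..., 1)`. -/
def bv (K : Type*) [Field K] {ι : Type*} [DecidableEq ι] (g : ℕ) (r₀ r₁ : ι) (r : ι) : K :=
  1 - (if r = r₀ then 1 else 0) - (if r = r₁ then (g : K) + 4 else 0)

theorem sum_bv_mul (g : ℕ) (r₀ r₁ : ι) (f : ι → K) :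
    ∑ r, bv K g r₀ r₁ r * f r = ∑ r, f r - f r₀ - ((g : K) + 4) * f r₁ := by
  simp [bv, sub_mul, sum_sub_distrib]

theorem sum_bv {g : ℕ} (hn : Fintype.card ι = g + 5) (r₀ r₁ : ι) : ∑ r, bv K g r₀ r₁ r = 0 := by
  have h := sum_bv_mul g r₀ r₁ (fun _ => (1 : K))
  simp only [mul_one, sum_const, card_univ, hn, nsmul_eq_mul] at h
  rw [h]
  push_cast
  ring

theorem sing_zero [CharZero K] {g : ℕ} (hn : Fintype.card ι = g + 5) {r₀ r₁ : ι} (hr : r₁ ≠ r₀)
    {y : ι → K} (hy₀ : y r₀ = 0) (hs : ∑ r, y r = 0)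
    (h : ∀ j, j ≠ r₀ → I3 (univ.erase j) (bv K g r₀ r₁) y y = 0) : y = 0 := by
  set b := bv K g r₀ r₁ with hb
  have hb0 : ∑ r, b r = 0 := sum_bv hn r₀ r₁
  have hβ : ∑ r, b r * y r = - ((g : K) + 4) * y r₁ := by
    rw [hb, sum_bv_mul, hs, hy₀]; ring
  have hπ : ∑ r, b r * y r * y r = ∑ r, y r * y r - ((g : K) + 4) * (y r₁ * y r₁) := by
    simp only [mul_assoc]
    rw [hb, sum_bv_mul, hy₀]; ring
  have hF : ∀ j, I3 (univ.erase j) b y y = -6 * (b j * y j * y j) + 2 * (∑ r, b r * y r) * y j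
      + b j * (∑ r, y r * y r) + 2 * ∑ r, b r * y r * y r := by
    intro j
    simp only [I3, sum_erase_eq_sub (mem_univ j), hb0, hs]
    ring
  have hb₀ : b r₀ = 0 := by simp [hb, bv, hr.symm]
  have hb₁ : b r₁ = -((g : K) + 3) := by simp [hb, bv, hr]; ring
  have h1 : ∑ j, I3 (univ.erase j) b y y = 2 * ∑ r, b r * y r * y r := by
    rw [sum_eq_single r₀ (fun j _ hj => h j hj) (by simp), hF, hb₀, hy₀]
    ring
  simp only [hF, sum_add_distrib, ← mul_sum, ← sum_mul, hb0, hs, sum_const, card_univ, hn,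
    nsmul_eq_mul] at h1
  have h2 : ∑ r, b r * y r * y r = 0 := by
    have h3 : (2 * ((g : K) + 1)) ≠ 0 := by exact_mod_cast (by omega : 2 * (g + 1) ≠ 0)
    apply mul_left_cancel₀ h3
    push_cast at h1
    linear_combination h1
  have h4 := h r₁ hr
  rw [hF, h2, hβ, hb₁] at h4
  rw [h2] at hπ
  have h5 : y r₁ = 0 := by
    have h6 : (((g : K) + 1) * ((g : K) + 2)) ≠ 0 := by
      exact_mod_cast (by positivity : (g + 1) * (g + 2) ≠ 0)
    have h7 : y r₁ * y r₁ = 0 := by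
      apply mul_left_cancel₀ h6
      linear_combination -h4 + ((g : K) + 3) * hπ
    exact mul_self_eq_zero.mp h7
  have h8 : ∑ r, y r * y r = 0 := by rw [h5] at hπ; linear_combination -hπ
  ext j
  by_cases hj : j = r₀
  · simp [hj, hy₀]
  by_cases hj' : j = r₁
  · simp [hj', h5]
  have h9 := h j hj
  rw [hF, h2, hβ, h5, h8] at h9
  have hbj : b j = 1 := by simp [hb, bv, hj, hj']
  rw [hbj] at h9
  have h10 : y j * y j = 0 := by linear_combination (-1 / 6 : K) * h9
  exact mul_self_eq_zero.mp h10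

/-- The base point. -/
def base (K : Type*) [Field K] {ι : Type*} [DecidableEq ι] (g : ℕ) (r₀ r₁ : ι) : Matrix ι ι K :=
  Matrix.of fun r c => if c = r₀ then bv K g r₀ r₁ r else
    if c = r₁ then 1 - (if r = r₀ then (g : K) + 2 else 0) else 1

/-- The space of directions. -/
def dirs (K : Type*) [Field K] {ι : Type*} [Fintype ι] [DecidableEq ι] (r₀ r₁ : ι) :
    Submodule K (Matrix ι ι K) where
  carrier := {Y | (∀ c, Y r₀ c = 0) ∧ (∀ r, Y r r₀ = 0) ∧ (∀ r, Y r r₁ = 0) ∧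
    ∀ r, ∑ c ∈ (univ.erase r₀).erase r₁, Y r c = 0}
  add_mem' := by
    rintro Y W ⟨h1, h2, h3, h4⟩ ⟨h5, h6, h7, h8⟩
    refine ⟨?_, ?_, ?_, ?_⟩ <;> intro r <;>
      simp only [Matrix.add_apply, sum_add_distrib, add_zero, *]
  zero_mem' := by simp
  smul_mem' := by
    rintro a Y ⟨h1, h2, h3, h4⟩
    refine ⟨?_, ?_, ?_, ?_⟩ <;> intro r <;>
      simp only [Matrix.smul_apply, smul_eq_mul, ← mul_sum, mul_zero, *]

/-- The polar form of the cubic term. -/
def polar (g : ℕ) (r₀ r₁ : ι) (Y W : Matrix ι ι K) : K :=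
  ∑ c ∈ (univ.erase r₀).erase r₁, DD (bv K g r₀ r₁) (fun r => Y r c) (fun r => W r c)

theorem per_dvd {R : Type*} [CommRing R] (φ : K →+* R) (t : R) {e : R} (he : e * e = 0) {g : ℕ}
    (hn : Fintype.card ι = g + 5) {r₀ r₁ : ι} (hr : r₁ ≠ r₀) {Y W : Matrix ι ι K}
    (hY : Y ∈ dirs K r₀ r₁) (hW : W ∈ dirs K r₀ r₁) :
    ∃ q, 6 * (Mdual φ t e (base K g r₀ r₁) Y W).permanent = - 2 * t ^ 3 * g.factorial *
      (φ (polar g r₀ r₁ Y Y) + 3 * e * φ (polar g r₀ r₁ Y W)) + t ^ 4 * q := by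
  set π := Ideal.Quotient.mk (Ideal.span {t ^ 4}) with hπ
  set ψ := π.comp φ with hψ
  have ht : π t ^ 4 = 0 := by
    rw [← map_pow, hπ, Ideal.Quotient.eq_zero_iff_mem]
    exact Ideal.subset_span rfl
  have he' : π e * π e = 0 := by rw [← map_mul, he, map_zero]
  have hψ' : ∀ c, π (φ c) = ψ c := fun _ => rfl
  have h := per_expand hn (r₀ := r₀) hr ht he' (b := fun r => ψ (bv K g r₀ r₁ r))
    (by simp [bv, hr.symm]) (by rw [← map_sum, sum_bv hn, map_zero])
    ((Mdual φ t e (base K g r₀ r₁) Y W).map π) (Y.map ψ) (W.map ψ)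
    (fun r => by simp [Mdual_apply, base, hY.2.1, hW.2.1, hψ'])
    (fun r => by
      simp only [Matrix.map_apply, Mdual_apply, base, hY.2.2.1, hW.2.2.1, Matrix.of_apply, hr,
        if_true, if_false, map_zero, mul_zero, add_zero, hψ']
      split_ifs <;> simp [map_ofNat])
    (fun r c hc => by
      have h1 : c ≠ r₁ := (mem_erase.mp hc).1
      have h0 : c ≠ r₀ := (mem_erase.mp (mem_erase.mp hc).2).1
      simp [Mdual_apply, base, h0, h1, hψ'])
    (fun c => by simp [hY.1]) (fun c => by simp [hW.1])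
    (fun r => by simp only [Matrix.map_apply]; rw [← map_sum, hY.2.2.2, map_zero])
    (fun r => by simp only [Matrix.map_apply]; rw [← map_sum, hW.2.2.2, map_zero])
  simp only [Matrix.map_apply, map_DD] at h
  rw [← map_permanent, sum_add_distrib, ← mul_sum, ← map_sum, ← map_sum] at h
  have h2 : π (6 * (Mdual φ t e (base K g r₀ r₁) Y W).permanent) = π (- 2 * t ^ 3 * g.factorial *
      (φ (polar g r₀ r₁ Y Y) + 3 * e * φ (polar g r₀ r₁ Y W))) := by
    simp only [map_mul, map_neg, map_pow, map_add, map_ofNat, map_natCast, hψ', polar]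
    exact h
  obtain ⟨q, hq⟩ := Ideal.mem_span_singleton'.mp (Ideal.Quotient.eq.mp h2)
  exact ⟨q, by linear_combination -hq⟩

/-- The polar form as a linear map in its second argument. -/
def polarL (g : ℕ) (r₀ r₁ : ι) (Y : Matrix ι ι K) : Matrix ι ι K →ₗ[K] K where
  toFun := polar g r₀ r₁ Y
  map_add' W W' := by simp [polar, DD, add_mul, sum_add_distrib]
  map_smul' a W := by simp [polar, DD, mul_sum, mul_assoc]

/-- The matrix with `y` in line `i` and `-y` in line `i'`. -/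
def lineEmb (r₀ i i' : ι) : (ι → K) →ₗ[K] Matrix ι ι K where
  toFun y := Matrix.of fun r c => (if r = r₀ then 0 else y r) *
    ((if c = i then 1 else 0) - (if c = i' then 1 else 0))
  map_add' y y' := by
    ext r c
    by_cases h : r = r₀ <;> simp [h, add_mul]
  map_smul' a y := by
    ext r c
    by_cases h : r = r₀ <;> simp [h, mul_assoc]

theorem lineEmb_apply (r₀ i i' : ι) (y : ι → K) (r c : ι) :
    lineEmb r₀ i i' y r c = (if r = r₀ then 0 else y r) *
      ((if c = i then 1 else 0) - (if c = i' then 1 else 0)) := rfl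

theorem lineEmb_mem {r₀ r₁ i i' : ι} (hi : i ∈ (univ.erase r₀).erase r₁)
    (hi' : i' ∈ (univ.erase r₀).erase r₁) (y : ι → K) : lineEmb r₀ i i' y ∈ dirs K r₀ r₁ := by
  have h1 : r₁ ≠ i := (mem_erase.mp hi).1.symm
  have h0 : r₀ ≠ i := (mem_erase.mp (mem_erase.mp hi).2).1.symm
  have h1' : r₁ ≠ i' := (mem_erase.mp hi').1.symm
  have h0' : r₀ ≠ i' := (mem_erase.mp (mem_erase.mp hi').2).1.symm
  refine ⟨fun c => by simp [lineEmb_apply], fun r => by simp [lineEmb_apply, h0, h0'],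
    fun r => by simp [lineEmb_apply, h1, h1'], fun r => ?_⟩
  simp only [lineEmb_apply, ← mul_sum, sum_sub_distrib, sum_ite_eq', hi, hi', if_true, sub_self,
    mul_zero]

theorem polar_test (g : ℕ) {r₀ r₁ i i' j : ι} (hi : i ∈ (univ.erase r₀).erase r₁)
    (hi' : i' ∈ (univ.erase r₀).erase r₁) (hj : j ≠ r₀) {Y : Matrix ι ι K}
    (hY : ∀ r, Y r i' = 0) :
    polar g r₀ r₁ Y (lineEmb r₀ i i' (Pi.single j 1)) =
      I3 (univ.erase j) (bv K g r₀ r₁) (fun r => Y r i) (fun r => Y r i) := by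
  have h1 : ∀ c, DD (bv K g r₀ r₁) (fun r => Y r c)
      (fun r => lineEmb r₀ i i' (Pi.single j (1 : K)) r c) =
      ((if c = i then 1 else 0) - (if c = i' then 1 else 0)) *
        I3 (univ.erase j) (bv K g r₀ r₁) (fun r => Y r c) (fun r => Y r c) := by
    intro c
    rw [DD, sum_eq_single j (fun r _ hr => by simp [lineEmb_apply, hr]) (by simp)]
    simp [lineEmb_apply, hj]
  simp only [polar, h1, sub_mul, sum_sub_distrib, ite_mul, one_mul, zero_mul, sum_ite_eq', hi, hi',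
    if_true]
  simp [I3, hY]

theorem case_one [CharZero K] {g : ℕ} (hn : Fintype.card ι = g + 5) {r₀ r₁ c₂ c₃ : ι}
    (hr : r₁ ≠ r₀) (h₂ : c₂ ∈ (univ.erase r₀).erase r₁)
    (h₃ : c₃ ∈ ((univ.erase r₀).erase r₁).erase c₂) (Λ : Submodule K (dirs K r₀ r₁))
    (hΛ : ∀ Y ∈ Λ, ∀ W : dirs K r₀ r₁, polar g r₀ r₁ Y.1 W.1 = 0) :
    finrank K Λ + (g + 1) * (g + 3) ≤ finrank K (dirs K r₀ r₁) := by
  set G := (univ.erase r₀).erase r₁ with hG
  let ent := fun r c : ι => Matrix.entryLinearMap K K r c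
  let Ψ : Matrix ι ι K →ₗ[K] ((ι → K) × (univ.erase r₀ → K) × (univ.erase r₀ → K) ×
      (univ.erase r₀ → K) × (univ.erase r₀ → K) × ((G.erase c₂).erase c₃ → K)) :=
    (LinearMap.pi fun c => ent r₀ c).prod ((LinearMap.pi fun r => ent r.1 r₀).prod
      ((LinearMap.pi fun r => ent r.1 r₁).prod ((LinearMap.pi fun r => ent r.1 c₂).prod
        ((LinearMap.pi fun r => ∑ c ∈ G, ent r.1 c).prod
          (LinearMap.pi fun c => ∑ r, ent r c.1)))))
  have hker : ∀ Y ∈ LinearMap.ker Ψ, Y ∈ dirs K r₀ r₁ ∧ (∀ r, Y r c₂ = 0) ∧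
      ∀ c ∈ (G.erase c₂).erase c₃, ∑ r, Y r c = 0 := by
    intro Y hY
    rw [LinearMap.mem_ker] at hY
    simp only [Ψ, ent, LinearMap.prod_apply, Function.prod, Prod.ext_iff, funext_iff,
      LinearMap.pi_apply, Matrix.entryLinearMap_apply, Prod.fst_zero, Prod.snd_zero,
      Pi.zero_apply, LinearMap.coe_sum, Finset.sum_apply, Subtype.forall] at hY
    obtain ⟨a0, a1, a2, a3, a4, a5⟩ := hY
    refine ⟨⟨a0, fun r => ?_, fun r => ?_, fun r => ?_⟩, fun r => ?_, a5⟩ <;>
      by_cases h : r = r₀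
    · simp [h, a0]
    · exact a1 r (by simp [h])
    · simp [h, a0]
    · exact a2 r (by simp [h])
    · simp [h, a0]
    · exact a4 r (by simp [h])
    · simp [h, a0]
    · exact a3 r (by simp [h])
  have hGc : G.card = g + 3 := by
    rw [hG, card_erase_of_mem (by simp [hr]), card_erase_of_mem (mem_univ _), card_univ, hn]
    rfl
  have hdim : (g + 1) * (g + 3) ≤ finrank K (LinearMap.ker Ψ) := by
    have e1 := Ψ.finrank_range_add_finrank_ker
    have e2 := (LinearMap.range Ψ).finrank_le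
    simp only [finrank_prod, finrank_fintype_fun_eq_card, Fintype.card_coe,
      card_erase_of_mem (mem_univ r₀), card_erase_of_mem h₃, card_erase_of_mem h₂, card_univ,
      hn, hGc] at e2
    rw [finrank_matrix, hn, finrank_self] at e1
    have e3 : (g + 5) * (g + 5) * 1 = (g + 1) * (g + 3) + (6 * g + 22) := by ring
    omega
  have hdis : Disjoint (Λ.map (dirs K r₀ r₁).subtype) (LinearMap.ker Ψ) := by
    rw [Submodule.disjoint_def]
    rintro _ ⟨Y, hY, rfl⟩ hY'
    obtain ⟨b1, b2, b3⟩ := hker _ hY'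
    simp only [Submodule.coe_subtype] at b2 b3 ⊢
    have hsum : ∀ c ∈ G.erase c₂, ∑ r, Y.1 r c = 0 := by
      intro c hc
      by_cases h : c = c₃
      · have e1 : ∑ c ∈ G, ∑ r, Y.1 r c = 0 := by
          rw [sum_comm]
          exact sum_eq_zero fun r _ => Y.2.2.2.2 r
        rw [← add_sum_erase _ _ h₂, ← add_sum_erase _ _ h₃, sum_eq_zero b3] at e1
        simpa [b2, h] using e1
      · exact b3 c (mem_erase.mpr ⟨h, hc⟩)
    ext r c
    by_cases e0 : c = r₀
    · rw [e0, Y.2.2.1]; rfl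
    by_cases e1 : c = r₁
    · rw [e1, Y.2.2.2.1]; rfl
    by_cases e2 : c = c₂
    · rw [e2, b2]; rfl
    have hc : c ∈ G := by simp [hG, e0, e1]
    have := sing_zero hn hr (y := fun r => Y.1 r c) (Y.2.1 c) (hsum c (mem_erase.mpr ⟨e2, hc⟩))
      (fun j hj => by
        rw [← polar_test g hc h₂ hj b2]
        exact hΛ Y hY ⟨_, lineEmb_mem hc h₂ _⟩)
    exact congrFun this r
  have e1 := Submodule.finrank_sup_add_finrank_inf_eq (Λ.map (dirs K r₀ r₁).subtype)
    (LinearMap.ker Ψ)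
  rw [hdis.eq_bot, finrank_bot, Submodule.finrank_map_subtype_eq] at e1
  have e2 : finrank K ↥(Λ.map (dirs K r₀ r₁).subtype ⊔ LinearMap.ker Ψ) ≤
      finrank K (dirs K r₀ r₁) :=
    Submodule.finrank_mono (sup_le (Submodule.map_subtype_le _ _) fun Y hY => (hker Y hY).1)
  omega

theorem case_two [CharZero K] {g : ℕ} (hn : Fintype.card ι = g + 5) (f : Fin 9 ↪ ι)
    (κ : dirs K (f 0) (f 1) →ₗ[K] (Fin 2 × Fin 2 → K))
    (hκ : ∀ Y W, κ Y = 0 → κ W = 0 → polar g (f 0) (f 1) Y.1 W.1 = 0) : False := by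
  have hg : 9 ≤ Fintype.card ι := by simpa using Fintype.card_le_of_embedding f
  have hmem : ∀ k : Fin 9, k ≠ 0 → k ≠ 1 → f k ∈ (univ.erase (f 0)).erase (f 1) := by
    intro k h0 h1
    simp [h0, h1]
  let l : Fin 5 → Fin 9 := fun s => Fin.natAdd 4 s
  have hl : ∀ s, l s ≠ 0 ∧ l s ≠ 1 ∧ l s ≠ 2 ∧ l s ≠ 3 := by decide
  have hl' : ∀ s s', l s = l s' ↔ s = s' := by decide
  have m2 := hmem 2 (by decide) (by decide)
  have m3 := hmem 3 (by decide) (by decide)
  have ml : ∀ s, f (l s) ∈ (univ.erase (f 0)).erase (f 1) :=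
    fun s => hmem _ (hl s).1 (hl s).2.1
  have hy : ∀ s, ∃ y : ι → K, κ ⟨_, lineEmb_mem (ml s) m3 y⟩ = 0 ∧ y (f 0) = 0 ∧
      ∃ j, j ≠ f 0 ∧ I3 (univ.erase j) (bv K g (f 0) (f 1)) y y ≠ 0 := by
    intro s
    let Θ : (ι → K) →ₗ[K] (K × K × (Fin 2 × Fin 2 → K)) :=
      (LinearMap.proj (f 0)).prod ((∑ r, LinearMap.proj r).prod
        (κ ∘ₗ (lineEmb (f 0) (f (l s)) (f 3)).codRestrict _ (lineEmb_mem (ml s) m3)))
    have h1 : LinearMap.ker Θ ≠ ⊥ := LinearMap.ker_ne_bot_of_finrank_lt (by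
      simp only [finrank_prod, finrank_self, finrank_fintype_fun_eq_card, Fintype.card_prod,
        Fintype.card_fin]
      omega)
    obtain ⟨y, hy, hy0⟩ := Submodule.exists_mem_ne_zero_of_ne_bot h1
    rw [LinearMap.mem_ker] at hy
    have a0 : y (f 0) = 0 := congrArg Prod.fst hy
    have a1 : ∑ r, y r = 0 := by simpa [Θ] using congrArg (fun p => p.2.1) hy
    refine ⟨y, congrArg (fun p => p.2.2) hy, a0, ?_⟩
    by_contra hcon
    push Not at hcon
    exact hy0 (sing_zero hn (by simp) a0 a1 hcon)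
  choose y hy1 hy2 j hj hI using hy
  let W : Fin 5 → dirs K (f 0) (f 1) := fun s => ⟨_, lineEmb_mem (ml s) m2 (Pi.single (j s) 1)⟩
  have hdep : ¬ LinearIndependent K fun s => κ (W s) := by
    intro h
    have := h.fintype_card_le_finrank
    simp at this
  obtain ⟨α, hα, s, hs⟩ := Fintype.not_linearIndependent_iff.mp hdep
  have h1 := hκ _ (∑ s, α s • W s) (hy1 s) (by simpa [map_sum] using hα)
  have h2 : ∀ s', polar g (f 0) (f 1) (lineEmb (f 0) (f (l s)) (f 3) (y s)) (W s').1 =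
      if s' = s then I3 (univ.erase (j s)) (bv K g (f 0) (f 1)) (y s) (y s) else 0 := by
    intro s'
    rw [polar_test g (ml s') m2 (hj s') (fun r => by simp [lineEmb_apply, (hl s).2.2.1.symm])]
    by_cases h : s' = s
    · subst h
      have : (fun r => lineEmb (f 0) (f (l s')) (f 3) (y s') r (f (l s'))) = y s' := by
        ext r
        by_cases hr : r = f 0 <;> simp [lineEmb_apply, hr, hy2, (hl s').2.2.2]
      rw [this, if_pos rfl]
    · simp [lineEmb_apply, h, hl', (hl s').2.2.2, I3]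
  change polarL g (f 0) (f 1) _ _ = 0 at h1
  simp only [AddSubmonoidClass.coe_finsetSum, SetLike.val_smul, map_sum, map_smul] at h1
  change ∑ s', α s' * polar g (f 0) (f 1) _ _ = 0 at h1
  simp only [h2, mul_ite, mul_zero, sum_ite_eq', mem_univ, if_true] at h1
  exact mul_ne_zero hs (hI s) h1

theorem dc_generic [CharZero K] {R μ : Type*} [CommRing R] [Fintype μ] [DecidableEq μ]
    {φ : K →+* R} {t e : R} {ev : R →+* K} (ht : IsLeftRegular t) (he : e * e = 0)
    (hev : ev t = 0) (hφ : ∀ c, ev (φ c) = c) {δ : R → K} (hδ : ∀ r, δ (t * r) = 0)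
    (hδ' : ∀ a b r, δ (φ a + e * φ b + t * r) = b) {g : ℕ} (hn : Fintype.card ι = g + 5)
    (hg : 4 ≤ g) (A : Matrix μ μ (MvPolynomial (ι × ι) K)) (hA : ∀ i j, (A i j).totalDegree ≤ 1)
    (h : A.det = Matrix.permanent (Matrix.of fun i j : ι =>
      (MvPolynomial.X (i, j) : MvPolynomial (ι × ι) K))) :
    (g + 2) ^ 2 ≤ Fintype.card μ := by
  obtain ⟨f⟩ : Nonempty (Fin 9 ↪ ι) :=
    Function.Embedding.nonempty_of_card_le (by simp [hn]; omega)
  let B : Matrix ι ι K →ₗ[K] Matrix μ μ K :=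
    { toFun := fun Y => Matrix.of fun i j =>
        ∑ v : ι × ι, (A i j).coeff (Finsupp.single v 1) * Y v.1 v.2
      map_add' := fun Y W => by ext i j; simp [mul_add, sum_add_distrib]
      map_smul' := fun a Y => by ext i j; simp [mul_sum, mul_left_comm] }
  have hB : ∀ Y i j, B Y i j = ∑ v : ι × ι, (A i j).coeff (Finsupp.single v 1) * Y v.1 v.2 :=
    fun _ _ _ => rfl
  let a : Matrix μ μ K := Matrix.of (fun i j => (A i j).coeff 0) + B (base K g (f 0) (f 1))
  have key : ∀ Y W, (Mdual φ t e a (B Y) (B W)).det =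
      (Mdual φ t e (base K g (f 0) (f 1)) Y W).permanent := by
    intro Y W
    let Φ : MvPolynomial (ι × ι) K →+* R := MvPolynomial.eval₂Hom φ
      fun v => Mdual φ t e (base K g (f 0) (f 1)) Y W v.1 v.2
    have h1 := congrArg Φ h
    rw [RingHom.map_det, map_permanent] at h1
    have h2 : Φ.mapMatrix A = Mdual φ t e a (B Y) (B W) := by
      ext i j
      rw [RingHom.mapMatrix_apply, Matrix.map_apply, affine_form (hA i j)]
      simp only [Φ, map_add, map_sum, map_mul, MvPolynomial.eval₂Hom_C, MvPolynomial.eval₂Hom_X',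
        Mdual_apply, a, Matrix.add_apply, Matrix.of_apply, hB, mul_add, sum_add_distrib, mul_sum,
        add_assoc, mul_left_comm]
    rw [← h2, h1]
    congr 1
    ext i j
    simp [Φ]
  have hd := det_dichotomy ht he hev hφ hδ a (B ∘ₗ (dirs K (f 0) (f 1)).subtype)
    (fun Y W => - g.factorial * polar g (f 0) (f 1) Y.1 W.1) (by
      intro Y W
      obtain ⟨q, hq⟩ := per_dvd φ t he hn (r₀ := f 0) (r₁ := f 1) (by simp) Y.2 W.2
      refine ⟨φ (- g.factorial * polar g (f 0) (f 1) Y.1 Y.1 / 3) +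
        e * φ (- g.factorial * polar g (f 0) (f 1) Y.1 W.1) + t * (φ (1 / 6) * q), ?_, hδ' _ _ _⟩
      have h6 : φ (1 / 6) * 6 = 1 := by
        rw [← map_ofNat φ 6, ← map_mul]; norm_num
      have h3 : φ (- g.factorial * polar g (f 0) (f 1) Y.1 Y.1 / 3) =
          - 2 * φ (1 / 6) * g.factorial * φ (polar g (f 0) (f 1) Y.1 Y.1) := by
        rw [← map_ofNat φ 2, ← map_natCast φ, ← map_neg, ← map_mul, ← map_mul, ← map_mul]
        congr 1
        ring
      simp only [LinearMap.comp_apply, Submodule.coe_subtype]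
      rw [key, h3, map_mul, map_neg, map_natCast]
      linear_combination φ (1 / 6) * hq - ((Mdual φ t e (base K g (f 0) (f 1)) Y.1 W.1).permanent
        + t ^ 3 * e * g.factorial * φ (polar g (f 0) (f 1) Y.1 W.1)) * h6)
  have hfac : (- (g.factorial : K)) ≠ 0 := neg_ne_zero.mpr (by exact_mod_cast g.factorial_ne_zero)
  rcases hd with ⟨Λ, h1, h2⟩ | ⟨κ, hκ⟩
  · have h3 := case_one hn (r₀ := f 0) (r₁ := f 1) (c₂ := f 2) (c₃ := f 3) (by simp) (by simp)
      (by simp) Λ fun Y hY W => (mul_eq_zero.mp (h2 Y hY W)).resolve_left hfac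
    have h4 : (g + 2) ^ 2 = (g + 1) * (g + 3) + 1 := by ring
    omega
  · exact (case_two hn f κ fun Y W hY hW =>
      (mul_eq_zero.mp (hκ Y W hY hW)).resolve_left hfac).elim

theorem dc_main (K : Type*) [Field K] [CharZero K] (n m : ℕ) (hn : 9 ≤ n)
    (A : Matrix (Fin m) (Fin m) (MvPolynomial (Fin n × Fin n) K))
    (hA : ∀ i j, (A i j).totalDegree ≤ 1)
    (h : A.det = Matrix.permanent (Matrix.of fun i j : Fin n =>
      (MvPolynomial.X (i, j) : MvPolynomial (Fin n × Fin n) K))) :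
    (n - 3) ^ 2 ≤ m := by
  obtain ⟨g, rfl⟩ : ∃ g, n = g + 5 := ⟨n - 5, by omega⟩
  have := dc_generic (R := Polynomial (DualNumber K))
    (φ := Polynomial.C.comp (algebraMap K (DualNumber K))) (t := Polynomial.X)
    (e := Polynomial.C DualNumber.eps)
    (ev := (TrivSqZeroExt.fstHom K K K).toRingHom.comp (Polynomial.evalRingHom 0))
    (δ := fun r => (r.eval 0).snd) Polynomial.isRegular_X.left
    (by rw [← map_mul, DualNumber.eps_mul_eps, map_zero]) (by simp) (by simp) (by simp)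
    (by simp [TrivSqZeroExt.algebraMap_eq_inl]) (g := g) (by simp) (by omega) A hA h
  simpa using this

end Pool.Agent.Lib.MP_8b1d3b_lc
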