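import Mathlib
import Pool.Agent.Lib.MP_8b1d3b_lc.D5Main

set_option autoImplicit false

namespace Pool.Agent.Lib.MP_8b1d3b_lc.Depth5Kept

theorem result (R : Type*) [CommRing R] (F : Type*) [Field F] [Fintype F]
    (hF : 3 ≤ Fintype.card F) (φ : R →+* F) (n t s M : ℕ) (ht : 0 < t)
    (hn : (600 * Fintype.card F ^ 2 * t) ^ 3 ≤ n)
    (P : Fin M → List (MvPolynomial (Fin n × Fin n) R))
    (hP : ∀ l, ∀ a ∈ P l, a.totalDegree ≤ 1)
    (G : Fin s → List (MvPolynomial (Fin n × Fin n) R))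
    (hG : ∀ i, ∀ g ∈ G i, g ∈ Submodule.span R (Set.range fun l => (P l).prod))
    (h : ∑ i, (G i).prod = Matrix.permanent (Matrix.of fun i j : Fin n =>
      (MvPolynomial.X (i, j) : MvPolynomial (Fin n × Fin n) R))) :
    2 ^ t ≤ 2 * n * (s + M) :=
  Pool.Agent.Lib.MP_8b1d3b_lc.D5.depth_five hF φ ht hn P hP G hG h

end Pool.Agent.Lib.MP_8b1d3b_lc.Depth5Kept
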