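import Mathlib
import Pool.Agent.Lib.MP_8b1d3b_lc.DcMain

set_option autoImplicit false

namespace Pool.Agent.Lib.MP_8b1d3b_lc.DetComplexityKept

theorem result (K : Type*) [Field K] [CharZero K] (n m : ℕ) (hn : 9 ≤ n)
    (A : Matrix (Fin m) (Fin m) (MvPolynomial (Fin n × Fin n) K))
    (hA : ∀ i j, (A i j).totalDegree ≤ 1)
    (h : A.det = Matrix.permanent (Matrix.of fun i j : Fin n =>
      (MvPolynomial.X (i, j) : MvPolynomial (Fin n × Fin n) K))) :
    (n - 3) ^ 2 ≤ m :=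
  Pool.Agent.Lib.MP_8b1d3b_lc.dc_main K n m hn A hA h

end Pool.Agent.Lib.MP_8b1d3b_lc.DetComplexityKept
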