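import Mathlib

/-! Counting: few degrees and few weight vectors cannot serve all regular monomials. -/

set_option autoImplicit false

namespace Pool.Agent.Lib.MP_8b1d3b_lc.Sym

open Finset

theorem exists_subset {α β : Type*} [DecidableEq α] (f : α → β) (S0 : Finset α) (E : β →₀ ℕ)
    (h : E ≤ ∑ j ∈ S0, Finsupp.single (f j) 1) :
    ∃ S : Finset α, S ⊆ S0 ∧ E = ∑ j ∈ S, Finsupp.single (f j) 1 := by
  classical
  induction S0 using Finset.induction_on generalizing E with
  | empty => exact ⟨∅, subset_rfl, by simpa using h⟩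
  | insert a s ha ih =>
    rw [sum_insert ha] at h
    by_cases h0 : E (f a) = 0
    · obtain ⟨S, hS, hE⟩ := ih E (fun p => by
        have := h p
        rw [Finsupp.add_apply, Finsupp.single_apply] at this
        split_ifs at this with hp
        · rw [← hp, h0]; exact Nat.zero_le _
        · simpa using this)
      exact ⟨S, hS.trans (subset_insert _ _), hE⟩
    · obtain ⟨S, hS, hE⟩ := ih (E - Finsupp.single (f a) 1) (tsub_le_iff_left.2 h)
      refine ⟨insert a S, insert_subset_insert _ hS, ?_⟩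
      rw [sum_insert (fun hh => ha (hS hh)), ← hE, add_tsub_cancel_of_le]
      exact Finsupp.single_le_iff.2 (Nat.one_le_iff_ne_zero.2 h0)

theorem card_perm {I : Type*} [Fintype I] [DecidableEq I] (S T : Finset I) (h : T.card = S.card) :
    (univ.filter fun σ : Equiv.Perm I => S.map σ.toEmbedding = T).card ≤
      S.card.factorial * (Fintype.card I - S.card).factorial := by
  classical
  have h1 : ∀ σ : {σ : Equiv.Perm I // S.map σ.toEmbedding = T}, ∀ x, x ∈ S ↔ σ.1 x ∈ T := by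
    rintro ⟨σ, rfl⟩ x
    rw [Finset.mem_map_equiv, Equiv.symm_apply_apply]
  let φ : {σ : Equiv.Perm I // S.map σ.toEmbedding = T} →
      ({x // x ∈ S} ↪ {x // x ∈ T}) × ({x // x ∈ Sᶜ} ↪ {x // x ∈ Tᶜ}) := fun σ =>
    (⟨fun x => ⟨σ.1 x.1, (h1 σ _).1 x.2⟩, fun x y hxy =>
        Subtype.ext (σ.1.injective (congrArg Subtype.val hxy))⟩,
      ⟨fun x => ⟨σ.1 x.1, mem_compl.2 fun hh => mem_compl.1 x.2 ((h1 σ _).2 hh)⟩, fun x y hxy =>
        Subtype.ext (σ.1.injective (congrArg Subtype.val hxy))⟩)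
  have hφ : Function.Injective φ := by
    intro σ τ hst
    refine Subtype.ext (Equiv.ext fun x => ?_)
    by_cases hx : x ∈ S
    · exact congrArg Subtype.val (DFunLike.congr_fun (congrArg Prod.fst hst) ⟨x, hx⟩)
    · exact congrArg Subtype.val (DFunLike.congr_fun (congrArg Prod.snd hst) ⟨x, mem_compl.2 hx⟩)
  have h2 := Fintype.card_le_of_injective φ hφ
  rw [Fintype.card_subtype, Fintype.card_prod, Fintype.card_embedding_eq,
    Fintype.card_embedding_eq] at h2
  simpa only [Fintype.card_coe, card_compl, h, Nat.descFactorial_self] using h2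

/-- The number of points of `S` in block `b`. -/
def cnt {B J : Type*} [Fintype J] [DecidableEq B] [DecidableEq J] (S : Finset (B × J)) (b : B) :
    ℕ := (univ.filter fun i : J => (b, i) ∈ S).card

theorem cnt_eq {B J : Type*} [Fintype J] [DecidableEq B] [DecidableEq J] (S : Finset (B × J))
    (b : B) : cnt S b = (S.filter fun j => b = j.1).card := by
  refine Finset.card_nbij' (fun i => (b, i)) (fun j => j.2) ?_ ?_ ?_ ?_
  · intro i hi
    simpa using hi
  · rintro ⟨b', i⟩ hj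
    simp only [coe_filter, Set.mem_setOf_eq] at hj
    obtain ⟨h1, rfl⟩ := hj
    simpa using h1
  · intro i _
    rfl
  · rintro ⟨b', i⟩ hj
    simp only [coe_filter, Set.mem_setOf_eq] at hj
    obtain ⟨_, rfl⟩ := hj
    rfl

theorem sum_cnt {B J : Type*} [Fintype B] [Fintype J] [DecidableEq B] [DecidableEq J]
    (S : Finset (B × J)) : ∑ b, cnt S b = S.card := by
  simp only [cnt_eq, card_filter]
  rw [sum_comm]
  simp

theorem factor_le (l : ℕ) [NeZero l] (x : ZMod l) :
    ∑ s ∈ (univ : Finset (Finset (ZMod l))).filter (fun s => ((s.card : ℕ) : ZMod l) = x),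
      (1 / (l : ℝ)) ^ s.card ≤ 1 + (1 / (l : ℝ)) ^ l := by
  classical
  have hl : (0 : ℝ) < l := by exact_mod_cast Nat.pos_of_ne_zero (NeZero.ne l)
  have hsub : (univ : Finset (Finset (ZMod l))).filter (fun s => ((s.card : ℕ) : ZMod l) = x) ⊆
      insert univ (powersetCard x.val univ) := by
    intro s hs
    rw [mem_filter] at hs
    rw [mem_insert, mem_powersetCard_univ]
    by_cases h : s = univ
    · exact Or.inl h
    · right
      have h1 : s.card < l := by
        simpa [ZMod.card] using (Finset.card_lt_iff_ne_univ s).2 h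
      rw [← hs.2, ZMod.val_cast_of_lt h1]
  have hne : (univ : Finset (ZMod l)) ∉ powersetCard x.val univ := by
    rw [mem_powersetCard_univ, card_univ, ZMod.card]
    exact (ZMod.val_lt x).ne'
  refine (sum_le_sum_of_subset_of_nonneg hsub fun _ _ _ => by positivity).trans ?_
  rw [sum_insert hne, card_univ, ZMod.card, add_comm]
  gcongr
  rw [sum_congr rfl (g := fun _ => (1 / (l : ℝ)) ^ x.val)
    (fun s hs => by rw [mem_powersetCard_univ.1 hs]), sum_const, card_powersetCard, card_univ,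
    ZMod.card, nsmul_eq_mul, one_div, inv_pow, ← div_eq_mul_inv, div_le_one (by positivity)]
  exact_mod_cast Nat.choose_le_pow l x.val

/-- Sets of size `d` with prescribed block counts modulo `l`. -/
def fam (l : ℕ) [NeZero l] {B : Type*} [Fintype B] [DecidableEq B] (d : ℕ) (x : B → ZMod l) :
    Finset (Finset (B × ZMod l)) :=
  univ.filter fun S => S.card = d ∧ ∀ b, ((cnt S b : ℕ) : ZMod l) = x b

theorem card_fam (l : ℕ) [NeZero l] {B : Type*} [Fintype B] [DecidableEq B] (d : ℕ)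
    (x : B → ZMod l) :
    ((fam l d x).card : ℝ) ≤ (l : ℝ) ^ d * (1 + (1 / (l : ℝ)) ^ l) ^ Fintype.card B := by
  classical
  have hl : (0 : ℝ) < l := by exact_mod_cast Nat.pos_of_ne_zero (NeZero.ne l)
  let t : B → Finset (Finset (ZMod l)) := fun b =>
    univ.filter (fun s => ((s.card : ℕ) : ZMod l) = x b)
  let φ : Finset (B × ZMod l) → B → Finset (ZMod l) := fun S b =>
    univ.filter fun i => (b, i) ∈ S
  have hφ : Function.Injective φ := by
    intro S T h
    ext ⟨b, i⟩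
    have := congrArg (fun y => i ∈ y b) h
    simpa [φ] using this
  have h1 : ∏ b, ∑ s ∈ t b, (1 / (l : ℝ)) ^ s.card ≤
      (1 + (1 / (l : ℝ)) ^ l) ^ Fintype.card B := by
    rw [← card_univ, ← prod_const]
    exact prod_le_prod (fun _ _ => sum_nonneg fun _ _ => by positivity)
      fun b _ => factor_le l (x b)
  rw [prod_univ_sum] at h1
  have h2 : (fam l d x).map ⟨φ, hφ⟩ ⊆ Fintype.piFinset t := by
    intro y hy
    obtain ⟨S, hS, rfl⟩ := mem_map.1 hy
    rw [Fintype.mem_piFinset]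
    intro b
    exact mem_filter.2 ⟨mem_univ _, (mem_filter.1 hS).2.2 b⟩
  have h3 := (sum_le_sum_of_subset_of_nonneg h2 fun _ _ _ => by positivity).trans h1
  rw [sum_map, sum_congr rfl (g := fun _ => (1 / (l : ℝ)) ^ d) (fun S hS => by
    rw [prod_pow_eq_pow_sum, ← (mem_filter.1 hS).2.1, ← sum_cnt S]
    rfl), sum_const, nsmul_eq_mul, one_div, inv_pow, ← div_eq_mul_inv,
    div_le_iff₀ (by positivity), mul_comm] at h3
  simpa only [one_div] using h3

theorem num1 (L d : ℕ) (h : d ≤ L) :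
    L ^ d * (d.factorial * (L - d).factorial) ≤ d ^ d * L.factorial := by
  have h1 : L ^ d * d.factorial ≤ d ^ d * L.descFactorial d := by
    rw [← Nat.descFactorial_self d, Nat.descFactorial_eq_prod_range,
      Nat.descFactorial_eq_prod_range]
    have e1 : L ^ d = ∏ _i ∈ range d, L := by simp
    have e2 : d ^ d = ∏ _i ∈ range d, d := by simp
    rw [e1, e2, ← prod_mul_distrib, ← prod_mul_distrib]
    refine prod_le_prod' fun i hi => ?_
    have hi' := (mem_range.1 hi).le
    rw [Nat.mul_sub, Nat.mul_sub, mul_comm L d]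
    exact Nat.sub_le_sub_left (Nat.mul_le_mul_right i h) _
  rw [← Nat.factorial_mul_descFactorial h, ← mul_assoc, mul_comm (L - d).factorial, ← mul_assoc]
  exact Nat.mul_le_mul_right _ h1

theorem num2 (l k : ℕ) (hl : 3 ≤ l) :
    (1 + (1 / (l : ℝ)) ^ l) ^ (8 * l * k) ≤ (5 / 2) ^ k := by
  have hl' : (3 : ℝ) ≤ l := by exact_mod_cast hl
  have h1 : (l : ℝ) * (1 / (l : ℝ)) ^ l ≤ 1 / 9 := by
    rw [one_div, inv_pow, ← div_eq_mul_inv, div_le_div_iff₀ (by positivity) (by norm_num)]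
    have : (l : ℝ) ^ 3 ≤ (l : ℝ) ^ l := pow_le_pow_right₀ (by linarith) hl
    have h9 : (9 : ℝ) ≤ l ^ 2 := by nlinarith
    nlinarith
  have h2 : Real.exp (8 / 9) ≤ 5 / 2 := by
    have e1 := Real.exp_one_lt_d9
    have e2 := Real.add_one_le_exp (1 / 9)
    have e3 : Real.exp (8 / 9) * Real.exp (1 / 9) = Real.exp 1 := by
      rw [← Real.exp_add]; norm_num
    have e4 := Real.exp_pos (8 / 9)
    nlinarith
  rw [pow_mul]
  refine pow_le_pow_left₀ (by positivity) ?_ k
  refine le_trans ?_ h2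
  calc (1 + (1 / (l : ℝ)) ^ l) ^ (8 * l) ≤ Real.exp ((1 / (l : ℝ)) ^ l) ^ (8 * l) :=
        pow_le_pow_left₀ (by positivity) (by rw [add_comm]; exact Real.add_one_le_exp _) _
    _ = Real.exp (8 * (l * (1 / (l : ℝ)) ^ l)) := by
        rw [← Real.exp_nat_mul]; push_cast; ring_nf
    _ ≤ _ := Real.exp_le_exp.2 (by linarith)

theorem num3 (k d : ℕ) (hk : 1 ≤ k) (h1 : k ≤ d) (h2 : d ≤ 2 * k) :
    (d : ℝ) ^ d * 4 ^ k ≤ (4 * k) ^ d := by
  have hk' : (0 : ℝ) < k := by exact_mod_cast hk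
  have hd : (0 : ℝ) < d := by exact_mod_cast hk.trans h1
  have h1' : (k : ℝ) ≤ d := by exact_mod_cast h1
  have h2' : (d : ℝ) ≤ 2 * k := by exact_mod_cast h2
  have ha : (0 : ℝ) ≤ 2 - d / k := by rw [sub_nonneg, div_le_iff₀ hk']; exact h2'
  have hb : (0 : ℝ) ≤ d / k - 1 := by rw [sub_nonneg, le_div_iff₀ hk']; linarith
  have h := Real.convexOn_mul_log.2 (show (1 : ℝ) ∈ Set.Ici 0 by simp)
    (show (2 : ℝ) ∈ Set.Ici 0 by simp) ha hb (by ring)
  simp only [smul_eq_mul, Real.log_one, mul_zero, zero_add] at h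
  rw [show (2 - (d : ℝ) / k) * 1 + (d / k - 1) * 2 = d / k by ring,
    Real.log_div hd.ne' hk'.ne'] at h
  have h4 : Real.log 4 = 2 * Real.log 2 := by
    rw [show (4 : ℝ) = 2 ^ 2 by norm_num, Real.log_pow]; norm_num
  rw [← Real.log_le_log_iff (by positivity) (by positivity), Real.log_mul (by positivity)
    (by positivity), Real.log_pow, Real.log_pow, Real.log_pow,
    Real.log_mul (by norm_num) hk'.ne', h4]
  have h5 := mul_le_mul_of_nonneg_left h hk'.le
  rw [show (k : ℝ) * (d / k * (Real.log d - Real.log k)) = d * (Real.log d - Real.log k) by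
    field_simp, show (k : ℝ) * ((d / k - 1) * (2 * Real.log 2)) = (d - k) * (2 * Real.log 2) by
    field_simp] at h5
  linarith

theorem num (l k d : ℕ) (hl : 3 ≤ l) (hk : 1 ≤ k) (h1 : k ≤ d) (h2 : d ≤ 2 * k) :
    ((l : ℝ) ^ d * (1 + (1 / (l : ℝ)) ^ l) ^ (4 * l * k)) ^ 2 *
      ((d.factorial * (4 * l * k * l - d).factorial : ℕ) : ℝ) ≤
      (5 / 8) ^ k * ((4 * l * k * l).factorial : ℝ) := by
  have hd : d ≤ 4 * l * k * l := by nlinarith [Nat.mul_le_mul hl hl]
  have e1 : ((4 * l * k * l : ℕ) : ℝ) ^ d * ((d.factorial * (4 * l * k * l - d).factorial : ℕ) : ℝ)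
      ≤ (d : ℝ) ^ d * ((4 * l * k * l).factorial : ℝ) := by exact_mod_cast num1 _ d hd
  have e2 := num2 l k hl
  have e3 := num3 k d hk h1 h2
  have hk' : (0 : ℝ) < k := by exact_mod_cast hk
  have hl' : (0 : ℝ) < l := by exact_mod_cast (by omega : 0 < l)
  have e4 : ((4 * l * k * l : ℕ) : ℝ) ^ d = (4 * k) ^ d * ((l : ℝ) ^ d) ^ 2 := by
    push_cast
    rw [← pow_mul, mul_comm d 2, pow_mul, ← mul_pow]
    ring
  rw [e4] at e1
  rw [mul_pow, ← pow_mul _ (4 * l * k) 2, show 4 * l * k * 2 = 8 * l * k by ring]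
  set X : ℝ := ((d.factorial * (4 * l * k * l - d).factorial : ℕ) : ℝ)
  set Y : ℝ := ((4 * l * k * l).factorial : ℝ)
  have hX : 0 ≤ X := Nat.cast_nonneg _
  have hY : 0 ≤ Y := Nat.cast_nonneg _
  have e5 : ((l : ℝ) ^ d) ^ 2 * X * 4 ^ k ≤ Y := by
    refine le_of_mul_le_mul_left ?_ (show (0 : ℝ) < (4 * k) ^ d by positivity)
    calc (4 * (k : ℝ)) ^ d * (((l : ℝ) ^ d) ^ 2 * X * 4 ^ k)
        = (4 * k) ^ d * ((l : ℝ) ^ d) ^ 2 * X * 4 ^ k := by ring
      _ ≤ (d : ℝ) ^ d * Y * 4 ^ k := by gcongr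
      _ = (d : ℝ) ^ d * 4 ^ k * Y := by ring
      _ ≤ _ := by gcongr
  calc ((l : ℝ) ^ d) ^ 2 * (1 + (1 / (l : ℝ)) ^ l) ^ (8 * l * k) * X
      ≤ ((l : ℝ) ^ d) ^ 2 * (5 / 2) ^ k * X := by gcongr
    _ = (5 / 8) ^ k * (((l : ℝ) ^ d) ^ 2 * X * 4 ^ k) := by
        rw [show (5 / 2 : ℝ) = 5 / 8 * 4 by norm_num, mul_pow]; ring
    _ ≤ _ := by gcongr

/-- Indicator of row `a` (for `inl a`) or column `b` (for `inr b`). -/
def ind (l : ℕ) {B : Type*} [DecidableEq B] (s : B ⊕ B) (p : B × B) : ZMod l :=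
  if s = Sum.inl p.1 ∨ s = Sum.inr p.2 then 1 else 0

/-- Row and column degrees of a monomial modulo `l`. -/
noncomputable def wt (l : ℕ) {B : Type*} [DecidableEq B] (E : B × B →₀ ℕ) (s : B ⊕ B) : ZMod l :=
  Finsupp.weight (ind l s) E

theorem count (l k : ℕ) [NeZero l] (hl : 3 ≤ l) (hk : 1 ≤ k) {B : Type*} [Fintype B]
    [DecidableEq B] (hB : Fintype.card B = 4 * l * k) (D : Finset ℕ)
    (hD : ∀ d ∈ D, k ≤ d ∧ d ≤ 2 * k) (W : Finset (B ⊕ B → ZMod l))
    (h : ∀ σ : Equiv.Perm (B × ZMod l), ∃ E : B × B →₀ ℕ,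
      E ≤ ∑ j, Finsupp.single ((σ j).1, j.1) 1 ∧ E.degree ∈ D ∧ wt l E ∈ W) :
    (8 / 5 : ℝ) ^ k ≤ D.card * W.card := by
  classical
  have hI : Fintype.card (B × ZMod l) = 4 * l * k * l := by
    rw [Fintype.card_prod, hB, ZMod.card]
  have hsub : (univ : Finset (Equiv.Perm (B × ZMod l))) ⊆ D.biUnion fun d => W.biUnion fun w =>
      (fam l d fun b => w (Sum.inr b)).biUnion fun S => (fam l d fun a => w (Sum.inl a)).biUnion
        fun T => univ.filter fun σ : Equiv.Perm (B × ZMod l) => S.map σ.toEmbedding = T := by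
    intro σ _
    obtain ⟨E, hE, hd, hw⟩ := h σ
    obtain ⟨S, -, rfl⟩ := exists_subset (fun j : B × ZMod l => ((σ j).1, j.1)) univ E hE
    simp only [mem_biUnion]
    refine ⟨_, hd, _, hw, S, ?_, S.map σ.toEmbedding, ?_, mem_filter.2 ⟨mem_univ _, rfl⟩⟩
    · refine mem_filter.2 ⟨mem_univ _, by simp [map_sum], fun b => ?_⟩
      rw [cnt_eq, card_filter]
      simp only [wt, ind, map_sum, Finsupp.weight_single, one_smul, Nat.cast_sum, Nat.cast_ite,
        Nat.cast_one, Nat.cast_zero, Sum.inr.injEq, reduceCtorEq, false_or]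
    · refine mem_filter.2 ⟨mem_univ _, by simp [map_sum], fun b => ?_⟩
      rw [cnt_eq, card_filter, sum_map]
      simp only [wt, ind, map_sum, Finsupp.weight_single, one_smul, Nat.cast_sum, Nat.cast_ite,
        Nat.cast_one, Nat.cast_zero, Sum.inl.injEq, reduceCtorEq, or_false,
        Equiv.coe_toEmbedding]
  have h1 : ((4 * l * k * l).factorial : ℝ) ≤ ∑ d ∈ D, ∑ w ∈ W,
      ∑ S ∈ fam l d fun b => w (Sum.inr b), ∑ T ∈ fam l d fun a => w (Sum.inl a),
        ((univ.filter fun σ : Equiv.Perm (B × ZMod l) => S.map σ.toEmbedding = T).card : ℝ) := by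
    have := card_le_card hsub
    rw [card_univ, Fintype.card_perm, hI] at this
    have h2 := this.trans (card_biUnion_le.trans (sum_le_sum fun d _ => card_biUnion_le.trans
      (sum_le_sum fun w _ => card_biUnion_le.trans (sum_le_sum fun S _ => card_biUnion_le))))
    exact_mod_cast h2
  have h2 : ∀ d ∈ D, ∀ w ∈ W,
      ∑ S ∈ fam l d fun b => w (Sum.inr b), ∑ T ∈ fam l d fun a => w (Sum.inl a),
        ((univ.filter fun σ : Equiv.Perm (B × ZMod l) => S.map σ.toEmbedding = T).card : ℝ) ≤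
      (5 / 8) ^ k * ((4 * l * k * l).factorial : ℝ) := by
    intro d hd w _
    refine le_trans ?_ (num l k d hl hk (hD d hd).1 (hD d hd).2)
    refine (sum_le_sum (g := fun _ => ∑ _T ∈ fam l d fun a => w (Sum.inl a),
      ((d.factorial * (4 * l * k * l - d).factorial : ℕ) : ℝ)) fun S hS =>
        sum_le_sum fun T hT => ?_).trans ?_
    · have hS' := (mem_filter.1 hS).2.1
      have := card_perm S T ((mem_filter.1 hT).2.1.trans hS'.symm)
      rw [hI, hS'] at this
      exact_mod_cast this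
    · rw [sum_const, sum_const, nsmul_eq_mul, nsmul_eq_mul, ← mul_assoc, sq, ← hB]
      gcongr
      · exact card_fam l d _
      · exact card_fam l d _
  have h3 := h1.trans (sum_le_sum fun d hd => sum_le_sum fun w hw => h2 d hd w hw)
  rw [sum_const, sum_const, nsmul_eq_mul, nsmul_eq_mul, ← mul_assoc, ← mul_assoc] at h3
  have hp : (0 : ℝ) < (4 * l * k * l).factorial := by exact_mod_cast Nat.factorial_pos _
  have h4 : (1 : ℝ) ≤ D.card * W.card * (5 / 8) ^ k :=
    le_of_mul_le_mul_right (by rwa [one_mul]) hp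
  calc (8 / 5 : ℝ) ^ k ≤ (8 / 5) ^ k * (D.card * W.card * (5 / 8) ^ k) :=
        le_mul_of_one_le_right (by positivity) h4
    _ = D.card * W.card * (8 / 5 * (5 / 8)) ^ k := by rw [mul_pow]; ring
    _ = _ := by norm_num

end Pool.Agent.Lib.MP_8b1d3b_lc.Sym
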