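import Mathlib
import Pool.Agent.Lib.MP_8b1d3b_lc.SymCount

/-! The character substitution and the eigenfunctional count. -/

set_option autoImplicit false
set_option linter.unusedSectionVars false

namespace Pool.Agent.Lib.MP_8b1d3b_lc.Sym

open Finset MvPolynomial

theorem indep {F M G W : Type*} [Field F] [AddCommGroup M] [Module F M] (T : G → M →ₗ[F] M)
    (v : W → M) (hv : ∀ w, v w ≠ 0) (χ : W → G → F) (hχ : Function.Injective χ)
    (hT : ∀ w g, T g (v w) = χ w g • v w) : LinearIndependent F v := by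
  classical
  rw [linearIndependent_iff']
  intro s
  induction s using Finset.induction_on with
  | empty => simp
  | insert a s ha ih =>
    intro c hc
    rw [sum_insert ha] at hc
    have h1 : ∀ w ∈ s, c w = 0 := by
      intro w hw
      have hne : χ w ≠ χ a := fun h => ha (hχ h ▸ hw)
      obtain ⟨g, hg⟩ := Function.ne_iff.1 hne
      have h2 : T g (c a • v a + ∑ i ∈ s, c i • v i) -
          χ a g • (c a • v a + ∑ i ∈ s, c i • v i) = 0 := by
        rw [hc, map_zero, smul_zero, sub_zero]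
      have h3 : ∑ i ∈ s, (c i * (χ i g - χ a g)) • v i = 0 := by
        rw [← h2, map_add, map_sum, map_smul, hT, smul_add, smul_sum, smul_comm (c a),
          add_sub_add_left_eq_sub, ← sum_sub_distrib]
        refine sum_congr rfl fun i _ => ?_
        rw [map_smul, hT, smul_smul, smul_smul, ← sub_smul]
        congr 1
        ring
      exact (mul_eq_zero.1 (ih _ h3 w hw)).resolve_right (sub_ne_zero.2 hg)
    rw [sum_eq_zero (fun i hi => by rw [h1 i hi, zero_smul]), add_zero] at hc
    intro w hw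
    rcases mem_insert.1 hw with rfl | hw
    · exact (smul_eq_zero.1 hc).resolve_right (hv _)
    · exact h1 w hw

theorem sum_ne_zero {F α : Type*} [Field F] [CharZero F] (s : Finset α) (f : α → F) (κ : F)
    (hκ : κ ≠ 0) (h : ∀ a ∈ s, f a ≠ 0 → f a = κ) (a : α) (ha : a ∈ s) (hf : f a ≠ 0) :
    ∑ x ∈ s, f x ≠ 0 := by
  classical
  rw [← sum_filter_ne_zero, sum_congr rfl (g := fun _ => κ)
    (fun x hx => h x (mem_filter.1 hx).1 (mem_filter.1 hx).2), sum_const, nsmul_eq_mul]
  refine mul_ne_zero ?_ hκ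
  exact_mod_cast (card_pos.2 ⟨a, mem_filter.2 ⟨ha, hf⟩⟩).ne'

theorem prod_monomial {F α β : Type*} [CommSemiring F] (s : Finset α) (d : α → β →₀ ℕ)
    (a : α → F) : ∏ j ∈ s, monomial (d j) (a j) = monomial (∑ j ∈ s, d j) (∏ j ∈ s, a j) := by
  classical
  induction s using Finset.induction_on with
  | empty => simp
  | insert x s hx ih => rw [prod_insert hx, sum_insert hx, prod_insert hx, ih, monomial_mul]

variable {F : Type*} [Field F] {ν B : Type*} {l : ℕ} (ψ : AddChar (ZMod l) F)

/-- Scaling each variable by a character value. -/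
noncomputable def scale (h : B → ZMod l) : MvPolynomial B F →ₐ[F] MvPolynomial B F :=
  aeval fun p => C (ψ (h p)) * X p

theorem scale_monomial (h : B → ZMod l) (E : B →₀ ℕ) (c : F) :
    scale ψ h (monomial E c) = monomial E (ψ (Finsupp.weight h E) * c) := by
  have h1 : scale ψ h (monomial E 1) = monomial E (ψ (Finsupp.weight h E)) := by
    induction E using Finsupp.induction_linear with
    | zero => simp
    | add a b ha hb =>
      rw [← mul_one (1 : F), ← monomial_mul, map_mul, ha, hb, monomial_mul, map_add,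
        AddChar.map_add_eq_mul]
    | single i k =>
      rw [← X_pow_eq_monomial, map_pow, scale, aeval_X, mul_pow, ← map_pow, X_pow_eq_monomial,
        C_mul_monomial, mul_one, Finsupp.weight_single, AddChar.map_nsmul_eq_pow]
  rw [← mul_one c, ← C_mul_monomial, map_mul, h1, ← algebraMap_eq, AlgHom.commutes,
    algebraMap_eq, C_mul_monomial, mul_one, mul_comm]

theorem coeff_scale (h : B → ZMod l) (E : B →₀ ℕ) (f : MvPolynomial B F) :
    coeff E (scale ψ h f) = ψ (Finsupp.weight h E) * coeff E f := by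
  classical
  induction f using MvPolynomial.induction_on' with
  | monomial d a =>
    rw [scale_monomial, coeff_monomial, coeff_monomial]
    split_ifs with hd
    · rw [hd]
    · rw [mul_zero]
  | add p q hp hq => rw [map_add, coeff_add, coeff_add, hp, hq, mul_add]

/-- Character value attached to an index. -/
noncomputable def rc (u : B × ZMod l ↪ ν) : ν → F := Function.extend u (fun x => ψ x.2) 0

/-- Block attached to an index. -/
noncomputable def rb (b0 : B) (u : B × ZMod l ↪ ν) : ν → B :=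
  Function.extend u Prod.fst fun _ => b0

theorem rc_apply (u : B × ZMod l ↪ ν) (x : B × ZMod l) : rc ψ u (u x) = ψ x.2 :=
  u.injective.extend_apply _ _ x

theorem rb_apply (b0 : B) (u : B × ZMod l ↪ ν) (x : B × ZMod l) : rb b0 u (u x) = x.1 :=
  u.injective.extend_apply _ _ x

theorem rc_ne (u : B × ZMod l ↪ ν) (i : ν) (h : rc ψ u i ≠ 0) : ∃ x, u x = i := by
  by_contra h1
  exact h (Function.extend_apply' _ _ i h1)

theorem shift (b0 : B) (u : B × ZMod l ↪ ν) (π : Equiv.Perm ν) (δ : B → ZMod l)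
    (hπ : ∀ b i, π (u (b, i)) = u (b, i + δ b)) (i : ν) :
    rc ψ u (π i) = ψ (δ (rb b0 u i)) * rc ψ u i ∧ (rc ψ u i ≠ 0 → rb b0 u (π i) = rb b0 u i) := by
  by_cases h : ∃ x, u x = i
  · obtain ⟨⟨b, x⟩, rfl⟩ := h
    rw [hπ, rc_apply, rc_apply, rb_apply, rb_apply, AddChar.map_add_eq_mul, mul_comm]
    exact ⟨rfl, fun _ => rfl⟩
  · have h0 : rc ψ u i = 0 := by
      by_contra h1
      exact h (rc_ne ψ u i h1)
    refine ⟨?_, fun h1 => absurd h0 h1⟩
    rw [h0, mul_zero]
    by_contra h1
    obtain ⟨⟨b, y⟩, hy⟩ := rc_ne ψ u _ h1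
    exact h ⟨(b, y - δ b), π.injective (by rw [hπ, sub_add_cancel, hy])⟩

/-- The linear part of the substitution. -/
noncomputable def lin (b0 : B) (u v : B × ZMod l ↪ ν) (i j : ν) : MvPolynomial (B × B) F :=
  monomial (Finsupp.single (rb b0 u i, rb b0 v j) 1) (rc ψ u i * rc ψ v j)

/-- The substitution. -/
noncomputable def Phi (K : Type*) [Field K] [Algebra K F] (b0 : B) (u v : B × ZMod l ↪ ν) :
    MvPolynomial (ν × ν) K →ₐ[K] MvPolynomial (B × B) F :=
  aeval fun p => 1 + lin ψ b0 u v p.1 p.2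

variable (K : Type*) [Field K] [Algebra K F] (b0 : B) (u v : B × ZMod l ↪ ν)

theorem Phi_rename (π : Equiv.Perm ν) (δ ε : B → ZMod l)
    (hu : ∀ b i, π (u (b, i)) = u (b, i + δ b)) (hv : ∀ b i, π (v (b, i)) = v (b, i + ε b))
    (f : MvPolynomial (ν × ν) K) :
    Phi ψ K b0 u v (rename (Prod.map π π) f) =
      scale ψ (fun p : B × B => δ p.1 + ε p.2) (Phi ψ K b0 u v f) := by
  have h : (Phi ψ K b0 u v).comp (rename (Prod.map π π)) =
      ((scale ψ (fun p : B × B => δ p.1 + ε p.2)).restrictScalars K).comp (Phi ψ K b0 u v) := by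
    refine algHom_ext fun p => ?_
    obtain ⟨h1, h2⟩ := shift ψ b0 u π δ hu p.1
    obtain ⟨h3, h4⟩ := shift ψ b0 v π ε hv p.2
    simp only [AlgHom.comp_apply, rename_X, Phi, aeval_X, AlgHom.restrictScalars_apply, map_add,
      map_one, Prod.map_fst, Prod.map_snd, lin, scale_monomial, h1, h3, Finsupp.weight_single,
      one_smul, AddChar.map_add_eq_mul]
    congr 1
    by_cases h5 : rc ψ u p.1 = 0
    · simp [h5]
    by_cases h6 : rc ψ v p.2 = 0
    · simp [h6]
    rw [h2 h5, h4 h6]
    congr 1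
    ring
  exact DFunLike.congr_fun h f

theorem Phi_X (p : ν × ν) (E : B × B →₀ ℕ) (h : coeff E (Phi ψ K b0 u v (X p)) ≠ 0) :
    E.degree ≤ 1 := by
  classical
  rw [Phi, aeval_X, coeff_add, lin, coeff_monomial, coeff_one] at h
  split_ifs at h with h1 h2 h2
  · rw [← h1, map_zero]; exact Nat.zero_le _
  · rw [← h1, map_zero]; exact Nat.zero_le _
  · rw [← h2, Finsupp.degree_single]
  · simp at h

variable [Fintype ν] [DecidableEq ν]

theorem Phi_per : Phi ψ K b0 u v (Matrix.permanent (Matrix.of fun i j : ν => X (i, j))) =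
    ∑ x ∈ (univ : Finset (Equiv.Perm ν)) ×ˢ (univ : Finset ν).powerset,
      monomial (∑ j ∈ x.2, Finsupp.single (rb b0 u (x.1 j), rb b0 v j) 1)
        (∏ j ∈ x.2, rc ψ u (x.1 j) * rc ψ v j) := by
  rw [Matrix.permanent, map_sum, sum_product]
  refine sum_congr rfl fun π _ => ?_
  rw [map_prod]
  simp only [Matrix.of_apply, Phi, aeval_X]
  rw [prod_one_add]
  exact sum_congr rfl fun S _ => prod_monomial _ _ _

theorem coeff_zero_per [CharZero F] :
    coeff 0 (Phi ψ K b0 u v (Matrix.permanent (Matrix.of fun i j : ν => X (i, j)))) ≠ 0 := by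
  classical
  rw [Phi_per, coeff_sum]
  refine sum_ne_zero _ _ 1 one_ne_zero ?_ (1, ∅) (by simp) (by simp)
  rintro ⟨π, S⟩ _ h
  rw [coeff_monomial] at h ⊢
  split_ifs at h ⊢ with h1
  · have h2 := congrArg Finsupp.degree h1
    simp only [map_sum, Finsupp.degree_single, sum_const, smul_eq_mul, mul_one, map_zero,
      card_eq_zero] at h2
    rw [h2, prod_empty]
  · exact absurd rfl h

theorem coeff_per [CharZero F] [NeZero l] [Fintype B] (σ : Equiv.Perm (B × ZMod l)) :
    coeff (∑ j, Finsupp.single ((σ j).1, j.1) 1)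
      (Phi ψ K b0 u v (Matrix.permanent (Matrix.of fun i j : ν => X (i, j)))) ≠ 0 := by
  classical
  have hψ : ∀ x, ψ x ≠ 0 := fun x => (ψ.val_isUnit x).ne_zero
  obtain ⟨π0, hπ0⟩ := Equiv.Perm.exists_extending_pair v (fun x => u (σ x)) v.injective
    (u.injective.comp σ.injective)
  rw [Phi_per, coeff_sum]
  refine sum_ne_zero _ _ ((∏ x : B × ZMod l, ψ x.2) * ∏ x : B × ZMod l, ψ x.2)
    (mul_ne_zero (prod_ne_zero_iff.2 fun x _ => hψ _) (prod_ne_zero_iff.2 fun x _ => hψ _)) ?_
    (π0, univ.map v) (by simp) ?_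
  · rintro ⟨π, S⟩ _ h
    rw [coeff_monomial] at h ⊢
    split_ifs at h ⊢ with h1
    · have h2 := congrArg Finsupp.degree h1
      simp only [map_sum, Finsupp.degree_single, sum_const, smul_eq_mul, mul_one] at h2
      have h3 := fun j hj => mul_ne_zero_iff.1 (prod_ne_zero_iff.1 h j hj)
      have h4 : S = univ.map v := by
        refine eq_of_subset_of_card_le (fun j hj => ?_) (by rw [card_map, h2])
        obtain ⟨x, hx⟩ := rc_ne ψ v j (h3 j hj).2
        exact mem_map.2 ⟨x, mem_univ _, hx⟩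
      have h5 : S.map π.toEmbedding = univ.map u := by
        refine eq_of_subset_of_card_le (fun i hi => ?_) (by rw [card_map, card_map, h2])
        obtain ⟨j, hj, rfl⟩ := mem_map.1 hi
        obtain ⟨x, hx⟩ := rc_ne ψ u _ (h3 j hj).1
        exact mem_map.2 ⟨x, mem_univ _, hx⟩
      rw [prod_mul_distrib]
      congr 1
      · have h6 : ∏ j ∈ S, rc ψ u (π j) = ∏ i ∈ S.map π.toEmbedding, rc ψ u i :=
          (prod_map S π.toEmbedding (rc ψ u)).symm
        rw [h6, h5, prod_map]
        exact prod_congr rfl fun x _ => rc_apply ψ u x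
      · rw [h4, prod_map]
        exact prod_congr rfl fun x _ => rc_apply ψ v x
    · exact absurd rfl h
  · rw [coeff_monomial, if_pos]
    · rw [prod_map]
      refine prod_ne_zero_iff.2 fun x _ => ?_
      rw [hπ0, rc_apply, rc_apply]
      exact mul_ne_zero (hψ _) (hψ _)
    · rw [sum_map]
      refine sum_congr rfl fun x _ => ?_
      rw [hπ0, rb_apply, rb_apply]

theorem weights_le [NeZero l] [Fintype B] [DecidableEq B] (hψ : Function.Injective ψ)
    (c : B ⊕ B → Equiv.Perm ν)
    (hu : ∀ s b i, c s (u (b, i)) = u (b, i + if s = Sum.inl b then 1 else 0))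
    (hv : ∀ s b i, c s (v (b, i)) = v (b, i + if s = Sum.inr b then 1 else 0))
    (V : Submodule K (MvPolynomial (ν × ν) K)) [FiniteDimensional K V]
    (hV : ∀ s, ∀ f ∈ V, rename (Prod.map (c s) (c s)) f ∈ V) (W : Finset (B ⊕ B → ZMod l))
    (hW : ∀ w ∈ W, ∃ E, wt l E = w ∧ ∃ f ∈ V, coeff E (Phi ψ K b0 u v f) ≠ 0) :
    W.card ≤ Module.finrank K V := by
  choose E hE f hf hne using hW
  let φ : {w // w ∈ W} → (V →ₗ[K] F) := fun w =>
    ((lcoeff F (E w.1 w.2)).restrictScalars K) ∘ₗ (Phi ψ K b0 u v).toLinearMap ∘ₗ V.subtype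
  let ρ : B ⊕ B → V →ₗ[K] V := fun s =>
    (rename (Prod.map (c s) (c s))).toLinearMap.restrict (hV s)
  let T : B ⊕ B → (V →ₗ[K] F) →ₗ[F] (V →ₗ[K] F) := fun s =>
    { toFun := fun y => y ∘ₗ ρ s
      map_add' := fun _ _ => rfl
      map_smul' := fun _ _ => rfl }
  have hli : LinearIndependent F φ := by
    refine indep T φ (fun w h => hne w.1 w.2 (LinearMap.congr_fun h ⟨_, hf w.1 w.2⟩))
      (fun w s => ψ (w.1 s)) (fun w w' h => Subtype.ext (funext fun s => hψ (congrFun h s)))
      fun w s => LinearMap.ext fun y => ?_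
    have h1 : (fun p : B × B => (if s = Sum.inl p.1 then (1 : ZMod l) else 0) +
        if s = Sum.inr p.2 then 1 else 0) = ind l s := by
      funext p
      rcases s with a | a <;> simp [ind]
    show coeff (E w.1 w.2) (Phi ψ K b0 u v (rename (Prod.map (c s) (c s)) y.1)) =
      ψ (w.1 s) * coeff (E w.1 w.2) (Phi ψ K b0 u v y.1)
    rw [Phi_rename ψ K b0 u v (c s) _ _ (hu s) (hv s), coeff_scale, h1]
    exact congrArg (fun z => ψ z * _) (congrFun (hE w.1 w.2) s)
  have := hli.fintype_card_le_finrank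
  rwa [Fintype.card_coe, Module.finrank_linearMap_self] at this

end Pool.Agent.Lib.MP_8b1d3b_lc.Sym
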