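import Mathlib
import Pool.Agent.Lib.MP_8b1d3b_lc.SymPhi

/-! The core inequality and the descent through circuits. -/

set_option autoImplicit false
set_option linter.unusedSectionVars false

namespace Pool.Agent.Lib.MP_8b1d3b_lc.Sym

open Finset MvPolynomial

theorem core (K : Type*) [Field K] [CharZero K] (n t l k : ℕ) (hl : 3 ≤ l) (hk : 1 ≤ k)
    (ht : 8 * l * k ≤ t) (e : Fin t × ZMod l ↪ Fin n) (c : Fin t → Equiv.Perm (Fin n))
    (hc : ∀ a b i, c a (e (b, i)) = e (b, if a = b then i + 1 else i)) :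
    ∃ Φ : MvPolynomial (Fin n × Fin n) K →ₐ[K]
        MvPolynomial (Fin (4 * l * k) × Fin (4 * l * k)) (AlgebraicClosure K),
      (∀ p E, coeff E (Φ (X p)) ≠ 0 → E.degree ≤ 1) ∧
      coeff 0 (Φ (Matrix.permanent (Matrix.of fun i j : Fin n => X (i, j)))) ≠ 0 ∧
      ∀ (V : Submodule K (MvPolynomial (Fin n × Fin n) K)) [FiniteDimensional K V],
        (∀ a, ∀ f ∈ V, rename (Prod.map (c a) (c a)) f ∈ V) →
        ∀ D : Finset ℕ, (∀ d ∈ D, k ≤ d ∧ d ≤ 2 * k) →
        (∀ E, coeff E (Φ (Matrix.permanent (Matrix.of fun i j : Fin n => X (i, j)))) ≠ 0 →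
          k < E.degree → ∃ E' ≤ E, E'.degree ∈ D ∧ ∃ f ∈ V, coeff E' (Φ f) ≠ 0) →
        (8 / 5 : ℝ) ^ k ≤ D.card * Module.finrank K V := by
  classical
  haveI : NeZero l := ⟨by omega⟩
  haveI : NeZero (l : K) := ⟨by exact_mod_cast NeZero.ne l⟩
  obtain ⟨ω, hω⟩ := HasEnoughRootsOfUnity.exists_primitiveRoot (AlgebraicClosure K) l
  let ψ : AddChar (ZMod l) (AlgebraicClosure K) := AddChar.zmodChar l hω.pow_eq_one
  have hψ : Function.Injective ψ := fun a b h =>
    ZMod.val_injective l (hω.pow_inj (ZMod.val_lt a) (ZMod.val_lt b) h)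
  obtain ⟨β⟩ : Nonempty (Fin (4 * l * k) ⊕ Fin (4 * l * k) ↪ Fin t) :=
    Function.Embedding.nonempty_of_card_le (by
      rw [Fintype.card_sum, Fintype.card_fin, Fintype.card_fin]; linarith)
  let b0 : Fin (4 * l * k) := ⟨0, by positivity⟩
  let u : Fin (4 * l * k) × ZMod l ↪ Fin n :=
    ((Function.Embedding.inl.trans β).prodMap (Function.Embedding.refl _)).trans e
  let v : Fin (4 * l * k) × ZMod l ↪ Fin n :=
    ((Function.Embedding.inr.trans β).prodMap (Function.Embedding.refl _)).trans e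
  have h0 : ∀ s s' i, c (β s) (e (β s', i)) = e (β s', i + if s = s' then 1 else 0) := by
    intro s s' i
    rw [hc]
    by_cases h : s = s'
    · rw [if_pos h, if_pos (congrArg β h)]
    · rw [if_neg h, if_neg (fun hh => h (β.injective hh)), add_zero]
  refine ⟨Phi ψ K b0 u v, Phi_X ψ K b0 u v, coeff_zero_per ψ K b0 u v, ?_⟩
  intro V _ hV D hD h
  let W : Finset (Fin (4 * l * k) ⊕ Fin (4 * l * k) → ZMod l) :=
    univ.filter fun w => ∃ E, wt l E = w ∧ ∃ f ∈ V, coeff E (Phi ψ K b0 u v f) ≠ 0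
  have h1 : W.card ≤ Module.finrank K V :=
    weights_le ψ K b0 u v hψ (fun s => c (β s)) (fun s b i => h0 s (Sum.inl b) i)
      (fun s b i => h0 s (Sum.inr b) i) V (fun s => hV (β s)) W fun w hw => (mem_filter.1 hw).2
  refine (count l k hl hk (Fintype.card_fin _) D hD W fun σ => ?_).trans ?_
  · obtain ⟨E, hE, hd, hf⟩ := h _ (coeff_per ψ K b0 u v σ) (by
      simp only [map_sum, Finsupp.degree_single, sum_const, smul_eq_mul, mul_one, card_univ,
        Fintype.card_prod, Fintype.card_fin, ZMod.card]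
      nlinarith [Nat.mul_le_mul hl hl])
    exact ⟨E, hE, hd, mem_filter.2 ⟨mem_univ _, E, rfl, hf⟩⟩
  · gcongr

variable {K F τ β : Type*} [Field K] [Field F] [Algebra K F]
  (Φ : MvPolynomial τ K →ₐ[K] MvPolynomial β F) (V : Submodule K (MvPolynomial τ K)) (k : ℕ)

/-- Polynomials all of whose large monomials are served by `V`. -/
def good : Submodule K (MvPolynomial τ K) where
  carrier := {f | ∀ E, coeff E (Φ f) ≠ 0 → k ≤ E.degree →
    ∃ E' ≤ E, E'.degree ∈ Ico k (2 * k) ∧ ∃ f ∈ V, coeff E' (Φ f) ≠ 0}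
  zero_mem' := fun E h => by simp at h
  add_mem' := fun {a b} ha hb E h => by
    rw [map_add, coeff_add] at h
    by_cases h1 : coeff E (Φ a) = 0
    · exact hb E (by rwa [h1, zero_add] at h)
    · exact ha E h1
  smul_mem' := fun c a ha E h => by
    rw [map_smul, coeff_smul] at h
    exact ha E (right_ne_zero_of_smul h)

theorem one_mem_good (hk : 1 ≤ k) : (1 : MvPolynomial τ K) ∈ good Φ V k := by
  classical
  intro E h hE
  rw [map_one, coeff_one] at h
  split_ifs at h with h1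
  · rw [← h1, map_zero] at hE
    omega
  · exact absurd rfl h

theorem mul_mem_good {a b : MvPolynomial τ K} (ha : a ∈ good Φ V k) (hb : b ∈ good Φ V k)
    (hab : a * b ∈ V) : a * b ∈ good Φ V k := by
  classical
  intro E h hE
  have h1 := h
  rw [map_mul, coeff_mul] at h1
  obtain ⟨x, hx, h2⟩ := exists_ne_zero_of_sum_ne_zero h1
  have h3 := mem_antidiagonal.1 hx
  by_cases h4 : k ≤ x.1.degree
  · obtain ⟨E', h5, h6⟩ := ha _ (left_ne_zero_of_mul h2) h4
    exact ⟨E', h5.trans (h3 ▸ le_self_add), h6⟩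
  by_cases h5 : k ≤ x.2.degree
  · obtain ⟨E', h5, h6⟩ := hb _ (right_ne_zero_of_mul h2) h5
    exact ⟨E', h5.trans (h3 ▸ le_add_self), h6⟩
  refine ⟨E, le_rfl, mem_Ico.2 ⟨hE, ?_⟩, _, hab, h⟩
  rw [← h3, map_add]
  omega

theorem span_le_good (hk : 2 ≤ k) (hX : ∀ p E, coeff E (Φ (X p)) ≠ 0 → E.degree ≤ 1)
    (S : Set (MvPolynomial τ K)) (hS : ∀ f ∈ S, f ∈ good Φ V k) :
    Submodule.span K ({1} ∪ Set.range X ∪ S) ≤ good Φ V k := by
  rw [Submodule.span_le]
  rintro f ((rfl | ⟨p, rfl⟩) | hf)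
  · exact one_mem_good Φ V k (by omega)
  · intro E h hE
    have := hX p E h
    omega
  · exact hS f hf

theorem newton {R α : Type*} [CommRing R] (s : Finset α) (g : α → R) (r : ℕ) :
    (r : R) * (s.val.map g).esymm r = (-1) ^ (r + 1) *
      ∑ a ∈ antidiagonal r with a.1 < r,
        (-1) ^ a.1 * ((s.val.map g).esymm a.1 * ((s.val.map g).map (· ^ a.2)).sum) := by
  have h1 : (univ : Finset s).val.map (fun x : s => g x) = s.val.map g := by
    rw [univ_eq_attach, attach_val]
    exact Multiset.attach_map_val' s.val g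
  have h := congrArg (aeval (R := ℤ) (fun x : s => g x)) (mul_esymm_eq_sum s ℤ r)
  simp only [map_mul, map_natCast, map_pow, map_neg, map_one, map_sum,
    aeval_esymm_eq_multiset_esymm, h1, psum, aeval_X] at h
  rw [h]
  congr 1
  refine sum_congr rfl fun a _ => ?_
  rw [mul_assoc, ← h1, Multiset.map_map]
  rfl

theorem prod_mem_good [CharZero K] (hk : 1 ≤ k) {α : Type*} (s : Finset α)
    (g : α → MvPolynomial τ K) (hg : ∀ j ∈ s, g j ∈ good Φ V k)
    (h1 : ∀ j ∈ s, ∀ r ≤ s.card, g j ^ r ∈ V)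
    (h2 : ∀ a ≤ s.card, ∀ b ≤ s.card,
      (s.val.map g).esymm a * ((s.val.map g).map (· ^ b)).sum ∈ V) :
    ∏ j ∈ s, g j ∈ good Φ V k := by
  have h3 : ∀ j ∈ s, ∀ r ≤ s.card, g j ^ r ∈ good Φ V k := by
    intro j hj r
    induction r with
    | zero => exact fun _ => (pow_zero (g j)).symm ▸ one_mem_good Φ V k hk
    | succ r ih =>
      intro hr
      have := h1 j hj _ hr
      rw [pow_succ] at this ⊢
      exact mul_mem_good Φ V k (ih (by omega)) (hg j hj) this
  have h4 : ∀ b ≤ s.card, ((s.val.map g).map (· ^ b)).sum ∈ good Φ V k := by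
    intro b hb
    rw [Multiset.map_map]
    exact Submodule.sum_mem _ fun j hj => h3 j hj b hb
  have hneg : ∀ (r : ℕ) (f : MvPolynomial τ K), f ∈ good Φ V k → (-1) ^ r * f ∈ good Φ V k := by
    intro r f hf
    rcases neg_one_pow_eq_or (MvPolynomial τ K) r with h | h
    · rwa [h, one_mul]
    · rw [h, neg_one_mul]
      exact Submodule.neg_mem _ hf
  have h5 : ∀ r ≤ s.card, (s.val.map g).esymm r ∈ good Φ V k := by
    intro r
    induction r using Nat.strong_induction_on with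
    | _ r ih =>
      intro hr
      by_cases h0 : r = 0
      · rw [h0, esymm_map_val, powersetCard_zero, sum_singleton, prod_empty]
        exact one_mem_good Φ V k hk
      have h6 : (r : K) • (s.val.map g).esymm r ∈ good Φ V k := by
        rw [Nat.cast_smul_eq_nsmul, nsmul_eq_mul, newton]
        refine hneg _ _ (Submodule.sum_mem _ fun a ha => hneg _ _ ?_)
        obtain ⟨ha1, ha2⟩ := mem_filter.1 ha
        have ha3 := mem_antidiagonal.1 ha1
        exact mul_mem_good Φ V k (ih _ ha2 (by omega)) (h4 _ (by omega))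
          (h2 _ (by omega) _ (by omega))
      exact (Submodule.smul_mem_iff _ (Nat.cast_ne_zero.2 h0)).1 h6
  have h6 := h5 _ le_rfl
  rwa [esymm_map_val, powersetCard_self, sum_singleton] at h6

theorem map_esymm' {R S : Type*} [CommRing R] [CommRing S] (ρ : R →+* S) (μ : Multiset R)
    (a : ℕ) : ρ (μ.esymm a) = (μ.map ρ).esymm a := by
  simp only [Multiset.esymm, map_multiset_sum, Multiset.powersetCard_map, Multiset.map_map,
    Function.comp_def, map_multiset_prod]

theorem exists_space [CharZero K] [FiniteDimensional K V] (hk : 2 ≤ k)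
    (hX : ∀ p E, coeff E (Φ (X p)) ≠ 0 → E.degree ≤ 1)
    {m : ℕ} (g : Fin (m + 1) → MvPolynomial τ K) (M : Finset (Fin (m + 1)))
    (ch : Fin (m + 1) → Finset (Fin (m + 1)))
    (hg : ∀ i, g i ∈ Submodule.span K ({1} ∪ Set.range X ∪ g '' Set.Iio i) ∨
      (∃ j j', j < i ∧ j' < i ∧ g i = g j * g j' ∧ g i ∈ V) ∨
      (i ∈ M ∧ (∀ j ∈ ch i, j < i) ∧ g i = ∏ j ∈ ch i, g j))
    {G : Type*} (ρ : G → MvPolynomial τ K →ₐ[K] MvPolynomial τ K)
    (hV : ∀ a, ∀ f ∈ V, ρ a f ∈ V)
    (hρ : ∀ a, ∀ i ∈ M, ∃ i' ∈ M, (ch i').val.map g = (ch i).val.map fun j => ρ a (g j)) :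
    ∃ U : Submodule K (MvPolynomial τ K), FiniteDimensional K U ∧
      Module.finrank K U ≤ Module.finrank K V + 2 * M.card * (m + 1) ^ 2 ∧
      (∀ a, ∀ f ∈ U, ρ a f ∈ U) ∧ ∀ i, g i ∈ good Φ U k := by
  classical
  let y : (M × Fin (m + 1) × Fin (m + 1)) ⊕ (M × Fin (m + 1) × Fin (m + 1)) →
      MvPolynomial τ K :=
    Sum.elim (fun x => if x.2.1 ∈ ch x.1 then g x.2.1 ^ x.2.2.val else 0)
      fun x => ((ch x.1).val.map g).esymm x.2.1.val *
        (((ch x.1).val.map g).map (· ^ x.2.2.val)).sum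
  have y1 : ∀ i ∈ M, ∀ j ∈ ch i, ∀ r : Fin (m + 1),
      g j ^ r.val ∈ V ⊔ Submodule.span K (Set.range y) := fun i hi j hj r =>
    Submodule.mem_sup_right (Submodule.subset_span ⟨Sum.inl (⟨i, hi⟩, j, r), if_pos hj⟩)
  have y2 : ∀ i ∈ M, ∀ a b : Fin (m + 1), ((ch i).val.map g).esymm a.val *
      (((ch i).val.map g).map (· ^ b.val)).sum ∈ V ⊔ Submodule.span K (Set.range y) :=
    fun i hi a b =>
      Submodule.mem_sup_right (Submodule.subset_span ⟨Sum.inr (⟨i, hi⟩, a, b), rfl⟩)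
  haveI := FiniteDimensional.span_of_finite K (Set.finite_range y)
  refine ⟨V ⊔ Submodule.span K (Set.range y), inferInstance,
    (Submodule.finrank_add_le_finrank_add_finrank _ _).trans
      (Nat.add_le_add_left ((finrank_range_le_card y).trans (le_of_eq ?_)) _),
    fun a f hf => ?_, fun i => ?_⟩
  · simp only [Fintype.card_sum, Fintype.card_prod, Fintype.card_fin, Fintype.card_coe]
    ring
  · refine (sup_le (fun f hf => Submodule.mem_sup_left (hV a f hf)) (Submodule.span_le.2 ?_) :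
      V ⊔ Submodule.span K (Set.range y) ≤
        (V ⊔ Submodule.span K (Set.range y)).comap (ρ a).toLinearMap) hf
    rintro _ ⟨x | x, rfl⟩
    · show ρ a (if x.2.1 ∈ ch x.1 then g x.2.1 ^ x.2.2.val else 0) ∈
        V ⊔ Submodule.span K (Set.range y)
      split_ifs with hx
      · obtain ⟨i', hi', h1⟩ := hρ a _ x.1.2
        have h2 : ρ a (g x.2.1) ∈ (ch i').val.map g := h1 ▸ Multiset.mem_map.2 ⟨_, hx, rfl⟩
        obtain ⟨j, hj, h3⟩ := Multiset.mem_map.1 h2
        rw [map_pow, ← h3]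
        exact y1 i' hi' j hj _
      · rw [map_zero]
        exact Submodule.zero_mem _
    · show ρ a (((ch x.1).val.map g).esymm x.2.1.val *
        (((ch x.1).val.map g).map (· ^ x.2.2.val)).sum) ∈ V ⊔ Submodule.span K (Set.range y)
      obtain ⟨i', hi', h1⟩ := hρ a _ x.1.2
      have h2 := y2 i' hi' x.2.1 x.2.2
      have h3 := map_esymm' (ρ a : MvPolynomial τ K →+* MvPolynomial τ K)
        ((ch x.1).val.map g) x.2.1.val
      rw [RingHom.coe_coe, Multiset.map_map] at h3
      rw [h1] at h2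
      rw [map_mul, h3, map_multiset_sum]
      simpa only [Multiset.map_map, Function.comp_def, map_pow] using h2
  · induction i using WellFoundedLT.induction with
    | ind i ih =>
      rcases hg i with h | ⟨j, j', hj, hj', h1, h2⟩ | ⟨hi, h1, h2⟩
      · refine span_le_good Φ _ k hk hX _ ?_ h
        rintro _ ⟨j, hj, rfl⟩
        exact ih j hj
      · rw [h1] at h2 ⊢
        exact mul_mem_good Φ _ k (ih j hj) (ih j' hj') (Submodule.mem_sup_left h2)
      · have h3 : (ch i).card < m + 1 := by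
          have := card_le_card (show ch i ⊆ Iio i from fun j hj => mem_Iio.2 (h1 j hj))
          rw [Fin.card_Iio] at this
          exact this.trans_lt i.2
        rw [h2]
        exact prod_mem_good Φ _ k (by omega) _ g (fun j hj => ih j (h1 j hj))
          (fun j hj r hr => y1 i hi j hj ⟨r, hr.trans_lt h3⟩)
          fun a ha b hb => y2 i hi ⟨a, ha.trans_lt h3⟩ ⟨b, hb.trans_lt h3⟩

end Pool.Agent.Lib.MP_8b1d3b_lc.Sym
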