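import Mathlib
import Pool.Agent.Lib.MP_8b1d3b_lc.SymCirc

/-! The descent through the adjugate, and the three bounds. -/

set_option autoImplicit false
set_option linter.unusedSectionVars false

namespace Pool.Agent.Lib.MP_8b1d3b_lc.Sym

open Finset MvPolynomial

theorem derivation_prod {S R : Type*} [CommRing S] [CommRing R] [Algebra S R]
    (D : Derivation S R R) {ι : Type*} [DecidableEq ι] (s : Finset ι) (g : ι → R) :
    D (∏ i ∈ s, g i) = ∑ j ∈ s, ∏ i ∈ s, Function.update g j (D (g j)) i := by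
  induction s using Finset.induction_on with
  | empty => simp
  | insert a s ha ih =>
    rw [Finset.prod_insert ha, Finset.sum_insert ha, Derivation.leibniz, ih, Finset.prod_insert ha,
      Function.update_self, smul_eq_mul, smul_eq_mul, Finset.mul_sum, add_comm]
    congr 1
    · rw [mul_comm]
      congr 1
      refine Finset.prod_congr rfl fun i hi => ?_
      rw [Function.update_of_ne (by rintro rfl; exact ha hi)]
    · refine Finset.sum_congr rfl fun j hj => ?_
      rw [Finset.prod_insert ha, Function.update_of_ne (by rintro rfl; exact ha hj)]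

variable {n : Type*} [Fintype n] [DecidableEq n]

theorem jacobi {S R : Type*} [CommRing S] [CommRing R] [Algebra S R] (D : Derivation S R R)
    (A : Matrix n n R) : D A.det = ∑ j, ∑ i, A.adjugate j i * D (A i j) := by
  have h1 : D A.det = ∑ j, (A.updateCol j (fun i => D (A i j))).det := by
    simp only [Matrix.det_apply, map_sum]
    rw [Finset.sum_comm]
    refine Finset.sum_congr rfl fun s _ => ?_
    rw [Units.smul_def, map_zsmul, derivation_prod, Finset.smul_sum]
    refine Finset.sum_congr rfl fun j _ => ?_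
    rw [Units.smul_def]
    congr 1
    refine Finset.prod_congr rfl fun i _ => ?_
    by_cases h : i = j
    · subst h
      simp
    · rw [Function.update_of_ne h, Matrix.updateCol_ne h]
  rw [h1]
  refine Finset.sum_congr rfl fun j _ => ?_
  rw [← Matrix.cramer_apply, Matrix.cramer_eq_adjugate_mulVec]
  rfl

variable {F β : Type*} [Field F] [CharZero F] (A : Matrix n n (MvPolynomial β F))
  (hA : ∀ i j E, coeff E (A i j) ≠ 0 → E.degree ≤ 1)
include hA

theorem step1 (E : β →₀ ℕ) (h : coeff E A.det ≠ 0) (hE : E ≠ 0) :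
    ∃ E' ≤ E, E'.degree + 1 = E.degree ∧ ∃ i j, coeff E' (A.adjugate i j) ≠ 0 := by
  classical
  obtain ⟨z, hz⟩ := Finsupp.support_nonempty_iff.2 hE
  have h1 : E - Finsupp.single z 1 + Finsupp.single z 1 = E :=
    tsub_add_cancel_of_le (Finsupp.single_le_iff.2
      (Nat.one_le_iff_ne_zero.2 (Finsupp.mem_support_iff.1 hz)))
  have h2 : coeff (E - Finsupp.single z 1) (pderiv z A.det) ≠ 0 := by
    rw [coeff_pderiv, h1]
    exact mul_ne_zero h (Nat.cast_add_one_ne_zero _)
  rw [jacobi, coeff_sum] at h2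
  obtain ⟨j, -, h2⟩ := exists_ne_zero_of_sum_ne_zero h2
  rw [coeff_sum] at h2
  obtain ⟨i, -, h2⟩ := exists_ne_zero_of_sum_ne_zero h2
  rw [coeff_mul] at h2
  obtain ⟨x, hx, h2⟩ := exists_ne_zero_of_sum_ne_zero h2
  have h3 := mem_antidiagonal.1 hx
  have h4 := right_ne_zero_of_mul h2
  rw [coeff_pderiv] at h4
  have h5 := hA i j _ (left_ne_zero_of_mul h4)
  have h6 := congrArg Finsupp.degree h1
  rw [← h3] at h1 h6
  simp only [map_add, Finsupp.degree_single] at h5 h6
  refine ⟨x.1, ?_, by omega, j, i, left_ne_zero_of_mul h2⟩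
  rw [← h1, add_assoc]
  exact le_self_add

theorem step2 (h0 : coeff 0 A.det ≠ 0) (E : β →₀ ℕ) (i j : n) (h : coeff E (A.adjugate i j) ≠ 0)
    (hE : E ≠ 0) :
    ∃ E' ≤ E, E'.degree + 1 = E.degree ∧ ∃ i j, coeff E' (A.adjugate i j) ≠ 0 := by
  classical
  by_contra h1
  have h2 : coeff E A.det = 0 := by
    by_contra h2
    exact h1 (step1 A hA E h2 hE)
  have h3 : A.map constantCoeff * A.adjugate.map (coeff E) = 0 := by
    ext p q
    have h4 := congrArg (coeff E) (congrFun (congrFun (Matrix.mul_adjugate A) p) q)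
    rw [Matrix.mul_apply, coeff_sum, Matrix.smul_apply, smul_eq_mul, Matrix.one_apply, mul_ite,
      mul_one, mul_zero, apply_ite (coeff E), h2, coeff_zero, ite_self] at h4
    rw [Matrix.mul_apply, Matrix.zero_apply, ← h4]
    refine sum_congr rfl fun r _ => ?_
    rw [coeff_mul, sum_eq_single (0, E)]
    · rfl
    · intro x hx hx0
      have h5 := mem_antidiagonal.1 hx
      by_contra h6
      have h7 := hA p r _ (left_ne_zero_of_mul h6)
      have h8 : x.1.degree ≠ 0 := by
        intro h8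
        rw [Finsupp.degree_eq_zero_iff] at h8
        rw [h8, zero_add] at h5
        exact hx0 (Prod.ext h8 h5)
      refine h1 ⟨x.2, h5 ▸ le_add_self, ?_, r, q, right_ne_zero_of_mul h6⟩
      rw [← h5, map_add]
      omega
    · intro hx
      exact absurd (mem_antidiagonal.2 (zero_add E)) hx
  have h4 : (A.map constantCoeff).det ≠ 0 := by
    rw [← RingHom.mapMatrix_apply, ← RingHom.map_det]
    exact h0
  have h5 := congrArg (fun Y => (A.map constantCoeff).adjugate * Y) h3
  simp only [← Matrix.mul_assoc, Matrix.adjugate_mul, Matrix.mul_zero, Matrix.smul_mul,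
    Matrix.one_mul] at h5
  exact h (congrFun (congrFun ((smul_eq_zero.1 h5).resolve_left h4) i) j)

theorem descent (h0 : coeff 0 A.det ≠ 0) (k : ℕ) (E : β →₀ ℕ) (h : coeff E A.det ≠ 0)
    (hE : k < E.degree) :
    ∃ E' ≤ E, E'.degree = k ∧ ∃ i j, coeff E' (A.adjugate i j) ≠ 0 := by
  have h1 : ∀ d, ∀ E : β →₀ ℕ, E.degree = k + d → (∃ i j, coeff E (A.adjugate i j) ≠ 0) →
      ∃ E' ≤ E, E'.degree = k ∧ ∃ i j, coeff E' (A.adjugate i j) ≠ 0 := by
    intro d
    induction d with
    | zero => exact fun E h1 h2 => ⟨E, le_rfl, h1, h2⟩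
    | succ d ih =>
      rintro E h1 ⟨i, j, h2⟩
      obtain ⟨E1, h3, h4, h5⟩ := step2 A hA h0 E i j h2 (by
        rintro rfl
        rw [map_zero] at h1
        omega)
      obtain ⟨E', h6, h7⟩ := ih E1 (by omega) h5
      exact ⟨E', h6.trans h3, h7⟩
  obtain ⟨E1, h3, h4, h5⟩ := step1 A hA E h (by
    rintro rfl
    rw [map_zero] at hE
    omega)
  obtain ⟨E', h6, h7⟩ := h1 (E1.degree - k) E1 (by omega) h5
  exact ⟨E', h6.trans h3, h7⟩

omit hA

theorem degree_le_one {K τ : Type*} [Field K] [Algebra K F]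
    (Φ : MvPolynomial τ K →ₐ[K] MvPolynomial β F)
    (hX : ∀ p E, coeff E (Φ (X p)) ≠ 0 → E.degree ≤ 1) (f : MvPolynomial τ K)
    (hf : f.totalDegree ≤ 1) (E : β →₀ ℕ) (h : coeff E (Φ f) ≠ 0) : E.degree ≤ 1 := by
  classical
  rw [f.as_sum, map_sum, coeff_sum] at h
  obtain ⟨d, hd, h⟩ := exists_ne_zero_of_sum_ne_zero h
  have h1 : d.degree ≤ 1 := (le_totalDegree hd).trans hf
  rw [← mul_one (coeff d f), ← smul_eq_mul, ← smul_monomial, map_smul, coeff_smul] at h
  have h2 := right_ne_zero_of_smul h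
  rcases Nat.le_one_iff_eq_zero_or_eq_one.1 h1 with h3 | h3
  · rw [(Finsupp.degree_eq_zero_iff d).1 h3, monomial_zero', C_1, map_one, coeff_one] at h2
    split_ifs at h2 with h4
    · rw [← h4, map_zero]
      exact Nat.zero_le _
    · exact absurd rfl h2
  · obtain ⟨p, rfl⟩ : d ∈ Set.range (fun a : τ => Finsupp.single a 1) :=
      Finsupp.range_single_one ▸ h3
    exact hX p E h2

theorem adj_mem {K τ : Type*} [Field K] (V : Submodule K (MvPolynomial τ K))
    (Y : Matrix n n (MvPolynomial τ K)) (hY : ∀ i j, Y.adjugate i j ∈ V) (P Q : Matrix n n K)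
    (i j : n) : (P.map C * Y * Q.map C).adjugate i j ∈ V := by
  rw [Matrix.adjugate_mul_distrib, Matrix.adjugate_mul_distrib, ← RingHom.mapMatrix_apply,
    ← RingHom.mapMatrix_apply, ← RingHom.map_adjugate, ← RingHom.map_adjugate, Matrix.mul_apply]
  refine Submodule.sum_mem _ fun r _ => ?_
  rw [RingHom.mapMatrix_apply, Matrix.map_apply, C_mul', Matrix.mul_apply]
  refine Submodule.smul_mem _ _ (Submodule.sum_mem _ fun s _ => ?_)
  rw [RingHom.mapMatrix_apply, Matrix.map_apply, mul_comm, C_mul']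
  exact Submodule.smul_mem _ _ (hY _ _)

section main

variable (K : Type*) [Field K] [CharZero K] (n t l k : ℕ) (hl : 3 ≤ l)
  (ht : 8 * l * k ≤ t) (e : Fin t × ZMod l ↪ Fin n) (c : Fin t → Equiv.Perm (Fin n))
  (hc : ∀ a b i, c a (e (b, i)) = e (b, if a = b then i + 1 else i))
include hl ht hc

theorem main1 (hk : 2 ≤ k) (m : ℕ) (g : Fin (m + 1) → MvPolynomial (Fin n × Fin n) K)
    (V : Submodule K (MvPolynomial (Fin n × Fin n) K)) [FiniteDimensional K V]
    (M : Finset (Fin (m + 1))) (ch : Fin (m + 1) → Finset (Fin (m + 1)))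
    (hg : ∀ i, g i ∈ Submodule.span K ({1} ∪ Set.range X ∪ g '' Set.Iio i) ∨
      (∃ j j', j < i ∧ j' < i ∧ g i = g j * g j' ∧ g i ∈ V) ∨
      (i ∈ M ∧ (∀ j ∈ ch i, j < i) ∧ g i = ∏ j ∈ ch i, g j))
    (hp : g (Fin.last m) = Matrix.permanent (Matrix.of fun i j : Fin n => X (i, j)))
    (hV : ∀ a, ∀ f ∈ V, rename (Prod.map (c a) (c a)) f ∈ V)
    (hρ : ∀ a, ∀ i ∈ M, ∃ i' ∈ M,
      (ch i').val.map g = (ch i).val.map fun j => rename (Prod.map (c a) (c a)) (g j)) :
    (8 / 5 : ℝ) ^ k ≤ k * (Module.finrank K V + 2 * M.card * (m + 1) ^ 2) := by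
  obtain ⟨Φ, hX, -, h⟩ := core K n t l k hl (by omega) ht e c hc
  obtain ⟨U, hU, h1, h2, h3⟩ := exists_space Φ V k hk hX g M ch hg
    (fun a => rename (Prod.map (c a) (c a))) hV hρ
  have := h U h2 (Ico k (2 * k)) (fun d hd => ⟨(mem_Ico.1 hd).1, (mem_Ico.1 hd).2.le⟩)
    fun E h4 h5 => h3 (Fin.last m) E (hp ▸ h4) h5.le
  rw [Nat.card_Ico, show 2 * k - k = k by omega] at this
  refine this.trans ?_
  have h4 : (Module.finrank K U : ℝ) ≤ Module.finrank K V + 2 * M.card * (m + 1) ^ 2 := by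
    exact_mod_cast h1
  gcongr

theorem main3 (hk : 1 ≤ k) (m : ℕ) (A : Matrix (Fin m) (Fin m) (MvPolynomial (Fin n × Fin n) K))
    (hA : ∀ i j, (A i j).totalDegree ≤ 1)
    (hp : A.det = Matrix.permanent (Matrix.of fun i j : Fin n => X (i, j)))
    (hρ : ∀ a, ∃ P Q : Matrix (Fin m) (Fin m) K,
      A.map (rename (Prod.map (c a) (c a))) = P.map C * A * Q.map C ∨
      A.map (rename (Prod.map (c a) (c a))) = P.map C * A.transpose * Q.map C) :
    (8 / 5 : ℝ) ^ k ≤ (m : ℝ) ^ 2 := by
  obtain ⟨Φ, hX, h0, h⟩ := core K n t l k hl hk ht e c hc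
  let y : Fin m × Fin m → MvPolynomial (Fin n × Fin n) K := fun p => A.adjugate p.1 p.2
  have hy : ∀ i j, A.adjugate i j ∈ Submodule.span K (Set.range y) := fun i j =>
    Submodule.subset_span ⟨(i, j), rfl⟩
  haveI := FiniteDimensional.span_of_finite K (Set.finite_range y)
  have hd : (Φ.mapMatrix A).det =
      Φ (Matrix.permanent (Matrix.of fun i j : Fin n => X (i, j))) := by
    rw [← AlgHom.map_det, hp]
  have := h (Submodule.span K (Set.range y)) (fun a f hf => ?_) {k} (by simp; omega)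
    fun E h1 h2 => ?_
  · rw [card_singleton, Nat.cast_one, one_mul] at this
    refine this.trans ?_
    have h1 := finrank_range_le_card (R := K) y
    rw [Fintype.card_prod, Fintype.card_fin, ← sq] at h1
    exact_mod_cast h1
  · refine Submodule.span_le (p := (Submodule.span K (Set.range y)).comap
      (rename (Prod.map (c a) (c a))).toLinearMap).2 ?_ hf
    rintro _ ⟨p, rfl⟩
    have h1 := congrFun (congrFun
      (AlgHom.map_adjugate (rename (R := K) (Prod.map (c a) (c a))) A) p.1) p.2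
    show rename (Prod.map (c a) (c a)) (A.adjugate p.1 p.2) ∈ Submodule.span K (Set.range y)
    rw [AlgHom.mapMatrix_apply, AlgHom.mapMatrix_apply, Matrix.map_apply] at h1
    rw [h1]
    obtain ⟨P, Q, h2 | h2⟩ := hρ a
    · rw [h2]
      exact adj_mem _ A hy P Q _ _
    · rw [h2]
      refine adj_mem _ A.transpose (fun i j => ?_) P Q _ _
      rw [← Matrix.adjugate_transpose]
      exact hy j i
  · obtain ⟨E', h3, h4, i, j, h5⟩ := descent (Φ.mapMatrix A)
      (fun i j => degree_le_one Φ hX _ (hA i j)) (hd ▸ h0) k E (hd ▸ h1) h2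
    rw [← AlgHom.map_adjugate] at h5
    exact ⟨E', h3, mem_singleton.2 h4, _, hy i j, h5⟩

end main

end Pool.Agent.Lib.MP_8b1d3b_lc.Sym
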