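import Mathlib
import Pool.Agent.Lib.MP_8b1d3b_lc.SymDet

set_option autoImplicit false

namespace Pool.Agent.Lib.MP_8b1d3b_lc.EquivariantDCKept

theorem result (K : Type*) [Field K] [CharZero K] (n t l k : ℕ) (hl : 3 ≤ l) (hk : 1 ≤ k)
    (ht : 8 * l * k ≤ t) (e : Fin t × ZMod l ↪ Fin n) (c : Fin t → Equiv.Perm (Fin n))
    (hc : ∀ a b i, c a (e (b, i)) = e (b, if a = b then i + 1 else i))
    (m : ℕ) (A : Matrix (Fin m) (Fin m) (MvPolynomial (Fin n × Fin n) K))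
    (hA : ∀ i j, (A i j).totalDegree ≤ 1)
    (hp : A.det = Matrix.permanent (Matrix.of fun i j : Fin n => MvPolynomial.X (i, j)))
    (hs : ∀ a, ∃ P Q : Matrix (Fin m) (Fin m) K,
      A.map (MvPolynomial.rename (Prod.map (c a) (c a))) =
          P.map MvPolynomial.C * A * Q.map MvPolynomial.C ∨
        A.map (MvPolynomial.rename (Prod.map (c a) (c a))) =
          P.map MvPolynomial.C * A.transpose * Q.map MvPolynomial.C) :
    (8 / 5 : ℝ) ^ k ≤ (m : ℝ) ^ 2 :=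
  Pool.Agent.Lib.MP_8b1d3b_lc.Sym.main3 K n t l k hl ht e c hc hk m A hA hp hs

end Pool.Agent.Lib.MP_8b1d3b_lc.EquivariantDCKept
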