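import Mathlib
import Pool.Agent.Lib.MP_8b1d3b_lc.H13Perm

set_option autoImplicit false

namespace Pool.Agent.Lib.MP_8b1d3b_lc.H13

open Finset

section

variable {S : Type*} [CommRing S] {α γ : Type*}

/-- The rows carrying the variables, each with its own relay column. -/
def xrows [DecidableEq α] (u : α → γ → S) : α → γ ⊕ α → S :=
  fun i => Sum.elim (u i) fun j => if i = j then 1 else 0

/-- The constant rows filling relay columns and variable columns. -/
def zrows (υ ω : Type*) (a : α → S) (w : γ → S) : υ ⊕ ω → γ ⊕ α → S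
  | Sum.inl _, Sum.inl _ => 0
  | Sum.inl _, Sum.inr j => a j
  | Sum.inr _, Sum.inl c => w c
  | Sum.inr _, Sum.inr _ => 0

variable [Fintype α] [Fintype γ] [DecidableEq α] [DecidableEq γ]
variable (υ ω : Type*) [Fintype υ] [Fintype ω] [DecidableEq υ] [DecidableEq ω]

/-- A multiple of the polynomial of matchings of size `card υ`. -/
def core (u : α → γ → S) : S :=
  perm (Sum.elim (xrows u) (zrows υ ω (fun _ => 1) fun _ => 1))

theorem core_scale (u : α → γ → S) (l l' : α → S) (hl : ∀ i, l i * l' i = 1) (μ : γ → S)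
    (hμ : ∏ c, μ c = 1) :
    perm (Sum.elim (xrows fun i c => l i * u i c * μ c) (zrows υ ω l' μ)) = core υ ω u := by
  have h := perm_scale (Sum.elim (xrows u) (zrows υ ω (fun _ => 1) fun _ => 1))
    (Sum.elim l fun _ => 1) (Sum.elim μ l')
  have h2 : (∏ r : α ⊕ υ ⊕ ω, Sum.elim l (fun _ => (1 : S)) r) *
      (∏ c : γ ⊕ α, Sum.elim μ l' c) = 1 := by
    simp only [Fintype.prod_sum_type, Sum.elim_inl, Sum.elim_inr, prod_const_one, mul_one, hμ,
      one_mul]
    rw [← prod_mul_distrib]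
    simp [hl]
  rw [h2, one_mul] at h
  rw [core, ← h]
  congr 1
  funext r c
  rcases r with r | r | r <;> rcases c with c | c <;> simp [xrows, zrows]
  split_ifs with h
  · subst h; simp [hl]
  · rfl

theorem map_core {S' F : Type*} [CommRing S'] [FunLike F S S'] [RingHomClass F S S'] (φ : F)
    (u : α → γ → S) : φ (core υ ω u) = core υ ω fun i c => φ (u i c) := by
  rw [core, map_perm, core]
  congr 1
  funext r c
  rcases r with r | r | r <;> rcases c with c | c <;> simp [xrows, zrows]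

theorem core_isHomogeneous {σ P : Type*} [CommRing P] (u : α → γ → MvPolynomial σ P)
    (hu : ∀ i c, (u i c).IsHomogeneous 1) :
    (core υ ω u).IsHomogeneous (Fintype.card υ) := by
  refine perm_isHomogeneous _ (Sum.elim (fun _ => 1) (Sum.elim (fun _ => 1) fun _ => 0))
    (Sum.elim (fun _ => 0) fun _ => 1) (by simp [add_comm]) ?_
  rintro (r | r | r) (c | c)
  · exact Or.inr ⟨1, rfl, hu _ _⟩
  · by_cases h : r = c
    · exact Or.inr ⟨0, rfl, by simpa [xrows, h] using MvPolynomial.isHomogeneous_one _ _⟩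
    · exact Or.inl (by simp [xrows, h])
  · exact Or.inl rfl
  · exact Or.inr ⟨0, rfl, MvPolynomial.isHomogeneous_one _ _⟩
  · exact Or.inr ⟨0, rfl, MvPolynomial.isHomogeneous_one _ _⟩
  · exact Or.inl rfl

omit [DecidableEq υ] [DecidableEq ω] in
theorem diag_identity {A : Type*} [CommRing A] [Algebra S A]
    (hγ : Fintype.card γ = Fintype.card υ + Fintype.card ω) (φ : α ↪ γ)
    (y : α → S) {x : γ ⊕ α → A} (hx : ∀ r, x r * x r = 0) :
    ∏ r, ∑ c, (Sum.elim (xrows fun i c => if c = φ i then y i else 0)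
      (zrows υ ω (fun _ => 1) fun _ => 1)) r c • x c =
      ((((Fintype.card υ).factorial * (Fintype.card ω).factorial : ℕ) : S) *
        ∑ J ∈ powersetCard (Fintype.card υ) univ, ∏ i ∈ J, y i) • ∏ c, x c := by
  set d := Fintype.card υ with hd
  set w := Fintype.card ω with hw
  have e1 : ∀ J : Finset α, (∏ i ∈ J, y i • x (Sum.inl (φ i))) * (∏ i ∈ univ \ J, x (Sum.inr i)) *
      ((∑ j, x (Sum.inr j)) ^ d * (∑ c, x (Sum.inl c)) ^ w) =
      (if J.card = d then ((d.factorial * w.factorial : ℕ) : S) * ∏ i ∈ J, y i else 0) •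
        ((∏ c, x (Sum.inl c)) * ∏ j, x (Sum.inr j)) := by
    intro J
    have h0 : (∏ i ∈ J, y i • x (Sum.inl (φ i))) * (∏ i ∈ univ \ J, x (Sum.inr i)) *
      ((∑ j, x (Sum.inr j)) ^ d * (∑ c, x (Sum.inl c)) ^ w) =
        (∏ i ∈ J, y i) • (((∏ c ∈ J.map φ, x (Sum.inl c)) * (∑ c, x (Sum.inl c)) ^ w) *
          ((∏ i ∈ univ \ J, x (Sum.inr i)) * (∑ j, x (Sum.inr j)) ^ d)) := by
      rw [prod_smul, prod_map, smul_mul_assoc, smul_mul_assoc]
      congr 1
      ring
    have hc : (univ \ J).card + J.card = Fintype.card α := by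
      rw [card_sdiff_add_card_eq_card (subset_univ _), card_univ]
    rw [h0]
    rcases lt_trichotomy J.card d with h | h | h
    · rw [if_neg h.ne, prod_mul_sum_pow_eq_zero (x := fun i => x (Sum.inr i)) (fun _ => hx _)
        (subset_univ _) (by rw [card_univ]; omega)]
      simp
    · rw [if_pos h, prod_mul_sum_pow_eq (x := fun i => x (Sum.inr i)) (fun _ => hx _)
        (subset_univ _) (by rw [card_univ]; omega),
        prod_mul_sum_pow_eq (x := fun i => x (Sum.inl i)) (fun _ => hx _)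
        (subset_univ _) (by rw [card_univ, card_map]; omega), Algebra.smul_def, Algebra.smul_def,
        map_mul, map_natCast, Nat.cast_mul]
      ring
    · rw [if_neg h.ne', prod_mul_sum_pow_eq_zero (x := fun i => x (Sum.inl i)) (fun _ => hx _)
        (subset_univ _) (by rw [card_univ, card_map]; omega)]
      simp
  simp only [Fintype.prod_sum_type, Fintype.sum_sum_type, Sum.elim_inl, Sum.elim_inr, xrows,
    zrows, zero_smul, one_smul, ite_smul, sum_const_zero, zero_add, add_zero, sum_ite_eq,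
    sum_ite_eq', mem_univ, if_true, prod_const, card_univ]
  rw [prod_add, sum_mul, sum_congr rfl fun J _ => e1 J, ← sum_smul, ← sum_filter, mul_sum]
  congr 2
  ext J
  simp

theorem core_diag (hγ : Fintype.card γ = Fintype.card υ + Fintype.card ω) (φ : α ↪ γ)
    (y : α → S) :
    core υ ω (fun i c => if c = φ i then y i else 0) =
      (((Fintype.card υ).factorial * (Fintype.card ω).factorial : ℕ) : S) *
        ∑ J ∈ powersetCard (Fintype.card υ) univ, ∏ i ∈ J, y i := by
  rw [core, ← perm_transpose]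
  exact perm_eq_of (by simp [hγ, add_comm]) _ _ fun I x hx => diag_identity υ ω hγ φ y hx

end

section

variable {L S : Type*} [Field L] [CommRing S] [Algebra L S] {U : Submodule L S}
variable {ι κ β π : Type*}

theorem starLow_mem [DecidableEq β] (h1 : (1 : S) ∈ U) {p : ℕ} {g : Fin p → S}
    (hg : ∀ s, g s ∈ U) {N : β → π → κ → S} (hN : ∀ b i c, N b i c ∈ U)
    (r : Option β × π) (c : κ ⊕ (β × Fin p)) : starLow g N r c ∈ U := by
  rcases r with ⟨_ | b, i⟩ <;> rcases c with c | c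
  · exact U.zero_mem
  · exact U.neg_mem (hg _)
  · exact hN _ _ _
  · simp only [starLow]; split_ifs; exacts [h1, U.zero_mem]

theorem ext0_mem {ν : Type*} {M : ι → κ → S} (hM : ∀ r c, M r c ∈ U) (r : ι) (c : κ ⊕ ν) :
    ext0 ν M r c ∈ U := by
  rcases c with c | c
  · exact hM _ _
  · exact U.zero_mem

theorem star_mem [DecidableEq β] (h1 : (1 : S) ∈ U) {p : ℕ} {g : Fin p → S}
    (hg : ∀ s, g s ∈ U) {M : ι → κ → S} (hM : ∀ r c, M r c ∈ U)
    {N : β → π → κ → S} (hN : ∀ b i c, N b i c ∈ U)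
    (r : ι ⊕ (Option β × π)) (c : κ ⊕ (β × Fin p)) : star g M N r c ∈ U := by
  rcases r with r | r
  · exact ext0_mem hM _ _
  · exact starLow_mem h1 hg hN _ _

theorem pad_mem {ν : Type*} [DecidableEq ν] (h1 : (1 : S) ∈ U) {M : ι → κ → S}
    (hM : ∀ r c, M r c ∈ U) (r : ι ⊕ ν) (c : κ ⊕ ν) : pad ν M r c ∈ U := by
  rcases r with r | r <;> rcases c with c | c
  · exact hM _ _
  · exact U.zero_mem
  · exact U.zero_mem
  · simp only [pad]; split_ifs; exacts [h1, U.zero_mem]

theorem xrows_mem {α γ : Type*} [DecidableEq α] (h1 : (1 : S) ∈ U) {u : α → γ → S}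
    (hu : ∀ i c, u i c ∈ U) (r : α) (c : γ ⊕ α) : xrows u r c ∈ U := by
  rcases c with c | c
  · exact hu _ _
  · simp only [xrows, Sum.elim_inr]; split_ifs; exacts [h1, U.zero_mem]

theorem zrows_mem {α γ υ ω : Type*} {a : α → S} {w : γ → S} (ha : ∀ i, a i ∈ U)
    (hw : ∀ c, w c ∈ U) (r : υ ⊕ ω) (c : γ ⊕ α) : zrows υ ω a w r c ∈ U := by
  rcases r with r | r <;> rcases c with c | c
  · exact U.zero_mem
  · exact ha _
  · exact hw _
  · exact U.zero_mem

theorem permanent_pad {ν n : Type*} [Fintype ι] [Fintype κ] [DecidableEq ι] [DecidableEq κ]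
    [Fintype ν] [DecidableEq ν] [Fintype n] [DecidableEq n] (eR : n ≃ ι ⊕ ν) (eC : n ≃ κ ⊕ ν)
    (h : Fintype.card κ = Fintype.card ι) (M : ι → κ → S) :
    (Matrix.of fun i j => pad ν M (eR i) (eC j)).permanent = perm M := by
  rw [← perm_eq_permanent]
  exact (perm_reindex (pad ν M) eR eC).trans (perm_pad ν h M)

/-- Reordering of the columns. -/
def colEquiv (γ α s₁ s₂ : Type*) : ((α ⊕ s₁) ⊕ s₂) ⊕ γ ≃ ((γ ⊕ α) ⊕ s₁) ⊕ s₂ where
  toFun
    | Sum.inl (Sum.inl (Sum.inl i)) => Sum.inl (Sum.inl (Sum.inr i))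
    | Sum.inl (Sum.inl (Sum.inr i)) => Sum.inl (Sum.inr i)
    | Sum.inl (Sum.inr i) => Sum.inr i
    | Sum.inr i => Sum.inl (Sum.inl (Sum.inl i))
  invFun
    | Sum.inl (Sum.inl (Sum.inr i)) => Sum.inl (Sum.inl (Sum.inl i))
    | Sum.inl (Sum.inr i) => Sum.inl (Sum.inl (Sum.inr i))
    | Sum.inr i => Sum.inl (Sum.inr i)
    | Sum.inl (Sum.inl (Sum.inl i)) => Sum.inr i
  left_inv := by rintro (((i | i) | i) | i) <;> rfl
  right_inv := by rintro (((i | i) | i) | i) <;> rfl

theorem exists_matrix [CharZero L] [IsAlgClosed L] {A B Z α γ υ ω : Type*}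
    [Fintype A] [Fintype B] [Fintype Z] [Fintype α] [Fintype γ] [Fintype υ] [Fintype ω]
    [DecidableEq A] [DecidableEq B] [DecidableEq Z] [DecidableEq α] [DecidableEq γ]
    [DecidableEq υ] [DecidableEq ω] {q N : ℕ} (hq : 0 < q) (hN : 0 < N)
    (hα : Fintype.card α = q) (hγ : Fintype.card γ = N)
    (hυω : Fintype.card υ + Fintype.card ω = N) (h1 : (1 : S) ∈ U)
    (u : A → B → α → γ → S) (hu : ∀ a b i c, u a b i c ∈ U)
    (l : Z → α → S) (hl : ∀ z i, l z i ∈ U) (w : Z → γ → S) (hw : ∀ z c, w z c ∈ U) {n : ℕ}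
    (hn : (Fintype.card Z + 1) * N + (Fintype.card A + 1) * q + Fintype.card B * N ≤ n) :
    ∃ M : Matrix (Fin n) (Fin n) S, (∀ i j, M i j ∈ U) ∧ ∃ c : L, c ≠ 0 ∧
      M.permanent = c • ∑ b, ∑ a, ∑ z,
        perm (Sum.elim (xrows (u a b)) (zrows υ ω (l z) (w z))) := by
  have hNZ : NeZero (N : L) := ⟨Nat.cast_ne_zero.mpr hN.ne'⟩
  have hqZ : NeZero (q : L) := ⟨Nat.cast_ne_zero.mpr hq.ne'⟩
  obtain ⟨ζ, hζ⟩ := HasEnoughRootsOfUnity.exists_primitiveRoot L N
  obtain ⟨ξ, hξ⟩ := HasEnoughRootsOfUnity.exists_primitiveRoot L q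
  let g1 : Fin N → S := fun s => algebraMap L S (ζ ^ (s : ℕ))
  let g2 : Fin q → S := fun s => algebraMap L S (ξ ^ (s : ℕ))
  have hc : ∀ c : L, algebraMap L S c ∈ U := fun c => by
    rw [Algebra.algebraMap_eq_smul_one]; exact U.smul_mem _ h1
  let T1 := starLow g1 fun z => zrows υ ω (l z) (w z)
  let T2 := fun v : A → α → γ → S => star g2 T1 fun a => ext0 (Z × Fin N) (xrows (v a))
  let T3 := star g1 (fun c r => T2 (fun _ _ _ => 0) r (colEquiv _ _ _ _ (Sum.inl c)))
    fun b j r => T2 (fun a => u a b) r (colEquiv _ _ _ _ (Sum.inr j))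
  have hT2 : ∀ v : A → α → γ → S, (∀ a i c, v a i c ∈ U) → ∀ r c, T2 v r c ∈ U := fun v hv =>
    star_mem h1 (fun _ => hc _)
      (starLow_mem h1 (fun _ => hc _) fun z => zrows_mem (hl z) (hw z))
      fun a => ext0_mem (xrows_mem h1 (hv a))
  have hT3 : ∀ r c, T3 r c ∈ U :=
    star_mem h1 (fun _ => hc _) (fun c r => hT2 _ (fun _ _ _ => U.zero_mem) _ _)
      fun b j r => hT2 _ (fun a => hu a b) _ _
  have p2 : ∀ v : A → α → γ → S, perm (T2 v) = -((q.factorial ^ Fintype.card A : ℕ) : S) *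
      ∑ a, -((N.factorial ^ Fintype.card Z : ℕ) : S) *
        ∑ z, perm (Sum.elim (xrows (v a)) (zrows υ ω (l z) (w z))) := by
    intro v
    rw [perm_star hq hξ hα (by simp [hα, hγ, hυω]; ring)]
    congr 1
    refine sum_congr rfl fun a _ => ?_
    rw [perm_swap, ← perm_star hN hζ (by simp [hυω]) (by simp [hγ, add_comm])]
    rfl
  have p3 : perm T3 = -((N.factorial ^ Fintype.card B : ℕ) : S) *
      ∑ b, perm (T2 fun a => u a b) := by
    rw [perm_star hN hζ hγ (by simp [hα, hυω]; ring)]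
    congr 1
    refine sum_congr rfl fun b _ => ?_
    rw [← perm_reindex (T2 fun a => u a b) (Equiv.refl _) (colEquiv _ _ _ _),
      ← perm_transpose fun r c => (T2 fun a => u a b) (Equiv.refl _ r) (colEquiv _ _ _ _ c)]
    congr 1
    funext c r
    rcases c with ((c | c) | c) | c <;> rcases r with ⟨_ | _, _⟩ | ⟨_ | _, _⟩ <;> rfl
  obtain ⟨e, he⟩ := Nat.exists_eq_add_of_le hn
  let eR : Fin n ≃ (((α ⊕ (Z × Fin N)) ⊕ (A × Fin q)) ⊕ (Option B × γ)) ⊕ Fin e :=
    Fintype.equivOfCardEq (by simp [hα, hγ, he]; ring)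
  let eC : Fin n ≃ (((Option Z × (υ ⊕ ω)) ⊕ (Option A × α)) ⊕ (B × Fin N)) ⊕ Fin e :=
    Fintype.equivOfCardEq (by simp [hα, hυω, he])
  refine ⟨Matrix.of fun i j => pad (Fin e) T3 (eR i) (eC j), fun i j => pad_mem h1 hT3 _ _,
    -((N.factorial ^ Fintype.card B * q.factorial ^ Fintype.card A *
      N.factorial ^ Fintype.card Z : ℕ) : L), ?_, ?_⟩
  · rw [neg_ne_zero, Nat.cast_ne_zero]
    positivity
  · rw [permanent_pad eR eC (by simp [hα, hγ, hυω]; ring), p3]
    simp only [p2, ← mul_sum]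
    rw [Algebra.smul_def, map_neg, map_natCast, Nat.cast_mul, Nat.cast_mul]
    ring

end

end Pool.Agent.Lib.MP_8b1d3b_lc.H13
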