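import Mathlib
import Pool.Agent.Lib.MP_8b1d3b_lc.H13Nest

set_option autoImplicit false

namespace Pool.Agent.Lib.MP_8b1d3b_lc.Fm

open Finset H13

section

variable {S : Type*} [CommRing S] {ι κ P : Type*}

/-- A matrix with one more row. -/
def addRow (B : ι → κ → S) (ω : κ → S) : Option ι → κ → S
  | none, k => ω k
  | some i, k => B i k

/-- One step of the selector gadget. -/
def step [DecidableEq P] (B : ι → κ → S) (w : P → κ → S) (y h : S) :
    ι ⊕ Bool ⊕ P × Bool → κ ⊕ Bool ⊕ P × Bool → S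
  | Sum.inl i, Sum.inl k => B i k
  | Sum.inl _, Sum.inr _ => 0
  | Sum.inr (Sum.inl _), Sum.inl _ => 0
  | Sum.inr (Sum.inl false), Sum.inr (Sum.inl false) => 1
  | Sum.inr (Sum.inl false), Sum.inr (Sum.inl true) => 0
  | Sum.inr (Sum.inl true), Sum.inr (Sum.inl false) => y
  | Sum.inr (Sum.inl true), Sum.inr (Sum.inl true) => 1
  | Sum.inr (Sum.inl false), Sum.inr (Sum.inr (_, false)) => 1
  | Sum.inr (Sum.inl false), Sum.inr (Sum.inr (_, true)) => -h
  | Sum.inr (Sum.inl true), Sum.inr (Sum.inr _) => 0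
  | Sum.inr (Sum.inr (_, false)), Sum.inl _ => 0
  | Sum.inr (Sum.inr (T, true)), Sum.inl k => w T k
  | Sum.inr (Sum.inr (_, _)), Sum.inr (Sum.inl false) => 0
  | Sum.inr (Sum.inr (_, false)), Sum.inr (Sum.inl true) => 1
  | Sum.inr (Sum.inr (_, true)), Sum.inr (Sum.inl true) => 0
  | Sum.inr (Sum.inr (T, _)), Sum.inr (Sum.inr (U, false)) => if T = U then 1 else 0
  | Sum.inr (Sum.inr (T, _)), Sum.inr (Sum.inr (U, true)) => if T = U then h else 0

/-- The new selecting rows. -/
def stepRow [DecidableEq P] (w : P → κ → S) (T : P) (l m : S) : κ ⊕ Bool ⊕ P × Bool → S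
  | Sum.inl k => l * w T k
  | Sum.inr (Sum.inl _) => 0
  | Sum.inr (Sum.inr (_, false)) => 0
  | Sum.inr (Sum.inr (U, true)) => if T = U then m else 0

variable [Fintype ι] [Fintype κ] [Fintype P] [DecidableEq ι] [DecidableEq κ] [DecidableEq P]

theorem prod_addRow {A : Type*} [CommRing A] [Algebra S A]
    (hc : Fintype.card κ = Fintype.card ι + 1) (B : ι → κ → S) (ω : κ → S) {x : ι → A}
    (hx : ∀ i, x i * x i = 0) {z : A} (hz : z * z = 0) :
    ∏ k, (∑ i, B i k • x i + ω k • z) = perm (addRow B ω) • (z * ∏ i, x i) := by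
  have := prod_sum_smul_eq_perm (ι := Option ι) (by simp [hc]) (addRow B ω)
    (x := fun o => o.elim z x) (by rintro (_ | i); exacts [hz, hx i])
  simp only [Fintype.sum_option, Fintype.prod_option, addRow, Option.elim] at this
  rw [← this]
  exact prod_congr rfl fun k _ => add_comm _ _

theorem step_identity {A : Type*} [CommRing A] [Algebra S A]
    (hc : Fintype.card κ = Fintype.card ι + 1) (B : ι → κ → S) (w : P → κ → S)
    (y : S) {h : S} (hh : 2 * h = 1) (T : P) (l m : S)
    (x : Option (ι ⊕ Bool ⊕ P × Bool) → A) (hx : ∀ r, x r * x r = 0) :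
    ∏ c, ∑ r, addRow (step B w y h) (stepRow w T l m) r c • x r =
      ((l + m * (1 + y)) * perm (addRow B (w T))) • ∏ r, x r := by
  set z := x none with hz
  set xi := x (some (Sum.inr (Sum.inl false))) with hxi
  set xo := x (some (Sum.inr (Sum.inl true))) with hxo
  set c1 : P → _ := fun U => x (some (Sum.inr (Sum.inr (U, false)))) with hc1
  set c2 : P → _ := fun U => x (some (Sum.inr (Sum.inr (U, true)))) with hc2
  set x0 : ι → _ := fun i => x (some (Sum.inl i)) with hx0
  have hzz : z * z = 0 := hx _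
  have hii : xi * xi = 0 := hx _
  have hoo : xo * xo = 0 := hx _
  have h11 : ∀ U, c1 U * c1 U = 0 := fun U => hx _
  have h22 : ∀ U, c2 U * c2 U = 0 := fun U => hx _
  have h00 : ∀ i, x0 i * x0 i = 0 := fun U => hx _
  set φ := algebraMap S A with hφ
  have hh' : 2 * φ h = 1 := by
    have := congrArg φ hh
    rwa [map_mul, map_ofNat, map_one] at this
  have e1 : ∀ k : κ, ∑ r, addRow (step B w y h) (stepRow w T l m) r (Sum.inl k) • x r =
      ∑ i, B i k • x0 i + (∑ U, w U k • c2 U + (l * w T k) • z) := by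
    intro k
    simp only [Fintype.sum_option, Fintype.sum_sum_type, Fintype.sum_prod_type,
      Fintype.sum_bool, addRow, step, stepRow, zero_smul, add_zero, zero_add]
    ring
  have e2 : ∑ r, addRow (step B w y h) (stepRow w T l m) r (Sum.inr (Sum.inl false)) • x r =
      xi + φ y * xo := by
    simp only [Fintype.sum_option, Fintype.sum_sum_type,
      Fintype.sum_bool, addRow, step, stepRow, zero_smul, add_zero, zero_add, sum_const_zero,
      one_smul]
    rw [Algebra.smul_def]
    ring
  have e3 : ∑ r, addRow (step B w y h) (stepRow w T l m) r (Sum.inr (Sum.inl true)) • x r =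
      xo + ∑ U, c1 U := by
    simp only [Fintype.sum_option, Fintype.sum_sum_type, Fintype.sum_prod_type,
      Fintype.sum_bool, addRow, step, stepRow, zero_smul, add_zero, zero_add, sum_const_zero,
      one_smul]
    rfl
  have e4 : ∀ U, ∑ r, addRow (step B w y h) (stepRow w T l m) r
      (Sum.inr (Sum.inr (U, false))) • x r = xi + (c2 U + c1 U) := by
    intro U
    simp only [Fintype.sum_option, Fintype.sum_sum_type, Fintype.sum_prod_type,
      Fintype.sum_bool, addRow, step, stepRow, zero_smul, zero_add, sum_const_zero,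
      one_smul, ite_smul, sum_add_distrib, sum_ite_eq', mem_univ, if_true]
    rfl
  have e5 : ∀ U, ∑ r, addRow (step B w y h) (stepRow w T l m) r
      (Sum.inr (Sum.inr (U, true))) • x r =
      (if T = U then φ m * z else 0) + φ h * (c2 U + c1 U - xi) := by
    intro U
    simp only [Fintype.sum_option, Fintype.sum_sum_type, Fintype.sum_prod_type,
      Fintype.sum_bool, addRow, step, stepRow, zero_smul, zero_add, sum_const_zero,
      ite_smul, sum_add_distrib, sum_ite_eq', mem_univ, if_true]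
    simp only [Algebra.smul_def, map_neg]
    ring
  have e6 : ∀ U, (xi + (c2 U + c1 U)) * (φ h * (c2 U + c1 U - xi)) = c2 U * c1 U := by
    intro U
    linear_combination φ h * h11 U + φ h * h22 U - φ h * hii + (c2 U * c1 U) * hh'
  set M := ∏ U ∈ univ.erase T, (c2 U * c1 U) with hM
  have e7 : ∏ c : P × Bool, ∑ r, addRow (step B w y h) (stepRow w T l m) r
      (Sum.inr (Sum.inr c)) • x r =
      M * (c2 T * c1 T + φ m * z * (xi + (c2 T + c1 T))) := by
    rw [Fintype.prod_prod_type, ← mul_prod_erase _ _ (mem_univ T), mul_comm]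
    congr 1
    · refine prod_congr rfl fun U hU => ?_
      rw [Fintype.prod_bool, e4, e5, if_neg (ne_of_mem_erase hU).symm, zero_add, mul_comm, e6]
    · rw [Fintype.prod_bool, e4, e5, if_pos rfl, ← e6]
      ring
  have hM1 : ∀ U ∈ univ.erase T, M * c1 U = 0 := by
    intro U hU
    rw [hM, ← mul_prod_erase _ _ hU]
    linear_combination (c2 U * ∏ U ∈ (univ.erase T).erase U, (c2 U * c1 U)) * h11 U
  have hM2 : ∀ U ∈ univ.erase T, M * c2 U = 0 := by
    intro U hU
    rw [hM, ← mul_prod_erase _ _ hU]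
    linear_combination (c1 U * ∏ U ∈ (univ.erase T).erase U, (c2 U * c1 U)) * h22 U
  have e8 : M * ∑ U, c1 U = M * c1 T := by
    rw [← add_sum_erase _ _ (mem_univ T), mul_add, mul_sum, sum_eq_zero hM1, add_zero]
  have e9 : ∀ k, M * ∑ U, w U k • c2 U = M * (w T k • c2 T) := by
    intro k
    rw [← add_sum_erase _ _ (mem_univ T), mul_add, mul_sum, sum_eq_zero, add_zero]
    intro U hU
    rw [mul_smul_comm, hM2 U hU, smul_zero]
  set q := perm (addRow B (w T)) with hq
  set Q := ∏ k : κ, ∑ r, addRow (step B w y h) (stepRow w T l m) r (Sum.inl k) • x r with hQ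
  have e10 : (M * c2 T) * Q = (M * c2 T) * (φ q * ((φ l * z) * ∏ i, x0 i)) := by
    rw [← Algebra.smul_def, ← prod_addRow hc B (w T) h00 (z := φ l * z)
      (by linear_combination (φ l * φ l) * hzz)]
    refine mul_prod_congr univ fun k _ => ?_
    rw [e1]
    have := e9 k
    simp only [Algebra.smul_def, map_mul] at this ⊢
    linear_combination c2 T * this + (M * φ (w T k)) * h22 T
  have e11 : (M * z) * Q = (M * z) * (φ q * (c2 T * ∏ i, x0 i)) := by
    rw [← Algebra.smul_def, ← prod_addRow hc B (w T) h00 (h22 T)]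
    refine mul_prod_congr univ fun k _ => ?_
    rw [e1]
    have := e9 k
    simp only [Algebra.smul_def, map_mul] at this ⊢
    linear_combination z * this + (M * φ l * φ (w T k)) * hzz
  have e12 : ∏ r, x r = z * ((∏ i, x0 i) * ((xo * xi) * ((c2 T * c1 T) * M))) := by
    rw [Fintype.prod_option, Fintype.prod_sum_type, Fintype.prod_sum_type, Fintype.prod_bool,
      Fintype.prod_prod_type, ← mul_prod_erase _ _ (mem_univ T), Fintype.prod_bool]
    simp only [Fintype.prod_bool]
    rfl
  rw [Fintype.prod_sum_type, Fintype.prod_sum_type, Fintype.prod_bool, e7, e2, e3, ← hQ, e12,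
    Algebra.smul_def]
  simp only [map_mul, map_add, map_one]
  rw [← hφ]
  set X0 := ∏ i, x0 i
  have f1 : Q * ((xo + ∑ U, c1 U) * (xi + φ y * xo) * (M * (c2 T * c1 T +
      φ m * z * (xi + (c2 T + c1 T))))) = (xo + c1 T) * (xi + φ y * xo) *
        (c1 T * ((M * c2 T) * Q) + φ m * (xi + (c2 T + c1 T)) * ((M * z) * Q)) := by
    linear_combination (Q * (xi + φ y * xo) * (c2 T * c1 T +
      φ m * z * (xi + (c2 T + c1 T)))) * e8
  rw [f1, e10, e11]
  linear_combination (M * c2 T * φ q * φ l * z * X0 * (xi + φ y * xo) +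
      φ m * M * z * φ q * c2 T * X0 * (xi + φ y * xo)) * h11 T +
    (φ m * M * z * φ q * X0 * (xo + c1 T) * (xi + φ y * xo)) * h22 T +
    (φ m * M * z * φ q * X0 * c2 T * (xo + c1 T)) * hii +
    (M * c2 T * φ q * φ l * z * X0 * c1 T * φ y +
      φ m * M * z * φ q * c2 T * X0 * φ y * (xi + c1 T)) * hoo

theorem perm_step (hc : Fintype.card κ = Fintype.card ι + 1) (B : ι → κ → S) (w : P → κ → S)
    (y : S) {h : S} (hh : 2 * h = 1) (T : P) (l m : S) :
    perm (addRow (step B w y h) (stepRow w T l m)) =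
      (l + m * (1 + y)) * perm (addRow B (w T)) :=
  perm_eq_of (by simp [hc]; ring) _ _ fun _ x hx => step_identity hc B w y hh T l m x hx

/-- The two-sided gadget. -/
def big (B1 B2 : ι → κ → S) (Z : κ → κ → S) : κ ⊕ ι → ι ⊕ κ → S
  | Sum.inl k, Sum.inl i => B1 i k
  | Sum.inl k, Sum.inr k' => Z k k'
  | Sum.inr _, Sum.inl _ => 0
  | Sum.inr i, Sum.inr k' => B2 i k'

omit [Fintype P] [DecidableEq P] in
theorem big_identity {A : Type*} [CommRing A] [Algebra S A]
    (hc : Fintype.card κ = Fintype.card ι + 1) (B1 B2 : ι → κ → S) (w1 w2 : κ → S) {ε : S}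
    (hε : ε * ε = 0) (x : κ ⊕ ι → A) (hx : ∀ r, x r * x r = 0) :
    ∏ c, ∑ r, big B1 B2 (fun k k' => ε * w1 k * w2 k') r c • x r =
      (ε * perm (addRow B1 w1) * perm (addRow B2 w2)) • ∏ r, x r := by
  set γ : A := ∑ k, w1 k • x (Sum.inl k) with hγ
  have h1 := prod_addRow hc B2 w2 (x := fun i => x (Sum.inr i)) (fun i => hx _) (z := ε • γ)
    (by rw [smul_mul_smul_comm, hε, zero_smul])
  have h2 := prod_sum_smul_eq_perm (ι := κ) (κ := Option ι) (by simp [hc])
    (fun k o => addRow B1 w1 o k) (x := fun k => x (Sum.inl k)) (fun k => hx _)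
  rw [perm_transpose, Fintype.prod_option] at h2
  simp only [addRow] at h2
  rw [← hγ] at h2
  have h3 : ∀ k', ∑ r, big B1 B2 (fun k k' => ε * w1 k * w2 k') r (Sum.inr k') • x r =
      ∑ i, B2 i k' • x (Sum.inr i) + w2 k' • ε • γ := by
    intro k'
    simp only [Fintype.sum_sum_type, big, hγ, smul_sum, smul_smul]
    rw [add_comm]
    congr 1
    exact sum_congr rfl fun k _ => by congr 1; ring
  rw [Fintype.prod_sum_type, Fintype.prod_sum_type]
  simp only [h3]
  rw [h1]
  simp only [Fintype.sum_sum_type, big, zero_smul, sum_const_zero, add_zero]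
  simp only [Algebra.smul_def, map_mul] at h2 ⊢
  linear_combination (algebraMap S A (perm (addRow B2 w2)) * algebraMap S A ε *
    ∏ i, x (Sum.inr i)) * h2

omit [Fintype P] [DecidableEq P] in
theorem perm_big (hc : Fintype.card κ = Fintype.card ι + 1) (B1 B2 : ι → κ → S) (w1 w2 : κ → S)
    {ε : S} (hε : ε * ε = 0) :
    perm (big B1 B2 fun k k' => ε * w1 k * w2 k') =
      ε * perm (addRow B1 w1) * perm (addRow B2 w2) :=
  perm_eq_of (by simp [add_comm]) _ _ fun _ x hx => big_identity hc B1 B2 w1 w2 hε x hx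

end

theorem exists_sel (K : Type*) [Field K] (h2 : (2 : K) ≠ 0) (t : ℕ) :
    ∃ (ι κ P δ : Type) (_ : Fintype ι) (_ : Fintype κ) (_ : Fintype P) (_ : Fintype δ)
      (_ : DecidableEq ι) (_ : DecidableEq κ) (_ : DecidableEq P)
      (B : P → ι → κ → K) (w : P → κ → K) (r : δ → ι) (c : δ → κ),
      Fintype.card κ = Fintype.card ι + 1 ∧ Fintype.card ι + 2 = 2 * 2 ^ t + 2 * t ∧
      Fintype.card P = 2 ^ t ∧ Fintype.card δ = t ∧
      Function.Injective r ∧ Function.Injective c ∧
      (∀ a a' i k, (∀ j, ¬ (i = r j ∧ k = c j)) → B a i k = B a' i k) ∧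
      ∀ a T, perm (addRow (B a) (w T)) = if a = T then 1 else 0 := by
  induction t with
  | zero =>
    refine ⟨Empty, Unit, Unit, Empty, inferInstance, inferInstance, inferInstance, inferInstance,
      inferInstance, inferInstance, inferInstance, fun _ i => i.elim, fun _ _ => 1,
      fun i => i.elim, fun i => i.elim, by simp, by simp, by simp, by simp,
      fun i => i.elim, fun i => i.elim, fun _ _ i => i.elim, fun a T => ?_⟩
    rw [if_pos rfl]
    refine perm_eq_of (by simp) _ _ fun I x hx => ?_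
    simp only [Fintype.sum_option, Fintype.prod_option, addRow]
    simp
  | succ t ih =>
    obtain ⟨ι, κ, P, δ, _, _, _, _, _, _, _, B, w, r, c, h1, h3, h4, h5, hr, hc, hB, hw⟩ := ih
    refine ⟨ι ⊕ Bool ⊕ P × Bool, κ ⊕ Bool ⊕ P × Bool, P × Bool, Option δ, inferInstance,
      inferInstance, inferInstance, inferInstance, inferInstance, inferInstance, inferInstance,
      fun a => step (B a.1) w (if a.2 then 0 else -1) 2⁻¹,
      fun T => stepRow w T.1 (if T.2 then 0 else 1) (if T.2 then 1 else -1),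
      fun o => o.elim (Sum.inr (Sum.inl true)) fun j => Sum.inl (r j),
      fun o => o.elim (Sum.inr (Sum.inl false)) fun j => Sum.inl (c j), ?_, ?_, ?_, ?_, ?_, ?_,
      ?_, ?_⟩
    · simp [h1]; ring
    · simp only [Fintype.card_sum, Fintype.card_bool, Fintype.card_prod, h4]
      rw [pow_succ]; omega
    · simp [h4, pow_succ]
    · simp [h5]
    · rintro (_ | j) (_ | j') h
      · rfl
      · simp at h
      · simp at h
      · simp only [Option.elim, Sum.inl.injEq] at h
        rw [hr h]
    · rintro (_ | j) (_ | j') h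
      · rfl
      · simp at h
      · simp at h
      · simp only [Option.elim, Sum.inl.injEq] at h
        rw [hc h]
    · rintro a a' (i | (_ | _) | ⟨U, _ | _⟩) (k | (_ | _) | ⟨U', _ | _⟩) h <;>
        try rfl
      · exact hB _ _ _ _ fun j hj => h (some j) ⟨by rw [hj.1]; rfl, by rw [hj.2]; rfl⟩
      · exact absurd ⟨rfl, rfl⟩ (h none)
    · rintro ⟨a, b⟩ ⟨T, b'⟩
      rw [perm_step h1 _ _ _ (mul_inv_cancel₀ h2), hw]
      by_cases haT : a = T
      · subst haT
        cases b <;> cases b' <;> simp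
      · simp [haT]

/-- The direction of the first order perturbation. -/
def dir {K ι κ ν : Type*} [Field K] (w1 w2 : κ → K) : (κ ⊕ ι) ⊕ ν → (ι ⊕ κ) ⊕ ν → K
  | Sum.inl (Sum.inl k), Sum.inl (Sum.inr k') => w1 k * w2 k'
  | Sum.inl (Sum.inl _), Sum.inl (Sum.inl _) => 0
  | Sum.inl (Sum.inr _), Sum.inl _ => 0
  | Sum.inl _, Sum.inr _ => 0
  | Sum.inr _, _ => 0

open TrivSqZeroExt in
theorem exists_gadget (K : Type*) [Field K] (h2 : (2 : K) ≠ 0) (t : ℕ) {n : Type*} [Fintype n]
    [DecidableEq n] (hn : 4 * 2 ^ t + 4 * t ≤ Fintype.card n) (r c : Fin (2 * t) → n)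
    (hr : Function.Injective r) (hc : Function.Injective c) :
    ∃ (P : Type) (_ : Fintype P) (_ : DecidableEq P) (B W : P → n × n → K),
      Fintype.card P = 4 ^ t ∧
      (∀ p p' v, (∀ j, v ≠ (r j, c j)) → B p v = B p' v) ∧ (∀ p j, W p (r j, c j) = 0) ∧
      ∀ p p', (Matrix.of fun i j =>
        (inl (B p (i, j)) + inr (W p' (i, j)) : DualNumber K)).permanent.snd =
          if p = p' then 1 else 0 := by
  obtain ⟨ι, κ, P, δ, _, _, _, _, _, _, _, B, w, r0, c0, h1, h3, h4, h5, hr0, hc0, hB, hw⟩ :=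
    exists_sel K h2 t
  let ν := Fin (Fintype.card n - (Fintype.card κ + Fintype.card ι))
  let eR0 : n ≃ (κ ⊕ ι) ⊕ ν := Fintype.equivOfCardEq (by simp [ν]; omega)
  let eC0 : n ≃ (ι ⊕ κ) ⊕ ν := Fintype.equivOfCardEq (by simp [ν]; omega)
  let g : Fin (2 * t) ≃ δ ⊕ δ := Fintype.equivOfCardEq (by simp [h5]; omega)
  let rD : δ ⊕ δ → (κ ⊕ ι) ⊕ ν := fun j => Sum.inl (Sum.map c0 r0 j)
  let cD : δ ⊕ δ → (ι ⊕ κ) ⊕ ν := fun j => Sum.inl (Sum.map r0 c0 j)
  have hrD : Function.Injective rD := Sum.inl_injective.comp (hc0.sumMap hr0)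
  have hcD : Function.Injective cD := Sum.inl_injective.comp (hr0.sumMap hc0)
  obtain ⟨σR, hσR⟩ := Equiv.Perm.exists_extending_pair _ _ (eR0.injective.comp hr)
    (hrD.comp g.injective)
  obtain ⟨σC, hσC⟩ := Equiv.Perm.exists_extending_pair _ _ (eC0.injective.comp hc)
    (hcD.comp g.injective)
  let eR := eR0.trans σR
  let eC := eC0.trans σC
  have heR : ∀ j, eR (r j) = rD (g j) := hσR
  have heC : ∀ j, eC (c j) = cD (g j) := hσC
  refine ⟨P × P, inferInstance, inferInstance,
    fun p v => pad ν (big (B p.1) (B p.2) 0) (eR v.1) (eC v.2),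
    fun p v => dir (w p.1) (w p.2) (eR v.1) (eC v.2), ?_, ?_, ?_, ?_⟩
  · rw [Fintype.card_prod, h4, ← mul_pow]; rfl
  · rintro p p' ⟨i, k⟩ h
    have h' : ∀ j, ¬ (eR i = rD j ∧ eC k = cD j) := by
      rintro j ⟨hi, hk⟩
      refine h (g.symm j) (Prod.ext (eR.injective ?_) (eC.injective ?_))
      · rw [heR, g.apply_symm_apply]; exact hi
      · rw [heC, g.apply_symm_apply]; exact hk
    simp only
    generalize eR i = i' at h' ⊢
    generalize eC k = k' at h' ⊢
    rcases i' with ((i' | i') | i') <;> rcases k' with ((k' | k') | k') <;> try rfl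
    · exact hB _ _ _ _ fun j hj => h' (Sum.inl j) ⟨by rw [hj.2]; rfl, by rw [hj.1]; rfl⟩
    · exact hB _ _ _ _ fun j hj => h' (Sum.inr j) ⟨by rw [hj.1]; rfl, by rw [hj.2]; rfl⟩
  · intro p j
    simp only [heR, heC]
    rcases g j with j' | j' <;> rfl
  · intro p p'
    have e1 : (Matrix.of fun i j => (inl (pad ν (big (B p.1) (B p.2) 0) (eR i) (eC j)) +
        inr (dir (w p'.1) (w p'.2) (eR i) (eC j)) : DualNumber K)) =
        Matrix.of fun i j => pad ν (big (fun i k => algebraMap K (DualNumber K) (B p.1 i k))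
          (fun i k => algebraMap K (DualNumber K) (B p.2 i k))
          (fun k k' => DualNumber.eps * algebraMap K (DualNumber K) (w p'.1 k) *
            algebraMap K (DualNumber K) (w p'.2 k'))) (eR i) (eC j) := by
      refine Matrix.ext fun i j => ?_
      simp only [Matrix.of_apply]
      generalize eR i = i'
      generalize eC j = k'
      rcases i' with ((i' | i') | i') <;> rcases k' with ((k' | k') | k') <;>
        simp only [pad, big, dir] <;> (try split_ifs) <;> ext <;> simp [algebraMap_eq_inl]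
    have e2 : ∀ a T, perm (addRow (fun i k => algebraMap K (DualNumber K) (B a i k))
        (fun k => algebraMap K (DualNumber K) (w T k))) = if a = T then 1 else 0 := by
      intro a T
      have := congrArg (algebraMap K (DualNumber K)) (hw a T)
      rw [H13.map_perm] at this
      rw [show (if a = T then 1 else 0 : DualNumber K) =
        algebraMap K _ (if a = T then 1 else 0) by split_ifs <;> simp, ← this]
      congr 1
      funext o k
      cases o <;> rfl
    simp only
    rw [e1, permanent_pad eR eC (by simp [add_comm]), perm_big h1 _ _ _ _ DualNumber.eps_mul_eps,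
      e2, e2]
    obtain ⟨a, b⟩ := p
    obtain ⟨a', b'⟩ := p'
    by_cases ha : a = a' <;> by_cases hb : b = b' <;> simp [ha, hb]

end Pool.Agent.Lib.MP_8b1d3b_lc.Fm
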