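import Mathlib

set_option autoImplicit false

namespace Pool.Agent.Lib.MP_8b1d3b_lc

universe u v

/-- Arithmetic formulas (trees) over the field `K` in the variables `σ`, with binary gates for
addition, multiplication and division. -/
inductive Formula (K : Type u) (σ : Type v) : Type (max u v) where
  | var : σ → Formula K σ
  | const : K → Formula K σ
  | add : Formula K σ → Formula K σ → Formula K σ
  | mul : Formula K σ → Formula K σ → Formula K σ
  | div : Formula K σ → Formula K σ → Formula K σ

/-- The rational function computed by a formula. -/
noncomputable def Formula.value {K : Type u} {σ : Type v} [Field K] (F : Formula K σ) :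
    FractionRing (MvPolynomial σ K) :=
  Formula.rec
    (fun i => algebraMap (MvPolynomial σ K) _ (MvPolynomial.X i))
    (fun c => algebraMap (MvPolynomial σ K) _ (MvPolynomial.C c))
    (fun _ _ f g => f + g) (fun _ _ f g => f * g) (fun _ _ f g => f / g) F

/-- The number of leaves labelled by a variable. -/
noncomputable def Formula.varLeaves {K : Type u} {σ : Type v} (F : Formula K σ) : ℕ :=
  Formula.rec (fun _ => 1) (fun _ => 0)
    (fun _ _ a b => a + b) (fun _ _ a b => a + b) (fun _ _ a b => a + b) F

end Pool.Agent.Lib.MP_8b1d3b_lc
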