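import Mathlib
import Pool.Agent.Lib.MP_8b1d3b_lc.FormulaDefs

set_option autoImplicit false

namespace Pool.Agent.Lib.MP_8b1d3b_lc.Fm

open Finset Module

section

variable {K σ : Type*} (F G : Formula K σ)

theorem varLeaves_var (v : σ) : (Formula.var v : Formula K σ).varLeaves = 1 := rfl
theorem varLeaves_add : (F.add G).varLeaves = F.varLeaves + G.varLeaves := rfl
theorem varLeaves_mul : (F.mul G).varLeaves = F.varLeaves + G.varLeaves := rfl
theorem varLeaves_div : (F.div G).varLeaves = F.varLeaves + G.varLeaves := rfl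

variable [Field K]

theorem value_add : (F.add G).value = F.value + G.value := rfl
theorem value_mul : (F.mul G).value = F.value * G.value := rfl
theorem value_div : (F.div G).value = F.value / G.value := rfl

end

/-- The number of leaves labelled by a variable from `Y`. -/
def cnt {K σ : Type*} (Y : σ → Prop) [DecidablePred Y] : Formula K σ → ℕ
  | .var v => if Y v then 1 else 0
  | .const _ => 0
  | .add F G => cnt Y F + cnt Y G
  | .mul F G => cnt Y F + cnt Y G
  | .div F G => cnt Y F + cnt Y G

theorem sum_cnt_le {K σ β : Type*} [Fintype β] (Y : β → σ → Prop) [∀ b, DecidablePred (Y b)]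
    (hY : ∀ b b' v, Y b v → Y b' v → b = b') (F : Formula K σ) :
    ∑ b, cnt (Y b) F ≤ F.varLeaves := by
  induction F with
  | var v =>
    simp only [cnt, varLeaves_var]
    rw [← card_filter]
    exact card_le_one.mpr fun b hb b' hb' => hY b b' v (mem_filter.mp hb).2 (mem_filter.mp hb').2
  | const c => simp [cnt]
  | add F G ihF ihG => simp only [cnt, varLeaves_add, sum_add_distrib]; omega
  | mul F G ihF ihG => simp only [cnt, varLeaves_mul, sum_add_distrib]; omega
  | div F G ihF ihG => simp only [cnt, varLeaves_div, sum_add_distrib]; omega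

section

variable {P M V : Type*} [Field M] [AddCommGroup V] [Module M V] (d : Derivation ℤ M V)

/-- A family is a fixed Moebius transform of a family with few differentials. -/
def Mob (l : ℕ) (F : P → M) : Prop :=
  ∃ (E : Submodule M V) (a b c e : M) (h : P → M), finrank M E + 8 ≤ 8 * l ∧
    ∀ p, d (h p) ∈ E ∧ c * h p + e ≠ 0 ∧ F p = (a * h p + b) / (c * h p + e)

variable {d}

theorem d_add {E : Submodule M V} {a b : M} (ha : d a ∈ E) (hb : d b ∈ E) : d (a + b) ∈ E := by
  rw [map_add]; exact E.add_mem ha hb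

theorem d_mul {E : Submodule M V} {a b : M} (ha : d a ∈ E) (hb : d b ∈ E) : d (a * b) ∈ E := by
  rw [Derivation.leibniz]; exact E.add_mem (E.smul_mem _ hb) (E.smul_mem _ ha)

theorem d_inv {E : Submodule M V} {a : M} (ha : d a ∈ E) : d a⁻¹ ∈ E := by
  rw [Derivation.leibniz_inv]; exact E.smul_mem _ ha

theorem d_div {E : Submodule M V} {a b : M} (ha : d a ∈ E) (hb : d b ∈ E) : d (a / b) ∈ E := by
  rw [div_eq_mul_inv]; exact d_mul ha (d_inv hb)

theorem Mob.add_const {l : ℕ} {F : P → M} (h : Mob d l F) (r : M) :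
    Mob d l fun p => F p + r := by
  obtain ⟨E, a, b, c, e, h, h1, h2⟩ := h
  refine ⟨E, a + r * c, b + r * e, c, e, h, h1, fun p => ⟨(h2 p).1, (h2 p).2.1, ?_⟩⟩
  have := (h2 p).2.1
  simp only
  rw [(h2 p).2.2, div_add' _ _ _ this]
  congr 1
  ring

theorem Mob.mul_const {l : ℕ} {F : P → M} (h : Mob d l F) (r : M) :
    Mob d l fun p => F p * r := by
  obtain ⟨E, a, b, c, e, h, h1, h2⟩ := h
  refine ⟨E, a * r, b * r, c, e, h, h1, fun p => ⟨(h2 p).1, (h2 p).2.1, ?_⟩⟩
  simp only
  rw [(h2 p).2.2]
  ring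

theorem Mob.inv {l : ℕ} {F : P → M} (h : Mob d l F) (h0 : ∀ p p', F p = 0 → F p' = 0) :
    Mob d l fun p => (F p)⁻¹ := by
  obtain ⟨E, a, b, c, e, h, h1, h2⟩ := h
  by_cases hz : ∃ p, F p = 0
  · obtain ⟨p0, hp0⟩ := hz
    refine ⟨E, 0, 0, c, e, h, h1, fun p => ⟨(h2 p).1, (h2 p).2.1, ?_⟩⟩
    simp [h0 p0 p hp0]
  · push Not at hz
    refine ⟨E, c, e, a, b, h, h1, fun p => ⟨(h2 p).1, fun h3 => hz p ?_, ?_⟩⟩
    · rw [(h2 p).2.2, h3, zero_div]
    · simp only
      rw [(h2 p).2.2, inv_div]

variable [Module.Finite M V]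

theorem finrank_sup_span (E : Submodule M V) (v : V) :
    finrank M (E ⊔ Submodule.span M {v} : Submodule M V) ≤ finrank M E + 1 := by
  refine (Submodule.finrank_add_le_finrank_add_finrank _ _).trans (Nat.add_le_add_left ?_ _)
  simpa using finrank_span_le_card (R := M) ({v} : Set V)

theorem Mob.close {l : ℕ} {F : P → M} (h : Mob d l F) :
    ∃ E : Submodule M V, finrank M E + 4 ≤ 8 * l ∧ ∀ p, d (F p) ∈ E := by
  obtain ⟨E, a, b, c, e, h, h1, h2⟩ := h
  refine ⟨E ⊔ Submodule.span M {d a} ⊔ Submodule.span M {d b} ⊔ Submodule.span M {d c} ⊔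
    Submodule.span M {d e}, ?_, fun p => ?_⟩
  · have e1 := finrank_sup_span E (d a)
    have e2 := finrank_sup_span (E ⊔ Submodule.span M {d a}) (d b)
    have e3 := finrank_sup_span (E ⊔ Submodule.span M {d a} ⊔ Submodule.span M {d b}) (d c)
    have e4 := finrank_sup_span (E ⊔ Submodule.span M {d a} ⊔ Submodule.span M {d b} ⊔
      Submodule.span M {d c}) (d e)
    omega
  · rw [(h2 p).2.2]
    have hh := Submodule.mem_sup_left (T := Submodule.span M {d e})
      (Submodule.mem_sup_left (T := Submodule.span M {d c})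
      (Submodule.mem_sup_left (T := Submodule.span M {d b})
      (Submodule.mem_sup_left (T := Submodule.span M {d a}) (h2 p).1)))
    refine d_div (d_add (d_mul ?_ hh) ?_) (d_add (d_mul ?_ hh) ?_)
    · exact Submodule.mem_sup_left (Submodule.mem_sup_left (Submodule.mem_sup_left
        (Submodule.mem_sup_right (Submodule.mem_span_singleton_self _))))
    · exact Submodule.mem_sup_left (Submodule.mem_sup_left
        (Submodule.mem_sup_right (Submodule.mem_span_singleton_self _)))
    · exact Submodule.mem_sup_left (Submodule.mem_sup_right (Submodule.mem_span_singleton_self _))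
    · exact Submodule.mem_sup_right (Submodule.mem_span_singleton_self _)

theorem Mob.both {l l' : ℕ} {F F' G : P → M} (h : Mob d l F) (h' : Mob d l' F')
    (hG : ∀ (E : Submodule M V) (p : P), d (F p) ∈ E → d (F' p) ∈ E → d (G p) ∈ E) :
    Mob d (l + l') G := by
  obtain ⟨E, h1, h2⟩ := h.close
  obtain ⟨E', h1', h2'⟩ := h'.close
  refine ⟨E ⊔ E', 1, 0, 0, 1, G, ?_, fun p => ⟨hG _ p (Submodule.mem_sup_left (h2 p))
    (Submodule.mem_sup_right (h2' p)), by simp, by simp⟩⟩
  have := Submodule.finrank_add_le_finrank_add_finrank E E'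
  omega

variable (d) in
/-- The invariant of the induction over formulas. -/
def Inv (l : ℕ) (F : P → M) : Prop := (l = 0 ∧ ∃ r, ∀ p, F p = r) ∨ Mob d l F

theorem Inv.add {l l' : ℕ} {F F' : P → M} (h : Inv d l F) (h' : Inv d l' F') :
    Inv d (l + l') fun p => F p + F' p := by
  rcases h with ⟨rfl, r, hr⟩ | h <;> rcases h' with ⟨rfl, r', hr'⟩ | h'
  · exact Or.inl ⟨rfl, r + r', fun p => by simp only [hr, hr']⟩
  · right
    simpa only [hr, zero_add, add_comm r] using h'.add_const r
  · right
    simpa only [hr', add_zero] using h.add_const r'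
  · exact Or.inr (h.both h' fun _ _ => d_add)

theorem Inv.mul {l l' : ℕ} {F F' : P → M} (h : Inv d l F) (h' : Inv d l' F') :
    Inv d (l + l') fun p => F p * F' p := by
  rcases h with ⟨rfl, r, hr⟩ | h <;> rcases h' with ⟨rfl, r', hr'⟩ | h'
  · exact Or.inl ⟨rfl, r * r', fun p => by simp only [hr, hr']⟩
  · right
    simpa only [hr, zero_add, mul_comm r] using h'.mul_const r
  · right
    simpa only [hr', add_zero] using h.mul_const r'
  · exact Or.inr (h.both h' fun _ _ => d_mul)

omit [Module.Finite M V] in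
theorem Inv.inv {l : ℕ} {F : P → M} (h : Inv d l F) (h0 : ∀ p p', F p = 0 → F p' = 0) :
    Inv d l fun p => (F p)⁻¹ := by
  rcases h with ⟨rfl, r, hr⟩ | h
  · exact Or.inl ⟨rfl, r⁻¹, fun p => by simp only [hr]⟩
  · exact Or.inr (h.inv h0)

theorem inv_value {K σ : Type*} [Field K] (Φ : P → FractionRing (MvPolynomial σ K) →+* M)
    (Y : σ → Prop) [DecidablePred Y]
    (hc : ∀ k : K, ∃ r, ∀ p, Φ p (algebraMap (MvPolynomial σ K) _ (MvPolynomial.C k)) = r)
    (hv : ∀ v, ¬ Y v → ∃ r, ∀ p, Φ p (algebraMap (MvPolynomial σ K) _ (MvPolynomial.X v)) = r)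
    (hy : ∀ v, Y v → ∀ p, d (Φ p (algebraMap (MvPolynomial σ K) _ (MvPolynomial.X v))) = 0)
    (F : Formula K σ) : Inv d (cnt Y F) fun p => Φ p F.value := by
  induction F with
  | var v =>
    by_cases h : Y v
    · refine Or.inr ⟨⊥, 1, 0, 0, 1, fun p => Φ p (Formula.var v).value, by simp [cnt, h],
        fun p => ⟨hy v h p, by simp, by simp⟩⟩
    · exact Or.inl ⟨by simp [cnt, h], hv v h⟩
  | const c => exact Or.inl ⟨rfl, hc c⟩
  | add F G ihF ihG => simpa only [value_add, cnt, map_add] using ihF.add ihG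
  | mul F G ihF ihG => simpa only [value_mul, cnt, map_mul] using ihF.mul ihG
  | div F G ihF ihG =>
    simpa only [value_div, cnt, div_eq_mul_inv, map_mul, map_inv₀] using
      ihF.mul (ihG.inv fun p p' h => by rw [(map_eq_zero _).mp h, map_zero])

end

open TrivSqZeroExt

theorem exists_derivation {A M V : Type*} [CommRing A] [IsDomain A] [Field M] [Algebra A M]
    [IsFractionRing A M] [AddCommGroup V] [Module M V] [Module Mᵐᵒᵖ V] [IsCentralScalar M V]
    (θ : A →+* TrivSqZeroExt M V) (hθ : ∀ a, (θ a).fst = algebraMap A M a) :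
    ∃ d : Derivation ℤ M V, ∀ a, d (algebraMap A M a) = (θ a).snd := by
  have hu : ∀ y : nonZeroDivisors A, IsUnit (θ y) := by
    intro y
    rw [isUnit_iff_isUnit_fst, hθ]
    exact IsLocalization.map_units M y
  let ψ : M →+* TrivSqZeroExt M V := IsLocalization.lift hu
  have hψ : ∀ a, ψ (algebraMap A M a) = θ a := IsLocalization.lift_eq hu
  have hf : (fstHom ℤ M V).toRingHom.comp ψ = RingHom.id M := by
    refine IsLocalization.ringHom_ext (nonZeroDivisors A) (RingHom.ext fun a => ?_)
    simp [hψ, hθ]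
  have hf' : ∀ x, (ψ x).fst = x := fun x => RingHom.congr_fun hf x
  refine ⟨Derivation.mk' (AddMonoidHom.toIntLinearMap
    { toFun := fun x => (ψ x).snd, map_zero' := by simp, map_add' := by simp }) ?_, ?_⟩
  · intro a b
    simp [hf']
  · intro a
    exact congrArg snd (hψ a)

theorem aeval_dual {K τ S V : Type*} [CommRing K] [Fintype τ] [DecidableEq τ] [CommRing S]
    [Algebra K S] [AddCommGroup V] [Module S V] [Module Sᵐᵒᵖ V] [IsCentralScalar S V]
    [Module K V] [IsScalarTower K S V] [IsScalarTower K Sᵐᵒᵖ V]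
    (g : τ → S) (w : τ → V) (a : MvPolynomial τ K) :
    (MvPolynomial.aeval (fun t => (inl (g t) + inr (w t) : TrivSqZeroExt S V)) a).fst =
      MvPolynomial.aeval g a ∧
    (MvPolynomial.aeval (fun t => (inl (g t) + inr (w t) : TrivSqZeroExt S V)) a).snd =
      ∑ t, MvPolynomial.aeval g (MvPolynomial.pderiv t a) • w t := by
  induction a using MvPolynomial.induction_on with
  | C k => simp [algebraMap_eq_inl']
  | add p q hp hq => simp [hp.1, hp.2, hq.1, hq.2, add_smul, sum_add_distrib]
  | mul_X p s hp =>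
    refine ⟨by simp [hp.1], ?_⟩
    simp only [map_mul, MvPolynomial.aeval_X, snd_mul, fst_add, snd_add, fst_inl, fst_inr,
      snd_inl, snd_inr, add_zero, zero_add, hp.1, hp.2, op_smul_eq_smul, Derivation.leibniz,
      smul_eq_mul, map_add, add_smul, sum_add_distrib, smul_sum, smul_smul]
    congr 1
    rw [sum_eq_single s]
    · simp
    · intro t _ ht
      simp [MvPolynomial.pderiv_X_of_ne ht.symm]
    · simp

theorem card_le {K σ P : Type*} [Field K] [Fintype σ] [DecidableEq σ] [Fintype P]
    [DecidableEq P] (Y : σ → Prop) [DecidablePred Y] (f : MvPolynomial σ K) (B W : P → σ → K)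
    (hB : ∀ p p' v, ¬ Y v → B p v = B p' v) (hW : ∀ p v, Y v → W p v = 0)
    (hf : ∀ p p', (MvPolynomial.aeval
      (fun v => (inl (B p v) + inr (W p' v) : DualNumber K)) f).snd = if p = p' then 1 else 0)
    (F : Formula K σ) (hF : F.value = algebraMap (MvPolynomial σ K) _ f)
    (hP : 1 < Fintype.card P) : Fintype.card P + 4 ≤ 8 * cnt Y F := by
  obtain ⟨p0⟩ : Nonempty P := Fintype.card_pos_iff.mp (by omega)
  let τ := σ ⊕ P × σ
  let A := MvPolynomial τ K
  let M := FractionRing A
  let ρ : P → σ → τ := fun p v => if Y v then Sum.inr (p, v) else Sum.inl v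
  have hρ : ∀ p, Function.Injective (ρ p) := by
    intro p v v' h
    simp only [ρ] at h
    split_ifs at h
    · exact congrArg Prod.snd (Sum.inr_injective h)
    · exact Sum.inl_injective h
  have hinj : ∀ p, Function.Injective
      ((algebraMap A M).comp (MvPolynomial.rename (R := K) (ρ p)).toRingHom) := fun p =>
    (IsFractionRing.injective A M).comp (MvPolynomial.rename_injective _ (hρ p))
  let Φ : P → FractionRing (MvPolynomial σ K) →+* M := fun p => IsFractionRing.lift (hinj p)
  have hΦ : ∀ p a, Φ p (algebraMap (MvPolynomial σ K) _ a) =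
      algebraMap A M (MvPolynomial.rename (ρ p) a) := fun p a =>
    IsFractionRing.lift_algebraMap (hinj p) a
  let W' : P → τ → K := fun p => Sum.elim (W p) fun _ => 0
  let B' : τ → K := Sum.elim (B p0) fun q => B q.1 q.2
  let g : τ → M := fun t => algebraMap A M (MvPolynomial.X t)
  let w : τ → P → M := fun t p' => algebraMap A M (MvPolynomial.C (W' p' t))
  have hg : ∀ a : A, MvPolynomial.aeval g a = algebraMap A M a := by
    intro a
    have : MvPolynomial.aeval g = IsScalarTower.toAlgHom K A M :=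
      MvPolynomial.algHom_ext fun t => by rw [MvPolynomial.aeval_X]; rfl
    rw [this]; rfl
  obtain ⟨d, hd⟩ := exists_derivation (A := A) (M := M) (V := P → M)
    (MvPolynomial.aeval (R := K) fun t => (inl (g t) + inr (w t) : TrivSqZeroExt M (P → M))).toRingHom
    fun a => (aeval_dual g w a).1.trans (hg a)
  have hd' : ∀ a : A, d (algebraMap A M a) =
      fun p' => algebraMap A M (∑ t, MvPolynomial.pderiv t a * MvPolynomial.C (W' p' t)) := by
    intro a
    rw [hd]
    refine (aeval_dual g w a).2.trans (funext fun p' => ?_)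
    simp only [Finset.sum_apply, Pi.smul_apply, smul_eq_mul, hg, map_sum, map_mul, w]
  have hI := inv_value (d := d) Φ Y
    (fun k => ⟨algebraMap A M (MvPolynomial.C k), fun p => by rw [hΦ, MvPolynomial.rename_C]⟩)
    (fun v hv => ⟨g (Sum.inl v), fun p => by simp [hΦ, ρ, hv, g]⟩)
    (fun v hv p => by
      rw [hΦ, MvPolynomial.rename_X, hd]
      change (MvPolynomial.aeval _ (MvPolynomial.X _) : TrivSqZeroExt M (P → M)).snd = 0
      rw [MvPolynomial.aeval_X]
      funext p'
      simp [w, W', ρ, hv]) F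
  let J0 : Matrix P P A := Matrix.of fun p p' =>
    ∑ t, MvPolynomial.pderiv t (MvPolynomial.rename (ρ p) f) * MvPolynomial.C (W' p' t)
  have hJ0 : (MvPolynomial.aeval B').toRingHom.mapMatrix J0 = (1 : Matrix P P K) := by
    refine Matrix.ext fun p p' => ?_
    have h1 := (aeval_dual B' (W' p') (MvPolynomial.rename (ρ p) f)).2
    rw [MvPolynomial.aeval_rename] at h1
    have h2 : ((fun t => (inl (B' t) + inr (W' p' t) : DualNumber K)) ∘ ρ p) =
        fun v => (inl (B p v) + inr (W p' v) : DualNumber K) := by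
      funext v
      by_cases hv : Y v
      · simp [ρ, hv, B', W', hW p' v hv]
      · simp [ρ, hv, B', W', hB p0 p v hv]
    rw [h2, hf] at h1
    rw [Matrix.one_apply, h1]
    simp [J0]
  have hdet : J0.det ≠ 0 := by
    intro h
    have := RingHom.map_det (MvPolynomial.aeval B').toRingHom J0
    rw [hJ0, h] at this
    simp at this
  have hli : LinearIndependent M fun p => d (Φ p F.value) := by
    have h1 : IsUnit ((algebraMap A M).mapMatrix J0) := by
      rw [Matrix.isUnit_iff_isUnit_det, ← RingHom.map_det, isUnit_iff_ne_zero]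
      exact fun h => hdet (IsFractionRing.injective A M (h.trans (map_zero _).symm))
    have h2 := Matrix.linearIndependent_rows_iff_isUnit.mpr h1
    have h3 : (fun p => d (Φ p F.value)) = ((algebraMap A M).mapMatrix J0).row := by
      funext p
      rw [hF, hΦ, hd']
      rfl
    rwa [h3]
  rcases hI with ⟨-, r, hr⟩ | hI
  · obtain ⟨p1, hp1⟩ := Fintype.exists_ne_of_one_lt_card hP p0
    exact absurd (hli.injective (by simp only [hr])) hp1
  · obtain ⟨E, h1, h2⟩ := hI.close
    have h3 : LinearIndependent M fun p => (⟨d (Φ p F.value), h2 p⟩ : E) :=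
      LinearIndependent.of_comp E.subtype hli
    have := h3.fintype_card_le_finrank
    omega

end Pool.Agent.Lib.MP_8b1d3b_lc.Fm
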