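import Mathlib
import Pool.Agent.Lib.MP_8b1d3b_lc.FmGadget
import Pool.Agent.Lib.MP_8b1d3b_lc.FmRank

set_option autoImplicit false

namespace Pool.Agent.Lib.MP_8b1d3b_lc.Fm

open Finset

theorem block_bound (K : Type*) [Field K] (h2 : (2 : K) ≠ 0) {n t : ℕ} (ht : 0 < t)
    (hn : 4 * 2 ^ t + 4 * t ≤ n) (r c : Fin (2 * t) → Fin n) (hr : Function.Injective r)
    (hc : Function.Injective c) (F : Formula K (Fin n × Fin n))
    (hF : F.value = algebraMap (MvPolynomial (Fin n × Fin n) K) _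
      (Matrix.permanent (Matrix.of fun i j : Fin n =>
        (MvPolynomial.X (i, j) : MvPolynomial (Fin n × Fin n) K)))) :
    4 ^ t ≤ 8 * cnt (fun v => ∃ j, v = (r j, c j)) F := by
  obtain ⟨P, _, _, B, W, hP, hB, hW, hf⟩ := exists_gadget K h2 t (n := Fin n) (by simpa) r c hr hc
  have := card_le (fun v => ∃ j, v = (r j, c j)) _ B W
    (fun p p' v hv => hB p p' v fun j hj => hv ⟨j, hj⟩)
    (by rintro p v ⟨j, rfl⟩; exact hW p j)
    (fun p p' => by
      rw [← hf p p']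
      simp only [Matrix.permanent, map_sum, map_prod, Matrix.of_apply, MvPolynomial.aeval_X])
    F hF (by rw [hP]; exact Nat.one_lt_pow ht.ne' (by norm_num))
  omega

theorem total_bound (K : Type*) [Field K] (h2 : (2 : K) ≠ 0) {n t : ℕ} (ht : 0 < t)
    (hn : 4 * 2 ^ t + 4 * t ≤ n) (F : Formula K (Fin n × Fin n))
    (hF : F.value = algebraMap (MvPolynomial (Fin n × Fin n) K) _
      (Matrix.permanent (Matrix.of fun i j : Fin n =>
        (MvPolynomial.X (i, j) : MvPolynomial (Fin n × Fin n) K)))) :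
    n * (n / (2 * t)) * 4 ^ t ≤ 8 * F.varLeaves := by
  have : NeZero n := ⟨by omega⟩
  have hlt : ∀ (b : Fin (n / (2 * t))) (j : Fin (2 * t)), (j : ℕ) + 2 * t * b < n := by
    intro b j
    have h1 : 2 * t * (b + 1) ≤ 2 * t * (n / (2 * t)) := Nat.mul_le_mul_left _ b.2
    have h3 := Nat.mul_div_le n (2 * t)
    have h4 := j.2
    rw [mul_add] at h1
    omega
  let r : Fin (n / (2 * t)) → Fin (2 * t) → Fin n := fun b j => ⟨j + 2 * t * b, hlt b j⟩
  have hr : ∀ b b' j j', r b j = r b' j' → b = b' ∧ j = j' := by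
    intro b b' j j' h
    have h1 : (j : ℕ) + 2 * t * b = j' + 2 * t * b' := congrArg Fin.val h
    have h3 := congrArg (· / (2 * t)) h1
    simp only [Nat.add_mul_div_left _ _ (show 0 < 2 * t by omega), Nat.div_eq_of_lt j.2,
      Nat.div_eq_of_lt j'.2, zero_add] at h3
    rw [h3] at h1
    exact ⟨Fin.ext h3, Fin.ext (by omega)⟩
  have h1 := sum_cnt_le (fun (q : Fin n × Fin (n / (2 * t))) (v : Fin n × Fin n) =>
    ∃ j, v = (r q.2 j, r q.2 j + q.1)) (by
      rintro ⟨s, b⟩ ⟨s', b'⟩ v ⟨j, rfl⟩ ⟨j', h⟩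
      obtain ⟨h3, h4⟩ := Prod.mk.inj h
      simp only at h3 h4
      rw [← h3] at h4
      rw [add_left_cancel h4, (hr _ _ _ _ h3).1]) F
  have h3 : ∑ _q : Fin n × Fin (n / (2 * t)), 4 ^ t ≤ ∑ q : Fin n × Fin (n / (2 * t)),
      8 * cnt (fun v : Fin n × Fin n => ∃ j, v = (r q.2 j, r q.2 j + q.1)) F :=
    sum_le_sum fun q _ => block_bound K h2 ht hn (r q.2) (fun j => r q.2 j + q.1)
      (fun j j' h => (hr _ _ _ _ h).2) (fun j j' h => (hr _ _ _ _ (add_right_cancel h)).2) F hF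
  rw [← mul_sum] at h3
  simp only [sum_const, card_univ, Fintype.card_prod, Fintype.card_fin, smul_eq_mul] at h3
  omega

theorem main (K : Type*) [Field K] (h2 : (2 : K) ≠ 0) (n : ℕ) (hn : 80 ≤ n)
    (F : Formula K (Fin n × Fin n))
    (hF : F.value = algebraMap (MvPolynomial (Fin n × Fin n) K) _
      (Matrix.permanent (Matrix.of fun i j : Fin n =>
        (MvPolynomial.X (i, j) : MvPolynomial (Fin n × Fin n) K)))) :
    n ^ 4 ≤ 2000 * Nat.log 2 n * F.varLeaves := by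
  set t := Nat.log 2 (n / 5) with ht
  have h1 : 2 ^ t ≤ n / 5 := Nat.pow_log_le_self 2 (by omega)
  have h3 : n / 5 < 2 ^ (t + 1) := Nat.lt_pow_succ_log_self (by norm_num) _
  have h4 : 4 ≤ t := (Nat.le_log_iff_pow_le (by norm_num) (by omega)).mpr (by omega)
  have h5 : 4 * t ≤ 2 ^ t := by
    obtain ⟨u, hu⟩ := Nat.exists_eq_add_of_le h4
    have := Nat.lt_two_pow_self (n := u)
    rw [hu, pow_add]
    omega
  have h6 : t ≤ Nat.log 2 n := Nat.log_mono_right (by omega)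
  have h7 := total_bound K h2 (t := t) (by omega) (by omega) F hF
  set q := n / (2 * t) with hq
  have h8 : n < 2 * t * (q + 1) := Nat.lt_mul_div_succ n (by omega)
  have h9 : 10 ≤ q := (Nat.le_div_iff_mul_le (by omega)).mpr (by omega)
  have h10 : 5 * n ≤ 11 * (t * q) := by nlinarith
  have h11 : n ^ 2 ≤ 100 * 4 ^ t := by
    have : n ≤ 10 * 2 ^ t := by rw [pow_succ] at h3; omega
    calc n ^ 2 ≤ (10 * 2 ^ t) ^ 2 := Nat.pow_le_pow_left this 2
      _ = 100 * 4 ^ t := by rw [mul_pow, ← pow_mul, mul_comm t 2, pow_mul]; norm_num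
  have h12 : 5 * n ^ 4 ≤ 1100 * t * (n * q * 4 ^ t) :=
    calc 5 * n ^ 4 = n * (5 * n) * n ^ 2 := by ring
      _ ≤ n * (11 * (t * q)) * (100 * 4 ^ t) := by gcongr
      _ = 1100 * t * (n * q * 4 ^ t) := by ring
  have h13 : t * (n * q * 4 ^ t) ≤ Nat.log 2 n * (8 * F.varLeaves) := Nat.mul_le_mul h6 h7
  nlinarith

end Pool.Agent.Lib.MP_8b1d3b_lc.Fm
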