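import Mathlib

set_option autoImplicit false

namespace Pool.Agent.Lib.MP_8b1d3b_lc.H13

open MvPolynomial

/-- Having only the trivial common zero is an open condition on a one-parameter family of
homogeneous polynomials. -/
theorem exists_param {L σ J : Type*} [Field L] [Infinite L] [Finite σ]
    (F : J → MvPolynomial σ (Polynomial L)) (δ : J → ℕ) (hF : ∀ j, (F j).IsHomogeneous (δ j))
    (h0 : ∀ i, (X i : MvPolynomial σ L) ∈
      (Ideal.span (Set.range fun j => map (Polynomial.evalRingHom 0) (F j))).radical) :
    ∃ t : L, t ≠ 0 ∧ ∀ i, (X i : MvPolynomial σ L) ∈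
      (Ideal.span (Set.range fun j => map (Polynomial.evalRingHom t) (F j))).radical := by
  classical
  have hle : idealOfVars σ L ≤
      (Ideal.span (Set.range fun j => map (Polynomial.evalRingHom 0) (F j))).radical := by
    rw [Ideal.span_le]
    rintro _ ⟨i, rfl⟩
    exact h0 i
  obtain ⟨c, hc⟩ := Ideal.exists_pow_le_of_le_radical_of_fg hle (idealOfVars_fg σ L)
  let I : Ideal (MvPolynomial σ (Polynomial L)) := Ideal.span (Set.range F)
  have hmap : ∀ t : L, I.map (map (Polynomial.evalRingHom t)) =
      Ideal.span (Set.range fun j => map (Polynomial.evalRingHom t) (F j)) := by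
    intro t
    rw [Ideal.map_span, ← Set.range_comp]
    rfl
  let : GradedAlgebra (homogeneousSubmodule σ (Polynomial L)) := MvPolynomial.gradedAlgebra
  have hI : I.IsHomogeneous (homogeneousSubmodule σ (Polynomial L)) := by
    apply Ideal.homogeneous_span
    rintro _ ⟨j, rfl⟩
    exact ⟨δ j, hF j⟩
  have hI' : ∀ p ∈ I, homogeneousComponent c p ∈ I := by
    intro p hp
    have := hI c hp
    rwa [show ((DirectSum.decompose (homogeneousSubmodule σ (Polynomial L)) p c :
      homogeneousSubmodule σ (Polynomial L) c) : MvPolynomial σ (Polynomial L)) =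
      homogeneousComponent c p from MvPolynomial.decomposition.decompose'_apply p c] at this
  have hsurj : Function.Surjective
      (map (σ := σ) (Polynomial.evalRingHom (0 : L))) :=
    map_surjective _ fun a => ⟨Polynomial.C a, by simp⟩
  have key : homogeneousSubmodule σ (Polynomial L) c ≤ I.restrictScalars (Polynomial L) ⊔
      Ideal.span {(Polynomial.X : Polynomial L)} • homogeneousSubmodule σ (Polynomial L) c := by
    intro p hp
    have hp' : p.IsHomogeneous c := hp
    have h1 : map (Polynomial.evalRingHom (0 : L)) p ∈ I.map (map (Polynomial.evalRingHom 0)) := by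
      rw [hmap]
      apply hc
      rw [mem_pow_idealOfVars_iff]
      intro a ha
      have := (hp'.map (Polynomial.evalRingHom (0 : L))) (mem_support_iff.mp ha)
      rw [Finsupp.degree_eq_weight_one]
      exact this.ge
    obtain ⟨i, hi, hi'⟩ := (Ideal.mem_map_iff_of_surjective _ hsurj).mp h1
    have h2 : C Polynomial.X ∣ p - i := by
      rw [C_dvd_iff_map_hom_eq_zero (Polynomial.evalRingHom (0 : L)) _ fun r => by
        rw [Polynomial.X_dvd_iff, Polynomial.coeff_zero_eq_eval_zero]; rfl, map_sub, hi', sub_self]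
    obtain ⟨g, hg⟩ := h2
    have h3 : p = homogeneousComponent c i + (Polynomial.X : Polynomial L) •
        homogeneousComponent c g := by
      rw [← map_smul, ← map_add, smul_eq_C_mul, ← hg, add_sub_cancel,
        homogeneousComponent_eq_self hp']
    rw [h3]
    exact Submodule.add_mem_sup (hI' i hi) (Submodule.smul_mem_smul
      (Ideal.mem_span_singleton_self _) (homogeneousComponent_mem c g))
  obtain ⟨r, hr1, hr2⟩ := Submodule.exists_sub_one_mem_and_smul_le_of_fg_of_le_sup
    (homogeneousSubmodule_fg σ (Polynomial L) c) le_rfl key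
  have hr0 : r ≠ 0 := by
    rintro rfl
    rw [Ideal.mem_span_singleton, Polynomial.X_dvd_iff] at hr1
    simp at hr1
  have hr3 : Polynomial.X * r ≠ 0 := mul_ne_zero Polynomial.X_ne_zero hr0
  obtain ⟨t, ht⟩ : ∃ t : L, (Polynomial.X * r).eval t ≠ 0 := by
    by_contra h
    push Not at h
    exact hr3 (Polynomial.funext fun t => by rw [h t, Polynomial.eval_zero])
  rw [Polynomial.eval_mul, Polynomial.eval_X] at ht
  refine ⟨t, left_ne_zero_of_mul ht, fun i => ⟨c, ?_⟩⟩
  have h1 : r • (X i ^ c : MvPolynomial σ (Polynomial L)) ∈ I :=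
    hr2 (Submodule.smul_mem_pointwise_smul _ r _ (isHomogeneous_X_pow i c))
  have h2 := Ideal.mem_map_of_mem (map (Polynomial.evalRingHom t)) h1
  rw [hmap, smul_eq_C_mul, map_mul, map_C, map_pow, map_X] at h2
  have h3 := Ideal.mul_mem_left _ (C (r.eval t)⁻¹) h2
  rwa [← mul_assoc, ← C_mul, Polynomial.coe_evalRingHom,
    inv_mul_cancel₀ (right_ne_zero_of_mul ht), C_1, one_mul] at h3

end Pool.Agent.Lib.MP_8b1d3b_lc.H13
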