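import Mathlib
import Pool.Agent.Lib.MP_8b1d3b_lc.Core

set_option autoImplicit false

namespace Pool.Agent.Lib.MP_8b1d3b_lc

open Finset MvPolynomial Module

theorem slp_reach {L σ : Type*} [Field L] {m : ℕ} (g : Fin (m + 1) → MvPolynomial σ L)
    (M : Finset (Fin (m + 1)))
    (hg : ∀ i : Fin (m + 1), (∃ v, g i = X v) ∨ (∃ c, g i = C c) ∨
      ∃ a b : Fin (m + 1), a < i ∧ b < i ∧
        (g i = g a + g b ∨ (∃ c, g i = C c * g a) ∨ (i ∈ M ∧ g i = g a * g b))) :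
    ∃ s ≤ M.card, ∃ W, Reach s (aff σ L) W ∧ ∀ i, g i ∈ W := by
  have key : ∀ k ≤ m + 1, ∃ s ≤ (M.filter fun i => i.val < k).card, ∃ W,
      Reach s (aff σ L) W ∧ ∀ i : Fin (m + 1), i.val < k → g i ∈ W := by
    intro k
    induction k with
    | zero => exact fun _ => ⟨0, Nat.zero_le _, _, Reach.refl _, fun i hi => by omega⟩
    | succ k ih =>
      intro hk
      obtain ⟨s, hs, W, hW, hgW⟩ := ih (by omega)
      let i0 : Fin (m + 1) := ⟨k, by omega⟩
      have hsub : (M.filter fun i => i.val < k) ⊆ M.filter fun i => i.val < k + 1 := by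
        intro i hi
        rw [mem_filter] at hi ⊢
        exact ⟨hi.1, by omega⟩
      have easy : g i0 ∈ W → ∃ s ≤ (M.filter fun i => i.val < k + 1).card, ∃ W,
          Reach s (aff σ L) W ∧ ∀ i : Fin (m + 1), i.val < k + 1 → g i ∈ W := by
        intro h
        refine ⟨s, hs.trans (card_le_card hsub), W, hW, fun i hi => ?_⟩
        by_cases h' : i.val < k
        · exact hgW i h'
        · have : i = i0 := Fin.ext (by simp only [i0]; omega)
          rwa [this]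
      rcases hg i0 with ⟨v, h⟩ | ⟨c, h⟩ | ⟨a, b, ha, hb, h | ⟨c, h⟩ | ⟨hM, h⟩⟩
      · exact easy (h ▸ hW.le (X_mem_aff v))
      · exact easy (h ▸ hW.le (C_mem_aff c))
      · exact easy (h ▸ W.add_mem (hgW a ha) (hgW b hb))
      · refine easy ?_
        rw [h, ← smul_eq_C_mul]
        exact W.smul_mem c (hgW a ha)
      · refine ⟨s + 1, ?_, _, hW.snoc (hgW a ha) (hgW b hb), fun i hi => ?_⟩
        · refine Nat.succ_le_of_lt (hs.trans_lt (card_lt_card ⟨hsub, fun h' => ?_⟩))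
          have := h' (mem_filter.mpr ⟨hM, by simp [i0]⟩)
          simp [i0] at this
        · by_cases h' : i.val < k
          · exact Submodule.mem_sup_left (hgW i h')
          · have : i = i0 := Fin.ext (by simp only [i0]; omega)
            rw [this, h]
            exact Submodule.mem_sup_right (Submodule.mem_span_singleton_self _)
  obtain ⟨s, hs, W, hW, hgW⟩ := key (m + 1) le_rfl
  exact ⟨s, hs.trans (card_filter_le _ _), W, hW, fun i => hgW i i.2⟩

theorem numeric {D m r s a : ℕ} (hD : 9 ≤ D) (hlog : 24 ≤ Real.log D) (ha : a ≤ 9 * D)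
    (hr : 4 * r ≤ m) (hm : 1 ≤ m) (h : D ^ m ≤ 2 ^ (3 * s) * (a * D) ^ r * 3 ^ (m + 1)) :
    (m : ℝ) * Real.log D ≤ 24 * s := by
  have h1 : a * D ≤ D ^ 3 := by
    calc a * D ≤ 9 * D * D := Nat.mul_le_mul_right _ ha
      _ ≤ D * D * D := Nat.mul_le_mul_right _ (Nat.mul_le_mul_right _ hD)
      _ = D ^ 3 := by ring
  have h2 : D ^ m ≤ 2 ^ (3 * s) * D ^ (3 * r) * 3 ^ (m + 1) := by
    refine h.trans (Nat.mul_le_mul_right _ (Nat.mul_le_mul_left _ ?_))
    rw [pow_mul]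
    exact Nat.pow_le_pow_left h1 r
  have hD0 : (0 : ℝ) < D := by positivity
  have h3 : ((D : ℝ)) ^ m ≤ 2 ^ (3 * s) * (D : ℝ) ^ (3 * r) * 3 ^ (m + 1) := by exact_mod_cast h2
  have h4 := Real.log_le_log (by positivity) h3
  rw [Real.log_mul (by positivity) (by positivity), Real.log_mul (by positivity) (by positivity),
    Real.log_pow, Real.log_pow, Real.log_pow, Real.log_pow] at h4
  have l2 : Real.log 2 ≤ 1 := by
    have := Real.log_two_lt_d9; linarith
  have l3 : Real.log 3 ≤ 3 / 2 := by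
    have h5 : Real.log 3 ≤ Real.log 4 := Real.log_le_log (by norm_num) (by norm_num)
    have h6 : Real.log 4 = 2 * Real.log 2 := by
      rw [show (4 : ℝ) = 2 ^ 2 by norm_num, Real.log_pow]; norm_num
    have := Real.log_two_lt_d9; linarith
  have hr' : 4 * (r : ℝ) ≤ m := by exact_mod_cast hr
  have hm' : (1 : ℝ) ≤ m := by exact_mod_cast hm
  have hs' : (0 : ℝ) ≤ s := by positivity
  push_cast at h4
  have e1 : 3 * (s : ℝ) * Real.log 2 ≤ 3 * s := by nlinarith
  have e2 : ((m : ℝ) + 1) * Real.log 3 ≤ 3 * m := by nlinarith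
  have e3 : 3 * (r : ℝ) * Real.log D ≤ 3 / 4 * (m * Real.log D) := by nlinarith
  have e4 : 24 * (m : ℝ) ≤ m * Real.log D := by nlinarith
  linarith

theorem main_alg_closed : ∃ n₀ : ℕ, ∀ (L : Type*) [Field L] [CharZero L] [IsAlgClosed L],
    ∀ n ≥ n₀, ∀ (s : ℕ) (W : Submodule L (MvPolynomial (Fin n × Fin n) L)),
      Reach s (aff (Fin n × Fin n) L) W →
      Matrix.permanent (Matrix.of fun i j : Fin n =>
        (X (i, j) : MvPolynomial (Fin n × Fin n) L)) ∈ W →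
      (n : ℝ) ^ 2 * Real.log (Real.log n) ≤ 384 * s := by
  obtain ⟨D0, hD0⟩ := exists_nat_ge (Real.exp 24 + 11)
  refine ⟨2 ^ (10 * D0), fun L _ _ _ N hN s W hW hper => ?_⟩
  have hN0 : N ≠ 0 := by
    have : 0 < 2 ^ (10 * D0) := by positivity
    omega
  obtain ⟨l, hl⟩ : ∃ l, l = Nat.log 2 N := ⟨_, rfl⟩
  have hl1 : 10 * D0 ≤ l := hl ▸ Nat.le_log_of_pow_le (by norm_num) hN
  have hl2 : 2 ^ l ≤ N := hl ▸ Nat.pow_log_le_self 2 hN0
  have hl3 : N < 2 ^ (l + 1) := hl ▸ Nat.lt_pow_succ_log_self (by norm_num) N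
  obtain ⟨D, hD⟩ : ∃ D, D = l / 10 := ⟨_, rfl⟩
  have hD1 : D0 ≤ D := by omega
  have hD0' : (11 : ℝ) ≤ D0 := by have := Real.exp_pos 24; linarith
  have hD2 : 11 ≤ D := le_trans (by exact_mod_cast hD0') hD1
  have hD3 : (D0 : ℝ) ≤ D := by exact_mod_cast hD1
  have hlog : 24 ≤ Real.log D := by
    rw [Real.le_log_iff_exp_le (by positivity)]
    linarith
  obtain ⟨a, ha⟩ : ∃ a, a = 7 * D + (D + 1) := ⟨_, rfl⟩
  have h2a : 2 * 2 ^ a ≤ N := by
    refine le_trans ?_ hl2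
    rw [← pow_succ']
    exact Nat.pow_le_pow_right (by norm_num) (by omega)
  have h2a' : 2 * a ≤ 2 ^ a := by
    obtain ⟨a', rfl⟩ : ∃ a', a = a' + 1 := ⟨7 * D + D, by omega⟩
    have := Nat.lt_two_pow_self (n := a')
    rw [pow_succ]; omega
  obtain ⟨k, hk⟩ : ∃ k, k = N / (2 * a) := ⟨_, rfl⟩
  have hk1 : 2 * (k * a) ≤ N := by
    have := Nat.div_mul_le_self N (2 * a)
    rw [← hk] at this; nlinarith
  have hk2 : N < 2 * (k * a) + 2 * a := by
    have := Nat.lt_div_mul_add (a := N) (b := 2 * a) (by omega)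
    rw [← hk] at this; nlinarith
  obtain ⟨n', hn'⟩ : ∃ n', N = k * a + (n' + (D + 1)) := ⟨N - k * a - (D + 1), by omega⟩
  obtain ⟨n1, hn1⟩ : ∃ n1, n1 = n' + (D + 1) := ⟨_, rfl⟩
  have hNZ : NeZero ((D + 1 : ℕ) : L) := ⟨Nat.cast_ne_zero.mpr (Nat.succ_ne_zero D)⟩
  obtain ⟨ζ, hζ⟩ := HasEnoughRootsOfUnity.exists_primitiveRoot L (D + 1)
  let eR : Fin N ≃ (Fin k × Fin a) ⊕ Fin (D + 1) ⊕ Fin n' :=
    Fintype.equivOfCardEq (by simp; omega)
  let eC : Fin N ≃ Fin n1 ⊕ (Fin k × Fin (7 * D)) ⊕ (Fin k × Fin (D + 1)) :=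
    Fintype.equivOfCardEq (by
      simp only [Fintype.card_fin, Fintype.card_sum, Fintype.card_prod]
      rw [← mul_add, ← ha]; omega)
  have key := core_bound (D := D) (by omega) hζ (by simpa using ha) (by simpa using hn1)
    eR eC hW hper
  simp only [Fintype.card_fin] at key
  have hm8 : N ^ 2 ≤ 8 * (k * a * n1) := by
    have e1 : N ≤ 4 * (k * a) := by omega
    have e2 : N ≤ 2 * n1 := by omega
    calc N ^ 2 = N * N := by ring
      _ ≤ (4 * (k * a)) * (2 * n1) := Nat.mul_le_mul e1 e2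
      _ = 8 * (k * a * n1) := by ring
  have hm1 : 1 ≤ k * a * n1 := by
    have : 0 < N ^ 2 := by positivity
    omega
  have hr : 4 * (k * 2 ^ a + k * n1 * D) ≤ k * a * n1 := by
    have e1 : 2 ^ a ≤ n1 * D := le_trans (by omega) (Nat.le_mul_of_pos_right n1 (by omega))
    have e2 : k * 2 ^ a ≤ k * (n1 * D) := Nat.mul_le_mul_left _ e1
    have e3 : k * n1 * (8 * D) ≤ k * n1 * a := Nat.mul_le_mul_left _ (by omega)
    nlinarith
  have h5 := numeric (by omega) hlog (by omega) hr hm1 key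
  have hll : Real.log (Real.log N) ≤ 2 * Real.log D := by
    have hN1 : (1 : ℝ) < N := by
      have : 2 ≤ N := le_trans (Nat.le_mul_of_pos_right 2 (by positivity)) h2a
      exact_mod_cast this
    have e1 : Real.log N ≤ (l + 1 : ℕ) * Real.log 2 := by
      rw [← Real.log_pow]
      exact Real.log_le_log (by positivity) (by exact_mod_cast hl3.le)
    have e2 : l + 1 ≤ D ^ 2 := by nlinarith [show l + 1 ≤ 10 * D + 10 by omega]
    have e3 : ((l + 1 : ℕ) : ℝ) ≤ (D : ℝ) ^ 2 := by exact_mod_cast e2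
    have l2 : Real.log 2 ≤ 1 := by
      have := Real.log_two_lt_d9; linarith
    have e4 : Real.log N ≤ (D : ℝ) ^ 2 := by
      have : (0 : ℝ) ≤ (l + 1 : ℕ) := by positivity
      nlinarith
    have e5 := Real.log_le_log (Real.log_pos hN1) e4
    rw [Real.log_pow] at e5
    exact_mod_cast e5
  have hm8' : (N : ℝ) ^ 2 ≤ 8 * ((k * a * n1 : ℕ) : ℝ) := by exact_mod_cast hm8
  calc (N : ℝ) ^ 2 * Real.log (Real.log N) ≤ (N : ℝ) ^ 2 * (2 * Real.log D) :=
        mul_le_mul_of_nonneg_left hll (by positivity)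
    _ ≤ (8 * ((k * a * n1 : ℕ) : ℝ)) * (2 * Real.log D) :=
        mul_le_mul_of_nonneg_right hm8' (by linarith)
    _ ≤ 384 * s := by linarith

theorem main : ∃ n₀ : ℕ, ∀ (K : Type*) [Field K] [CharZero K],
    ∀ n ≥ n₀, ∀ (m : ℕ) (g : Fin (m + 1) → MvPolynomial (Fin n × Fin n) K)
      (M : Finset (Fin (m + 1))),
      (∀ i : Fin (m + 1), (∃ v, g i = X v) ∨ (∃ c, g i = C c) ∨
        ∃ a b : Fin (m + 1), a < i ∧ b < i ∧
          (g i = g a + g b ∨ (∃ c, g i = C c * g a) ∨ (i ∈ M ∧ g i = g a * g b))) →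
      g (Fin.last m) = Matrix.permanent (Matrix.of fun i j : Fin n =>
        (X (i, j) : MvPolynomial (Fin n × Fin n) K)) →
      (n : ℝ) ^ 2 * Real.log (Real.log n) ≤ 384 * M.card := by
  obtain ⟨n₀, h⟩ := main_alg_closed
  refine ⟨n₀, fun K _ _ n hn m g M hg hper => ?_⟩
  let L := AlgebraicClosure K
  let φ : MvPolynomial (Fin n × Fin n) K →+* MvPolynomial (Fin n × Fin n) L :=
    MvPolynomial.map (algebraMap K L)
  obtain ⟨s, hs, W, hW, hgW⟩ := slp_reach (fun i => φ (g i)) M (by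
    intro i
    rcases hg i with ⟨v, h⟩ | ⟨c, h⟩ | ⟨a, b, ha, hb, h | ⟨c, h⟩ | ⟨hM, h⟩⟩
    · exact Or.inl ⟨v, by simp [h, φ]⟩
    · exact Or.inr (Or.inl ⟨algebraMap K L c, by simp [h, φ]⟩)
    · exact Or.inr (Or.inr ⟨a, b, ha, hb, Or.inl (by simp only [h, map_add])⟩)
    · exact Or.inr (Or.inr ⟨a, b, ha, hb, Or.inr (Or.inl ⟨algebraMap K L c, by
        simp only [h, map_mul, φ, map_C]⟩)⟩)
    · exact Or.inr (Or.inr ⟨a, b, ha, hb, Or.inr (Or.inr ⟨hM, by simp only [h, map_mul]⟩)⟩))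
  have h1 := h L n hn s W hW (by
    have := hgW (Fin.last m)
    rw [hper] at this
    simpa [Matrix.permanent, φ] using this)
  have h2 : (s : ℝ) ≤ M.card := by exact_mod_cast hs
  linarith

end Pool.Agent.Lib.MP_8b1d3b_lc
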