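import Mathlib
import Pool.Agent.Lib.MP_8b1d3b_lc.Main
import Pool.Agent.Lib.MP_8b1d3b_lc.H13Nest
import Pool.Agent.Lib.MP_8b1d3b_lc.H13Open

set_option autoImplicit false

namespace Pool.Agent.Lib.MP_8b1d3b_lc.H13

open Finset MvPolynomial Module

section

variable {R G α : Type*} [CommRing R] [DecidableEq α]

/-- The elementary symmetric polynomial in the variables of one group. -/
noncomputable def esy (R : Type*) [CommRing R] (g : G) (T : Finset α) (ρ : ℕ) :
    MvPolynomial (G × α) R :=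
  ∑ J ∈ powersetCard ρ T, ∏ r ∈ J, X (g, r)

omit [DecidableEq α] in
theorem esy_isHomogeneous (g : G) (T : Finset α) (ρ : ℕ) : (esy R g T ρ).IsHomogeneous ρ := by
  refine IsHomogeneous.sum _ _ _ fun J hJ => ?_
  have := IsHomogeneous.prod J (fun r => (X (g, r) : MvPolynomial (G × α) R)) (fun _ => 1)
    fun r _ => isHomogeneous_X _ _
  rwa [sum_const, smul_eq_mul, mul_one, (mem_powersetCard.mp hJ).2] at this

omit [DecidableEq α] in
theorem map_esy {R' : Type*} [CommRing R'] (f : R →+* R') (g : G) (T : Finset α) (ρ : ℕ) :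
    map f (esy R g T ρ) = esy R' g T ρ := by
  simp [esy]

theorem pderiv_prod_X_eq_zero (v : G × α) (g : G) (J : Finset α) (h : ∀ r ∈ J, (g, r) ≠ v) :
    pderiv v (∏ r ∈ J, (X (g, r) : MvPolynomial (G × α) R)) = 0 := by
  induction J using Finset.induction_on with
  | empty => simp
  | insert i J hi ih =>
    rw [prod_insert hi, Derivation.leibniz, ih fun r hr => h r (mem_insert_of_mem hr),
      pderiv_X_of_ne (h i (mem_insert_self _ _)), smul_zero, smul_zero, add_zero]

theorem pderiv_esy_of_ne {g g0 : G} (h : g ≠ g0) (i0 : α) (T : Finset α) (ρ : ℕ) :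
    pderiv (g0, i0) (esy R g T ρ) = 0 := by
  rw [esy, map_sum]
  exact sum_eq_zero fun J _ => pderiv_prod_X_eq_zero _ _ _ fun r _ h' => h (Prod.mk.inj h').1

theorem pderiv_esy_self (g : G) {i0 : α} {T : Finset α} (hi : i0 ∈ T) (ρ : ℕ) :
    pderiv (g, i0) (esy R g T (ρ + 1)) = esy R g (T.erase i0) ρ := by
  rw [esy, map_sum, esy, ← sum_filter_add_sum_filter_not _ (fun J => i0 ∈ J),
    sum_eq_zero (s := filter (fun J => ¬ i0 ∈ J) _), add_zero]
  · refine sum_nbij' (fun J => J.erase i0) (fun J => insert i0 J) ?_ ?_ ?_ ?_ ?_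
    · intro J hJ
      obtain ⟨h1, h2⟩ := mem_filter.mp hJ
      obtain ⟨h3, h4⟩ := mem_powersetCard.mp h1
      exact mem_powersetCard.mpr ⟨erase_subset_erase _ h3, by
        rw [card_erase_of_mem h2, h4, Nat.add_sub_cancel]⟩
    · intro J hJ
      obtain ⟨h3, h4⟩ := mem_powersetCard.mp hJ
      have h5 : i0 ∉ J := fun h => notMem_erase i0 T (h3 h)
      exact mem_filter.mpr ⟨mem_powersetCard.mpr ⟨insert_subset hi (h3.trans (erase_subset _ _)),
        by rw [card_insert_of_notMem h5, h4]⟩, mem_insert_self _ _⟩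
    · intro J hJ
      exact insert_erase (mem_filter.mp hJ).2
    · intro J hJ
      exact erase_insert fun h => notMem_erase i0 T ((mem_powersetCard.mp hJ).1 h)
    · intro J hJ
      rw [← mul_prod_erase _ _ (mem_filter.mp hJ).2, Derivation.leibniz,
        pderiv_prod_X_eq_zero _ _ _ fun r hr h' => ne_of_mem_erase hr (Prod.mk.inj h').2,
        pderiv_X_self, smul_zero, zero_add, smul_eq_mul, mul_one]
  · intro J hJ
    exact pderiv_prod_X_eq_zero _ _ _ fun r hr h' =>
      (mem_filter.mp hJ).2 ((Prod.mk.inj h').2 ▸ hr)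

end

section

variable {R : Type*} [CommRing R] {q : ℕ}

/-- A band of `q` weighted diagonals of variables. -/
noncomputable def band (wt : Fin q → R) (a b : Fin q) :
    Fin q → Fin (2 * q) → MvPolynomial ((Fin q × Fin q × Fin q) × Fin q) R :=
  fun i c => ∑ δ : Fin q, if (c : ℕ) = i + δ then C (wt δ) * X ((a, b, δ), i) else 0

theorem band_isHomogeneous (wt : Fin q → R) (a b i : Fin q) (c : Fin (2 * q)) :
    (band wt a b i c).IsHomogeneous 1 := by
  refine IsHomogeneous.sum _ _ _ fun δ _ => ?_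
  split_ifs
  · exact (isHomogeneous_X _ _).C_mul _
  · exact isHomogeneous_zero _ _ _

theorem map_band {R' : Type*} [CommRing R'] (f : R →+* R') (wt : Fin q → R) (a b i : Fin q)
    (c : Fin (2 * q)) : map f (band wt a b i c) = band (fun δ => f (wt δ)) a b i c := by
  rw [band, map_sum]
  refine sum_congr rfl fun δ _ => ?_
  split_ifs <;> simp

/-- The square of the distance. -/
def sqd (δ z : Fin q) : ℕ := ((δ : ℤ) - z).natAbs ^ 2

theorem sqd_add (δ z : Fin q) : sqd δ z + 2 * z * δ = δ ^ 2 + z ^ 2 := by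
  zify [sqd]
  rw [sq_abs]
  ring

/-- The shift embedding. -/
def shift (z : Fin q) : Fin q ↪ Fin (2 * q) :=
  ⟨fun i => ⟨i + z, by omega⟩, fun i j h => Fin.ext (by simpa using h)⟩

theorem band_zero (a b z : Fin q) : band (fun δ => (0 : R) ^ sqd δ z) a b =
    fun i c => if c = shift z i then X ((a, b, z), i) else 0 := by
  funext i c
  rw [band, sum_eq_single z]
  · have e : (c = shift z i) ↔ ((c : ℕ) = i + z) := Fin.ext_iff
    simp [sqd, e]
  · intro δ _ hδ
    have : sqd δ z ≠ 0 := by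
      have : (δ : ℕ) ≠ z := fun h => hδ (Fin.ext h)
      simp only [sqd, ne_eq, pow_eq_zero_iff (two_ne_zero), Int.natAbs_eq_zero]
      omega
    simp [this]
  · simp

theorem band_scale (t ti k ki : R) (ht : t * ti = 1) (hk : k * ki = 1) (a b z : Fin q) :
    band (fun δ => t ^ ((δ : ℕ) ^ 2)) a b = fun (i : Fin q) (c : Fin (2 * q)) =>
      C (ti ^ (2 * z * i + (z : ℕ) ^ 2) * ki) * band (fun δ => t ^ sqd δ z) a b i c *
        C (t ^ (2 * z * (c : ℕ)) * k) := by
  funext i c
  rw [band, band, mul_sum, sum_mul]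
  refine sum_congr rfl fun δ _ => ?_
  split_ifs with h
  · have e1 : t ^ sqd δ z * t ^ (2 * z * (c : ℕ)) =
        t ^ ((δ : ℕ) ^ 2) * t ^ (2 * z * i + (z : ℕ) ^ 2) := by
      rw [← pow_add, ← pow_add, h]
      congr 1
      have := sqd_add δ z
      nlinarith
    have e2 : t ^ (2 * z * i + (z : ℕ) ^ 2) * ti ^ (2 * z * i + (z : ℕ) ^ 2) = 1 := by
      rw [← mul_pow, ht, one_pow]
    have e3 : t ^ ((δ : ℕ) ^ 2) = ti ^ (2 * z * i + (z : ℕ) ^ 2) * ki * t ^ sqd δ z *
        (t ^ (2 * z * (c : ℕ)) * k) := by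
      linear_combination (-(ti ^ (2 * z * i + (z : ℕ) ^ 2) * (k * ki))) * e1 -
        t ^ ((δ : ℕ) ^ 2) * (k * ki) * e2 - t ^ ((δ : ℕ) ^ 2) * hk
    rw [e3]
    simp only [C_mul]
    ring
  · simp

/-- The deformed sum of elementary symmetric polynomials. -/
noncomputable def fam (q d w : ℕ) (t : R) : MvPolynomial ((Fin q × Fin q × Fin q) × Fin q) R :=
  ∑ b : Fin q, ∑ a : Fin q, ∑ z : Fin q, core (Fin d) (Fin w) (band (fun δ => t ^ sqd δ z) a b)

theorem map_fam {R' : Type*} [CommRing R'] (f : R →+* R') (q d w : ℕ) (t : R) :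
    map f (fam q d w t) = fam q d w (f t) := by
  simp only [fam, map_sum, map_core, map_band, map_pow]

theorem fam_isHomogeneous (q d w : ℕ) (t : R) : (fam q d w t).IsHomogeneous d := by
  refine IsHomogeneous.sum _ _ _ fun b _ => IsHomogeneous.sum _ _ _ fun a _ =>
    IsHomogeneous.sum _ _ _ fun z _ => ?_
  simpa using core_isHomogeneous (Fin d) (Fin w) _ (band_isHomogeneous (fun δ => t ^ sqd δ z) a b)

theorem fam_zero {d w : ℕ} (h : d + w = 2 * q) : fam q d w (0 : R) =
    ((d.factorial * w.factorial : ℕ) : MvPolynomial _ R) * ∑ g, esy R g univ d := by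
  rw [fam, sum_comm, mul_sum, Fintype.sum_prod_type]
  refine sum_congr rfl fun a _ => ?_
  rw [Fintype.sum_prod_type]
  refine sum_congr rfl fun b _ => sum_congr rfl fun z _ => ?_
  rw [band_zero, core_diag _ _ (by simp [h])]
  simp [esy]

theorem pderiv_fam_zero {D w : ℕ} (h : D + 1 + w = 2 * q) (g : Fin q × Fin q × Fin q)
    (i : Fin q) : pderiv (g, i) (fam q (D + 1) w (0 : R)) =
      (((D + 1).factorial * w.factorial : ℕ) : MvPolynomial _ R) * esy R g (univ.erase i) D := by
  rw [fam_zero h, ← map_natCast (C : R →+* _), pderiv_C_mul, map_sum, sum_eq_single g,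
    pderiv_esy_self g (mem_univ i)]
  · intro g' _ hg
    exact pderiv_esy_of_ne hg _ _ _
  · simp

end

end Pool.Agent.Lib.MP_8b1d3b_lc.H13
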