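import Mathlib
import Pool.Agent.Lib.MP_8b1d3b_lc.H13Nest

set_option autoImplicit false

namespace Pool.Agent.Lib.MP_8b1d3b_lc.H13

open Finset

section

variable {S : Type*} [CommRing S]
variable {ι κ β J : Type*} {π : J → Type*} {p : J → ℕ}

/-- The lower part of the simultaneous summation gadget. -/
def mstarLow [DecidableEq β] [DecidableEq J] (g : (j : J) → Fin (p j) → S)
    (N : (j : J) → Option β → π j → κ → S) :
    (Σ j, Option β × π j) → κ ⊕ (Σ j, β × Fin (p j)) → S
  | ⟨j, o, i⟩, Sum.inl c => N j o i c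
  | ⟨j, none, _⟩, Sum.inr c => if j = c.1 then g c.1 c.2.2 else 0
  | ⟨j, some b, _⟩, Sum.inr c => if j = c.1 ∧ b = c.2.1 then 1 else 0

/-- The simultaneous summation gadget: the rows of layer `j` come in alternatives indexed by
`Option β`, and the permanent is the sum over all independent choices of alternatives. -/
def mstar [DecidableEq β] [DecidableEq J] (g : (j : J) → Fin (p j) → S) (M : ι → κ → S)
    (N : (j : J) → Option β → π j → κ → S) :
    ι ⊕ (Σ j, Option β × π j) → κ ⊕ (Σ j, β × Fin (p j)) → S :=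
  Sum.elim (ext0 _ M) (mstarLow g N)

theorem prod_add_sq_zero {A : Type*} [CommRing A] [Fintype β] [DecidableEq β]
    (m : Option β → A) (hy : m none * m none = 0) :
    ∏ b, (m (some b) + m none) = ∑ o, ∏ o' ∈ univ.erase o, m o' := by
  have h := prod_sub_sq_zero (fun b => m (some b)) (y := -m none) (by simpa using hy) univ
  simp only [sub_neg_eq_add, neg_mul] at h
  rw [h, Fintype.sum_option, mul_sum]
  have e0 : (univ : Finset (Option β)).erase none = univ.map Function.Embedding.some := by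
    ext o
    rcases o with _ | b <;> simp
  have e1 : ∀ b : β, (univ : Finset (Option β)).erase (some b) =
      insert none ((univ.erase b).map Function.Embedding.some) := by
    intro b
    ext o
    rcases o with _ | b <;> simp
  rw [e0, prod_map]
  congr 1
  refine sum_congr rfl fun b _ => ?_
  rw [e1, prod_insert (by simp), prod_map]
  rfl

variable [Fintype ι] [Fintype κ] [DecidableEq ι] [DecidableEq κ]
  [Fintype β] [DecidableEq β] [Fintype J] [DecidableEq J] [∀ j, Fintype (π j)]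
  [∀ j, DecidableEq (π j)]

theorem mstar_identity {A : Type*} [CommRing A] [Algebra S A] (hp : ∀ j, 0 < p j)
    (hπ : ∀ j, Fintype.card (π j) = p j)
    (hκ : Fintype.card κ = Fintype.card ι + ∑ j, p j) (g : (j : J) → Fin (p j) → S)
    (hg : ∀ j, ∀ z z0 : A, ∏ s, (z + g j s • z0) = z ^ p j + z0 ^ p j)
    (M : ι → κ → S) (N : (j : J) → Option β → π j → κ → S)
    {x : ι ⊕ (Σ j, Option β × π j) → A} (hx : ∀ r, x r * x r = 0) :
    ∏ c, ∑ r, mstar g M N r c • x r =
      (((∏ j, (p j).factorial ^ Fintype.card β : ℕ) : S) *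
        ∑ z : J → Option β, perm (Sum.elim M fun r : (Σ j, π j) => N r.1 (z r.1) r.2)) •
        ∏ r, x r := by
  set m : J → Option β → A := fun j o => ∏ i, x (Sum.inr ⟨j, o, i⟩) with hm
  have hcard : Fintype.card κ = Fintype.card (ι ⊕ (Σ j, π j)) := by simp [hκ, hπ]
  have hz : ∀ j o, (∑ i, x (Sum.inr ⟨j, o, i⟩)) ^ p j = ((p j).factorial : A) * m j o := by
    intro j o
    have := sum_pow_card (x := fun i => x (Sum.inr ⟨j, o, i⟩)) (fun i => hx _) univ
    rwa [card_univ, hπ] at this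
  have hmx : ∀ j o i, m j o * x (Sum.inr ⟨j, o, i⟩) = 0 := fun j o i =>
    prod_mul_eq_zero (x := fun i => x (Sum.inr ⟨j, o, i⟩)) (fun i => hx _) (mem_univ i)
  have hm0 : ∀ j, m j none * m j none = 0 := by
    intro j
    obtain ⟨i0⟩ : Nonempty (π j) := Fintype.card_pos_iff.mp (by rw [hπ]; exact hp j)
    nth_rewrite 2 [hm]
    simp only
    rw [← mul_prod_erase _ _ (mem_univ i0), ← mul_assoc, hmx, zero_mul]
  have e1 : ∀ (j : J) (b : β) (s : Fin (p j)), ∑ r, mstar g M N r (Sum.inr ⟨j, b, s⟩) • x r =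
      ∑ i, x (Sum.inr ⟨j, some b, i⟩) + g j s • ∑ i, x (Sum.inr ⟨j, none, i⟩) := by
    intro j b s
    simp only [Fintype.sum_sum_type, Fintype.sum_sigma, Fintype.sum_prod_type, Fintype.sum_option,
      mstar, ext0, Sum.elim_inl, Sum.elim_inr, mstarLow, zero_smul, sum_const_zero, zero_add]
    rw [sum_eq_single j]
    · simp only [true_and, if_true, ite_smul, one_smul, zero_smul, ← smul_sum]
      rw [sum_comm]
      simp only [sum_ite_eq', mem_univ, if_true]
      rw [add_comm]
    · intro j' _ hj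
      simp [hj]
    · simp
  have e2 : ∀ c : κ, ∑ r, mstar g M N r (Sum.inl c) • x r =
      ∑ r, M r c • x (Sum.inl r) + ∑ j, ∑ o, ∑ i, N j o i c • x (Sum.inr ⟨j, o, i⟩) := by
    intro c
    simp only [Fintype.sum_sum_type, Fintype.sum_sigma, Fintype.sum_prod_type,
      mstar, ext0, Sum.elim_inl, Sum.elim_inr, mstarLow]
  have e3 : ∏ c : (Σ j, β × Fin (p j)), ∑ r, mstar g M N r (Sum.inr c) • x r =
      (∏ j, ((p j).factorial : A) ^ Fintype.card β) *
        ∑ z : J → Option β, ∏ j, ∏ o ∈ univ.erase (z j), m j o := by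
    rw [← Fintype.piFinset_univ, ← prod_univ_sum (fun _ => univ)
      (fun j o => ∏ o' ∈ univ.erase o, m j o'), ← prod_mul_distrib, Fintype.prod_sigma]
    refine prod_congr rfl fun j _ => ?_
    rw [← prod_add_sq_zero (m j) (hm0 j), ← card_univ, ← prod_const,
      ← prod_mul_distrib, Fintype.prod_prod_type]
    refine prod_congr rfl fun b _ => ?_
    simp only [e1]
    rw [hg, hz, hz, mul_add]
  have e7 : ∀ z : J → Option β, (∏ j, ∏ o ∈ univ.erase (z j), m j o) *
      ∏ c : κ, ∑ r, mstar g M N r (Sum.inl c) • x r =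
      perm (Sum.elim M fun r : (Σ j, π j) => N r.1 (z r.1) r.2) • ∏ r, x r := by
    intro z
    have e5 := prod_sum_smul_eq_perm hcard (Sum.elim M fun r : (Σ j, π j) => N r.1 (z r.1) r.2)
      (x := Sum.elim (fun r => x (Sum.inl r)) fun r => x (Sum.inr ⟨r.1, z r.1, r.2⟩))
      (by rintro (r | r) <;> exact hx _)
    simp only [Fintype.sum_sum_type, Fintype.prod_sum_type, Sum.elim_inl, Sum.elim_inr,
      Fintype.sum_sigma, Fintype.prod_sigma] at e5
    rw [mul_prod_congr (β := fun c => ∑ r, M r c • x (Sum.inl r) +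
      ∑ j, ∑ i, N j (z j) i c • x (Sum.inr ⟨j, z j, i⟩)) univ, e5, mul_smul_comm,
      Fintype.prod_sum_type, Fintype.prod_sigma, mul_left_comm, ← prod_mul_distrib]
    · congr 2
      refine prod_congr rfl fun j _ => ?_
      rw [Fintype.prod_prod_type, ← mul_prod_erase _ _ (mem_univ (z j)), mul_comm]
    · intro c _
      rw [e2, mul_add, mul_add]
      refine congrArg₂ (· + ·) rfl ?_
      rw [mul_sum, mul_sum]
      refine sum_congr rfl fun j _ => ?_
      rw [← add_sum_erase _ _ (mem_univ (z j)), mul_add, add_eq_left, mul_sum]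
      refine sum_eq_zero fun o ho => ?_
      rw [mul_sum]
      refine sum_eq_zero fun i _ => ?_
      rw [mul_smul_comm, ← mul_prod_erase _ _ (mem_univ j), ← mul_prod_erase _ _ ho,
        mul_right_comm, mul_right_comm (m j o), hmx, zero_mul, zero_mul, smul_zero]
  rw [Fintype.prod_sum_type, e3, mul_comm, mul_assoc, sum_mul, sum_congr rfl fun z _ => e7 z,
    ← sum_smul, mul_smul, Algebra.smul_def ((∏ j, (p j).factorial ^ Fintype.card β : ℕ) : S),
    map_natCast, Nat.cast_prod]
  simp only [Nat.cast_pow]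

theorem exists_roots (L : Type*) [Field L] [CharZero L] [IsAlgClosed L] {n : ℕ} (hn : 0 < n) :
    ∃ ζ ω : L, IsPrimitiveRoot ζ n ∧ ω ^ n = -1 := by
  have hNZ : NeZero (n : L) := ⟨Nat.cast_ne_zero.mpr hn.ne'⟩
  obtain ⟨ζ, hζ⟩ := HasEnoughRootsOfUnity.exists_primitiveRoot L n
  obtain ⟨ω, hω⟩ := IsAlgClosed.exists_pow_nat_eq (-1 : L) hn
  exact ⟨ζ, ω, hζ, hω⟩

theorem prod_add_root {L S A : Type*} [Field L] [CommRing S] [CommRing A] [Algebra L S]
    [Algebra S A] {n : ℕ} (hn : 0 < n) {ζ ω : L} (hζ : IsPrimitiveRoot ζ n) (hω : ω ^ n = -1)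
    (z z0 : A) :
    ∏ s : Fin n, (z + algebraMap L S (-(ζ ^ (s : ℕ) * ω)) • z0) = z ^ n + z0 ^ n := by
  let f := (algebraMap S A).comp (algebraMap L S)
  have := prod_sub_root f hn hζ z (f ω * z0)
  rw [mul_pow, ← map_pow, hω, map_neg, map_one, neg_one_mul, sub_neg_eq_add] at this
  rw [← this]
  refine prod_congr rfl fun s _ => ?_
  simp only [f, Algebra.smul_def, map_neg, map_mul, RingHom.comp_apply]
  ring

theorem perm_mstar {L : Type*} [Field L] [Algebra L S] (hp : ∀ j, 0 < p j) {ζ ω : J → L}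
    (hζ : ∀ j, IsPrimitiveRoot (ζ j) (p j)) (hω : ∀ j, ω j ^ p j = -1)
    (hπ : ∀ j, Fintype.card (π j) = p j)
    (hκ : Fintype.card κ = Fintype.card ι + ∑ j, p j)
    (M : ι → κ → S) (N : (j : J) → Option β → π j → κ → S) :
    perm (mstar (fun j (s : Fin (p j)) => algebraMap L S (-(ζ j ^ (s : ℕ) * ω j))) M N) =
      ((∏ j, (p j).factorial ^ Fintype.card β : ℕ) : S) *
        ∑ z : J → Option β, perm (Sum.elim M fun r : (Σ j, π j) => N r.1 (z r.1) r.2) := by
  refine perm_eq_of (by
    simp only [Fintype.card_sum, Fintype.card_sigma, Fintype.card_prod, Fintype.card_option,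
      Fintype.card_fin, hκ, hπ, add_mul, one_mul, sum_add_distrib]
    ring) _ _ fun I x hx => ?_
  exact mstar_identity hp hπ hκ _ (fun j => prod_add_root (hp j) (hζ j) (hω j)) M N hx

end

section

variable {L S : Type*} [Field L] [CommRing S] [Algebra L S] {U : Submodule L S}
variable {ι κ β J : Type*} {π : J → Type*} {p : J → ℕ} [DecidableEq β] [DecidableEq J]

theorem mstarLow_mem (h1 : (1 : S) ∈ U) {g : (j : J) → Fin (p j) → S}
    (hg : ∀ j s, g j s ∈ U) {N : (j : J) → Option β → π j → κ → S} (hN : ∀ j o i c, N j o i c ∈ U)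
    (r : Σ j, Option β × π j) (c : κ ⊕ (Σ j, β × Fin (p j))) : mstarLow g N r c ∈ U := by
  rcases r with ⟨j, _ | b, i⟩ <;> rcases c with c | c
  · exact hN _ _ _ _
  · simp only [mstarLow]; split_ifs; exacts [hg _ _, U.zero_mem]
  · exact hN _ _ _ _
  · simp only [mstarLow]; split_ifs; exacts [h1, U.zero_mem]

theorem mstar_mem (h1 : (1 : S) ∈ U) {g : (j : J) → Fin (p j) → S}
    (hg : ∀ j s, g j s ∈ U) {M : ι → κ → S} (hM : ∀ r c, M r c ∈ U)
    {N : (j : J) → Option β → π j → κ → S} (hN : ∀ j o i c, N j o i c ∈ U)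
    (r : ι ⊕ (Σ j, Option β × π j)) (c : κ ⊕ (Σ j, β × Fin (p j))) : mstar g M N r c ∈ U := by
  rcases r with r | r
  · exact ext0_mem hM _ _
  · exact mstarLow_mem h1 hg hN _ _

end

end Pool.Agent.Lib.MP_8b1d3b_lc.H13
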