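import Mathlib
import Pool.Agent.Lib.MP_8b1d3b_lc.H13Multi

set_option autoImplicit false

namespace Pool.Agent.Lib.MP_8b1d3b_lc.H13

open Finset

section

variable {S A : Type*} [CommRing S] [CommRing A] [Algebra S A]

theorem chain_one (k : ℕ) (Y : Fin (k + 1) → A) (hY : ∀ i, Y i * Y i = 0) (w : Fin k → S) :
    (∏ j, (Y j.succ + w j • Y j.castSucc)) * Y (Fin.last k) =
      (∏ j, (Y j.succ + w j • Y j.castSucc)) * (∏ j, w j) • Y 0 ∧
    (∏ j, (Y j.succ + w j • Y j.castSucc)) * Y 0 = ∏ i, Y i := by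
  induction k with
  | zero => simp
  | succ k ih =>
    obtain ⟨h1, h2⟩ := ih (fun i => Y i.castSucc) (fun i => hY _) fun j => w j.castSucc
    have h3 := prod_mul_eq_zero (x := fun i : Fin (k + 1) => Y i.castSucc) (fun i => hY _)
      (mem_univ (Fin.last k))
    have h4 := hY (Fin.last (k + 1))
    have h5 := hY (Fin.last k).castSucc
    rw [Fin.prod_univ_castSucc (fun j => Y j.succ + w j • Y j.castSucc),
      Fin.prod_univ_castSucc w, Fin.prod_univ_castSucc Y, Fin.succ_last]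
    simp only [← Fin.succ_castSucc, Fin.castSucc_zero, Algebra.smul_def, map_mul] at h1 h2 ⊢
    set P := ∏ j : Fin k, (Y j.castSucc.succ +
      algebraMap S A (w j.castSucc) * Y j.castSucc.castSucc)
    constructor
    · linear_combination P * h4 - P * algebraMap S A (w (Fin.last k)) ^ 2 * h5 +
        (Y (Fin.last (k + 1)) + algebraMap S A (w (Fin.last k)) * Y (Fin.last k).castSucc) *
          algebraMap S A (w (Fin.last k)) * h1
    · linear_combination (Y (Fin.last (k + 1)) +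
        algebraMap S A (w (Fin.last k)) * Y (Fin.last k).castSucc) * h2 +
        algebraMap S A (w (Fin.last k)) * h3

theorem quad_one {y y' : A} (hy : y * y = 0) (hy' : y' * y' = 0) (τ : S) {v : ℕ} (hv : v ≤ 1)
    (v' : ℕ) : ((1 - (v : S)) • y + (v : S) • y') * (τ ^ v' • y + y') = τ ^ (v * v') • (y * y') := by
  simp only [Algebra.smul_def]
  interval_cases v
  · simp only [Nat.cast_zero, sub_zero, map_one, map_zero, zero_mul, pow_zero]
    linear_combination algebraMap S A (τ ^ v') * hy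
  · simp only [Nat.cast_one, sub_self, map_one, map_zero, one_mul]
    linear_combination hy'

end

section

variable {S : Type*} [CommRing S] {κ ι₁ ι₂ : Type*} {k : ℕ}

/-- The copies of the columns at the successive levels. -/
def lev (κ : Type*) (k : ℕ) (i : Fin (k + 1)) (c : κ) :
    κ ⊕ ((Fin k × κ) ⊕ (Fin k × Fin k × Bool)) :=
  Fin.cases (Sum.inl c) (fun j => Sum.inr (Sum.inl (j, c))) i

/-- Rows acting on the top level. -/
def topRows [Fintype κ] [DecidableEq κ] (k : ℕ) (B : ι₂ → κ → S) :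
    ι₂ → κ ⊕ ((Fin k × κ) ⊕ (Fin k × Fin k × Bool)) → S :=
  fun r col => ∑ c, if col = lev κ k (Fin.last k) c then B r c else 0

/-- The rows of one layer: relay rows and rows of the two by two blocks. -/
def layer [DecidableEq κ] (w : κ → S) (τ : Fin k → Fin k → S) (j : Fin k) (v : ℕ) :
    κ ⊕ (Fin k ⊕ Fin k) → κ ⊕ ((Fin k × κ) ⊕ (Fin k × Fin k × Bool)) → S
  | Sum.inl c, col => (if col = lev κ k j.succ c then 1 else 0) +
      (if col = lev κ k j.castSucc c then w c ^ (v * 2 ^ (j : ℕ)) else 0)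
  | Sum.inr (Sum.inl j'), col =>
      (if col = Sum.inr (Sum.inr (j, j', false)) then 1 - (v : S) else 0) +
      (if col = Sum.inr (Sum.inr (j, j', true)) then (v : S) else 0)
  | Sum.inr (Sum.inr j'), col =>
      (if col = Sum.inr (Sum.inr (j', j, false)) then τ j' j ^ v else 0) +
      (if col = Sum.inr (Sum.inr (j', j, true)) then 1 else 0)

variable [Fintype κ] [DecidableEq κ] [Fintype ι₁] [DecidableEq ι₁] [Fintype ι₂] [DecidableEq ι₂]

theorem layer_identity {A : Type*} [CommRing A] [Algebra S A]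
    (hκ : Fintype.card κ = Fintype.card ι₁ + Fintype.card ι₂)
    (M : ι₁ → κ → S) (B : ι₂ → κ → S) (w : κ → S) (τ : Fin k → Fin k → S) (v : Fin k → ℕ)
    (hv : ∀ j, v j ≤ 1) {y : κ ⊕ ((Fin k × κ) ⊕ (Fin k × Fin k × Bool)) → A}
    (hy : ∀ c, y c * y c = 0) :
    ∏ r, ∑ c, (Sum.elim (Sum.elim (ext0 _ M) (topRows k B))
      fun r : (Σ _ : Fin k, κ ⊕ (Fin k ⊕ Fin k)) => layer w τ r.1 (v r.1) r.2) r c • y c =
    ((∏ i, ∏ j, τ i j ^ (v i * v j)) *
      perm (Sum.elim M fun r c => B r c * w c ^ (∑ j, v j * 2 ^ (j : ℕ)))) • ∏ c, y c := by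
  set Y : κ → Fin (k + 1) → A := fun c i => y (lev κ k i c) with hYd
  have hY : ∀ c i, Y c i * Y c i = 0 := fun c i => hy _
  set P : κ → A := fun c => ∏ j : Fin k,
    (Y c j.succ + w c ^ (v j * 2 ^ (j : ℕ)) • Y c j.castSucc) with hP
  have e1 : ∀ r, ∑ c, ext0 ((Fin k × κ) ⊕ (Fin k × Fin k × Bool)) M r c • y c =
      ∑ c, M r c • Y c 0 := by
    intro r
    simp [Fintype.sum_sum_type, ext0, hYd, lev]
  have e2 : ∀ r, ∑ c, topRows k B r c • y c = ∑ c, B r c • Y c (Fin.last k) := by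
    intro r
    simp only [topRows, sum_smul]
    rw [sum_comm]
    simp only [ite_smul, zero_smul, sum_ite_eq', mem_univ, if_true, hYd]
  have e3 : ∏ r : (Σ _ : Fin k, κ ⊕ (Fin k ⊕ Fin k)), ∑ c, layer w τ r.1 (v r.1) r.2 c • y c =
      (∏ c, P c) * ((∏ i, ∏ j, τ i j ^ (v i * v j)) •
        ∏ c : Fin k × Fin k × Bool, y (Sum.inr (Sum.inr c))) := by
    simp only [Fintype.prod_sigma, Fintype.prod_sum_type, layer, add_smul, sum_add_distrib,
      ite_smul, zero_smul, one_smul, sum_ite_eq', mem_univ, if_true, prod_mul_distrib]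
    refine congrArg₂ (· * ·) prod_comm ?_
    rw [prod_comm (f := fun j j' : Fin k => τ j' j ^ v j • y (Sum.inr (Sum.inr (j', j, false))) +
      y (Sum.inr (Sum.inr (j', j, true)))), ← prod_mul_distrib, Fintype.prod_prod_type,
      ← prod_smul]
    refine prod_congr rfl fun i _ => ?_
    rw [← prod_mul_distrib, Fintype.prod_prod_type, ← prod_smul]
    refine prod_congr rfl fun j _ => ?_
    rw [quad_one (hy _) (hy _) _ (hv i), Fintype.prod_bool, mul_comm (y _)]
  have e4 : ∀ r, (∏ c, P c) * ∑ c, B r c • Y c (Fin.last k) =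
      (∏ c, P c) * ∑ c, (B r c * w c ^ (∑ j, v j * 2 ^ (j : ℕ))) • Y c 0 := by
    intro r
    rw [mul_sum, mul_sum]
    refine sum_congr rfl fun c _ => ?_
    have h := (chain_one k (Y c) (hY c) fun j => w c ^ (v j * 2 ^ (j : ℕ))).1
    rw [prod_pow_eq_pow_sum] at h
    rw [← mul_prod_erase _ _ (mem_univ c), mul_smul, mul_smul_comm (B r c), mul_smul_comm (B r c),
      mul_right_comm, h, mul_right_comm]
  have e5 := prod_sum_smul_eq_perm (ι := κ) (κ := ι₁ ⊕ ι₂) (by simp [hκ])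
    (fun c r => (Sum.elim M fun r c => B r c * w c ^ (∑ j, v j * 2 ^ (j : ℕ))) r c)
    (x := fun c => Y c 0) fun c => hY c 0
  rw [perm_transpose, Fintype.prod_sum_type] at e5
  simp only [Sum.elim_inl, Sum.elim_inr] at e5
  have e6 : (∏ c, P c) * ∏ c, Y c 0 = (∏ c, y (Sum.inl c)) *
      ∏ c : Fin k × κ, y (Sum.inr (Sum.inl c)) := by
    rw [← prod_mul_distrib, Fintype.prod_prod_type, prod_comm, ← prod_mul_distrib]
    refine prod_congr rfl fun c _ => ?_
    rw [(chain_one k (Y c) (hY c) fun j => w c ^ (v j * 2 ^ (j : ℕ))).2, Fin.prod_univ_succ]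
    simp [hYd, lev]
  have e7 := mul_prod_congr (univ : Finset ι₂) fun r _ => e4 r
  rw [Fintype.prod_sum_type, Fintype.prod_sum_type, Fintype.prod_sum_type y,
    Fintype.prod_sum_type]
  simp only [Sum.elim_inl, Sum.elim_inr, e1, e2, e3]
  simp only [Algebra.smul_def (A := A) (∏ i, ∏ j, τ i j ^ (v i * v j)), mul_smul]
  rw [Algebra.smul_def (perm _)] at e5 ⊢
  linear_combination (algebraMap S A (∏ i, ∏ j, τ i j ^ (v i * v j)) *
      ∏ c : Fin k × Fin k × Bool, y (Sum.inr (Sum.inr c))) * ((∏ r, ∑ c, M r c • Y c 0) * e7 +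
      (∏ c, P c) * e5 + algebraMap S A
        (perm (Sum.elim M fun r c => B r c * w c ^ (∑ j, v j * 2 ^ (j : ℕ)))) * e6)

theorem perm_layer (hκ : Fintype.card κ = Fintype.card ι₁ + Fintype.card ι₂)
    (M : ι₁ → κ → S) (B : ι₂ → κ → S) (w : κ → S) (τ : Fin k → Fin k → S) (v : Fin k → ℕ)
    (hv : ∀ j, v j ≤ 1) :
    perm (Sum.elim (Sum.elim (ext0 _ M) (topRows k B))
      fun r : (Σ _ : Fin k, κ ⊕ (Fin k ⊕ Fin k)) => layer w τ r.1 (v r.1) r.2) =
    (∏ i, ∏ j, τ i j ^ (v i * v j)) *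
      perm (Sum.elim M fun r c => B r c * w c ^ (∑ j, v j * 2 ^ (j : ℕ))) := by
  rw [← perm_transpose]
  exact perm_eq_of (by simp [hκ]; ring) _ _ fun I y hy => layer_identity hκ M B w τ v hv hy

end

end Pool.Agent.Lib.MP_8b1d3b_lc.H13
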