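import Mathlib
import Pool.Agent.Lib.MP_8b1d3b_lc.H13Chain

set_option autoImplicit false

namespace Pool.Agent.Lib.MP_8b1d3b_lc.H13

open Finset

section

variable {L S : Type*} [Field L] [CommRing S] [Algebra L S] {U : Submodule L S}

theorem exists_normalize {n : ℕ} (hn : 0 < n) {f : S}
    (h : ∃ M : Matrix (Fin n) (Fin n) S, (∀ i j, M i j ∈ U) ∧ ∃ c : L, c ≠ 0 ∧
      M.permanent = c • f) :
    ∃ M : Matrix (Fin n) (Fin n) S, (∀ i j, M i j ∈ U) ∧ M.permanent = f := by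
  obtain ⟨M, hM, c, hc, h⟩ := h
  refine ⟨M.updateRow ⟨0, hn⟩ (algebraMap L S c⁻¹ • M ⟨0, hn⟩), fun i j => ?_, ?_⟩
  · rw [Matrix.updateRow_apply]
    split_ifs
    · rw [Pi.smul_apply, smul_eq_mul, ← Algebra.smul_def]
      exact U.smul_mem _ (hM _ _)
    · exact hM _ _
  · rw [Matrix.permanent_updateRow_smul, Matrix.updateRow_eq_self, h, ← Algebra.smul_def,
      smul_smul, inv_mul_cancel₀ hc, one_smul]

/-- Reordering of the columns. -/
def colEquiv2 (γ ν s : Type*) : (ν ⊕ s) ⊕ γ ≃ (γ ⊕ ν) ⊕ s where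
  toFun
    | Sum.inl (Sum.inl i) => Sum.inl (Sum.inr i)
    | Sum.inl (Sum.inr i) => Sum.inr i
    | Sum.inr i => Sum.inl (Sum.inl i)
  invFun
    | Sum.inl (Sum.inr i) => Sum.inl (Sum.inl i)
    | Sum.inr i => Sum.inl (Sum.inr i)
    | Sum.inl (Sum.inl i) => Sum.inr i
  left_inv := by rintro ((i | i) | i) <;> rfl
  right_inv := by rintro ((i | i) | i) <;> rfl

theorem exists_matrix2 [CharZero L] [IsAlgClosed L] {A B α γ ρ ν : Type*}
    [Fintype A] [Fintype B] [Fintype α] [Fintype γ] [Fintype ρ] [Fintype ν]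
    [DecidableEq A] [DecidableEq B] [DecidableEq α] [DecidableEq γ]
    [DecidableEq ρ] [DecidableEq ν] {q N : ℕ} (hq : 0 < q) (hN : 0 < N)
    (hα : Fintype.card α = q) (hγ : Fintype.card γ = N)
    (hc : N + Fintype.card ν = Fintype.card ρ + q) (h1 : (1 : S) ∈ U)
    (u : A → B → α → γ → S) (hu : ∀ a b i c, u a b i c ∈ U)
    (R : α → ν → S) (hR : ∀ i c, R i c ∈ U) (Low : ρ → γ ⊕ ν → S) (hLow : ∀ r c, Low r c ∈ U)
    {n : ℕ} (hn : Fintype.card ρ + (Fintype.card A + 1) * q + Fintype.card B * N ≤ n) :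
    ∃ M : Matrix (Fin n) (Fin n) S, (∀ i j, M i j ∈ U) ∧
      M.permanent = ∑ b, ∑ a, perm (Sum.elim (fun i => Sum.elim (u a b i) (R i)) Low) := by
  refine exists_normalize (L := L) (by nlinarith) ?_
  obtain ⟨ζ, -, hζ, -⟩ := exists_roots L hN
  obtain ⟨ξ, -, hξ, -⟩ := exists_roots L hq
  let g1 : Fin N → S := fun s => algebraMap L S (ζ ^ (s : ℕ))
  let g2 : Fin q → S := fun s => algebraMap L S (ξ ^ (s : ℕ))
  have hC : ∀ c : L, algebraMap L S c ∈ U := fun c => by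
    rw [Algebra.algebraMap_eq_smul_one]; exact U.smul_mem _ h1
  let T2 := fun v : A → α → γ → S => star g2 Low fun a i => Sum.elim (v a i) (R i)
  let T3 := star g1 (fun c r => T2 (fun _ _ _ => 0) r (colEquiv2 _ _ _ (Sum.inl c)))
    fun b j r => T2 (fun a => u a b) r (colEquiv2 _ _ _ (Sum.inr j))
  have hT2 : ∀ v : A → α → γ → S, (∀ a i c, v a i c ∈ U) → ∀ r c, T2 v r c ∈ U := fun v hv =>
    star_mem h1 (fun _ => hC _) hLow (by
      rintro a i (c | c)
      exacts [hv _ _ _, hR _ _])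
  have hT3 : ∀ r c, T3 r c ∈ U :=
    star_mem h1 (fun _ => hC _) (fun c r => hT2 _ (fun _ _ _ => U.zero_mem) _ _)
      fun b j r => hT2 _ (fun a => hu a b) _ _
  have p2 : ∀ v : A → α → γ → S, perm (T2 v) = -((q.factorial ^ Fintype.card A : ℕ) : S) *
      ∑ a, perm (Sum.elim (fun i => Sum.elim (v a i) (R i)) Low) := by
    intro v
    rw [perm_star hq hξ hα (by simp [hγ, hc])]
    simp only [perm_swap Low]
  have p3 : perm T3 = -((N.factorial ^ Fintype.card B : ℕ) : S) *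
      ∑ b, perm (T2 fun a => u a b) := by
    rw [perm_star hN hζ hγ (by simp [hα]; nlinarith)]
    refine congrArg (_ * ·) (sum_congr rfl fun b _ => ?_)
    rw [← perm_reindex (T2 fun a => u a b) (Equiv.refl _) (colEquiv2 _ _ _),
      ← perm_transpose fun r c => (T2 fun a => u a b) (Equiv.refl _ r) (colEquiv2 _ _ _ c)]
    refine congrArg perm ?_
    funext c r
    rcases c with (c | c) | c <;> rcases r with _ | ⟨_ | _, _⟩ <;> rfl
  obtain ⟨e, he⟩ := Nat.exists_eq_add_of_le hn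
  let eR : Fin n ≃ ((ν ⊕ (A × Fin q)) ⊕ (Option B × γ)) ⊕ Fin e :=
    Fintype.equivOfCardEq (by simp [hγ, he]; nlinarith)
  let eC : Fin n ≃ ((ρ ⊕ (Option A × α)) ⊕ (B × Fin N)) ⊕ Fin e :=
    Fintype.equivOfCardEq (by simp [hα, he])
  refine ⟨Matrix.of fun i j => pad (Fin e) T3 (eR i) (eC j), fun i j => pad_mem h1 hT3 _ _,
    ((N.factorial ^ Fintype.card B * q.factorial ^ Fintype.card A : ℕ) : L), ?_, ?_⟩
  · rw [Nat.cast_ne_zero]
    positivity
  · rw [permanent_pad eR eC (by simp [hα, hγ]; nlinarith), p3]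
    simp only [p2, ← mul_sum]
    rw [Algebra.smul_def, map_natCast, Nat.cast_mul]
    ring

/-- Reordering of the columns. -/
def colEquiv3 (γ α e s : Type*) : γ ⊕ ((α ⊕ e) ⊕ s) ≃ ((γ ⊕ α) ⊕ e) ⊕ s where
  toFun
    | Sum.inl i => Sum.inl (Sum.inl (Sum.inl i))
    | Sum.inr (Sum.inl (Sum.inl i)) => Sum.inl (Sum.inl (Sum.inr i))
    | Sum.inr (Sum.inl (Sum.inr i)) => Sum.inl (Sum.inr i)
    | Sum.inr (Sum.inr i) => Sum.inr i
  invFun
    | Sum.inl (Sum.inl (Sum.inl i)) => Sum.inl i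
    | Sum.inl (Sum.inl (Sum.inr i)) => Sum.inr (Sum.inl (Sum.inl i))
    | Sum.inl (Sum.inr i) => Sum.inr (Sum.inl (Sum.inr i))
    | Sum.inr i => Sum.inr (Sum.inr i)
  left_inv := by rintro (i | (i | i) | i) <;> rfl
  right_inv := by rintro (((i | i) | i) | i) <;> rfl

theorem topRows_mem {κ ι₂ : Type*} [Fintype κ] [DecidableEq κ] (k : ℕ) {B : ι₂ → κ → S}
    (hB : ∀ r c, B r c ∈ U) (r : ι₂) (c : κ ⊕ ((Fin k × κ) ⊕ (Fin k × Fin k × Bool))) :
    topRows k B r c ∈ U := by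
  refine U.sum_mem fun c' _ => ?_
  split_ifs
  exacts [hB _ _, U.zero_mem]

theorem layer_mem {κ : Type*} [DecidableEq κ] {k : ℕ} (h1 : (1 : S) ∈ U) (w : κ → L)
    (τ : Fin k → Fin k → L) (j : Fin k) (v : ℕ) (r : κ ⊕ (Fin k ⊕ Fin k))
    (c : κ ⊕ ((Fin k × κ) ⊕ (Fin k × Fin k × Bool))) :
    layer (fun c => algebraMap L S (w c)) (fun i j => algebraMap L S (τ i j)) j v r c ∈ U := by
  have hC : ∀ c : L, algebraMap L S c ∈ U := fun c => by
    rw [Algebra.algebraMap_eq_smul_one]; exact U.smul_mem _ h1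
  have hv : (v : S) ∈ U := by
    rw [← map_natCast (algebraMap L S)]; exact hC _
  rcases r with r | r | r <;> simp only [layer, ← map_pow] <;> refine U.add_mem ?_ ?_ <;>
    split_ifs
  all_goals first
    | exact U.zero_mem | exact h1 | exact hC _ | exact hv | exact U.sub_mem h1 hv

set_option synthInstance.maxSize 4096 in
theorem exists_low [CharZero L] [IsAlgClosed L] {α γ υ ω : Type}
    [Fintype α] [Fintype γ] [Fintype υ] [Fintype ω]
    [DecidableEq α] [DecidableEq γ] [DecidableEq υ] [DecidableEq ω] {q N : ℕ} (hq : 0 < q)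
    (hα : Fintype.card α = q) (hγ : Fintype.card γ = N)
    (hυω : Fintype.card υ + Fintype.card ω = N) (h1 : (1 : S) ∈ U) (k : ℕ) (w : γ ⊕ α → L)
    (s : L) : ∃ (ρ ν : Type) (_ : Fintype ρ) (_ : Fintype ν) (_ : DecidableEq ρ)
      (_ : DecidableEq ν) (R : α → ν → S) (Low : ρ → γ ⊕ ν → S) (c : ℕ),
      (∀ i c, R i c ∈ U) ∧ (∀ r c, Low r c ∈ U) ∧ c ≠ 0 ∧
      Fintype.card ρ = N + 2 * k * (N + q + 2 * k) ∧
      N + Fintype.card ν = Fintype.card ρ + q ∧
      ∀ u : α → γ → S, perm (Sum.elim (fun i => Sum.elim (u i) (R i)) Low) =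
        (c : S) * ∑ z : Fin (2 ^ k), algebraMap L S (s ^ ((z : ℕ) ^ 2)) *
          perm (Sum.elim (xrows u) (zrows υ ω (fun i => algebraMap L S (w (Sum.inr i) ^ (z : ℕ)))
            fun c => algebraMap L S (w (Sum.inl c) ^ (z : ℕ)))) := by
  have hp : 0 < N + q + 2 * k := by omega
  obtain ⟨ζ, ξ, hζ, hξ⟩ := exists_roots L hp
  have hC : ∀ c : L, algebraMap L S c ∈ U := fun c => by
    rw [Algebra.algebraMap_eq_smul_one]; exact U.smul_mem _ h1
  let val : Option (Fin 1) → ℕ := fun o => ((finSuccEquiv 1).symm o : ℕ)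
  let T := fun u : α → γ → S => mstar (p := fun _ : Fin k => N + q + 2 * k)
    (π := fun _ : Fin k => (γ ⊕ α) ⊕ (Fin k ⊕ Fin k)) (β := Fin 1)
    (fun _ s => algebraMap L S (-(ζ ^ (s : ℕ) * ξ)))
    (Sum.elim (ext0 _ (xrows u)) (topRows k (zrows υ ω (fun _ => 1) fun _ => 1)))
    fun j o => layer (fun c => algebraMap L S (w c))
      (fun i j => algebraMap L S (s ^ (2 ^ (i : ℕ) * 2 ^ (j : ℕ)))) j (val o)
  have hT : ∀ r c, T (fun _ _ => 0) r c ∈ U := by
    refine mstar_mem h1 (fun _ _ => hC _) ?_ fun j o => layer_mem h1 _ _ _ _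
    rintro (r | r) c
    · exact ext0_mem (xrows_mem h1 fun _ _ => U.zero_mem) _ _
    · exact topRows_mem k (zrows_mem (fun _ => h1) fun _ => h1) _ _
  refine ⟨(υ ⊕ ω) ⊕ (Σ _ : Fin k, Option (Fin 1) × ((γ ⊕ α) ⊕ (Fin k ⊕ Fin k))),
    (α ⊕ ((Fin k × (γ ⊕ α)) ⊕ (Fin k × Fin k × Bool))) ⊕
      (Σ _ : Fin k, Fin 1 × Fin (N + q + 2 * k)),
    inferInstance, inferInstance, inferInstance, inferInstance,
    fun i c => T (fun _ _ => 0) (Sum.inl (Sum.inl i)) (colEquiv3 _ _ _ _ (Sum.inr c)),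
    fun r c => T (fun _ _ => 0) ((Equiv.sumAssoc _ _ _).symm (Sum.inr r)) (colEquiv3 _ _ _ _ c),
    ∏ _j : Fin k, (N + q + 2 * k).factorial ^ Fintype.card (Fin 1),
    fun _ _ => hT _ _, fun _ _ => hT _ _, by positivity, by simp [hα, hγ, hυω]; ring,
    by simp [hα, hγ, hυω]; ring, fun u => ?_⟩
  have e1 : (Sum.elim (fun i => Sum.elim (u i) fun c =>
      T (fun _ _ => 0) (Sum.inl (Sum.inl i)) (colEquiv3 _ _ _ _ (Sum.inr c))) fun r c =>
      T (fun _ _ => 0) ((Equiv.sumAssoc _ _ _).symm (Sum.inr r)) (colEquiv3 _ _ _ _ c)) =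
      fun r c => T u ((Equiv.sumAssoc _ _ _).symm r) (colEquiv3 _ _ _ _ c) := by
    funext r c
    rcases r with r | r | r <;> rcases c with c | (c | c) | c <;> rfl
  rw [e1]
  refine (perm_reindex (T u) _ _).trans ?_
  refine (perm_mstar (L := L) (fun _ => hp) (fun _ => hζ) (fun _ => hξ)
    (fun _ => by simp [hα, hγ]; ring) (by simp [hα, hγ, hυω]; ring) _ _).trans ?_
  refine congrArg (_ * ·) ?_
  let e : (Fin k → Option (Fin 1)) ≃ Fin (2 ^ k) :=
    (Equiv.piCongrRight fun _ => (finSuccEquiv 1).symm).trans finFunctionFinEquiv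
  refine Fintype.sum_equiv e _ _ fun z => ?_
  have he : (e z : ℕ) = ∑ j, val (z j) * 2 ^ (j : ℕ) := rfl
  rw [perm_layer (by simp [hυω, hγ, add_comm]) _ _ _ _ (fun j => val (z j))
    (fun j => Nat.lt_succ_iff.mp ((finSuccEquiv 1).symm (z j)).2), ← he]
  refine congrArg₂ (· * ·) ?_ (congrArg perm ?_)
  · simp only [← map_pow, ← map_prod, ← pow_mul, prod_pow_eq_pow_sum]
    rw [he, pow_two, sum_mul_sum]
    refine congrArg (fun e => algebraMap L S (s ^ e)) ?_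
    exact sum_congr rfl fun i _ => sum_congr rfl fun j _ => by ring
  · funext r c
    rcases r with r | r | r <;> rcases c with c | c <;> simp [zrows]

end

end Pool.Agent.Lib.MP_8b1d3b_lc.H13
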