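import Mathlib
import Pool.Agent.Lib.MP_8b1d3b_lc.H13Band
import Pool.Agent.Lib.MP_8b1d3b_lc.H13Bits

set_option autoImplicit false

namespace Pool.Agent.Lib.MP_8b1d3b_lc.H13

open Finset MvPolynomial

section

variable {R : Type*} [CommRing R] {q : ℕ} {A : Type*}

/-- A band of `q` weighted diagonals of variables. -/
noncomputable def band2 (wt : Fin q → R) (a b : A) :
    Fin q → Fin (2 * q) → MvPolynomial ((A × A × Fin q) × Fin q) R :=
  fun i c => ∑ δ : Fin q, if (c : ℕ) = i + δ then C (wt δ) * X ((a, b, δ), i) else 0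

theorem map_band2 {R' : Type*} [CommRing R'] (f : R →+* R') (wt : Fin q → R) (a b : A) (i : Fin q)
    (c : Fin (2 * q)) : map f (band2 wt a b i c) = band2 (fun δ => f (wt δ)) a b i c := by
  rw [band2, map_sum]
  refine sum_congr rfl fun δ _ => ?_
  split_ifs <;> simp

theorem band2_zero (a b : A) (z : Fin q) : band2 (fun δ => (0 : R) ^ sqd δ z) a b =
    fun i c => if c = shift z i then X ((a, b, z), i) else 0 := by
  funext i c
  rw [band2, sum_eq_single z]
  · have e : (c = shift z i) ↔ ((c : ℕ) = i + z) := Fin.ext_iff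
    simp [sqd, e]
  · intro δ _ hδ
    have : sqd δ z ≠ 0 := by
      have : (δ : ℕ) ≠ z := fun h => hδ (Fin.ext h)
      simp only [sqd, ne_eq, pow_eq_zero_iff (two_ne_zero), Int.natAbs_eq_zero]
      omega
    simp [this]
  · simp

theorem band2_scale (t ti k ki : R) (ht : t * ti = 1) (hk : k * ki = 1) (a b : A) (z : Fin q) :
    band2 (fun δ => t ^ ((δ : ℕ) ^ 2)) a b = fun (i : Fin q) (c : Fin (2 * q)) =>
      C (ti ^ (2 * z * i + (z : ℕ) ^ 2) * ki) * band2 (fun δ => t ^ sqd δ z) a b i c *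
        C (t ^ (2 * z * (c : ℕ)) * k) := by
  funext i c
  rw [band2, band2, mul_sum, sum_mul]
  refine sum_congr rfl fun δ _ => ?_
  split_ifs with h
  · have e1 : t ^ sqd δ z * t ^ (2 * z * (c : ℕ)) =
        t ^ ((δ : ℕ) ^ 2) * t ^ (2 * z * i + (z : ℕ) ^ 2) := by
      rw [← pow_add, ← pow_add, h]
      congr 1
      have := sqd_add δ z
      nlinarith
    have e2 : t ^ (2 * z * i + (z : ℕ) ^ 2) * ti ^ (2 * z * i + (z : ℕ) ^ 2) = 1 := by
      rw [← mul_pow, ht, one_pow]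
    have e3 : t ^ ((δ : ℕ) ^ 2) = ti ^ (2 * z * i + (z : ℕ) ^ 2) * ki * t ^ sqd δ z *
        (t ^ (2 * z * (c : ℕ)) * k) := by
      linear_combination (-(ti ^ (2 * z * i + (z : ℕ) ^ 2) * (k * ki))) * e1 -
        t ^ ((δ : ℕ) ^ 2) * (k * ki) * e2 - t ^ ((δ : ℕ) ^ 2) * hk
    rw [e3]
    simp only [C_mul]
    ring
  · simp

variable [Fintype A]

/-- The deformed sum of elementary symmetric polynomials. -/
noncomputable def fam2 (A : Type*) [Fintype A] (q d w : ℕ) (t : R) :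
    MvPolynomial ((A × A × Fin q) × Fin q) R :=
  ∑ b : A, ∑ a : A, ∑ z : Fin q, core (Fin d) (Fin w) (band2 (fun δ => t ^ sqd δ z) a b)

theorem map_fam2 {R' : Type*} [CommRing R'] (f : R →+* R') (q d w : ℕ) (t : R) :
    map f (fam2 A q d w t) = fam2 A q d w (f t) := by
  simp only [fam2, map_sum, map_core, map_band2, map_pow]

theorem fam2_zero {d w : ℕ} (h : d + w = 2 * q) : fam2 A q d w (0 : R) =
    ((d.factorial * w.factorial : ℕ) : MvPolynomial _ R) * ∑ g, esy R g univ d := by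
  rw [fam2, sum_comm, mul_sum, Fintype.sum_prod_type]
  refine sum_congr rfl fun a _ => ?_
  rw [Fintype.sum_prod_type]
  refine sum_congr rfl fun b _ => sum_congr rfl fun z _ => ?_
  rw [band2_zero, core_diag _ _ (by simp [h])]
  simp [esy]

end

theorem core_scale2 {S : Type*} [CommRing S] {α γ : Type*} [Fintype α] [Fintype γ]
    [DecidableEq α] [DecidableEq γ] (υ ω : Type*) [Fintype υ] [Fintype ω] [DecidableEq υ]
    [DecidableEq ω] (u : α → γ → S) (a : α → S) (μ : γ → S) (s : S) :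
    s ^ Fintype.card υ * perm (Sum.elim (xrows u) (zrows υ ω a μ)) =
      perm (Sum.elim (xrows u) (zrows υ ω (fun i => s * a i) μ)) := by
  have h := perm_scale (Sum.elim (xrows u) (zrows υ ω a μ))
    (Sum.elim (fun _ => 1) (Sum.elim (fun _ => s) fun _ => 1)) (fun _ => 1)
  simp only [Fintype.prod_sum_type, Sum.elim_inl, Sum.elim_inr, prod_const_one, mul_one, one_mul,
    prod_const, card_univ] at h
  rw [← h]
  refine congrArg perm ?_
  funext r c
  rcases r with r | r | r <;> rcases c with c | c <;> simp [zrows]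

theorem fam2_projection {L : Type*} [Field L] [CharZero L] [IsAlgClosed L] {A : Type}
    [Fintype A] [DecidableEq A] {k d w n : ℕ} (h : d + w = 2 * 2 ^ k)
    (hn : 3 * 2 ^ k + 2 * k * (3 * 2 ^ k + 2 * k) + 3 * Fintype.card A * 2 ^ k ≤ n)
    {t : L} (ht : t ≠ 0) :
    ∃ M : Matrix (Fin n) (Fin n) (MvPolynomial ((A × A × Fin (2 ^ k)) × Fin (2 ^ k)) L),
      (∀ i j, M i j ∈ aff _ L) ∧ M.permanent = fam2 A (2 ^ k) d w t := by
  have hq : 0 < 2 ^ k := by positivity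
  obtain ⟨κ, hκ⟩ : ∃ κ : L, κ ^ (2 * 2 ^ k) = (∏ c : Fin (2 * 2 ^ k), t ^ (2 * (c : ℕ)))⁻¹ :=
    IsAlgClosed.exists_pow_nat_eq _ (by omega)
  have hP : ∏ c : Fin (2 * 2 ^ k), t ^ (2 * (c : ℕ)) ≠ 0 :=
    prod_ne_zero_iff.mpr fun c _ => pow_ne_zero _ ht
  have hκ0 : κ ≠ 0 := by
    intro hz
    rw [hz, zero_pow (by omega)] at hκ
    exact inv_ne_zero hP hκ.symm
  obtain ⟨ρ, ν, _, _, _, _, R, Low, c, hR, hLow, hc, hρ, hν, hperm⟩ :=
    exists_low (L := L) (U := aff ((A × A × Fin (2 ^ k)) × Fin (2 ^ k)) L) (α := Fin (2 ^ k))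
      (γ := Fin (2 * 2 ^ k)) (υ := Fin d) (ω := Fin w) (q := 2 ^ k) (N := 2 * 2 ^ k) hq
      (by simp) (by simp) (by simpa using h) one_mem_aff k
      (Sum.elim (fun c => t ^ (2 * (c : ℕ)) * κ) fun i => t ^ (2 * (i : ℕ)) * κ) (t ^ d)
  obtain ⟨M, hM, hper⟩ := exists_matrix2 (L := L) hq (N := 2 * 2 ^ k) (by omega) (by simp)
    (by simp) hν one_mem_aff (fun a b : A => band2 (fun δ => t ^ ((δ : ℕ) ^ 2)) a b)
    (fun a b i c => Submodule.sum_mem _ fun δ _ => by
      split_ifs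
      · rw [← smul_eq_C_mul]
        exact Submodule.smul_mem _ _ (X_mem_aff _)
      · exact Submodule.zero_mem _) R hR Low hLow (n := n) (by rw [hρ]; nlinarith)
  refine exists_normalize (L := L) (by omega) ⟨M, hM, c, Nat.cast_ne_zero.mpr hc, ?_⟩
  rw [hper, fam2, Algebra.smul_def, map_natCast]
  simp only [hperm, ← mul_sum]
  refine congrArg (_ * ·) ?_
  refine sum_congr rfl fun b _ => sum_congr rfl fun a _ => sum_congr rfl fun z _ => ?_
  have e1 : algebraMap L (MvPolynomial ((A × A × Fin (2 ^ k)) × Fin (2 ^ k)) L)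
      ((t ^ d) ^ ((z : ℕ) ^ 2)) = (C (t ^ ((z : ℕ) ^ 2))) ^ Fintype.card (Fin d) := by
    rw [Fintype.card_fin, ← map_pow, ← pow_mul, ← pow_mul, mul_comm]
    rfl
  rw [e1, core_scale2, band2_scale t t⁻¹ (κ ^ (z : ℕ)) (κ ^ (z : ℕ))⁻¹ (mul_inv_cancel₀ ht)
    (mul_inv_cancel₀ (pow_ne_zero _ hκ0)) a b z]
  have e2 : (fun c : Fin (2 * 2 ^ k) =>
      algebraMap L (MvPolynomial ((A × A × Fin (2 ^ k)) × Fin (2 ^ k)) L)
        ((t ^ (2 * (c : ℕ)) * κ) ^ (z : ℕ))) =
      fun c : Fin (2 * 2 ^ k) => C (t ^ (2 * z * (c : ℕ)) * κ ^ (z : ℕ)) := by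
    funext c
    rw [mul_pow, ← pow_mul, mul_right_comm]
    rfl
  simp only [Sum.elim_inl, Sum.elim_inr]
  rw [e2]
  refine core_scale _ _ _ _ _ (fun i => ?_) _ ?_
  · rw [algebraMap_eq, ← C_mul, ← C_mul, ← C_1]
    refine congrArg C ?_
    rw [mul_pow, ← pow_mul, inv_pow, pow_add, mul_right_comm 2]
    field_simp
  · rw [← map_prod, ← C_1]
    refine congrArg C ?_
    simp only [mul_right_comm 2 (z : ℕ), pow_mul t _ (z : ℕ), ← mul_pow]
    rw [prod_pow, prod_mul_distrib, prod_const, card_univ, Fintype.card_fin, hκ,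
      mul_inv_cancel₀ hP, one_pow]

end Pool.Agent.Lib.MP_8b1d3b_lc.H13
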