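import Mathlib
import Pool.Agent.Lib.MP_8b1d3b_lc.H13Fam

set_option autoImplicit false

namespace Pool.Agent.Lib.MP_8b1d3b_lc.H13

open Finset MvPolynomial Filter Topology

/-- `f` is a coefficientwise limit of determinants of `m` by `m` matrices of affine forms. -/
def BorderDet {σ : Type*} (m : ℕ) (f : MvPolynomial σ ℂ) : Prop :=
  ∀ ε : ℝ, 0 < ε → ∃ A : Matrix (Fin m) (Fin m) (MvPolynomial σ ℂ),
    (∀ i j, (A i j).totalDegree ≤ 1) ∧ ∀ d, ‖coeff d A.det - coeff d f‖ < ε

theorem totalDegree_le_of_mem_aff {σ L : Type*} [Field L] {p : MvPolynomial σ L}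
    (hp : p ∈ aff σ L) : p.totalDegree ≤ 1 := by
  have : aff σ L ≤ restrictTotalDegree σ L 1 := by
    apply aff_le
    · rw [mem_restrictTotalDegree, totalDegree_one]; omega
    · intro i
      rw [mem_restrictTotalDegree, totalDegree_X]
  exact (mem_restrictTotalDegree _ _ _).mp (this hp)

theorem mem_aff_pow {σ L : Type*} [Field L] {p : MvPolynomial σ L} {e : ℕ}
    (hp : p.totalDegree ≤ e) : p ∈ aff σ L ^ e := by
  rw [p.as_sum]
  refine Submodule.sum_mem _ fun a ha => ?_
  refine pow_le_pow_of_one_mem one_mem_aff ?_ (monomial_mem_pow X_mem_aff a _)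
  exact (le_totalDegree ha).trans hp

theorem totalDegree_le_of_mem_aff_pow {σ L : Type*} [Field L] {e : ℕ} {p : MvPolynomial σ L}
    (hp : p ∈ aff σ L ^ e) : p.totalDegree ≤ e := by
  induction e generalizing p with
  | zero =>
    rw [pow_zero] at hp
    obtain ⟨c, rfl⟩ := Submodule.mem_one.mp hp
    exact (totalDegree_C c).le
  | succ e ih =>
    rw [pow_succ] at hp
    rw [← mem_restrictTotalDegree]
    refine Submodule.mul_induction_on hp (fun a ha b hb => ?_) fun a b ha hb =>
      Submodule.add_mem _ ha hb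
    rw [mem_restrictTotalDegree]
    exact (totalDegree_mul a b).trans (add_le_add (ih ha) (totalDegree_le_of_mem_aff hb))

theorem aeval_mem_aff {σ τ L : Type*} [Field L] {φ : σ → MvPolynomial τ L}
    (hφ : ∀ i, φ i ∈ aff τ L) {p : MvPolynomial σ L} (hp : p.totalDegree ≤ 1) :
    aeval φ p ∈ aff τ L := by
  have h1 := mem_aff_pow hp
  rw [pow_one] at h1
  have : aff σ L ≤ (aff τ L).comap (aeval φ : MvPolynomial σ L →ₐ[L] _).toLinearMap := by
    apply aff_le
    · show aeval φ 1 ∈ aff τ L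
      rw [map_one]
      exact one_mem_aff
    · intro v
      show aeval φ (X v) ∈ aff τ L
      rw [aeval_X]
      exact hφ _
  exact this h1

theorem totalDegree_det_le {σ L : Type*} [CommRing L] {m : ℕ}
    (A : Matrix (Fin m) (Fin m) (MvPolynomial σ L)) (hA : ∀ i j, (A i j).totalDegree ≤ 1) :
    A.det.totalDegree ≤ m := by
  rw [Matrix.det_apply']
  refine totalDegree_finsetSum_le fun e _ => (totalDegree_mul _ _).trans ?_
  rw [← map_intCast (C : L →+* MvPolynomial σ L), totalDegree_C, zero_add]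
  refine (totalDegree_finsetProd _ _).trans ?_
  exact (sum_le_sum fun i _ => hA _ _).trans (by simp)

theorem BorderDet.aeval {σ τ : Type*} [Finite σ] {m : ℕ} {f : MvPolynomial σ ℂ}
    (hf : BorderDet m f) {φ : σ → MvPolynomial τ ℂ} (hφ : ∀ i, φ i ∈ aff τ ℂ) :
    BorderDet m (aeval φ f) := by
  classical
  intro ε hε
  let T := (Finsupp.finite_of_degree_le (σ := σ) (max m f.totalDegree)).toFinset
  let ψ : (σ →₀ ℕ) → MvPolynomial τ ℂ := fun d => MvPolynomial.aeval φ (monomial d (1 : ℂ))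
  let K : ℝ := ∑ d ∈ T, ∑ d' ∈ (ψ d).support, ‖coeff d' (ψ d)‖
  have hK0 : 0 ≤ K := sum_nonneg fun _ _ => sum_nonneg fun _ _ => norm_nonneg _
  have hK : ∀ d', ∑ d ∈ T, ‖coeff d' (ψ d)‖ ≤ K := by
    intro d'
    refine sum_le_sum fun d _ => ?_
    by_cases h : d' ∈ (ψ d).support
    · exact single_le_sum (f := fun d' => ‖coeff d' (ψ d)‖) (fun _ _ => norm_nonneg _) h
    · rw [notMem_support_iff.mp h, norm_zero]
      exact sum_nonneg fun _ _ => norm_nonneg _
  obtain ⟨A, hA, hA'⟩ := hf (ε / (K + 1)) (by positivity)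
  refine ⟨A.map (MvPolynomial.aeval φ), fun i j =>
    totalDegree_le_of_mem_aff (aeval_mem_aff hφ (hA i j)), fun d' => ?_⟩
  have h1 : (A.map (MvPolynomial.aeval φ)).det = MvPolynomial.aeval φ A.det :=
    (AlgHom.map_det (MvPolynomial.aeval φ) A).symm
  have hsub : (A.det - f).support ⊆ T := by
    intro d hd
    rw [Set.Finite.mem_toFinset]
    exact (le_totalDegree hd).trans ((totalDegree_sub _ _).trans
      (max_le_max (totalDegree_det_le A hA) le_rfl))
  have h2 : MvPolynomial.aeval φ (A.det - f) = ∑ d ∈ T, coeff d (A.det - f) • ψ d := by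
    conv_lhs => rw [(A.det - f).as_sum, sum_subset hsub fun d _ hd => by
      rw [notMem_support_iff.mp hd, monomial_zero]]
    rw [map_sum]
    refine sum_congr rfl fun d _ => ?_
    rw [← map_smul, smul_monomial, smul_eq_mul, mul_one]
  rw [h1, ← coeff_sub, ← map_sub, h2, coeff_sum]
  calc ‖∑ d ∈ T, coeff d' (coeff d (A.det - f) • ψ d)‖
      ≤ ∑ d ∈ T, ε / (K + 1) * ‖coeff d' (ψ d)‖ := by
        refine (norm_sum_le _ _).trans (sum_le_sum fun d _ => ?_)
        rw [coeff_smul, norm_smul, coeff_sub]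
        exact mul_le_mul_of_nonneg_right (hA' d).le (norm_nonneg _)
    _ ≤ ε / (K + 1) * K := by
        rw [← mul_sum]
        exact mul_le_mul_of_nonneg_left (hK d') (by positivity)
    _ < ε := by
        rw [div_mul_eq_mul_div, div_lt_iff₀ (by positivity)]
        nlinarith

theorem BorderDet.limit {σ : Type*} {m : ℕ} (F : MvPolynomial σ (Polynomial ℂ))
    (h : ∀ t : ℂ, t ≠ 0 → BorderDet m (map (Polynomial.evalRingHom t) F)) :
    BorderDet m (map (Polynomial.evalRingHom 0) F) := by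
  intro ε hε
  have h1 : ∀ᶠ t in 𝓝[≠] (0 : ℂ), ∀ d ∈ F.support,
      dist ((coeff d F).eval t) ((coeff d F).eval 0) < ε / 2 := by
    rw [eventually_all_finset]
    intro d _
    exact nhdsWithin_le_nhds (Metric.tendsto_nhds.mp (coeff d F).continuousAt _ (half_pos hε))
  obtain ⟨t, ht1, ht2⟩ := (h1.and self_mem_nhdsWithin).exists
  obtain ⟨A, hA, hA'⟩ := h t ht2 _ (half_pos hε)
  refine ⟨A, hA, fun d => ?_⟩
  have h2 : ‖coeff d (map (Polynomial.evalRingHom t) F) -
      coeff d (map (Polynomial.evalRingHom 0) F)‖ < ε / 2 := by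
    rw [coeff_map, coeff_map]
    by_cases hd : d ∈ F.support
    · simpa [dist_eq_norm] using ht1 d hd
    · simp [notMem_support_iff.mp hd, hε]
  have h3 := norm_sub_le_norm_sub_add_norm_sub (coeff d A.det)
    (coeff d (map (Polynomial.evalRingHom t) F)) (coeff d (map (Polynomial.evalRingHom 0) F))
  linarith [hA' d]

theorem borderDet_fam2 {A : Type} [Fintype A] [DecidableEq A] {k d w n m : ℕ}
    (h : d + w = 2 * 2 ^ k)
    (hn : 3 * 2 ^ k + 2 * k * (3 * 2 ^ k + 2 * k) + 3 * Fintype.card A * 2 ^ k ≤ n)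
    (hper : BorderDet m (Matrix.permanent (Matrix.of fun i j : Fin n =>
      (X (i, j) : MvPolynomial (Fin n × Fin n) ℂ)))) :
    BorderDet m (((d.factorial * w.factorial : ℕ) : MvPolynomial _ ℂ) *
      ∑ g : A × A × Fin (2 ^ k), esy ℂ g (univ : Finset (Fin (2 ^ k))) d) := by
  have h1 := BorderDet.limit (m := m) (fam2 A (2 ^ k) d w Polynomial.X) fun t ht => by
    obtain ⟨M, hM, hM'⟩ := fam2_projection h hn ht
    have h2 := hper.aeval (φ := fun v => M v.1 v.2) fun v => hM _ _
    rw [map_fam2, Polynomial.coe_evalRingHom, Polynomial.eval_X, ← hM']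
    simpa [Matrix.permanent] using h2
  rwa [map_fam2, Polynomial.coe_evalRingHom, Polynomial.eval_X, fam2_zero h] at h1

end Pool.Agent.Lib.MP_8b1d3b_lc.H13
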