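import Mathlib
import Pool.Agent.Lib.MP_8b1d3b_lc.H13Band

set_option autoImplicit false

namespace Pool.Agent.Lib.MP_8b1d3b_lc.H13

open Finset MvPolynomial Module

theorem fam_projection {L : Type*} [Field L] [CharZero L] [IsAlgClosed L] {q d w n : ℕ}
    (hq : 0 < q) (h : d + w = 2 * q) (hn : 5 * q ^ 2 + 3 * q ≤ n) {t : L} (ht : t ≠ 0) :
    ∃ M : Matrix (Fin n) (Fin n) (MvPolynomial ((Fin q × Fin q × Fin q) × Fin q) L),
      (∀ i j, M i j ∈ aff _ L) ∧ ∃ c : L, c ≠ 0 ∧ M.permanent = c • fam q d w t := by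
  have hk : ∀ z : Fin q, ∃ k : L, k ^ (2 * q) = (∏ c : Fin (2 * q), t ^ (2 * z * (c : ℕ)))⁻¹ :=
    fun z => IsAlgClosed.exists_pow_nat_eq _ (by omega)
  choose k hk using hk
  have hP : ∀ z : Fin q, ∏ c : Fin (2 * q), t ^ (2 * z * (c : ℕ)) ≠ 0 := fun z =>
    prod_ne_zero_iff.mpr fun c _ => pow_ne_zero _ ht
  have hk0 : ∀ z, k z ≠ 0 := by
    intro z hz
    have := hk z
    rw [hz, zero_pow (by omega)] at this
    exact inv_ne_zero (hP z) this.symm
  obtain ⟨M, hM, c, hc, hper⟩ := exists_matrix (L := L) (U := aff _ L) (υ := Fin d) (ω := Fin w)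
    (q := q) (N := 2 * q) hq (by omega) (by simp) (by simp) (by simpa using h) one_mem_aff
    (fun a b => band (fun δ => t ^ ((δ : ℕ) ^ 2)) a b)
    (fun a b i c => Submodule.sum_mem _ fun δ _ => by
      split_ifs
      · rw [← smul_eq_C_mul]
        exact Submodule.smul_mem _ _ (X_mem_aff _)
      · exact Submodule.zero_mem _)
    (fun (z : Fin q) (i : Fin q) => C (t ^ (2 * z * i + (z : ℕ) ^ 2) * k z))
    (fun _ _ => C_mem_aff _)
    (fun (z : Fin q) (c : Fin (2 * q)) => C (t ^ (2 * z * (c : ℕ)) * k z))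
    (fun _ _ => C_mem_aff _) (n := n) (by simp only [Fintype.card_fin]; nlinarith)
  refine ⟨M, hM, c, hc, ?_⟩
  rw [hper, fam]
  refine congrArg (fun p => c • p) ?_
  refine sum_congr rfl fun b _ => sum_congr rfl fun a _ => sum_congr rfl fun z _ => ?_
  rw [band_scale t t⁻¹ (k z) (k z)⁻¹ (mul_inv_cancel₀ ht) (mul_inv_cancel₀ (hk0 z)) a b z]
  refine core_scale _ _ _ _ _ (fun i => ?_) _ ?_
  · rw [← C_mul, ← C_1]
    congr 1
    have := hk0 z
    field_simp
    simp [ht]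
  · rw [← map_prod, prod_mul_distrib, prod_const, card_univ, Fintype.card_fin, hk,
      mul_inv_cancel₀ (hP z), C_1]

end Pool.Agent.Lib.MP_8b1d3b_lc.H13
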