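import Mathlib

set_option autoImplicit false

namespace Pool.Agent.Lib.MP_8b1d3b_lc.H13

open Finset Polynomial

variable {K α : Type*} [CommRing K]

theorem coeff_prod_one_add [DecidableEq α] (x : α → K) (T : Finset α) (D : ℕ) :
    (∏ i ∈ T, (1 + C (x i) * X)).coeff D = ∑ J ∈ powersetCard D T, ∏ i ∈ J, x i := by
  rw [prod_one_add, finsetSum_coeff, powersetCard_eq_filter, sum_filter]
  refine sum_congr rfl fun J _ => ?_
  rw [prod_mul_distrib, prod_const, ← map_prod, coeff_C_mul_X_pow]
  simp only [eq_comm]

/-- Truncation of a polynomial. -/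
noncomputable def trunc (n : ℕ) (f : K[X]) : K[X] := ∑ j ∈ range n, monomial j (f.coeff j)

theorem coeff_trunc (n : ℕ) (f : K[X]) (j : ℕ) :
    (trunc n f).coeff j = if j < n then f.coeff j else 0 := by
  simp [trunc, coeff_monomial]

theorem coeff_X_mul_derivative (f : K[X]) (n : ℕ) :
    (X * derivative f).coeff n = n * f.coeff n := by
  rcases n with _ | n
  · simp
  · rw [coeff_X_mul, coeff_derivative]
    push_cast
    ring

theorem natDegree_X_mul_derivative_le (f : K[X]) : (X * derivative f).natDegree ≤ f.natDegree := by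
  rw [natDegree_le_iff_coeff_eq_zero]
  intro n hn
  rw [coeff_X_mul_derivative, coeff_eq_zero_of_natDegree_lt hn, mul_zero]

/-- A singular point of the elementary symmetric polynomial of degree `D + 1` has at most `D`
nonzero coordinates. -/
theorem card_support_le [IsDomain K] [CharZero K] [Fintype α] [DecidableEq α] [DecidableEq K]
    (x : α → K) (D : ℕ) (h : ∀ i, ∑ J ∈ powersetCard D (univ.erase i), ∏ j ∈ J, x j = 0) :
    (univ.filter fun i => x i ≠ 0).card ≤ D := by
  set P : K[X] := ∏ i, (1 + C (x i) * X) with hP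
  set R : K[X] := trunc (D + 1) P with hR
  have hP0 : P.coeff 0 = 1 := by
    rw [hP, coeff_prod_one_add]; simp
  have hf0 : ∀ i, (1 + C (x i) * X : K[X]) ≠ 0 := by
    intro i h0
    have := congrArg (fun p : K[X] => p.coeff 0) h0
    simp at this
  have hdeg : P.natDegree = (univ.filter fun i => x i ≠ 0).card := by
    rw [hP, natDegree_prod _ _ fun i _ => hf0 i, card_filter]
    refine sum_congr rfl fun i _ => ?_
    split_ifs with hi
    · rw [add_comm, ← C_1, natDegree_linear hi]
    · simp [not_not.mp hi]
  have h1 : ∀ i, (1 + C (x i) * X : K[X]) ∣ R := by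
    intro i
    refine ⟨trunc D (∏ j ∈ univ.erase i, (1 + C (x j) * X)), ?_⟩
    have h2 := h i
    rw [← coeff_prod_one_add] at h2
    rw [hR, hP, ← mul_prod_erase _ _ (mem_univ i)]
    generalize (∏ j ∈ univ.erase i, (1 + C (x j) * X : K[X])) = Q at h2 ⊢
    ext j
    rw [coeff_trunc, add_mul, add_mul, one_mul, one_mul, coeff_add, coeff_add, mul_assoc,
      mul_assoc, coeff_C_mul, coeff_C_mul, coeff_trunc]
    rcases j with _ | j
    · rcases D with _ | D
      · simp [h2]
      · simp
    · rw [coeff_X_mul, coeff_X_mul, coeff_trunc]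
      rcases lt_trichotomy (j + 1) D with hj | hj | hj
      · rw [if_pos (by omega), if_pos hj, if_pos (by omega)]
      · rw [if_pos (by omega), if_neg (by omega), if_pos (by omega), hj, h2]
      · rw [if_neg (by omega), if_neg (by omega), if_neg (by omega), mul_zero, add_zero]
  have h2 : P ∣ derivative P * R := by
    rw [hP, derivative_prod_finset, sum_mul]
    refine dvd_sum fun i _ => ?_
    obtain ⟨Q, hQ⟩ := h1 i
    rw [hQ, ← mul_prod_erase _ _ (mem_univ i)]
    exact ⟨derivative (1 + C (x i) * X) * Q, by ring⟩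
  obtain ⟨S, hS⟩ : X ^ (D + 1) ∣ P - R := by
    rw [X_pow_dvd_iff]
    intro d hd
    rw [coeff_sub, hR, coeff_trunc, if_pos hd, sub_self]
  have hRD : R.natDegree ≤ D := by
    rw [natDegree_le_iff_coeff_eq_zero]
    intro n hn
    rw [hR, coeff_trunc, if_neg (by omega)]
  have hR0 : R ≠ 0 := by
    intro h0
    have := congrArg (fun p : K[X] => p.coeff 0) h0
    simp [hR, coeff_trunc, hP0] at this
  have hPne : P ≠ 0 := by
    intro h0
    rw [h0] at hP0
    simp at hP0
  by_contra hlt
  rw [← hdeg] at hlt
  set W : K[X] := X * derivative P * R - P * (X * derivative R) with hW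
  have hWdeg : W.natDegree ≤ P.natDegree + R.natDegree :=
    (natDegree_sub_le _ _).trans (max_le
      (natDegree_mul_le.trans (add_le_add (natDegree_X_mul_derivative_le P) le_rfl))
      (natDegree_mul_le.trans (add_le_add le_rfl (natDegree_X_mul_derivative_le R))))
  have hW0 : W ≠ 0 := by
    intro h0
    have h3 := congrArg (fun p : K[X] => p.coeff (P.natDegree + R.natDegree)) h0
    simp only [hW, coeff_sub, coeff_zero] at h3
    rw [coeff_mul_add_eq_of_natDegree_le (natDegree_X_mul_derivative_le P) le_rfl,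
      coeff_mul_add_eq_of_natDegree_le le_rfl (natDegree_X_mul_derivative_le R),
      coeff_X_mul_derivative, coeff_X_mul_derivative, coeff_natDegree, coeff_natDegree] at h3
    have h4 : ((P.natDegree : K) - R.natDegree) * (P.leadingCoeff * R.leadingCoeff) = 0 := by
      linear_combination h3
    rcases mul_eq_zero.mp h4 with h5 | h5
    · have : P.natDegree = R.natDegree := by exact_mod_cast sub_eq_zero.mp h5
      omega
    · exact mul_ne_zero (leadingCoeff_ne_zero.mpr hPne) (leadingCoeff_ne_zero.mpr hR0) h5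
  obtain ⟨V, hV⟩ : P ∣ W := by
    rw [hW, mul_assoc]
    exact dvd_sub (h2.mul_left _) (dvd_mul_right _ _)
  have h5 : X ^ (D + 1) ∣ P * V := by
    have h6 : P = R + X ^ (D + 1) * S := by rw [← hS]; ring
    have h7 : derivative P = derivative R + (C ((D : K) + 1) * X ^ D * S +
        X ^ (D + 1) * derivative S) := by
      conv_lhs => rw [h6]
      rw [derivative_add, derivative_mul, derivative_X_pow_succ]
    rw [← hV, hW, h7]
    refine ⟨(C ((D : K) + 1) * S + X * derivative S) * R - S * (X * derivative R), ?_⟩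
    linear_combination (-(X * derivative R)) * h6
  obtain ⟨V', hV'⟩ := prime_X.pow_dvd_of_dvd_mul_left (D + 1)
    (by rw [X_dvd_iff, hP0]; exact one_ne_zero) h5
  have hV0 : V' ≠ 0 := by
    rintro rfl
    rw [hV', mul_zero, mul_zero] at hV
    exact hW0 hV
  rw [hV, hV', natDegree_mul hPne (mul_ne_zero (pow_ne_zero _ X_ne_zero) hV0),
    natDegree_mul (pow_ne_zero _ X_ne_zero) hV0, natDegree_X_pow] at hWdeg
  omega

end Pool.Agent.Lib.MP_8b1d3b_lc.H13
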