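import Mathlib
import Pool.Agent.Lib.MP_8b1d3b_lc.H13Border
import Pool.Agent.Lib.MP_8b1d3b_lc.H13Supp

set_option autoImplicit false

namespace Pool.Agent.Lib.MP_8b1d3b_lc.H13

open Finset MvPolynomial

theorem homogeneous_le_mul_pow {L κ J : Type*} [Field L] [Finite κ] (F : J → MvPolynomial κ L)
    {D : ℕ} (hF : ∀ j, (F j).IsHomogeneous D)
    (hrad : ∀ i, (X i : MvPolynomial κ L) ∈ (Ideal.span (Set.range F)).radical) :
    ∃ S : ℕ, ∀ T : ℕ, homogeneousSubmodule κ L (S + D * T) ≤
      homogeneousSubmodule κ L S * Submodule.span L (Set.range F) ^ T := by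
  have hle : idealOfVars κ L ≤ (Ideal.span (Set.range F)).radical := by
    rw [Ideal.span_le]
    rintro _ ⟨i, rfl⟩
    exact hrad i
  obtain ⟨c, hc⟩ := Ideal.exists_pow_le_of_le_radical_of_fg hle (idealOfVars_fg κ L)
  have step : ∀ e, c ≤ e → homogeneousSubmodule κ L (e + D) ≤
      homogeneousSubmodule κ L e * Submodule.span L (Set.range F) := by
    intro e he p hp
    have hp' : p.IsHomogeneous (e + D) := hp
    have hpI : p ∈ Ideal.span (Set.range F) := by
      apply hc
      rw [mem_pow_idealOfVars_iff]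
      intro a ha
      have h0 : a.degree = e + D := by
        have := hp' (mem_support_iff.mp ha)
        rwa [Finsupp.degree_eq_weight_one]
      omega
    have key : ∀ r ∈ Ideal.span (Set.range F), ∀ q : MvPolynomial κ L,
        homogeneousComponent (e + D) (q * r) ∈
          homogeneousSubmodule κ L e * Submodule.span L (Set.range F) := by
      intro r hr
      induction hr using Submodule.span_induction with
      | mem f hf =>
        intro q
        obtain ⟨j, rfl⟩ := hf
        rw [homogeneousComponent_mul_homogeneous q _ (hF j), if_pos (by omega),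
          Nat.add_sub_cancel]
        exact Submodule.mul_mem_mul (homogeneousComponent_mem e q)
          (Submodule.subset_span ⟨j, rfl⟩)
      | zero => intro q; simp
      | add x y _ _ hx hy =>
        intro q
        rw [mul_add, map_add]
        exact Submodule.add_mem _ (hx q) (hy q)
      | smul a x _ hx =>
        intro q
        rw [smul_eq_mul, ← mul_assoc]
        exact hx _
    have := key p hpI 1
    rwa [one_mul, homogeneousComponent_eq_self hp'] at this
  refine ⟨c, fun T => ?_⟩
  induction T with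
  | zero => simp
  | succ T ih =>
    rw [mul_add_one, ← add_assoc, pow_succ, ← mul_assoc]
    exact (step _ (by omega)).trans (mul_le_mul' ih le_rfl)

theorem dehomogenize {L κ J o : Type*} [Field L] [Finite κ] (F : J → MvPolynomial κ L)
    {D : ℕ} (hF : ∀ j, (F j).IsHomogeneous D)
    (hrad : ∀ i, (X i : MvPolynomial κ L) ∈ (Ideal.span (Set.range F)).radical)
    (ψ : κ → MvPolynomial o L) (hψ : Submodule.span L (Set.range ψ) = aff o L) :
    ∃ S : ℕ, ∀ (T : ℕ) (p : MvPolynomial o L), p.totalDegree ≤ D * T →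
      p ∈ restrictTotalDegree o L S *
        Submodule.span L (Set.range fun j => aeval ψ (F j)) ^ T := by
  obtain ⟨S, hS⟩ := homogeneous_le_mul_pow F hF hrad
  have h1 : ∀ e, (homogeneousSubmodule κ L e).map
      (aeval ψ : MvPolynomial κ L →ₐ[L] _).toLinearMap = aff o L ^ e := by
    intro e
    rw [← homogeneousSubmodule_one_pow, Submodule.map_pow, homogeneousSubmodule_one_eq_span_X,
      Submodule.map_span, ← Set.range_comp, ← hψ]
    congr 3
    funext k
    simp
  refine ⟨S, fun T p hp => ?_⟩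
  have h2 : p ∈ aff o L ^ (S + D * T) := mem_aff_pow (by omega)
  rw [← h1] at h2
  have h3 := Submodule.map_mono (hS T) h2
  rw [Submodule.map_mul, h1, Submodule.map_pow, Submodule.map_span, ← Set.range_comp] at h3
  have h4 : aff o L ^ S ≤ restrictTotalDegree o L S := fun x hx =>
    (mem_restrictTotalDegree _ _ _).mpr (totalDegree_le_of_mem_aff_pow hx)
  have h5 := mul_le_mul' h4 (le_refl (Submodule.span L (Set.range fun j => aeval ψ (F j)) ^ T))
  exact h5 h3

section

variable {G : Type} [Fintype G] [DecidableEq G] {q r D : ℕ}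

/-- The Reed and Solomon parametrization. -/
noncomputable def rs (G : Type) (q r : ℕ) (v : G × Fin q) : MvPolynomial (G × Fin r) ℂ :=
  ∑ j : Fin r, C (((v.2 : ℕ) : ℂ) ^ (j : ℕ)) * X (v.1, j)

omit [DecidableEq G] in
theorem pderiv_sum_esy (c : ℕ) (g : G) (i : Fin q) :
    pderiv (g, i) ((c : MvPolynomial (G × Fin q) ℂ) * ∑ g', esy ℂ g' univ (D + 1)) =
      (c : MvPolynomial (G × Fin q) ℂ) * esy ℂ g (univ.erase i) D := by
  rw [← map_natCast (C : ℂ →+* _), pderiv_C_mul, map_sum, sum_eq_single g,
    pderiv_esy_self g (mem_univ i)]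
  · intro g' _ hg
    exact pderiv_esy_of_ne hg _ _ _
  · simp

omit [DecidableEq G] in
theorem rs_radical (hr : r + D ≤ q) {c : ℕ} (hc : c ≠ 0) (k : G × Fin r) :
    (X k : MvPolynomial (G × Fin r) ℂ) ∈ (Ideal.span (Set.range fun v => aeval (rs G q r)
      (pderiv v ((c : MvPolynomial (G × Fin q) ℂ) * ∑ g', esy ℂ g' univ (D + 1))))).radical := by
  classical
  obtain ⟨g, j⟩ := k
  rw [← vanishingIdeal_zeroLocus_eq_radical (K := ℂ), mem_vanishingIdeal_iff, zeroLocus_span]
  intro y hy
  let Q : Polynomial ℂ := ∑ j : Fin r, Polynomial.monomial j (y (g, j))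
  have hQ : ∀ i : Fin q, aeval y (rs G q r (g, i)) = Q.eval ((i : ℕ) : ℂ) := by
    intro i
    simp [rs, Q, Polynomial.eval_finsetSum, mul_comm]
  have h1 := card_support_le (fun i : Fin q => Q.eval ((i : ℕ) : ℂ)) D fun i => by
    have h2 := hy _ ⟨(g, i), rfl⟩
    simp only [pderiv_sum_esy] at h2
    simp only [map_mul, map_natCast, esy, map_sum, map_prod, aeval_X, hQ] at h2
    exact (mul_eq_zero.mp h2).resolve_left (Nat.cast_ne_zero.mpr hc)
  have h2 : Q.natDegree < r := by
    have : Q.natDegree ≤ r - 1 := Polynomial.natDegree_sum_le_of_forall_le _ _ fun j _ =>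
      (Polynomial.natDegree_monomial_le _).trans (by have := j.2; omega)
    have := j.2
    omega
  have h3 : Q = 0 := by
    refine Polynomial.eq_zero_of_natDegree_lt_card_of_eval_eq_zero' Q
      ((univ.filter fun i : Fin q => ¬ Q.eval ((i : ℕ) : ℂ) ≠ 0).image
        fun i : Fin q => ((i : ℕ) : ℂ))
      (fun x hx => ?_) ?_
    · obtain ⟨i, hi, rfl⟩ := mem_image.mp hx
      exact not_not.mp (mem_filter.mp hi).2
    · rw [card_image_of_injective _ fun a b h => Fin.ext (Nat.cast_injective h)]
      have := card_filter_add_card_filter_not (s := (univ : Finset (Fin q)))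
        fun i => Q.eval ((i : ℕ) : ℂ) ≠ 0
      rw [card_univ, Fintype.card_fin] at this
      omega
  have h4 := congrArg (fun p : Polynomial ℂ => p.coeff j) h3
  simpa [Q, Polynomial.coeff_monomial, Fin.val_inj] using h4

omit [Fintype G] [DecidableEq G] in
theorem rs_isHomogeneous (v : G × Fin q) : (rs G q r v).IsHomogeneous 1 :=
  IsHomogeneous.sum _ _ _ fun _ _ => (isHomogeneous_X _ _).C_mul _

end

theorem line_pderiv {ρ : Type*} (p : MvPolynomial (Option ρ) ℂ) :
    aeval (fun o : Option ρ => o.elim Polynomial.X fun _ => (0 : Polynomial ℂ)) (pderiv none p) =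
      Polynomial.derivative
        (aeval (fun o : Option ρ => o.elim Polynomial.X fun _ => (0 : Polynomial ℂ)) p) := by
  induction p using MvPolynomial.induction_on with
  | C a => simp
  | add p q hp hq => simp [hp, hq]
  | mul_X p o hp =>
    rcases o with _ | o
    · simp [hp, mul_comm]
    · simp [pderiv_X_of_ne]

theorem line_constantCoeff {ρ : Type*} (p : MvPolynomial (Option ρ) ℂ) :
    constantCoeff p = (aeval (fun o : Option ρ => o.elim Polynomial.X
      fun _ => (0 : Polynomial ℂ)) p).eval 0 := by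
  induction p using MvPolynomial.induction_on with
  | C a => simp
  | add p q hp hq => simp [hp, hq]
  | mul_X p o hp => rcases o with _ | o <;> simp

theorem exists_instance {G : Type} [Fintype G] [DecidableEq G] {q r D c : ℕ} (hr0 : 0 < r)
    (hr : r + D ≤ q) (hc : c ≠ 0) {g0 g1 : G} (hg : g0 ≠ g1) :
    ∃ (ρ : Type) (_ : Fintype ρ) (π : G × Fin q → MvPolynomial (Option ρ) ℂ) (S : ℕ),
      Fintype.card ρ + 2 = Fintype.card G * r ∧ (∀ i, (π i).totalDegree ≤ 1) ∧
      constantCoeff (aeval π ((c : MvPolynomial (G × Fin q) ℂ) *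
        ∑ g, esy ℂ g univ (D + 1))) = 0 ∧
      constantCoeff (pderiv none (aeval π ((c : MvPolynomial (G × Fin q) ℂ) *
        ∑ g, esy ℂ g univ (D + 1)))) ≠ 0 ∧
      ∀ (T : ℕ) (p : MvPolynomial (Option ρ) ℂ), p.totalDegree ≤ D * T →
        p ∈ restrictTotalDegree (Option ρ) ℂ S * Submodule.span ℂ (Set.range fun i =>
          aeval π (pderiv i ((c : MvPolynomial (G × Fin q) ℂ) *
            ∑ g, esy ℂ g univ (D + 1)))) ^ T := by
  classical
  obtain ⟨ζ, hζ⟩ := IsAlgClosed.exists_pow_nat_eq (-1 : ℂ) (Nat.succ_pos D)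
  let j0 : Fin r := ⟨0, hr0⟩
  let ρ := {k : G × Fin r // k ≠ (g0, j0) ∧ k ≠ (g1, j0)}
  let ψ : G × Fin r → MvPolynomial (Option ρ) ℂ := fun k =>
    if h0 : k = (g0, j0) then 1 else if h1 : k = (g1, j0) then C ζ + X none
    else X (some ⟨k, h0, h1⟩)
  have hne : (g1, j0) ≠ (g0, j0) := fun h => hg (Prod.mk.inj h).1.symm
  have hψ : Submodule.span ℂ (Set.range ψ) = aff (Option ρ) ℂ := by
    apply le_antisymm
    · rw [Submodule.span_le]
      rintro _ ⟨k, rfl⟩
      simp only [ψ]
      split_ifs
      exacts [one_mem_aff, Submodule.add_mem _ (C_mem_aff _) (X_mem_aff _), X_mem_aff _]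
    · have h1 : (1 : MvPolynomial (Option ρ) ℂ) ∈ Submodule.span ℂ (Set.range ψ) :=
        Submodule.subset_span ⟨(g0, j0), by simp [ψ]⟩
      refine aff_le h1 ?_
      rintro (_ | ⟨k, h0, h1'⟩)
      · have h2 : C ζ + X none ∈ Submodule.span ℂ (Set.range ψ) :=
          Submodule.subset_span ⟨(g1, j0), by simp [ψ, hne]⟩
        have h3 := Submodule.sub_mem _ h2 (Submodule.smul_mem _ ζ h1)
        rwa [smul_eq_C_mul, mul_one, add_sub_cancel_left] at h3
      · exact Submodule.subset_span ⟨k, by simp [ψ, h0, h1']⟩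
  let f : MvPolynomial (G × Fin q) ℂ := (c : MvPolynomial (G × Fin q) ℂ) *
    ∑ g, esy ℂ g univ (D + 1)
  have hf : f.IsHomogeneous (D + 1) := by
    have := (IsHomogeneous.sum univ (fun g : G => esy ℂ g (univ : Finset (Fin q)) (D + 1)) _
      fun g _ => esy_isHomogeneous _ _ _).C_mul (c : ℂ)
    rwa [map_natCast] at this
  obtain ⟨S, hS⟩ := dehomogenize (fun v => aeval (rs G q r) (pderiv v f)) (D := D) (fun v => by
    have := (hf.pderiv (i := v)).aeval (rs G q r) rs_isHomogeneous
    simpa using this) (rs_radical hr hc) ψ hψ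
  let π : G × Fin q → MvPolynomial (Option ρ) ℂ := fun v => aeval ψ (rs G q r v)
  have hπ : ∀ p, aeval π p = aeval ψ (aeval (rs G q r) p) := fun p =>
    (comp_aeval_apply _ _ _).symm
  let θ : MvPolynomial (Option ρ) ℂ →ₐ[ℂ] Polynomial ℂ :=
    aeval fun o : Option ρ => o.elim Polynomial.X fun _ => (0 : Polynomial ℂ)
  let y : G → Polynomial ℂ := fun g =>
    if g = g0 then 1 else if g = g1 then Polynomial.C ζ + Polynomial.X else 0
  have hθ : ∀ v, θ (π v) = y v.1 := by
    rintro ⟨g, i⟩
    simp only [π, rs, map_sum, map_mul, aeval_X, aeval_C]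
    rw [sum_eq_single j0]
    · simp only [ψ, y, j0, Prod.mk.injEq, and_true, pow_zero, map_one, one_mul]
      split_ifs <;> simp [θ]
    · intro j _ hj
      simp [ψ, hj, θ]
    · simp
  have hθf : θ (aeval π f) = ((c * q.choose (D + 1) : ℕ) : Polynomial ℂ) *
      (1 + (Polynomial.C ζ + Polynomial.X) ^ (D + 1)) := by
    have e1 : ∀ g, θ (aeval π (esy ℂ g (univ : Finset (Fin q)) (D + 1))) =
        (q.choose (D + 1) : Polynomial ℂ) * y g ^ (D + 1) := by
      intro g
      simp only [esy, map_sum, map_prod, aeval_X, hθ]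
      rw [sum_congr rfl fun J hJ => by rw [prod_const, (mem_powersetCard.mp hJ).2], sum_const,
        card_powersetCard, card_univ, Fintype.card_fin, nsmul_eq_mul]
    simp only [f, map_mul, map_natCast, map_sum, e1, ← mul_sum]
    rw [Nat.cast_mul, mul_assoc, Fintype.sum_eq_add g0 g1 hg]
    · simp [y, hg.symm]
    · intro g h
      simp [y, h.1, h.2]
  refine ⟨ρ, inferInstance, π, S, ?_, fun v => totalDegree_le_of_mem_aff (aeval_mem_aff
    (fun k => hψ ▸ Submodule.subset_span ⟨k, rfl⟩) (rs_isHomogeneous v).totalDegree_le),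
    ?_, ?_, fun T p hp => ?_⟩
  · have e : (univ.filter fun k : G × Fin r => k ≠ (g0, j0) ∧ k ≠ (g1, j0)) =
        (univ.erase (g0, j0)).erase (g1, j0) := by
      ext k; simp [and_comm]
    have e' : (univ : Finset (G × Fin r)).card = Fintype.card G * r := by simp
    rw [Fintype.card_subtype, e, ← e', add_assoc _ 1 1 |>.symm,
      card_erase_add_one (mem_erase.mpr ⟨hne, mem_univ _⟩), card_erase_add_one (mem_univ _)]
  · rw [line_constantCoeff]
    change (θ (aeval π f)).eval 0 = 0
    rw [hθf]
    simp [hζ]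
  · rw [line_constantCoeff, line_pderiv]
    change (Polynomial.derivative (θ (aeval π f))).eval 0 ≠ 0
    have hζ0 : ζ ≠ 0 := by
      rintro rfl
      simp at hζ
    have h1 : q.choose (D + 1) ≠ 0 := (Nat.choose_pos (by omega)).ne'
    have h2 : (D : ℂ) + 1 ≠ 0 := by exact_mod_cast Nat.succ_ne_zero D
    rw [hθf]
    simp [Polynomial.derivative_pow, hc, h1, h2, hζ0]
  · simp only [hπ]
    exact hS T p hp

end Pool.Agent.Lib.MP_8b1d3b_lc.H13
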