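import Mathlib
import Pool.Agent.Lib.MP_8b1d3b_lc.H13RS

set_option autoImplicit false

namespace Pool.Agent.Lib.MP_8b1d3b_lc.H13

open Finset MvPolynomial

theorem numeric_dc {D r m : ℕ} (hD : 400 ≤ D) (hr : 12 * D ≤ r)
    (h : ∀ τ : ℕ, 0 < τ → D ^ r * (r + 1) * τ ^ (2 * m - 2) ≤
      2 * m * (2 * τ) ^ r * (τ + 1) ^ (2 * m - 2)) : r * D ≤ 12 * m := by
  by_contra hlt
  push Not at hlt
  obtain ⟨τ, hτ⟩ : ∃ τ, τ = D / 6 + 1 := ⟨_, rfl⟩
  have hτ0 : 0 < τ := by omega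
  have h1 : ((D : ℝ)) ^ r * (r + 1) * (τ : ℝ) ^ (2 * m - 2) ≤
      2 * m * (2 * τ) ^ r * ((τ : ℝ) + 1) ^ (2 * m - 2) := by exact_mod_cast h τ hτ0
  have hτ' : (0 : ℝ) < τ := by exact_mod_cast hτ0
  have hD' : (400 : ℝ) ≤ D := by exact_mod_cast hD
  have h2 : 2 * m ≤ r * τ := by nlinarith [show D ≤ 6 * τ by omega]
  have h2' : 2 * (m : ℝ) ≤ r * τ := by exact_mod_cast h2
  have h3 : ((τ : ℝ) + 1) ^ (2 * m - 2) ≤ (τ : ℝ) ^ (2 * m - 2) * Real.exp 1 ^ r := by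
    have e1 : (τ : ℝ) + 1 ≤ τ * Real.exp (1 / τ) := by
      have := Real.add_one_le_exp (1 / (τ : ℝ))
      calc (τ : ℝ) + 1 = τ * (1 / τ + 1) := by field_simp; ring
        _ ≤ _ := mul_le_mul_of_nonneg_left this hτ'.le
    refine (pow_le_pow_left₀ (by positivity) e1 _).trans ?_
    rw [mul_pow, ← Real.exp_nat_mul, ← Real.exp_nat_mul]
    refine mul_le_mul_of_nonneg_left (Real.exp_le_exp.mpr ?_) (by positivity)
    have e2 : ((2 * m - 2 : ℕ) : ℝ) ≤ 2 * m := by exact_mod_cast Nat.sub_le _ _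
    rw [mul_one_div, mul_one, div_le_iff₀ hτ']
    linarith
  have h4 : ((D : ℝ)) ^ r * (r + 1) ≤ 2 * m * (2 * τ * Real.exp 1) ^ r := by
    refine le_of_mul_le_mul_right (h1.trans ?_) (pow_pos hτ' (2 * m - 2))
    calc 2 * m * (2 * τ) ^ r * ((τ : ℝ) + 1) ^ (2 * m - 2)
        ≤ 2 * m * (2 * τ) ^ r * ((τ : ℝ) ^ (2 * m - 2) * Real.exp 1 ^ r) :=
          mul_le_mul_of_nonneg_left h3 (by positivity)
      _ = _ := by rw [mul_pow (2 * (τ : ℝ))]; ring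
  have h5 : (τ : ℝ) ≤ D / 6 + 1 := by
    rw [hτ]
    push_cast
    have := Nat.cast_div_le (α := ℝ) (m := D) (n := 6)
    push_cast at this
    linarith
  have h6 : 2 * τ * Real.exp 1 ≤ 23 / 25 * D := by
    have := Real.exp_one_lt_d9
    have h0 := Real.exp_pos 1
    nlinarith
  have h7 : (2 * τ * Real.exp 1) ^ r ≤ (23 / 25) ^ r * (D : ℝ) ^ r := by
    rw [← mul_pow]
    exact pow_le_pow_left₀ (by positivity) h6 _
  have h8 : ((r : ℝ) + 1) ≤ 2 * m * (23 / 25) ^ r := by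
    refine le_of_mul_le_mul_left (h4.trans ?_) (pow_pos (by positivity : (0 : ℝ) < D) r)
    calc 2 * m * (2 * τ * Real.exp 1) ^ r ≤ 2 * m * ((23 / 25) ^ r * (D : ℝ) ^ r) :=
          mul_le_mul_of_nonneg_left h7 (by positivity)
      _ = _ := by ring
  have h9 : 1 + (r : ℝ) * (2 / 23) ≤ (1 + 2 / 23) ^ r := one_add_mul_le_pow (by norm_num) r
  have h10 : ((23 : ℝ) / 25) ^ r * (1 + 2 / 23) ^ r = 1 := by
    rw [← mul_pow]; norm_num
  have hr' : 12 * (D : ℝ) ≤ r := by exact_mod_cast hr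
  have h11 : ((r : ℝ) + 1) * (1 + 2 / 23) ^ r ≤ 2 * m := by
    calc ((r : ℝ) + 1) * (1 + 2 / 23) ^ r ≤ 2 * m * (23 / 25) ^ r * (1 + 2 / 23) ^ r :=
          mul_le_mul_of_nonneg_right h8 (by positivity)
      _ = 2 * m := by rw [mul_assoc, h10, mul_one]
  have h12 : ((r : ℝ) + 1) * (1 + (r : ℝ) * (2 / 23)) ≤ 2 * m :=
    (mul_le_mul_of_nonneg_left h9 (by positivity)).trans h11
  nlinarith

theorem border_dc
    (DL : ∀ {σ ρ : Type} [Fintype σ] [Fintype ρ] (f : MvPolynomial σ ℂ)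
      (π : σ → MvPolynomial (Option ρ) ℂ) (_ : ∀ i, (π i).totalDegree ≤ 1) {D S m : ℕ}
      (_ : constantCoeff (aeval π f) = 0) (_ : constantCoeff (pderiv none (aeval π f)) ≠ 0)
      (_ : ∀ (T : ℕ) (p : MvPolynomial (Option ρ) ℂ), p.totalDegree ≤ D * T →
        p ∈ restrictTotalDegree (Option ρ) ℂ S *
          (Submodule.span ℂ (Set.range fun i => aeval π (pderiv i f))) ^ T)
      (_ : BorderDet m f) (τ : ℕ) (_ : 0 < τ),
      D ^ Fintype.card ρ * (Fintype.card ρ + 1) * τ ^ (2 * m - 2) ≤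
        2 * m * (2 * τ) ^ Fintype.card ρ * (τ + 1) ^ (2 * m - 2))
    {n m : ℕ} (hn : 14 * 11 * 2 ^ 11 ≤ n)
    (hper : BorderDet m (Matrix.permanent (Matrix.of fun i j : Fin n =>
      (X (i, j) : MvPolynomial (Fin n × Fin n) ℂ)))) :
    (n : ℝ) ^ 3 ≤ 100000 * m * Real.log n := by
  have hex : ∃ k, n < 14 * (k + 1) * 2 ^ (k + 1) := ⟨n, by
    have := Nat.lt_two_pow_self (n := n + 1)
    nlinarith⟩
  obtain ⟨k, hk1, hk2⟩ : ∃ k, n < 14 * (k + 1) * 2 ^ (k + 1) ∧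
      ∀ j < k, ¬ n < 14 * (j + 1) * 2 ^ (j + 1) :=
    ⟨Nat.find hex, Nat.find_spec hex, fun j hj => Nat.find_min hex hj⟩
  have hk3 : 11 ≤ k := by
    by_contra h
    have h1 : 2 ^ (k + 1) ≤ 2 ^ 11 := Nat.pow_le_pow_right (by norm_num) (by omega)
    have h2 : 14 * (k + 1) * 2 ^ (k + 1) ≤ 14 * 11 * 2 ^ 11 :=
      Nat.mul_le_mul (by omega) h1
    omega
  obtain ⟨k', rfl⟩ : ∃ k', k = k' + 1 := ⟨k - 1, by omega⟩
  have hk4 : 14 * (k' + 1) * 2 ^ (k' + 1) ≤ n := not_lt.mp (hk2 k' (by omega))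
  obtain ⟨D, hD⟩ : ∃ D, D = 2 ^ k' := ⟨_, rfl⟩
  have hq : 2 ^ (k' + 1) = 2 * D := by rw [hD, pow_succ']
  have hD1 : 1024 ≤ D := hD ▸ Nat.pow_le_pow_right (n := 2) (by norm_num) (by omega : 10 ≤ k')
  have hD2 : 4 * (k' + 1) ≤ D := by
    obtain ⟨j, rfl⟩ : ∃ j, k' = j + 5 := ⟨k' - 5, by omega⟩
    have := Nat.lt_two_pow_self (n := j)
    rw [hD, pow_add]
    omega
  obtain ⟨A, hA⟩ : ∃ A, A = n / (12 * D) := ⟨_, rfl⟩
  have hA1 : 12 * D * A ≤ n := hA ▸ Nat.mul_div_le n (12 * D)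
  have hA2 : n < 12 * D * (A + 1) := hA ▸ Nat.lt_mul_div_succ n (by omega)
  rw [hq] at hk4
  rw [pow_succ', hq] at hk1
  have hA3 : 6 ≤ A := by
    by_contra h
    have : 12 * D * (A + 1) ≤ 12 * D * 6 := Nat.mul_le_mul_left _ (by omega)
    nlinarith
  have hb := borderDet_fam2 (A := Fin A) (k := k' + 1) (d := D + 1) (w := 3 * D - 1)
    (by omega) (by rw [hq, Fintype.card_fin]; nlinarith) hper
  obtain ⟨ρ, _, π, S, hρ, hπ, H0, H1, H2⟩ := exists_instance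
    (G := Fin A × Fin A × Fin (2 ^ (k' + 1))) (q := 2 ^ (k' + 1)) (r := D) (D := D)
    (c := (D + 1).factorial * (3 * D - 1).factorial) (by omega) (by omega) (by positivity)
    (g0 := (⟨0, by omega⟩, ⟨0, by omega⟩, ⟨0, by omega⟩))
    (g1 := (⟨1, by omega⟩, ⟨0, by omega⟩, ⟨0, by omega⟩)) (by simp)
  simp only [Fintype.card_prod, Fintype.card_fin, hq] at hρ
  obtain ⟨r, hr⟩ : ∃ r, r = Fintype.card ρ := ⟨_, rfl⟩
  rw [← hr] at hρ
  have hAA : 36 ≤ A * A := Nat.mul_le_mul hA3 hA3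
  have hr1 : 12 * D + 200 ≤ r := by
    have : 36 * (2 * D) * 1024 ≤ A * A * (2 * D) * D :=
      Nat.mul_le_mul (Nat.mul_le_mul_right _ hAA) hD1
    nlinarith
  have key := numeric_dc (D := D) (r := r) (m := m) (by omega) (by omega) fun τ hτ => by
    rw [hr]
    exact DL _ π hπ H0 H1 H2 hb τ hτ
  have e1 : n ≤ 14 * D * A := by nlinarith
  have e2 : n ^ 3 ≤ (14 * D * A) ^ 2 * (56 * (k' + 2) * D) := by
    rw [pow_succ]
    exact Nat.mul_le_mul (Nat.pow_le_pow_left e1 2) (by nlinarith)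
  have e3 : 99 * (A * (A * (2 * D)) * D) ≤ 100 * r := by omega
  have e4 : 99 * n ^ 3 ≤ 6585600 * m * (k' + 2) := by
    calc 99 * n ^ 3 ≤ 99 * ((14 * D * A) ^ 2 * (56 * (k' + 2) * D)) := Nat.mul_le_mul_left _ e2
      _ = 5488 * (k' + 2) * D * (99 * (A * (A * (2 * D)) * D)) := by ring
      _ ≤ 5488 * (k' + 2) * D * (100 * r) := Nat.mul_le_mul_left _ e3
      _ = 548800 * (k' + 2) * (r * D) := by ring
      _ ≤ 548800 * (k' + 2) * (12 * m) := Nat.mul_le_mul_left _ key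
      _ = _ := by ring
  have e5 : 2 ^ (k' + 2) ≤ n := by
    rw [pow_succ', hq]
    nlinarith
  have e6 : ((k' : ℝ) + 2) * Real.log 2 ≤ Real.log n := by
    have := Real.log_le_log (by positivity) (show ((2 : ℝ) ^ (k' + 2)) ≤ n by exact_mod_cast e5)
    rw [Real.log_pow] at this
    exact_mod_cast this
  have e7 : 99 * (n : ℝ) ^ 3 ≤ 6585600 * m * (k' + 2) := by exact_mod_cast e4
  have l2 := Real.log_two_gt_d9
  have e8 : ((k' : ℝ) + 2) * 0.69 ≤ Real.log n := by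
    have : (0 : ℝ) ≤ (k' : ℝ) + 2 := by positivity
    nlinarith
  have hm : (0 : ℝ) ≤ m := by positivity
  have e9 : (m : ℝ) * (((k' : ℝ) + 2) * 0.69) ≤ m * Real.log n :=
    mul_le_mul_of_nonneg_left e8 hm
  have e10 : (0 : ℝ) ≤ m * ((k' : ℝ) + 2) := by positivity
  nlinarith

end Pool.Agent.Lib.MP_8b1d3b_lc.H13
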