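import Mathlib
import Pool.Agent.Lib.MP_8b1d3b_lc.H13Core

set_option autoImplicit false

namespace Pool.Agent.Lib.MP_8b1d3b_lc.H13

open Finset MvPolynomial Module

theorem radical_zero {L : Type*} [Field L] [CharZero L] {q D w : ℕ} (h : D + 1 + w = 2 * q)
    {F : Set (MvPolynomial ((Fin q × Fin q × Fin q) × Fin q) L)}
    (h1 : ∀ v, pderiv v (fam q (D + 1) w (0 : L)) ∈ F)
    (h2 : ∀ g (ρ : Fin D), esy L g univ (ρ + 1) ^ D ∈ F) (v : (Fin q × Fin q × Fin q) × Fin q) :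
    X v ∈ (Ideal.span F).radical := by
  obtain ⟨g, i⟩ := v
  rw [Ideal.radical_eq_sInf, Submodule.mem_sInf]
  rintro P ⟨hP, hprime⟩
  have hF : ∀ p ∈ F, p ∈ P := fun p hp => hP (Ideal.subset_span hp)
  have hε : ∀ ρ, 1 ≤ ρ → ρ ≤ D → ∑ J ∈ powersetCard ρ (univ : Finset (Fin q)),
      ∏ r ∈ J, Ideal.Quotient.mk P (X (g, r)) = 0 := by
    intro ρ hρ1 hρ2
    have h3 := hprime.mem_of_pow_mem _ (hF _ (h2 g ⟨ρ - 1, by omega⟩))
    simp only [show ρ - 1 + 1 = ρ by omega] at h3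
    have h4 := Ideal.Quotient.eq_zero_iff_mem.mpr h3
    simpa only [esy, map_sum, map_prod] using h4
  have h5 := esymm_erase_eq (fun r => Ideal.Quotient.mk P (X (g, r))) univ (mem_univ i) D hε D
    le_rfl
  have h6 := hF _ (h1 (g, i))
  rw [pderiv_fam_zero h, ← map_natCast (C : L →+* _)] at h6
  have hκ : (((D + 1).factorial * w.factorial : ℕ) : L) ≠ 0 := by
    rw [Nat.cast_ne_zero]
    positivity
  have h7 := Ideal.mul_mem_left _ (C (((D + 1).factorial * w.factorial : ℕ) : L)⁻¹) h6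
  rw [← mul_assoc, ← C_mul, inv_mul_cancel₀ hκ, C_1, one_mul] at h7
  have h8 := Ideal.Quotient.eq_zero_iff_mem.mpr h7
  simp only [esy, map_sum, map_prod] at h8
  rw [h8, ← map_neg, ← map_pow] at h5
  exact P.neg_mem_iff.mp (hprime.mem_of_pow_mem _ (Ideal.Quotient.eq_zero_iff_mem.mp h5.symm))

theorem exists_good {L : Type*} [Field L] [CharZero L] {q D w : ℕ} (h : D + 1 + w = 2 * q) :
    ∃ t : L, t ≠ 0 ∧ ∀ v, (X v : MvPolynomial ((Fin q × Fin q × Fin q) × Fin q) L) ∈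
      (Ideal.span ((Set.range fun v => pderiv v (fam q (D + 1) w t)) ∪
        Set.range fun p : (Fin q × Fin q × Fin q) × Fin D =>
          esy L p.1 univ (p.2 + 1) ^ D)).radical := by
  let F : ((Fin q × Fin q × Fin q) × Fin q) ⊕ ((Fin q × Fin q × Fin q) × Fin D) →
      MvPolynomial ((Fin q × Fin q × Fin q) × Fin q) (Polynomial L) :=
    Sum.elim (fun v => pderiv v (fam q (D + 1) w Polynomial.X))
      fun p => esy _ p.1 univ (p.2 + 1) ^ D
  have hr : ∀ t : L, (Set.range fun j => map (Polynomial.evalRingHom t) (F j)) =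
      (Set.range fun v => pderiv v (fam q (D + 1) w t)) ∪
        Set.range fun p : (Fin q × Fin q × Fin q) × Fin D => esy L p.1 univ (p.2 + 1) ^ D := by
    intro t
    rw [← Set.Sum.elim_range]
    refine congrArg Set.range (funext fun j => ?_)
    rcases j with j | j
    · simp only [F, Sum.elim_inl, ← pderiv_map, map_fam, Polynomial.coe_evalRingHom,
        Polynomial.eval_X]
    · simp only [F, Sum.elim_inr, map_pow, map_esy]
  obtain ⟨t, ht, ht'⟩ := exists_param F (Sum.elim (fun _ => D) fun p => (p.2 + 1) * D)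
    (by
      rintro (j | j)
      · exact (fam_isHomogeneous q (D + 1) w Polynomial.X).pderiv
      · exact (esy_isHomogeneous _ _ _).pow D)
    (by
      rw [hr]
      exact radical_zero h (fun v => Or.inl ⟨v, rfl⟩) fun g ρ => Or.inr ⟨(g, ρ), rfl⟩)
  exact ⟨t, ht, hr t ▸ ht'⟩

theorem aeval_permanent {L S : Type*} [CommRing L] [CommRing S] [Algebra L S]
    {n : Type*} [Fintype n] [DecidableEq n] (M : Matrix n n S) :
    aeval (fun v : n × n => M v.1 v.2)
      (Matrix.permanent (Matrix.of fun i j : n => (X (i, j) : MvPolynomial (n × n) L))) =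
    M.permanent := by
  simp [Matrix.permanent]

theorem core_bound {L : Type*} [Field L] [CharZero L] [IsAlgClosed L] {q D n : ℕ} (hD : 1 ≤ D)
    (hq : D ≤ q) (hn : 5 * q ^ 2 + 3 * q ≤ n) {s : ℕ}
    {W : Submodule L (MvPolynomial (Fin n × Fin n) L)} (hW : Reach s (aff (Fin n × Fin n) L) W)
    (hper : Matrix.permanent (Matrix.of fun i j : Fin n =>
      (X (i, j) : MvPolynomial (Fin n × Fin n) L)) ∈ W) :
    D ^ (q ^ 4) ≤ 2 ^ (3 * s) * (D * D) ^ (q ^ 3 * D) * 3 ^ (q ^ 4 + 1) := by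
  classical
  obtain ⟨w, hw⟩ : ∃ w, D + 1 + w = 2 * q := ⟨2 * q - (D + 1), by omega⟩
  obtain ⟨t, ht, hrad⟩ := exists_good (L := L) hw
  obtain ⟨M, hM, c, hc, hMc⟩ := fam_projection (L := L) (by omega) hw hn ht
  let σ := (Fin q × Fin q × Fin q) × Fin q
  let φ : MvPolynomial (Fin n × Fin n) L →ₐ[L] MvPolynomial σ L :=
    aeval fun v : Fin n × Fin n => M v.1 v.2
  have hφ : ∀ p ∈ aff (Fin n × Fin n) L, φ p ∈ aff σ L := by
    intro p hp
    have : aff (Fin n × Fin n) L ≤ (aff σ L).comap φ.toLinearMap := by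
      apply aff_le
      · show φ 1 ∈ aff σ L
        rw [map_one]
        exact one_mem_aff
      · intro v
        show φ (X v) ∈ aff σ L
        rw [aeval_X]
        exact hM _ _
    exact this hp
  obtain ⟨W1, hW1, hW1'⟩ := hW.map φ hφ
  have hf : fam q (D + 1) w t ∈ W1 := by
    have h1 := hW1' _ hper
    rw [aeval_permanent, hMc] at h1
    exact (W1.smul_mem_iff hc).mp h1
  obtain ⟨W2, hW2, hW2'⟩ := hW1.baur_strassen one_mem_aff hf
  have hd : ∀ v : σ, pderiv v (fam q (D + 1) w t) ∈ W2 := by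
    intro v
    refine hW2' (pderiv v) fun p hp => ?_
    have : aff σ L ≤ (1 : Submodule L (MvPolynomial σ L)).comap (pderiv v).toLinearMap := by
      apply aff_le
      · simp
      · intro v'
        show pderiv v (X v' : MvPolynomial σ L) ∈ (1 : Submodule L (MvPolynomial σ L))
        rw [pderiv_X, Pi.single_apply]
        split_ifs
        · exact Submodule.mem_one.mpr ⟨1, by simp⟩
        · exact Submodule.zero_mem _
    exact this hp
  let Ex : Finset (MvPolynomial σ L) := (univ : Finset ((Fin q × Fin q × Fin q) × Fin D)).image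
    fun p => esy L p.1 univ (p.2 + 1) ^ D
  have hEx : ∀ g ∈ Ex, ∃ δ, D ≤ δ ∧ δ ≤ D * D ∧ g.IsHomogeneous δ := by
    intro g hg
    obtain ⟨p, _, rfl⟩ := mem_image.mp hg
    exact ⟨(p.2 + 1) * D, Nat.le_mul_of_pos_left _ (Nat.succ_pos _),
      Nat.mul_le_mul_right _ p.2.2, (esy_isHomogeneous _ _ _).pow D⟩
  have hExc : Ex.card ≤ q ^ 3 * D := by
    refine card_image_le.trans (le_of_eq ?_)
    simp only [card_univ, Fintype.card_prod, Fintype.card_fin]
    ring
  have hE : 1 ≤ D * D := Nat.mul_pos hD hD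
  let V1 : Submodule L (MvPolynomial σ L) := aff σ L ⊔ Submodule.span L (Ex : Set _)
  have hV1fg : V1.FG := aff_fg.sup (Submodule.fg_span Ex.finite_toSet)
  have hV1 : ∀ T, finrank L (V1 ^ T : Submodule L (MvPolynomial σ L)) ≤
      (D * D) ^ Ex.card * finrank L (aff σ L ^ T : Submodule L (MvPolynomial σ L)) := by
    intro T
    refine finrank_sup_span_finset_pow_le aff_fg one_mem_aff hE Ex (fun g hg => ?_) T
    obtain ⟨δ, _, h2, h3⟩ := hEx g hg
    exact pow_le_pow_of_one_mem one_mem_aff h2 (homogeneous_mem_pow X_mem_aff h3)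
  obtain ⟨W3, hW3, hW3'⟩ := hW2.map (AlgHom.id L _) (V' := V1)
    fun p hp => Submodule.mem_sup_left hp
  have hle : V1 ≤ W3 := hW3.le
  have hcard : Fintype.card σ = q ^ 4 := by
    simp only [σ, Fintype.card_prod, Fintype.card_fin]
    ring
  have key := degree_bound (hW3.fg hV1fg) (hle (Submodule.mem_sup_left one_mem_aff))
    (fun i => hle (Submodule.mem_sup_left (X_mem_aff i))) hD (by
      rintro g (⟨v, rfl⟩ | ⟨p, rfl⟩)
      · exact ⟨hW3' _ (hd v), D, le_rfl, (fam_isHomogeneous q (D + 1) w t).pderiv⟩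
      · have hg : esy L p.1 univ (p.2 + 1) ^ D ∈ Ex := mem_image.mpr ⟨p, mem_univ _, rfl⟩
        obtain ⟨δ, h1, _, h3⟩ := hEx _ hg
        exact ⟨hle (Submodule.mem_sup_right (Submodule.subset_span hg)), δ, h1, h3⟩) hrad
    (Γ := 2 ^ (3 * s) * (D * D) ^ Ex.card) (fun T => by
      refine (hW3.finrank_pow_le hV1fg (Submodule.mem_sup_left one_mem_aff) T).trans ?_
      rw [mul_assoc]
      refine Nat.mul_le_mul_left _ ((hV1 T).trans ?_)
      exact Nat.mul_le_mul_left _ (finrank_aff_pow_le T))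
  rw [hcard] at key
  refine key.trans (Nat.mul_le_mul_right _ (Nat.mul_le_mul_left _ ?_))
  exact Nat.pow_le_pow_right hE hExc

theorem numeric' {D m r s : ℕ} (hD : 1 ≤ D) (hlog : 30 ≤ Real.log D) (hr : 4 * r = m)
    (hm : 100 ≤ m) (h : D ^ m ≤ 2 ^ (3 * s) * (D * D) ^ r * 3 ^ (m + 1)) :
    (m : ℝ) * Real.log D ≤ 5 * s := by
  have hD0 : (0 : ℝ) < D := by positivity
  have h3 : ((D : ℝ)) ^ m ≤ 2 ^ (3 * s) * (D : ℝ) ^ (2 * r) * 3 ^ (m + 1) := by
    rw [← pow_two, ← pow_mul] at h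
    exact_mod_cast h
  have h4 := Real.log_le_log (by positivity) h3
  rw [Real.log_mul (by positivity) (by positivity), Real.log_mul (by positivity) (by positivity),
    Real.log_pow, Real.log_pow, Real.log_pow, Real.log_pow] at h4
  have l2 : Real.log 2 ≤ 7 / 10 := by
    have := Real.log_two_lt_d9; linarith
  have l3 : Real.log 3 ≤ 7 / 5 := by
    have h5 : Real.log 3 ≤ Real.log 4 := Real.log_le_log (by norm_num) (by norm_num)
    have h6 : Real.log 4 = 2 * Real.log 2 := by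
      rw [show (4 : ℝ) = 2 ^ 2 by norm_num, Real.log_pow]; norm_num
    linarith
  have hr' : 4 * (r : ℝ) = m := by exact_mod_cast hr
  have hm' : (100 : ℝ) ≤ m := by exact_mod_cast hm
  have hs' : (0 : ℝ) ≤ s := by positivity
  push_cast at h4
  have e1 : 3 * (s : ℝ) * Real.log 2 ≤ 21 / 10 * s := by nlinarith
  have e2 : ((m : ℝ) + 1) * Real.log 3 ≤ 3 / 2 * m := by nlinarith
  have e3 : 2 * (r : ℝ) * Real.log D = 1 / 2 * (m * Real.log D) := by rw [← hr']; ring
  have e4 : 30 * (m : ℝ) ≤ m * Real.log D := by nlinarith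
  linarith

theorem main_alg_closed : ∃ n₀ : ℕ, ∀ (L : Type*) [Field L] [CharZero L] [IsAlgClosed L],
    ∀ n ≥ n₀, ∀ (s : ℕ) (W : Submodule L (MvPolynomial (Fin n × Fin n) L)),
      Reach s (aff (Fin n × Fin n) L) W →
      Matrix.permanent (Matrix.of fun i j : Fin n =>
        (X (i, j) : MvPolynomial (Fin n × Fin n) L)) ∈ W →
      (n : ℝ) ^ 2 * Real.log n ≤ 300 * s := by
  obtain ⟨D0, hD0⟩ := exists_nat_ge (Real.exp 30 + 200)
  refine ⟨81 * D0 ^ 2, fun L _ _ _ N hN s W hW hper => ?_⟩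
  obtain ⟨D, hD⟩ : ∃ D, D = Nat.sqrt (N / 81) := ⟨_, rfl⟩
  have hD1 : D0 ≤ D := by
    rw [hD, Nat.le_sqrt']
    omega
  have hD0' : (200 : ℝ) ≤ D0 := by have := Real.exp_pos 30; linarith
  have hD2 : 200 ≤ D := le_trans (by exact_mod_cast hD0') hD1
  have hD3 : (D0 : ℝ) ≤ D := by exact_mod_cast hD1
  have hlog : 30 ≤ Real.log D := by
    rw [Real.le_log_iff_exp_le (by positivity)]
    linarith
  have h1 : D ^ 2 ≤ N / 81 := hD ▸ Nat.sqrt_le' _
  have h2 : N / 81 < (D + 1) ^ 2 := hD ▸ Nat.lt_succ_sqrt' _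
  have h3 : 81 * D ^ 2 ≤ N := by omega
  have h4 : N ≤ 82 * D ^ 2 := by
    have : N ≤ 81 * (D + 1) ^ 2 := by omega
    nlinarith
  have key := core_bound (q := 4 * D) (D := D) (by omega) (by omega) (by nlinarith) hW hper
  have h5 := numeric' (by omega) hlog (by ring) (by
    have : 4 ^ 4 ≤ (4 * D) ^ 4 := Nat.pow_le_pow_left (by omega) 4
    omega) key
  have hN0 : (0 : ℝ) < N := by
    have : 0 < N := by nlinarith
    exact_mod_cast this
  have h4' : (N : ℝ) ≤ 82 * (D : ℝ) ^ 2 := by exact_mod_cast h4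
  have hl : Real.log N ≤ 11 / 5 * Real.log D := by
    have e1 := Real.log_le_log hN0 h4'
    have e2 : Real.log 82 ≤ 5 := by
      have h5 : Real.log 82 ≤ Real.log (2 ^ 7) := Real.log_le_log (by norm_num) (by norm_num)
      rw [Real.log_pow] at h5
      have := Real.log_two_lt_d9
      push_cast at h5
      linarith
    rw [Real.log_mul (by norm_num) (by positivity), Real.log_pow] at e1
    push_cast at e1
    linarith
  have hsq : (N : ℝ) ^ 2 ≤ (82 * (D : ℝ) ^ 2) ^ 2 := pow_le_pow_left₀ hN0.le h4' 2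
  push_cast at h5
  have hl0 : 0 ≤ Real.log N := Real.log_natCast_nonneg N
  calc (N : ℝ) ^ 2 * Real.log N ≤ (82 * (D : ℝ) ^ 2) ^ 2 * (11 / 5 * Real.log D) :=
        mul_le_mul hsq hl hl0 (by positivity)
    _ = 82 ^ 2 * 11 / 5 / 256 * ((4 * (D : ℝ)) ^ 4 * Real.log D) := by ring
    _ ≤ 82 ^ 2 * 11 / 5 / 256 * (5 * s) := mul_le_mul_of_nonneg_left h5 (by norm_num)
    _ ≤ 300 * s := by
      have hs' : (0 : ℝ) ≤ s := by positivity
      linarith

theorem main : ∃ n₀ : ℕ, ∀ (K : Type*) [Field K] [CharZero K],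
    ∀ n ≥ n₀, ∀ (m : ℕ) (g : Fin (m + 1) → MvPolynomial (Fin n × Fin n) K)
      (M : Finset (Fin (m + 1))),
      (∀ i : Fin (m + 1), (∃ v, g i = X v) ∨ (∃ c, g i = C c) ∨
        ∃ a b : Fin (m + 1), a < i ∧ b < i ∧
          (g i = g a + g b ∨ (∃ c, g i = C c * g a) ∨ (i ∈ M ∧ g i = g a * g b))) →
      g (Fin.last m) = Matrix.permanent (Matrix.of fun i j : Fin n =>
        (X (i, j) : MvPolynomial (Fin n × Fin n) K)) →
      (n : ℝ) ^ 2 * Real.log n ≤ 300 * M.card := by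
  obtain ⟨n₀, h⟩ := main_alg_closed
  refine ⟨n₀, fun K _ _ n hn m g M hg hper => ?_⟩
  let L := AlgebraicClosure K
  let φ : MvPolynomial (Fin n × Fin n) K →+* MvPolynomial (Fin n × Fin n) L :=
    MvPolynomial.map (algebraMap K L)
  obtain ⟨s, hs, W, hW, hgW⟩ := slp_reach (fun i => φ (g i)) M (by
    intro i
    rcases hg i with ⟨v, h⟩ | ⟨c, h⟩ | ⟨a, b, ha, hb, h | ⟨c, h⟩ | ⟨hM, h⟩⟩
    · exact Or.inl ⟨v, by simp [h, φ]⟩
    · exact Or.inr (Or.inl ⟨algebraMap K L c, by simp [h, φ]⟩)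
    · exact Or.inr (Or.inr ⟨a, b, ha, hb, Or.inl (by simp only [h, map_add])⟩)
    · exact Or.inr (Or.inr ⟨a, b, ha, hb, Or.inr (Or.inl ⟨algebraMap K L c, by
        simp only [h, map_mul, φ, map_C]⟩)⟩)
    · exact Or.inr (Or.inr ⟨a, b, ha, hb, Or.inr (Or.inr ⟨hM, by simp only [h, map_mul]⟩)⟩))
  have h1 := h L n hn s W hW (by
    have := hgW (Fin.last m)
    rw [hper] at this
    simpa [Matrix.permanent, φ] using this)
  have h2 : (s : ℝ) ≤ M.card := by exact_mod_cast hs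
  linarith

end Pool.Agent.Lib.MP_8b1d3b_lc.H13
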