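import Mathlib
import Pool.Agent.Lib.MP_8b1d3b_lc.H13Main

set_option autoImplicit false

namespace Pool.Agent.Lib.MP_8b1d3b_lc.NLogNKept

theorem result : ∃ n₀ : ℕ, ∀ (K : Type*) [Field K] [CharZero K], ∀ n : ℕ, n₀ ≤ n →
    ∀ (m : ℕ) (g : Fin (m + 1) → MvPolynomial (Fin n × Fin n) K) (M : Finset (Fin (m + 1))),
      (∀ i : Fin (m + 1),
        (∃ v : Fin n × Fin n, g i = MvPolynomial.X v) ∨
        (∃ c : K, g i = MvPolynomial.C c) ∨
        ∃ a b : Fin (m + 1), a < i ∧ b < i ∧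
          (g i = g a + g b ∨ (∃ c : K, g i = MvPolynomial.C c * g a) ∨
            (i ∈ M ∧ g i = g a * g b))) →
      g (Fin.last m) =
        Matrix.permanent (Matrix.of fun i j : Fin n =>
          (MvPolynomial.X (i, j) : MvPolynomial (Fin n × Fin n) K)) →
      (n : ℝ) ^ 2 * Real.log n ≤ 300 * (M.card : ℝ) :=
  Pool.Agent.Lib.MP_8b1d3b_lc.H13.main

end Pool.Agent.Lib.MP_8b1d3b_lc.NLogNKept
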