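import Mathlib

/-! Sperner bound for families of sets ordered by adding edges of a matching. -/

set_option autoImplicit false

namespace Pool.Agent.Lib.MP_8b1d3b_lc.PR

open Finset

theorem sperner_on {γ : Type*} [DecidableEq γ] (s : Finset γ) (A : Finset (Finset γ))
    (hs : ∀ a ∈ A, a ⊆ s) (hA : ∀ a ∈ A, ∀ b ∈ A, a ⊆ b → a = b) :
    A.card ≤ s.card.choose (s.card / 2) := by
  classical
  have key : ∀ a ∈ A, ∀ b ∈ A, a.subtype (· ∈ s) ⊆ b.subtype (· ∈ s) → a = b := by
    intro a ha b hb h
    refine hA a ha b hb fun x hx => ?_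
    have : (⟨x, hs a ha hx⟩ : {x // x ∈ s}) ∈ b.subtype (· ∈ s) := h (mem_subtype.2 hx)
    exact mem_subtype.1 this
  have h1 : (A.image fun a => a.subtype (· ∈ s)).card = A.card :=
    card_image_of_injOn fun a ha b hb h => key a ha b hb (le_of_eq h)
  have h2 : IsAntichain (· ⊆ ·) (SetLike.coe (A.image fun a => a.subtype (· ∈ s))) := by
    intro x hx y hy hne hxy
    obtain ⟨a, ha, rfl⟩ := mem_image.1 hx
    obtain ⟨b, hb, rfl⟩ := mem_image.1 hy
    exact hne (by rw [key a ha b hb hxy])
  have h3 := h2.sperner
  rw [h1] at h3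
  simpa using h3

variable {β : Type*} [DecidableEq β]

/-- The edges of `M` contained in `T`. -/
def full (M : Finset (Finset β)) (T : Finset β) : Finset (Finset β) := M.filter (· ⊆ T)

/-- `T` without its full edges. -/
def base (M : Finset (Finset β)) (T : Finset β) : Finset β := T \ (full M T).biUnion id

/-- The edges of `M` disjoint from `T`. -/
def free (M : Finset (Finset β)) (T : Finset β) : Finset (Finset β) :=
  M.filter fun e => Disjoint e T

variable {M : Finset (Finset β)}

theorem base_union (T : Finset β) : base M T ∪ (full M T).biUnion id = T := by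
  unfold base
  apply sdiff_union_of_subset
  exact biUnion_subset.2 fun e he => (mem_filter.1 he).2

theorem full_subset_free (T : Finset β) : full M T ⊆ free M (base M T) := by
  intro e he
  refine mem_filter.2 ⟨(mem_filter.1 he).1, ?_⟩
  exact disjoint_sdiff.mono_left (subset_biUnion_of_mem id he)

theorem not_subset_base (h2 : ∀ e ∈ M, e.card = 2) (T : Finset β) :
    ∀ e ∈ M, ¬ e ⊆ base M T := by
  intro e he hsub
  have h1 : e ∈ full M T := mem_filter.2 ⟨he, hsub.trans sdiff_subset⟩
  have h3 := (mem_filter.1 (full_subset_free T h1)).2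
  have h4 : e = ∅ := disjoint_self.1 (h3.mono_right hsub)
  have := h2 e he
  rw [h4] at this
  simp at this

theorem disjoint_biUnion_of_notMem (hd : (M : Set (Finset β)).PairwiseDisjoint id)
    {S : Finset (Finset β)} (hS : S ⊆ M) {e : Finset β} (he : e ∈ M) (hn : e ∉ S) :
    Disjoint e (S.biUnion id) :=
  (disjoint_biUnion_right _ _ _).2 fun _ hf => hd he (hS hf) fun h => hn (h ▸ hf)

theorem base_of_free (hd : (M : Set (Finset β)).PairwiseDisjoint id) {B : Finset β}
    (hB : ∀ e ∈ M, ¬ e ⊆ B) {S : Finset (Finset β)} (hS : S ⊆ free M B) :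
    full M (B ∪ S.biUnion id) = S ∧ base M (B ∪ S.biUnion id) = B := by
  have hSM : S ⊆ M := hS.trans (filter_subset _ _)
  have h1 : full M (B ∪ S.biUnion id) = S := by
    ext e
    constructor
    · intro he
      obtain ⟨heM, hsub⟩ := mem_filter.1 he
      by_contra hn
      apply hB e heM
      intro x hx
      rcases mem_union.1 (hsub hx) with h | h
      · exact h
      · exact absurd h (disjoint_left.1 (disjoint_biUnion_of_notMem hd hSM heM hn) hx)
    · intro he
      exact mem_filter.2 ⟨hSM he, (subset_biUnion_of_mem id he).trans subset_union_right⟩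
  refine ⟨h1, ?_⟩
  unfold base
  rw [h1]
  apply union_sdiff_cancel_right
  exact (disjoint_biUnion_right _ _ _).2 fun e he => (mem_filter.1 (hS he)).2.symm

theorem card_inter_biUnion (hd : (M : Set (Finset β)).PairwiseDisjoint id) (T : Finset β) :
    (T ∩ M.biUnion id).card = ∑ e ∈ M, (T ∩ e).card := by
  rw [inter_biUnion, card_biUnion]
  · rfl
  · intro e he f hf hne
    exact (hd he hf hne).mono inter_subset_right inter_subset_right

theorem card_inter_of_free (h2 : ∀ e ∈ M, e.card = 2)
    (hd : (M : Set (Finset β)).PairwiseDisjoint id) {B : Finset β}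
    (hB : ∀ e ∈ M, ¬ e ⊆ B) {S : Finset (Finset β)} (hS : S ⊆ free M B) :
    ((B ∪ S.biUnion id) ∩ M.biUnion id).card + (free M B).card = M.card + 2 * S.card := by
  have hSM : S ⊆ M := hS.trans (filter_subset _ _)
  rw [card_inter_biUnion hd]
  have h1 : (free M B).card = ∑ e ∈ M, if Disjoint e B then 1 else 0 := by
    unfold free
    rw [card_filter]
  have h3 : M.card + 2 * S.card = ∑ e ∈ M, (1 + if e ∈ S then 2 else 0) := by
    rw [sum_add_distrib, ← sum_filter, filter_mem_eq_inter, inter_eq_right.2 hSM]
    simp [mul_comm]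
  rw [h1, h3, ← sum_add_distrib]
  refine sum_congr rfl fun e he => ?_
  by_cases heS : e ∈ S
  · have hsub : e ⊆ B ∪ S.biUnion id :=
      (subset_biUnion_of_mem id heS).trans subset_union_right
    rw [inter_eq_right.2 hsub, h2 e he, if_pos (mem_filter.1 (hS heS)).2, if_pos heS]
  · have hdis := disjoint_biUnion_of_notMem hd hSM he heS
    have h4 : (B ∪ S.biUnion id) ∩ e = B ∩ e := by
      rw [union_inter_distrib_right, disjoint_iff_inter_eq_empty.1 hdis.symm, union_empty]
    rw [h4, if_neg heS]
    by_cases hBe : Disjoint e B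
    · rw [if_pos hBe, disjoint_iff_inter_eq_empty.1 hBe.symm]
      simp
    · rw [if_neg hBe]
      have h5 : 0 < (B ∩ e).card := by
        rw [card_pos, ← not_disjoint_iff_nonempty_inter]
        exact fun h => hBe h.symm
      have h6 : (B ∩ e).card < e.card := by
        apply card_lt_card
        refine ⟨inter_subset_right, fun h => hB e he (h.trans inter_subset_left)⟩
      have := h2 e he
      omega

theorem up_biUnion (hd : (M : Set (Finset β)).PairwiseDisjoint id) {F U : Finset (Finset β)}
    (hup : ∀ T ∈ U, ∀ e ∈ M, Disjoint e T → T ∪ e ∈ U ∧ T ∪ e ∉ F) {T : Finset β} (hT : T ∈ U)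
    (S : Finset (Finset β)) : S ⊆ M → (∀ e ∈ S, Disjoint e T) →
      T ∪ S.biUnion id ∈ U ∧ (S.Nonempty → T ∪ S.biUnion id ∉ F) := by
  induction S using Finset.induction_on with
  | empty => intro _ _; simpa using hT
  | insert e S heS ih =>
    intro hS hdis
    have hSM : S ⊆ M := (subset_insert _ _).trans hS
    have heM : e ∈ M := hS (mem_insert_self _ _)
    obtain ⟨h1, -⟩ := ih hSM fun f hf => hdis f (mem_insert_of_mem hf)
    have h2 := hup _ h1 e heM (disjoint_union_right.2
      ⟨hdis e (mem_insert_self _ _), disjoint_biUnion_of_notMem hd hSM heM heS⟩)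
    have h3 : T ∪ (insert e S).biUnion id = T ∪ S.biUnion id ∪ e := by
      rw [biUnion_insert, union_assoc, union_comm (S.biUnion id)]
      rfl
    rw [h3]
    exact ⟨h2.1, fun _ => h2.2⟩

theorem card_level_le [Fintype β] (V : Finset β) (k : ℕ) :
    (univ.filter fun T : Finset β => (T ∩ V).card = k).card ≤
      V.card.choose k * 2 ^ (Fintype.card β - V.card) := by
  have h := card_le_card_of_injOn (s := univ.filter fun T : Finset β => (T ∩ V).card = k)
    (t := V.powersetCard k ×ˢ Vᶜ.powerset) (fun T => (T ∩ V, T \ V)) ?_ ?_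
  · rwa [card_product, card_powersetCard, card_powerset, card_compl] at h
  · intro T hT
    simp only [coe_filter, mem_univ, true_and, Set.mem_ofPred_eq] at hT
    simp only [coe_product, Set.mem_prod, mem_coe, mem_powersetCard, mem_powerset]
    exact ⟨⟨inter_subset_right, hT⟩, fun x hx => mem_compl.2 (mem_sdiff.1 hx).2⟩
  · intro T _ T' _ h
    simp only [Prod.mk.injEq] at h
    rw [← sdiff_union_inter T V, ← sdiff_union_inter T' V, h.1, h.2]

theorem anti_bound [Fintype β] (h2 : ∀ e ∈ M, e.card = 2)
    (hd : (M : Set (Finset β)).PairwiseDisjoint id) {F U : Finset (Finset β)} (hFU : F ⊆ U)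
    (hup : ∀ T ∈ U, ∀ e ∈ M, Disjoint e T → T ∪ e ∈ U ∧ T ∪ e ∉ F) :
    F.card * 4 ^ M.card ≤ (2 * M.card + 1).choose (M.card + 1) * 2 ^ Fintype.card β := by
  classical
  set V := M.biUnion id with hV
  have hVc : V.card = 2 * M.card := by
    rw [hV, card_biUnion hd]
    simp only [id]
    rw [sum_congr rfl h2]
    simp [mul_comm]
  set Bm := univ.filter fun T : Finset β =>
    (T ∩ V).card = M.card ∨ (T ∩ V).card = M.card + 1 with hBm
  have hfib : ∀ B : Finset β, (F.filter fun T => base M T = B).card ≤
      (Bm.filter fun T => base M T = B).card := by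
    intro B
    rcases (F.filter fun T => base M T = B).eq_empty_or_nonempty with h0 | ⟨T0, hT0⟩
    · rw [h0]; simp
    have hB : ∀ e ∈ M, ¬ e ⊆ B := by
      rw [← (mem_filter.1 hT0).2]
      exact not_subset_base h2 T0
    have hrep : ∀ T ∈ F.filter fun T => base M T = B, T = B ∪ (full M T).biUnion id := by
      intro T hT
      rw [← (mem_filter.1 hT).2, base_union]
    have hsub : ∀ T ∈ F.filter fun T => base M T = B, full M T ⊆ free M B := by
      intro T hT
      rw [← (mem_filter.1 hT).2]
      exact full_subset_free T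
    have h1 : ((F.filter fun T => base M T = B).image (full M)).card =
        (F.filter fun T => base M T = B).card :=
      card_image_of_injOn fun T hT T' hT' h => by rw [hrep T hT, hrep T' hT', h]
    have h3 := sperner_on (free M B) ((F.filter fun T => base M T = B).image (full M))
      (fun a ha => by
        obtain ⟨T, hT, rfl⟩ := mem_image.1 ha
        exact hsub T hT)
      (fun a ha b hb hab => by
        obtain ⟨T, hT, rfl⟩ := mem_image.1 ha
        obtain ⟨T', hT', rfl⟩ := mem_image.1 hb
        by_contra hne
        have hM : full M T' \ full M T ⊆ M := sdiff_subset.trans (filter_subset _ _)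
        have h4 := (up_biUnion hd hup (hFU (mem_filter.1 hT).1) (full M T' \ full M T) hM
          (fun e he => by
            rw [hrep T hT]
            exact disjoint_union_right.2 ⟨(mem_filter.1 (hsub T' hT' (mem_sdiff.1 he).1)).2,
              disjoint_biUnion_of_notMem hd (filter_subset _ _) (hM he) (mem_sdiff.1 he).2⟩)).2
          (sdiff_nonempty.2 fun h => hne (Subset.antisymm hab h))
        apply h4
        have h5 : T ∪ (full M T' \ full M T).biUnion id = T' := by
          conv_lhs => rw [hrep T hT]
          conv_rhs => rw [hrep T' hT']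
          rw [(base_of_free hd hB (hsub T hT)).1, union_assoc, ← union_biUnion,
            union_sdiff_of_subset hab]
        rw [h5]
        exact (mem_filter.1 hT').1)
    rw [h1] at h3
    set j := (free M B).card with hj
    have h4 : j.choose (j / 2) = ((free M B).powersetCard ((j + 1) / 2)).card := by
      rw [card_powersetCard]
      exact Nat.choose_symm_of_eq_add (by omega)
    refine h3.trans (h4.le.trans (card_le_card_of_injOn (fun S => B ∪ S.biUnion id) ?_ ?_))
    · intro S hS
      obtain ⟨hS1, hS2⟩ := mem_powersetCard.1 hS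
      have h5 := card_inter_of_free h2 hd hB hS1
      rw [← hV, ← hj, hS2] at h5
      refine mem_filter.2 ⟨mem_filter.2 ⟨mem_univ _, ?_⟩, (base_of_free hd hB hS1).2⟩
      beta_reduce
      omega
    · intro S hS S' hS' h
      have e1 := (base_of_free hd hB (mem_powersetCard.1 hS).1).1
      have e2 := (base_of_free hd hB (mem_powersetCard.1 hS').1).1
      simp only at h
      rw [← e1, ← e2, h]
  have h6 : F.card ≤ Bm.card := by
    rw [card_eq_sum_card_fiberwise (f := base M) (s := F) (t := univ) (fun _ _ => mem_univ _),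
      card_eq_sum_card_fiberwise (f := base M) (s := Bm) (t := univ) (fun _ _ => mem_univ _)]
    exact sum_le_sum fun B _ => hfib B
  have h7 : Bm.card ≤ (2 * M.card + 1).choose (M.card + 1) * 2 ^ (Fintype.card β - 2 * M.card) := by
    rw [hBm, filter_or, Nat.choose_succ_succ', add_mul, ← hVc]
    exact (card_union_le _ _).trans (add_le_add (card_level_le V _) (card_level_le V _))
  have h8 : 2 * M.card ≤ Fintype.card β := hVc ▸ card_le_univ V
  calc F.card * 4 ^ M.card
      ≤ (2 * M.card + 1).choose (M.card + 1) * 2 ^ (Fintype.card β - 2 * M.card) * 4 ^ M.card :=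
        Nat.mul_le_mul_right _ (h6.trans h7)
    _ = _ := by
        rw [mul_assoc, show (4 : ℕ) = 2 ^ 2 by norm_num, ← pow_mul, ← pow_add,
          Nat.sub_add_cancel h8]

end Pool.Agent.Lib.MP_8b1d3b_lc.PR
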