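import Mathlib

/-! A graph on `u` vertices with half of all edges has a matching with about `u / 4` edges. -/

set_option autoImplicit false

namespace Pool.Agent.Lib.MP_8b1d3b_lc.PR

open Finset

theorem exists_matching {β : Type*} [DecidableEq β] (A : Finset β) (G : Finset (Finset β))
    (hG : ∀ e ∈ G, e ⊆ A ∧ e.card = 2) (hc : A.card * (A.card - 1) ≤ 4 * G.card) :
    ∃ M ⊆ G, (M : Set (Finset β)).PairwiseDisjoint id ∧ A.card ≤ 4 * M.card + 1 := by
  classical
  obtain ⟨M, hM, hmax⟩ := exists_max_image
    (G.powerset.filter fun M : Finset (Finset β) => (M : Set (Finset β)).PairwiseDisjoint id) card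
    ⟨∅, by simp⟩
  obtain ⟨hMG, hd⟩ := mem_filter.1 hM
  rw [mem_powerset] at hMG
  have hmax' : ∀ M' ⊆ G, (M' : Set (Finset β)).PairwiseDisjoint id → M'.card ≤ M.card :=
    fun M' h1 h2 => hmax M' (mem_filter.2 ⟨mem_powerset.2 h1, h2⟩)
  refine ⟨M, hMG, hd, ?_⟩
  set V := M.biUnion id with hV
  have hVc : V.card = 2 * M.card := by
    rw [hV, card_biUnion hd]
    simp only [id]
    rw [sum_congr rfl fun e he => (hG e (hMG he)).2]
    simp [mul_comm]
  have hVA : V ⊆ A := biUnion_subset.2 fun e he => (hG e (hMG he)).1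
  have hsubV : ∀ e ∈ M, e ⊆ V := fun e he => subset_biUnion_of_mem id he
  set I := A \ V with hI
  have hIc : I.card + 2 * M.card = A.card := by
    rw [← hVc, hI, card_sdiff_add_card_eq_card hVA]
  -- adding an edge that is disjoint from a matching
  have hins : ∀ (M' : Finset (Finset β)) (e : Finset β), e.card = 2 →
      (M' : Set (Finset β)).PairwiseDisjoint id → (∀ f ∈ M', Disjoint e f) →
      ((insert e M' : Finset (Finset β)) : Set (Finset β)).PairwiseDisjoint id ∧
        (insert e M').card = M'.card + 1 := by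
    intro M' e he h1 h2
    have hn : e ∉ M' := by
      intro h
      have h3 : e = ∅ := disjoint_self.1 (h2 e h)
      rw [h3] at he
      simp at he
    refine ⟨?_, card_insert_of_notMem hn⟩
    rw [coe_insert]
    exact h1.insert_of_notMem hn fun f hf => h2 f hf
  set Nb : β → Finset β := fun x => I.filter fun y => ({x, y} : Finset β) ∈ G with hNb
  have hcover : G ⊆ V.powersetCard 2 ∪
      V.biUnion fun x => (Nb x).image fun y => ({x, y} : Finset β) := by
    intro e he
    obtain ⟨x, y, hxy, rfl⟩ := card_eq_two.1 (hG e he).2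
    have hxA : x ∈ A := (hG _ he).1 (by simp)
    have hyA : y ∈ A := (hG _ he).1 (by simp)
    by_cases hx : x ∈ V <;> by_cases hy : y ∈ V
    · refine mem_union_left _ (mem_powersetCard.2 ⟨?_, (hG _ he).2⟩)
      intro z hz
      rcases mem_insert.1 hz with rfl | hz
      · exact hx
      · rw [mem_singleton.1 hz]; exact hy
    · exact mem_union_right _ (mem_biUnion.2 ⟨x, hx, mem_image.2
        ⟨y, mem_filter.2 ⟨mem_sdiff.2 ⟨hyA, hy⟩, he⟩, rfl⟩⟩)
    · exact mem_union_right _ (mem_biUnion.2 ⟨y, hy, mem_image.2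
        ⟨x, mem_filter.2 ⟨mem_sdiff.2 ⟨hxA, hx⟩, by rwa [pair_comm]⟩, pair_comm _ _⟩⟩)
    · exfalso
      obtain ⟨h1, h2⟩ := hins M {x, y} (hG _ he).2 hd fun f hf => by
        rw [disjoint_insert_left, disjoint_singleton_left]
        exact ⟨fun h => hx (hsubV f hf h), fun h => hy (hsubV f hf h)⟩
      have := hmax' _ (insert_subset he hMG) h1
      omega
  have haug : ∀ f ∈ M, ∑ x ∈ f, (Nb x).card ≤ max I.card 2 := by
    intro f hf
    obtain ⟨a, b, hab, rfl⟩ := card_eq_two.1 (hG f (hMG hf)).2
    rw [sum_pair hab]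
    have haV : a ∈ V := hsubV _ hf (by simp)
    have hbV : b ∈ V := hsubV _ hf (by simp)
    have hno : ∀ x ∈ Nb a, ∀ y ∈ Nb b, x = y := by
      intro x hx y hy
      by_contra hxy
      obtain ⟨hxI, hxG⟩ := mem_filter.1 hx
      obtain ⟨hyI, hyG⟩ := mem_filter.1 hy
      have hxV := (mem_sdiff.1 hxI).2
      have hyV := (mem_sdiff.1 hyI).2
      have hd0 : ((M.erase {a, b} : Finset (Finset β)) : Set (Finset β)).PairwiseDisjoint id :=
        hd.subset (coe_subset.2 (erase_subset _ _))
      have hdis : ∀ g ∈ M.erase {a, b}, a ∉ g ∧ b ∉ g := by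
        intro g hg
        have := hd hf (mem_of_mem_erase hg) (ne_of_mem_erase hg).symm
        simp only [Function.onFun, id, disjoint_insert_left, disjoint_singleton_left] at this
        exact this
      obtain ⟨h1, h2⟩ := hins (M.erase {a, b}) {b, y} (hG _ hyG).2 hd0 fun g hg => by
        rw [disjoint_insert_left, disjoint_singleton_left]
        exact ⟨(hdis g hg).2, fun h => hyV (hsubV g (mem_of_mem_erase hg) h)⟩
      obtain ⟨h3, h4⟩ := hins (insert {b, y} (M.erase {a, b})) {a, x} (hG _ hxG).2 h1
        fun g hg => by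
          rw [disjoint_insert_left, disjoint_singleton_left]
          rcases mem_insert.1 hg with rfl | hg
          · simp only [mem_insert, mem_singleton, not_or]
            exact ⟨⟨hab, fun h => hyV (h ▸ haV)⟩, fun h => hxV (h ▸ hbV), hxy⟩
          · exact ⟨(hdis g hg).1, fun h => hxV (hsubV g (mem_of_mem_erase hg) h)⟩
      have h5 := hmax' _ (insert_subset hxG (insert_subset hyG ((erase_subset _ _).trans hMG))) h3
      have h6 := card_erase_add_one hf
      omega
    have hle : ∀ x, (Nb x).card ≤ I.card := fun x => card_filter_le _ _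
    rcases (Nb a).eq_empty_or_nonempty with h | ⟨x, hx⟩
    · rw [h, card_empty, zero_add]
      exact (hle b).trans (le_max_left _ _)
    rcases (Nb b).eq_empty_or_nonempty with h | ⟨y, hy⟩
    · rw [h, card_empty, add_zero]
      exact (hle a).trans (le_max_left _ _)
    have h1 : (Nb a).card ≤ 1 :=
      card_le_one.2 fun z hz z' hz' => (hno z hz y hy).trans (hno z' hz' y hy).symm
    have h2 : (Nb b).card ≤ 1 :=
      card_le_one.2 fun z hz z' hz' => (hno x hx z hz).symm.trans (hno x hx z' hz')
    exact le_trans (by omega) (le_max_right _ _)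
  have hsum : ∑ x ∈ V, (Nb x).card ≤ M.card * max I.card 2 := by
    rw [hV, sum_biUnion hd]
    exact (sum_le_card_nsmul _ _ _ haug).trans (by simp)
  have hGc : G.card ≤ (2 * M.card).choose 2 + M.card * max I.card 2 := by
    refine (card_le_card hcover).trans ((card_union_le _ _).trans (add_le_add ?_ ?_))
    · rw [card_powersetCard, hVc]
    · exact card_biUnion_le.trans ((sum_le_sum fun x _ => card_image_le).trans hsum)
  have hch : (2 * M.card).choose 2 = M.card * (2 * M.card - 1) := by
    rw [Nat.choose_two_right, mul_assoc, Nat.mul_div_cancel_left _ (by norm_num)]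
  rw [hch] at hGc
  by_contra hlt
  have h2 : 2 ≤ I.card := by omega
  rw [max_eq_left h2, ← mul_add] at hGc
  have h3 : M.card * (2 * M.card - 1 + I.card) ≤ M.card * (A.card - 1) := by
    rcases Nat.eq_zero_or_pos M.card with h | h
    · simp [h]
    · exact Nat.mul_le_mul_left _ (by omega)
  have h4 : A.card * (A.card - 1) ≤ 4 * M.card * (A.card - 1) := by
    rw [mul_assoc]
    omega
  have h5 := Nat.le_of_mul_le_mul_right h4 (by omega)
  omega

end Pool.Agent.Lib.MP_8b1d3b_lc.PR
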