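import Pool.Agent.Lib.MP_8b1d3b_lc.PRLead

/-! Quadrics that annihilate the permanent fill at least half of the quadrics on any space. -/

set_option autoImplicit false

namespace Pool.Agent.Lib.MP_8b1d3b_lc.PR

open Finset Module Submodule

variable {K : Type*} [Field K]

/-- The weight of a cell. -/
def wt {n : ℕ} (c : Fin n × Fin n) : ℕ := c.1 * n + c.2

theorem wt_injective {n : ℕ} : Function.Injective (wt (n := n)) := by
  rintro ⟨i, a⟩ ⟨j, b⟩ h
  simp only [wt] at h
  have ha := a.2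
  have hb := b.2
  have h1 : (i : ℕ) = j := by
    rcases lt_trichotomy (i : ℕ) j with h2 | h2 | h2
    · have := Nat.mul_le_mul_right n (Nat.succ_le_of_lt h2)
      rw [Nat.succ_mul] at this
      omega
    · exact h2
    · have := Nat.mul_le_mul_right n (Nat.succ_le_of_lt h2)
      rw [Nat.succ_mul] at this
      omega
  have h2 : (a : ℕ) = b := by rw [h1] at h; omega
  exact Prod.ext (Fin.ext h1) (Fin.ext h2)

theorem card_greedy_le {n : ℕ} {V : Type*} [AddCommGroup V] [Module K V]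
    (v : Fin n × Fin n → V) (Y : Finset (Fin n × Fin n))
    (hY : ∀ c ∈ Y, v c ∉ span K (v '' {d | wt d < wt c})) :
    Y.card ≤ finrank K (span K (Set.range v)) := by
  classical
  have : FiniteDimensional K (span K (Set.range v)) :=
    FiniteDimensional.span_of_finite K (Set.finite_range v)
  have hli : LinearIndependent K
      fun c : Y => (⟨v c, subset_span ⟨c, rfl⟩⟩ : span K (Set.range v)) := by
    rw [Fintype.linearIndependent_iff]
    intro g hg
    by_contra hne
    obtain ⟨c, hc⟩ := exists_lead (fun c : Y => wt (c : Fin n × Fin n)) (w := g)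
      (fun h => hne fun i => congrFun h i)
    have h1 : ∑ d : Y, g d • v d = 0 := by
      have := congrArg (fun x : span K (Set.range v) => (x : V)) hg
      simpa using this
    rw [← add_sum_erase _ _ (mem_univ c)] at h1
    apply hY c c.2
    have h2 : v c = -(g c)⁻¹ • ∑ d ∈ univ.erase c, g d • v d := by
      rw [eq_neg_of_add_eq_zero_right h1, smul_neg, neg_smul, neg_neg, smul_smul,
        inv_mul_cancel₀ hc.1, one_smul]
    rw [h2]
    refine smul_mem _ _ (Submodule.sum_mem _ fun d hd => ?_)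
    by_cases h0 : g d = 0
    · simp [h0]
    · refine smul_mem _ _ (subset_span ⟨d, ?_, rfl⟩)
      exact lt_of_le_of_ne (hc.2 d h0) fun h =>
        ne_of_mem_erase hd (Subtype.ext (wt_injective h))
  simpa using hli.fintype_card_le_finrank

theorem card_rect_le {n : ℕ} (Y : Finset (Fin n × Fin n)) :
    4 * ((Y ×ˢ Y).filter fun p => p.1.1 < p.2.1 ∧ p.1.2 < p.2.2 ∧ (p.1.1, p.2.2) ∈ Y ∧
      (p.2.1, p.1.2) ∈ Y).card ≤ Y.card * (Y.card - 1) := by
  classical
  set R := (Y ×ˢ Y).filter fun p => p.1.1 < p.2.1 ∧ p.1.2 < p.2.2 ∧ (p.1.1, p.2.2) ∈ Y ∧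
      (p.2.1, p.1.2) ∈ Y with hR
  have h := card_le_card_of_injOn (s := R ×ˢ (univ : Finset (Bool × Bool))) (t := Y.offDiag)
    (fun x => ((if x.2.1 then x.1.1.1 else x.1.2.1, if x.2.2 then x.1.1.2 else x.1.2.2),
      (if x.2.1 then x.1.2.1 else x.1.1.1, if x.2.2 then x.1.2.2 else x.1.1.2))) ?_ ?_
  · rw [card_product, offDiag_card] at h
    rw [Nat.mul_sub_one]
    simpa [mul_comm] using h
  · rintro ⟨⟨⟨i, a⟩, ⟨j, b⟩⟩, s, t⟩ hx
    simp only [hR, coe_product, Set.mem_prod, mem_coe, mem_filter, mem_product] at hx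
    obtain ⟨⟨⟨h1, h2⟩, h3, h4, h5, h6⟩, -⟩ := hx
    cases s <;> cases t <;> simp [h1, h2, h5, h6, h3.ne, h3.ne']
  · rintro ⟨⟨⟨i, a⟩, ⟨j, b⟩⟩, s, t⟩ hx ⟨⟨⟨i', a'⟩, ⟨j', b'⟩⟩, s', t'⟩ hy hxy
    simp only [hR, coe_product, Set.mem_prod, mem_coe, mem_filter, mem_product] at hx hy
    obtain ⟨⟨-, h3, h4, -⟩, -⟩ := hx
    obtain ⟨⟨-, h3', h4', -⟩, -⟩ := hy
    cases s <;> cases t <;> cases s' <;> cases t' <;>
      simp only [Prod.mk.injEq, Bool.false_eq_true, if_true, if_false] at hxy ⊢ <;>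
      obtain ⟨⟨rfl, rfl⟩, rfl, rfl⟩ := hxy <;>
      first
        | exact absurd h3 (not_lt.2 h3'.le)
        | exact absurd h4 (not_lt.2 h4'.le)
        | simp

theorem exists_rect {n : ℕ} {V M : Type*} [AddCommGroup V] [Module K V] [AddCommGroup M]
    [Module K M] (s : V →ₗ[K] V →ₗ[K] M) (hs : ∀ x y, s x y = s y x) (v : Fin n × Fin n → V)
    (Q : Submodule K M) (hrow : ∀ i a b, s (v (i, a)) (v (i, b)) ∈ Q)
    (hcol : ∀ i j a, s (v (i, a)) (v (j, a)) ∈ Q)
    (hmin : ∀ i j a b, s (v (i, a)) (v (j, b)) - s (v (i, b)) (v (j, a)) ∈ Q) {u : ℕ}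
    (hu : finrank K (span K (Set.range v)) ≤ u) :
    ∃ R : Finset M, 4 * R.card ≤ u * (u - 1) ∧
      ∀ x ∈ span K (Set.range v), ∀ y ∈ span K (Set.range v), s x y ∈ Q ⊔ span K (R : Set M) := by
  classical
  set Y := univ.filter fun c => v c ∉ span K (v '' {d | wt d < wt c}) with hY
  have hYc : Y.card ≤ u := (card_greedy_le v Y fun c hc => (mem_filter.1 hc).2).trans hu
  set R := (Y ×ˢ Y).filter fun p => p.1.1 < p.2.1 ∧ p.1.2 < p.2.2 ∧ (p.1.1, p.2.2) ∈ Y ∧
      (p.2.1, p.1.2) ∈ Y with hR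
  refine ⟨R.image fun p => s (v p.1) (v p.2), ?_, ?_⟩
  · exact (Nat.mul_le_mul_left 4 card_image_le).trans ((card_rect_le Y).trans
      (Nat.mul_le_mul hYc (Nat.sub_le_sub_right hYc 1)))
  set E := Q ⊔ span K ((R.image fun p => s (v p.1) (v p.2) : Finset M) : Set M) with hE
  have hQE : Q ≤ E := le_sup_left
  have hRE : ∀ p ∈ R, s (v p.1) (v p.2) ∈ E := fun p hp =>
    (le_sup_right : _ ≤ E) (subset_span (mem_coe.2 (mem_image_of_mem _ hp)))
  have hspan : ∀ (T : Set V) (y : V), (∀ x ∈ T, s x y ∈ E) → ∀ x ∈ span K T, s x y ∈ E := by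
    intro T y h x hx
    have : span K T ≤ E.comap (s.flip y) := span_le.2 fun z hz => h z hz
    exact this hx
  have main : ∀ N c c', wt c + wt c' = N → s (v c) (v c') ∈ E := by
    intro N
    induction N using Nat.strong_induction_on with
    | _ N ih =>
    have hexp : ∀ c c', wt c + wt c' = N → c ∉ Y → s (v c) (v c') ∈ E := by
      intro c c' hN hc
      have h1 : v c ∈ span K (v '' {d | wt d < wt c}) := by
        by_contra h
        exact hc (mem_filter.2 ⟨mem_univ _, h⟩)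
      refine hspan _ _ ?_ _ h1
      rintro _ ⟨d, hd, rfl⟩
      exact ih (wt d + wt c') (by rw [← hN]; exact Nat.add_lt_add_right hd _) d c' rfl
    have hexp' : ∀ c c', wt c + wt c' = N → c' ∉ Y → s (v c) (v c') ∈ E := by
      intro c c' hN hc
      rw [hs]
      exact hexp c' c (by omega) hc
    have hlt : ∀ i j a b, i < j → wt (i, a) + wt (j, b) = N → s (v (i, a)) (v (j, b)) ∈ E := by
      intro i j a b hij hN
      have hN' : wt (i, b) + wt (j, a) = N := by
        simp only [wt] at hN ⊢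
        omega
      have hsw : s (v (i, b)) (v (j, a)) ∈ E → s (v (i, a)) (v (j, b)) ∈ E := fun h => by
        have := E.add_mem (hQE (hmin i j a b)) h
        rwa [sub_add_cancel] at this
      by_cases h1 : (i, a) ∈ Y
      swap
      · exact hexp _ _ hN h1
      by_cases h2 : (j, b) ∈ Y
      swap
      · exact hexp' _ _ hN h2
      by_cases h3 : (i, b) ∈ Y
      swap
      · exact hsw (hexp _ _ hN' h3)
      by_cases h4 : (j, a) ∈ Y
      swap
      · exact hsw (hexp' _ _ hN' h4)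
      rcases lt_trichotomy a b with h | rfl | h
      · exact hRE ((i, a), (j, b)) (mem_filter.2 ⟨mem_product.2 ⟨h1, h2⟩, hij, h, h3, h4⟩)
      · exact hQE (hcol i j a)
      · exact hsw (hRE ((i, b), (j, a)) (mem_filter.2 ⟨mem_product.2 ⟨h3, h4⟩, hij, h, h1, h2⟩))
    rintro ⟨i, a⟩ ⟨j, b⟩ hN
    rcases lt_trichotomy i j with h | rfl | h
    · exact hlt i j a b h hN
    · exact hQE (hrow i a b)
    · rw [hs]
      exact hlt j i b a h (by omega)
  intro x hx y hy
  refine hspan _ _ ?_ x hx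
  rintro _ ⟨c, rfl⟩
  rw [hs]
  refine hspan _ _ ?_ y hy
  rintro _ ⟨c', rfl⟩
  exact main _ c' c rfl

end Pool.Agent.Lib.MP_8b1d3b_lc.PR
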