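import Pool.Agent.Lib.MP_8b1d3b_lc.PROps
import Pool.Agent.Lib.MP_8b1d3b_lc.PRQuad
import Pool.Agent.Lib.MP_8b1d3b_lc.PRMatch

/-! A matching of leading pairs. -/

set_option autoImplicit false

namespace Pool.Agent.Lib.MP_8b1d3b_lc.PR

open Finset Module Submodule

variable {K : Type*} [Field K] {n : ℕ}

/-- Keep the pairs inside `A`. -/
def cut (K : Type*) [Field K] (A : Finset (Fin n)) :
    (Finset (Fin n) → K) →ₗ[K] (Finset (Fin n) → K) where
  toFun q e := if e ⊆ A ∧ e.card = 2 then q e else 0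
  map_add' q q' := by ext e; simp only [Pi.add_apply]; split_ifs <;> simp
  map_smul' c q := by ext e; simp only [Pi.smul_apply]; split_ifs <;> simp

theorem cut_apply (A : Finset (Fin n)) (q : Finset (Fin n) → K) (e : Finset (Fin n)) :
    cut K A q e = if e ⊆ A ∧ e.card = 2 then q e else 0 := rfl

theorem cut_sq (A : Finset (Fin n)) (x y : Fin n → K) :
    cut K A (sq K n x y) =
      sq K n (fun k => if k ∈ A then x k else 0) (fun k => if k ∈ A then y k else 0) := by
  ext e
  rw [cut_apply, sq_apply, sq_apply]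
  split_ifs with h
  · refine sum_congr rfl fun p hp => ?_
    have h1 := (mem_filter.1 hp).2
    rw [if_pos (h.1 (h1 ▸ by simp)), if_pos (h.1 (h1 ▸ by simp))]
  · refine (sum_eq_zero fun p hp => ?_).symm
    obtain ⟨h1, h2⟩ := mem_filter.1 hp
    by_cases ha : p.1 ∈ A
    · by_cases hb : p.2 ∈ A
      · exact absurd ⟨h2 ▸ insert_subset ha (singleton_subset_iff.2 hb),
          h2 ▸ card_pair (mem_offDiag.1 h1).2.2⟩ h
      · simp [hb]
    · simp [ha]

theorem exists_lead_matching (row : Fin n → Fin n × Fin n → K) (A : Finset (Fin n))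
    (hA : LinearIndepOn K row (A : Set (Fin n))) (Q : Submodule K (Finset (Fin n) → K))
    (hrow : ∀ i a b, sq K n (fun k => row k (i, a)) (fun k => row k (i, b)) ∈ Q)
    (hcol : ∀ i j a, sq K n (fun k => row k (i, a)) (fun k => row k (j, a)) ∈ Q)
    (hmin : ∀ i j a b, sq K n (fun k => row k (i, a)) (fun k => row k (j, b)) -
      sq K n (fun k => row k (i, b)) (fun k => row k (j, a)) ∈ Q) :
    ∃ M : Finset (Finset (Fin n)), (∀ e ∈ M, e.card = 2) ∧
      (M : Set (Finset (Fin n))).PairwiseDisjoint id ∧ A.card ≤ 4 * M.card + 1 ∧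
      ∀ e ∈ M, ∃ q ∈ Q, q e ≠ 0 ∧ ∀ e', e'.card = 2 → q e' ≠ 0 → om A e' ≤ om A e := by
  classical
  set v : Fin n × Fin n → Fin n → K := fun c k => if k ∈ A then row k c else 0 with hv
  have hvs : ∀ c, v c = ∑ k ∈ A, row k c • (Pi.single k 1 : Fin n → K) := by
    intro c
    ext k
    simp [hv, Finset.sum_apply, Pi.single_apply]
  have hfin : finrank K (span K (Set.range v)) ≤ A.card := by
    have h1 : span K (Set.range v) ≤
        span K ((A.image fun k => (Pi.single k 1 : Fin n → K) : Finset _) : Set (Fin n → K)) := by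
      refine span_le.2 ?_
      rintro _ ⟨c, rfl⟩
      rw [hvs]
      exact Submodule.sum_mem _ fun k hk => smul_mem _ _
        (subset_span (mem_coe.2 (mem_image_of_mem _ hk)))
    exact (Submodule.finrank_mono h1).trans ((finrank_span_finset_le_card _).trans card_image_le)
  have hsingle : ∀ k ∈ A, (Pi.single k 1 : Fin n → K) ∈ span K (Set.range v) := by
    intro k hk
    by_contra hn
    obtain ⟨f, hf, hf'⟩ := Submodule.exists_dual_map_eq_bot_of_notMem hn inferInstance
    have h1 : ∑ j ∈ A, f (Pi.single j 1) • row j = 0 := by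
      ext c
      have h2 : f (v c) = 0 := by
        rw [← Submodule.mem_bot K, ← hf']
        exact mem_map_of_mem (subset_span ⟨c, rfl⟩)
      rw [hvs, map_sum] at h2
      simpa [Finset.sum_apply, mul_comm] using h2
    exact hf (linearIndepOn_finset_iff.1 hA (fun j => f (Pi.single j 1)) h1 k hk)
  obtain ⟨R, hR, hE⟩ := exists_rect (sq K n) sq_comm v (Q.map (cut K A))
    (fun i a b => ⟨_, hrow i a b, cut_sq A _ _⟩) (fun i j a => ⟨_, hcol i j a, cut_sq A _ _⟩)
    (fun i j a b => ⟨_, hmin i j a b, by rw [map_sub, cut_sq, cut_sq]⟩) hfin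
  have h1 : A.powersetCard 2 ⊆ Lds (om A) (Q.map (cut K A) ⊔ span K (R : Set _)) := by
    intro e he
    obtain ⟨h2, h3⟩ := mem_powersetCard.1 he
    obtain ⟨k, k', hne, rfl⟩ := card_eq_two.1 h3
    refine mem_LT.2 ⟨Pi.single {k, k'} 1, ?_, by simp, fun j hj => ?_⟩
    · rw [← sq_single hne]
      exact hE _ (hsingle k (h2 (by simp))) _ (hsingle k' (h2 (by simp)))
    · have : j = {k, k'} := by
        by_contra h
        exact hj (by simp [h])
      rw [this]
  have h2 := (card_le_card h1).trans (card_LT_le_finrank (om_injective A) _)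
  have h3 := finrank_add_le_finrank_add_finrank (Q.map (cut K A)) (span K (R : Set _))
  have h4 : finrank K (span K (R : Set (Finset (Fin n) → K))) ≤ R.card :=
    finrank_span_finset_le_card R
  have h5 := finrank_le_card_LT (om A) (Q.map (cut K A))
  rw [card_powersetCard] at h2
  have h6 : A.card.choose 2 * 2 = A.card * (A.card - 1) := by
    rw [Nat.choose_two_right, Nat.div_mul_cancel (Nat.even_mul_pred_self _).two_dvd]
  have hG : ∀ e ∈ Lds (om A) (Q.map (cut K A)), (e ⊆ A ∧ e.card = 2) ∧
      ∃ q ∈ Q, q e ≠ 0 ∧ ∀ e', e'.card = 2 → q e' ≠ 0 → om A e' ≤ om A e := by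
    intro e he
    obtain ⟨_, ⟨q, hq, rfl⟩, hl⟩ := mem_LT.1 he
    have h7 : e ⊆ A ∧ e.card = 2 := by
      by_contra h
      exact hl.1 (by rw [cut_apply, if_neg h])
    refine ⟨h7, q, hq, ?_, fun e' h8 h9 => ?_⟩
    · have := hl.1
      rwa [cut_apply, if_pos h7] at this
    · by_cases h10 : e' ⊆ A
      · exact hl.2 e' (by rwa [cut_apply, if_pos ⟨h10, h8⟩])
      · exact om_le h7.1 h7.2 h10 h8
  obtain ⟨M, hM, hd, hc⟩ := exists_matching A (Lds (om A) (Q.map (cut K A)))
    (fun e he => (hG e he).1) (by omega)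
  exact ⟨M, fun e he => (hG e (hM he)).1.2, hd, hc, fun e he => (hG e (hM he)).2⟩

/-- Products of `m` elements of the span of a finite family. -/
theorem exists_prod_space {S : Type*} [CommRing S] [Algebra K S] {γ : Type*} [Fintype γ]
    (g : γ → S) (m : ℕ) : ∃ V : Submodule K S, FiniteDimensional K V ∧
      finrank K V ≤ (Fintype.card γ + m - 1).choose m ∧
      ∀ f : Fin m → S, (∀ k, f k ∈ span K (Set.range g)) → ∏ k, f k ∈ V := by
  classical
  refine ⟨span K (Set.range fun s : Sym γ m => (s.1.map g).prod),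
    FiniteDimensional.span_of_finite K (Set.finite_range _), ?_, ?_⟩
  · rw [← Sym.card_sym_eq_choose]
    exact finrank_range_le_card _
  · induction m with
    | zero =>
      intro f _
      exact subset_span ⟨Sym.nil, by simp⟩
    | succ m ih =>
      intro f hf
      rw [Fin.prod_univ_succ]
      have h1 := Submodule.mul_mem_mul (hf 0) (ih (fun k => f k.succ) fun k => hf k.succ)
      rw [span_mul_span] at h1
      refine span_mono ?_ h1
      rintro _ ⟨_, ⟨x, rfl⟩, _, ⟨s, rfl⟩, rfl⟩
      refine ⟨x ::ₛ s, ?_⟩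
      change (Multiset.map g (x ::ₘ s.1)).prod = g x * (Multiset.map g s.1).prod
      rw [Multiset.map_cons, Multiset.prod_cons]

end Pool.Agent.Lib.MP_8b1d3b_lc.PR
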