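import Mathlib

/-! Leading indices of subspaces of `ι → K`. -/

set_option autoImplicit false

namespace Pool.Agent.Lib.MP_8b1d3b_lc.PR

open Finset Module

variable {K : Type*} [Field K] {ι : Type*} {α : Type*} [LinearOrder α]

/-- `i` is the leading index of `w` for the key `κ`. -/
def Lead (κ : ι → α) (w : ι → K) (i : ι) : Prop := w i ≠ 0 ∧ ∀ j, w j ≠ 0 → κ j ≤ κ i

open Classical in
/-- The leading indices of the elements of `W`. -/
noncomputable def Lds [Fintype ι] (κ : ι → α) (W : Submodule K (ι → K)) : Finset ι :=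
  univ.filter fun i => ∃ w ∈ W, Lead κ w i

theorem mem_LT [Fintype ι] {κ : ι → α} {W : Submodule K (ι → K)} {i : ι} :
    i ∈ Lds κ W ↔ ∃ w ∈ W, Lead κ w i := by
  classical
  simp [Lds]

theorem exists_lead [Fintype ι] (κ : ι → α) {w : ι → K} (hw : w ≠ 0) : ∃ i, Lead κ w i := by
  classical
  have hne : (univ.filter fun i => w i ≠ 0).Nonempty := by
    obtain ⟨i, hi⟩ := Function.ne_iff.1 hw
    exact ⟨i, by simpa using hi⟩
  obtain ⟨i, hi, hmax⟩ := exists_max_image _ κ hne
  exact ⟨i, by simpa using hi, fun j hj => hmax j (by simpa using hj)⟩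

theorem LT_mono [Fintype ι] (κ : ι → α) {N W : Submodule K (ι → K)} (h : N ≤ W) :
    Lds κ N ⊆ Lds κ W := by
  intro i hi
  obtain ⟨w, hw, hl⟩ := mem_LT.1 hi
  exact mem_LT.2 ⟨w, h hw, hl⟩

theorem finrank_le_card_LT [Fintype ι] (κ : ι → α) (W : Submodule K (ι → K)) :
    finrank K W ≤ (Lds κ W).card := by
  let f : W →ₗ[K] (Lds κ W → K) :=
    { toFun := fun w i => (w : ι → K) i
      map_add' := fun _ _ => rfl
      map_smul' := fun _ _ => rfl }
  have hf : Function.Injective f := by
    rw [injective_iff_map_eq_zero]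
    intro w hw
    by_contra hne
    obtain ⟨i, hi⟩ := exists_lead κ (w := (w : ι → K)) (fun h => hne (Subtype.ext h))
    exact hi.1 (congrFun hw ⟨i, mem_LT.2 ⟨w, w.2, hi⟩⟩)
  simpa using LinearMap.finrank_le_finrank_of_injective hf

theorem card_LT_le_finrank [Fintype ι] {κ : ι → α} (hκ : Function.Injective κ)
    (W : Submodule K (ι → K)) : (Lds κ W).card ≤ finrank K W := by
  classical
  have hex : ∀ i : Lds κ W, ∃ w : W, Lead κ (w : ι → K) i := by
    intro i
    obtain ⟨w, hw, hl⟩ := mem_LT.1 i.2
    exact ⟨⟨w, hw⟩, hl⟩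
  choose w hw using hex
  have hli : LinearIndependent K w := by
    rw [Fintype.linearIndependent_iff]
    intro g hg
    by_contra hne
    obtain ⟨i, hi⟩ := exists_lead (fun i : Lds κ W => κ i) (w := g)
      (fun h => hne fun i => congrFun h i)
    have h1 : (∑ j, g j • (w j : ι → K)) i = 0 := by
      have := congrArg (fun x : W => (x : ι → K) i) hg
      simpa using this
    rw [Finset.sum_apply, Finset.sum_eq_single i] at h1
    · exact mul_ne_zero hi.1 (hw i).1 h1
    · intro j _ hji
      by_contra h2
      have h3 : g j ≠ 0 := fun h => h2 (by simp [h])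
      have h4 : (w j : ι → K) i ≠ 0 := fun h => h2 (by simp [h])
      exact hji (Subtype.ext (hκ (le_antisymm (hi.2 j h3) ((hw j).2 i h4))))
    · simp
  simpa using hli.fintype_card_le_finrank

/-- The image of `W` under `f` has dimension at most the number of leading indices of `W` that
are not leading indices of the kernel. -/
theorem finrank_map_le [Fintype ι] [DecidableEq ι] {κ : ι → α} (hκ : Function.Injective κ)
    {M : Type*} [AddCommGroup M] [Module K M] (f : (ι → K) →ₗ[K] M) (W : Submodule K (ι → K))
    (h : LinearMap.ker f ≤ W) :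
    finrank K (W.map f) ≤ (Lds κ W \ Lds κ (LinearMap.ker f)).card := by
  have h1 := LinearMap.finrank_range_add_finrank_ker (f.domRestrict W)
  rw [LinearMap.range_domRestrict, LinearMap.ker_domRestrict,
    (Submodule.comapSubtypeEquivOfLe h).finrank_eq] at h1
  have h2 := finrank_le_card_LT κ W
  have h3 := card_LT_le_finrank hκ (LinearMap.ker f)
  have h4 := card_sdiff_add_card_eq_card (LT_mono κ h)
  omega

/-- The images of the basis vectors outside the leading indices of the kernel are independent. -/
theorem card_le_of_notMem_LT [Fintype ι] [DecidableEq ι] (κ : ι → α)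
    {M : Type*} [AddCommGroup M] [Module K M] (f : (ι → K) →ₗ[K] M) (s : Finset ι)
    (hs : ∀ i ∈ s, i ∉ Lds κ (LinearMap.ker f)) (V : Submodule K M) [FiniteDimensional K V]
    (hV : ∀ i ∈ s, f (Pi.single i 1) ∈ V) : s.card ≤ finrank K V := by
  have hli : LinearIndependent K fun i : s => (⟨f (Pi.single i 1), hV i i.2⟩ : V) := by
    rw [Fintype.linearIndependent_iff]
    intro g hg
    set b : ι → K := ∑ i : s, g i • (Pi.single (i : ι) (1 : K) : ι → K) with hb
    have hb0 : f b = 0 := by
      have := congrArg (fun x : V => (x : M)) hg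
      simpa [hb] using this
    have hval : ∀ i : s, b i = g i := by
      intro i
      rw [hb, Finset.sum_apply, Finset.sum_eq_single i]
      · simp
      · intro j _ hji
        have : (i : ι) ≠ j := fun h => hji (Subtype.ext h.symm)
        simp [this]
      · simp
    by_cases h0 : b = 0
    · intro i
      rw [← hval, h0]
      rfl
    · obtain ⟨i, hi⟩ := exists_lead κ h0
      have his : i ∈ s := by
        by_contra hn
        apply hi.1
        rw [hb, Finset.sum_apply]
        refine Finset.sum_eq_zero fun j _ => ?_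
        have : i ≠ j := fun h => hn (h ▸ j.2)
        simp [this]
      exact absurd (mem_LT.2 ⟨b, hb0, hi⟩) (hs i his)
  simpa using hli.fintype_card_le_finrank

end Pool.Agent.Lib.MP_8b1d3b_lc.PR
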