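import Mathlib

/-! Numerical estimates. -/

set_option autoImplicit false

namespace Pool.Agent.Lib.MP_8b1d3b_lc.PR

theorem cb_upper (m : ℕ) : m.centralBinom ^ 2 * (3 * m + 1) ≤ 16 ^ m := by
  induction m with
  | zero => simp
  | succ m ih =>
    have h := Nat.succ_mul_centralBinom_succ m
    have hp : 0 < (m + 1) ^ 2 * (3 * m + 1) := by positivity
    refine Nat.le_of_mul_le_mul_left ?_ hp
    calc (m + 1) ^ 2 * (3 * m + 1) * ((m + 1).centralBinom ^ 2 * (3 * (m + 1) + 1))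
        = ((m + 1) * (m + 1).centralBinom) ^ 2 * (3 * m + 1) * (3 * m + 4) := by ring
      _ = m.centralBinom ^ 2 * (3 * m + 1) * (4 * (2 * m + 1) ^ 2 * (3 * m + 4)) := by
          rw [h]; ring
      _ ≤ 16 ^ m * (16 * ((m + 1) ^ 2 * (3 * m + 1))) := Nat.mul_le_mul ih (by nlinarith)
      _ = _ := by ring

theorem cb_lower (n : ℕ) : 5 * 16 ^ n ≤ n.centralBinom ^ 2 * (16 * n + 5) := by
  have key : ∀ k : ℕ, 5 * 16 ^ (k + 1) ≤ (k + 1).centralBinom ^ 2 * (16 * (k + 1) + 4) := by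
    intro k
    induction k with
    | zero => decide
    | succ k ih =>
      set m := k + 1 with hm
      have h := Nat.succ_mul_centralBinom_succ m
      have hp : 0 < (m + 1) ^ 2 * (16 * m + 4) := by positivity
      refine Nat.le_of_mul_le_mul_left ?_ hp
      calc (m + 1) ^ 2 * (16 * m + 4) * (5 * 16 ^ (m + 1))
          = 5 * 16 ^ m * (16 * (m + 1) ^ 2 * (16 * m + 4)) := by ring
        _ ≤ m.centralBinom ^ 2 * (16 * m + 4) * (4 * (2 * m + 1) ^ 2 * (16 * m + 20)) :=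
            Nat.mul_le_mul ih (by nlinarith)
        _ = (2 * (2 * m + 1) * m.centralBinom) ^ 2 * (16 * m + 4) * (16 * m + 20) := by ring
        _ = _ := by rw [← h]; ring
  cases n with
  | zero => simp
  | succ k => exact (key k).trans (Nat.mul_le_mul_left _ (by omega))

theorem le_of_sq {a n : ℕ} (h : a ^ 2 * (16 * n + 5) ≤ 320 * 4 ^ n) :
    a * 2 ^ n ≤ 8 * n.centralBinom := by
  have h1 := cb_lower n
  have h2 : (a * 2 ^ n) ^ 2 * (16 * n + 5) ≤ (8 * n.centralBinom) ^ 2 * (16 * n + 5) := by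
    calc (a * 2 ^ n) ^ 2 * (16 * n + 5) = a ^ 2 * (16 * n + 5) * 4 ^ n := by
          rw [mul_pow, ← pow_mul, mul_comm n 2, pow_mul]; ring
      _ ≤ 320 * 4 ^ n * 4 ^ n := Nat.mul_le_mul_right _ h
      _ = 64 * (5 * 16 ^ n) := by
          rw [mul_assoc, ← mul_pow]; ring
      _ ≤ 64 * (n.centralBinom ^ 2 * (16 * n + 5)) := Nat.mul_le_mul_left _ h1
      _ = _ := by ring
  exact (Nat.pow_le_pow_iff_left (by norm_num)).1 (Nat.le_of_mul_le_mul_right h2 (by omega))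

theorem num_large {a n m u : ℕ} (h : a * 4 ^ m ≤ (2 * m + 1).choose (m + 1) * 2 ^ n)
    (hu : 4 * n ≤ 15 * u) (hm : u ≤ 4 * m + 1) : a * 2 ^ n ≤ 8 * n.centralBinom := by
  apply le_of_sq
  have h1 : (2 * m + 1).choose (m + 1) ≤ 2 * m.centralBinom := by
    rw [Nat.choose_succ_succ', two_mul m.centralBinom]
    exact add_le_add le_rfl (Nat.choose_le_centralBinom _ _)
  have h2 := cb_upper m
  have h3 : a * 4 ^ m ≤ 2 * m.centralBinom * 2 ^ n := h.trans (Nat.mul_le_mul_right _ h1)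
  have h4 : a ^ 2 * (3 * m + 1) * 16 ^ m ≤ 4 * 4 ^ n * 16 ^ m := by
    calc a ^ 2 * (3 * m + 1) * 16 ^ m = (a * 4 ^ m) ^ 2 * (3 * m + 1) := by
          rw [mul_pow, ← pow_mul, mul_comm m 2, pow_mul]; ring
      _ ≤ (2 * m.centralBinom * 2 ^ n) ^ 2 * (3 * m + 1) :=
          Nat.mul_le_mul_right _ (Nat.pow_le_pow_left h3 2)
      _ = 4 * 4 ^ n * (m.centralBinom ^ 2 * (3 * m + 1)) := by
          rw [mul_pow, ← pow_mul, mul_comm n 2, pow_mul]; ring
      _ ≤ _ := Nat.mul_le_mul_left _ h2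
  have h5 := Nat.le_of_mul_le_mul_right h4 (by positivity)
  calc a ^ 2 * (16 * n + 5) ≤ a ^ 2 * (80 * (3 * m + 1)) := Nat.mul_le_mul_left _ (by omega)
    _ = 80 * (a ^ 2 * (3 * m + 1)) := by ring
    _ ≤ 80 * (4 * 4 ^ n) := Nat.mul_le_mul_left _ h5
    _ = _ := by ring

theorem num_small {a n u : ℕ} (h : a ≤ (u + n).choose n) (hu : 15 * u ≤ 4 * n) :
    a * 2 ^ n ≤ 8 * n.centralBinom := by
  apply le_of_sq
  have h1 : (u + n).choose n * 4 ^ n ≤ 5 ^ (u + n) := by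
    have h2 := add_pow (4 : ℕ) 1 (u + n)
    have h3 := Finset.single_le_sum (f := fun k => 4 ^ k * 1 ^ (u + n - k) * ((u + n).choose k))
      (fun _ _ => Nat.zero_le _) (Finset.mem_range.2 (show n < u + n + 1 by omega))
    simp only [Nat.cast_id] at h2
    rw [← h2] at h3
    simpa [mul_comm] using h3
  have h4 : (5 : ℝ) ^ u ≤ (77 / 50) ^ n := by
    refine le_of_pow_le_pow_left₀ (n := 15) (by norm_num) (by positivity) ?_
    calc ((5 : ℝ) ^ u) ^ 15 = 5 ^ (15 * u) := by rw [← pow_mul, mul_comm]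
      _ ≤ 5 ^ (4 * n) := pow_le_pow_right₀ (by norm_num) hu
      _ = (5 ^ 4) ^ n := by rw [pow_mul]
      _ ≤ ((77 / 50) ^ 15) ^ n := pow_le_pow_left₀ (by norm_num) (by norm_num) n
      _ = _ := by rw [← pow_mul, ← pow_mul, mul_comm]
  have h5 : (a : ℝ) ≤ (77 / 40) ^ n := by
    have h6 : (a : ℝ) * 4 ^ n ≤ 5 ^ u * 5 ^ n := by
      rw [← pow_add]
      exact_mod_cast (Nat.mul_le_mul_right _ h).trans h1
    have h7 : (77 / 40 : ℝ) ^ n * 4 ^ n = (77 / 50) ^ n * 5 ^ n := by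
      rw [← mul_pow, ← mul_pow]; norm_num
    refine le_of_mul_le_mul_right (a := 4 ^ n) ?_ (by positivity)
    rw [h7]
    exact h6.trans (mul_le_mul_of_nonneg_right h4 (by positivity))
  have h8 : (1 : ℝ) + n * (1 / 20) ≤ (1 + 1 / 20) ^ n := one_add_mul_le_pow (by norm_num) n
  have h9 : ((77 / 40 : ℝ) ^ n) ^ 2 * (1 + 1 / 20) ^ n ≤ 4 ^ n := by
    rw [← pow_mul, mul_comm n 2, pow_mul, ← mul_pow]
    exact pow_le_pow_left₀ (by norm_num) (by norm_num) n
  have h10 : (a : ℝ) ^ 2 ≤ ((77 / 40) ^ n) ^ 2 := pow_le_pow_left₀ (by positivity) h5 2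
  have h11 : (a : ℝ) ^ 2 * (16 * n + 5) ≤ 320 * 4 ^ n := by
    calc (a : ℝ) ^ 2 * (16 * n + 5) ≤ ((77 / 40) ^ n) ^ 2 * (320 * (1 + 1 / 20) ^ n) :=
          mul_le_mul h10 (by linarith) (by positivity) (by positivity)
      _ = 320 * (((77 / 40) ^ n) ^ 2 * (1 + 1 / 20) ^ n) := by ring
      _ ≤ _ := by linarith
  exact_mod_cast h11

end Pool.Agent.Lib.MP_8b1d3b_lc.PR
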