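import Pool.Agent.Lib.MP_8b1d3b_lc.PRLead

/-! Derivatives of the generic permanent. -/

set_option autoImplicit false

namespace Pool.Agent.Lib.MP_8b1d3b_lc.PR

open Finset Module MvPolynomial

variable {K : Type*} [Field K] {n : ℕ}

theorem pd_comm {σ : Type*} (c d : σ) (p : MvPolynomial σ K) :
    pderiv c (pderiv d p) = pderiv d (pderiv c p) := by
  classical
  have h : ⁅(pderiv c : Derivation K (MvPolynomial σ K) (MvPolynomial σ K)),
      (pderiv d : Derivation K (MvPolynomial σ K) (MvPolynomial σ K))⁆ = 0 := by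
    apply derivation_ext
    intro i
    rw [Derivation.commutator_apply]
    simp only [pderiv_X, Pi.single_apply]
    split_ifs <;> simp
  have h2 := congrArg (fun D : Derivation K (MvPolynomial σ K) (MvPolynomial σ K) => D p) h
  simp only [Derivation.commutator_apply, Derivation.zero_apply] at h2
  exact sub_eq_zero.1 h2

theorem pd_prod (τ : Fin n → Fin n) (j b : Fin n) (R : Finset (Fin n)) :
    pderiv (j, b) (∏ k ∈ R, (X (τ k, k) : MvPolynomial (Fin n × Fin n) K)) =
      if b ∈ R ∧ τ b = j then ∏ k ∈ R.erase b, X (τ k, k) else 0 := by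
  have h0 : ∀ R : Finset (Fin n), b ∉ R →
      pderiv (j, b) (∏ k ∈ R, (X (τ k, k) : MvPolynomial (Fin n × Fin n) K)) = 0 := by
    intro R
    induction R using Finset.induction_on with
    | empty => intro _; simp
    | insert k R hk ih =>
      intro hb
      rw [mem_insert, not_or] at hb
      rw [prod_insert hk, pderiv_mul, ih hb.2, pderiv_X_of_ne (fun h => hb.1 (Prod.mk.inj h).2.symm)]
      simp
  by_cases hb : b ∈ R
  · rw [← mul_prod_erase R _ hb, pderiv_mul, h0 _ (notMem_erase b R), mul_zero, add_zero]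
    by_cases hj : τ b = j
    · rw [if_pos ⟨hb, hj⟩, hj, pderiv_X_self, one_mul]
    · rw [if_neg fun h => hj h.2, pderiv_X_of_ne fun h => hj (Prod.mk.inj h).1, zero_mul]
  · rw [h0 R hb, if_neg fun h => hb h.1]

/-- The generic permanent. -/
noncomputable def per (K : Type*) [Field K] (n : ℕ) : MvPolynomial (Fin n × Fin n) K :=
  ∑ τ : Equiv.Perm (Fin n), ∏ k, X (τ k, k)

theorem pd_pd_per (i a j b : Fin n) :
    pderiv (i, a) (pderiv (j, b) (per K n)) = ∑ τ : Equiv.Perm (Fin n),
      if a ≠ b ∧ τ a = i ∧ τ b = j then ∏ k ∈ (univ.erase b).erase a, X (τ k, k) else 0 := by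
  unfold per
  rw [map_sum, map_sum]
  refine sum_congr rfl fun τ _ => ?_
  rw [pd_prod]
  by_cases h : τ b = j
  · rw [if_pos ⟨mem_univ _, h⟩, pd_prod]
    simp [h]
  · simp [h]

theorem per_row (i a b : Fin n) : pderiv (i, a) (pderiv (i, b) (per K n)) = 0 := by
  rw [pd_pd_per]
  exact sum_eq_zero fun τ _ => if_neg fun h => h.1 (τ.injective (h.2.1.trans h.2.2.symm))

theorem per_col (i j a : Fin n) : pderiv (i, a) (pderiv (j, a) (per K n)) = 0 := by
  rw [pd_pd_per]
  exact sum_eq_zero fun τ _ => if_neg fun h => h.1 rfl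

theorem per_min (i j a b : Fin n) :
    pderiv (i, a) (pderiv (j, b) (per K n)) = pderiv (i, b) (pderiv (j, a) (per K n)) := by
  rw [pd_pd_per, pd_pd_per, ← Equiv.sum_comp (Equiv.mulRight (Equiv.swap a b))]
  refine sum_congr rfl fun τ _ => ?_
  simp only [Equiv.coe_mulRight, Equiv.Perm.coe_mul, Function.comp_apply, Equiv.swap_apply_left,
    Equiv.swap_apply_right, ne_comm (a := b)]
  split_ifs with h
  · rw [erase_right_comm]
    refine prod_congr rfl fun k hk => ?_
    rw [Equiv.swap_apply_of_ne_of_ne (ne_of_mem_erase (mem_of_mem_erase hk)) (ne_of_mem_erase hk)]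
  · rfl

/-- The subpermanent on the columns outside `S` and the rows outside `σ S`. -/
noncomputable def sub (K : Type*) [Field K] (S : Finset (Fin n)) (σ : Equiv.Perm (Fin n)) :
    MvPolynomial (Fin n × Fin n) K :=
  ∑ τ : Equiv.Perm (Fin n), if ∀ k ∈ S, τ k = σ k then ∏ k ∈ Sᶜ, X (τ k, k) else 0

theorem sub_mem (V : Submodule K (MvPolynomial (Fin n × Fin n) K)) (h0 : per K n ∈ V)
    (hV : ∀ c, ∀ p ∈ V, pderiv c p ∈ V) (σ : Equiv.Perm (Fin n)) (S : Finset (Fin n)) :
    sub K S σ ∈ V := by
  induction S using Finset.induction_on with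
  | empty => simpa [sub, per] using h0
  | insert b S hb ih =>
    have h : sub K (insert b S) σ = pderiv (σ b, b) (sub K S σ) := by
      unfold sub
      rw [map_sum]
      refine sum_congr rfl fun τ _ => ?_
      by_cases h1 : ∀ k ∈ S, τ k = σ k
      · rw [if_pos h1, pd_prod, compl_insert]
        by_cases h2 : τ b = σ b
        · rw [if_pos ((forall_mem_insert b S fun k => τ k = σ k).2 ⟨h2, h1⟩), if_pos ⟨mem_compl.2 hb, h2⟩]
        · rw [if_neg fun h => h2 (h b (mem_insert_self _ _)), if_neg fun h => h2 h.2]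
      · rw [if_neg h1, if_neg fun h => h1 fun k hk => h k (mem_insert_of_mem hk), map_zero]
    rw [h]
    exact hV _ _ ih

theorem aeval_sub (S S' : Finset (Fin n)) (σ σ' : Equiv.Perm (Fin n)) :
    aeval (fun c : Fin n × Fin n => if c.2 ∉ S' ∧ σ' c.2 = c.1 then (1 : K) else 0) (sub K S σ) =
      ∑ τ : Equiv.Perm (Fin n),
        if (∀ k ∈ S, τ k = σ k) ∧ ∀ k ∉ S, k ∉ S' ∧ σ' k = τ k then 1 else 0 := by
  unfold sub
  rw [map_sum]
  refine sum_congr rfl fun τ _ => ?_
  by_cases h1 : ∀ k ∈ S, τ k = σ k
  · rw [if_pos h1, map_prod]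
    simp only [aeval_X]
    rw [prod_boole]
    simp only [mem_compl]
    exact if_congr (and_iff_right h1).symm rfl rfl
  · rw [if_neg h1, if_neg fun h => h1 h.1, map_zero]

theorem centralBinom_le_finrank (V : Submodule K (MvPolynomial (Fin n × Fin n) K))
    [FiniteDimensional K V] (h0 : per K n ∈ V) (hV : ∀ c, ∀ p ∈ V, pderiv c p ∈ V) :
    n.centralBinom ≤ finrank K V := by
  classical
  set J := (univ : Finset (Fin n ⊕ Fin n)).powersetCard n with hJ
  have hex : ∀ x : J, ∃ σ : Equiv.Perm (Fin n), ∀ k, k ∈ x.1.toLeft ↔ σ k ∉ x.1.toRight := by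
    intro x
    have h1 := card_toLeft_add_card_toRight (u := x.1)
    rw [(mem_powersetCard.1 x.2).2] at h1
    have h2 : Fintype.card {k // k ∈ x.1.toLeft} = Fintype.card {k // k ∈ x.1.toRightᶜ} := by
      rw [Fintype.card_coe, Fintype.card_coe, card_compl, Fintype.card_fin]
      omega
    let e := Fintype.equivOfCardEq h2
    refine ⟨e.extendSubtype, fun k => ⟨fun hk => mem_compl.1 (e.extendSubtype_mem k hk), ?_⟩⟩
    intro hk
    by_contra hn
    exact e.extendSubtype_not_mem k hn (mem_compl.2 hk)
  choose σ hσ using hex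
  have hli : LinearIndependent K
      fun x : J => (⟨sub K x.1.toLeft (σ x), sub_mem V h0 hV _ _⟩ : V) := by
    rw [Fintype.linearIndependent_iff]
    intro g hg
    by_contra hne
    obtain ⟨x, hx⟩ := exists_lead (fun x : J => x.1.toLeft.card) (w := g)
      (fun h => hne fun i => congrFun h i)
    have h1 : ∑ y : J, g y • sub K y.1.toLeft (σ y) = 0 := by
      have := congrArg (fun p : V => (p : MvPolynomial (Fin n × Fin n) K)) hg
      simpa using this
    have h2 := congrArg (aeval (fun c : Fin n × Fin n =>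
      if c.2 ∉ x.1.toLeft ∧ σ x c.2 = c.1 then (1 : K) else 0)) h1
    rw [map_sum, map_zero, sum_eq_single x] at h2
    · rw [map_smul, aeval_sub, sum_eq_single (σ x)] at h2
      · apply hx.1
        simpa using h2
      · intro τ _ hτ
        refine if_neg fun h => hτ (Equiv.ext fun k => ?_)
        by_cases hk : k ∈ x.1.toLeft
        · exact h.1 k hk
        · exact (h.2 k hk).2.symm
      · simp
    · intro y _ hyx
      by_cases hy : g y = 0
      · simp [hy]
      rw [map_smul, aeval_sub, sum_eq_zero, smul_zero]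
      intro τ _
      refine if_neg fun h => hyx (Subtype.ext ?_)
      have h3 : x.1.toLeft = y.1.toLeft :=
        eq_of_subset_of_card_le (fun k hk => by
          by_contra hn
          exact (h.2 k hn).1 hk) (hx.2 y hy)
      have h4 : x.1.toRight = y.1.toRight := by
        ext j
        obtain ⟨k, rfl⟩ := τ.surjective j
        by_cases hk : k ∈ y.1.toLeft
        · have e1 : τ k ∉ y.1.toRight := by rw [h.1 k hk]; exact (hσ y k).1 hk
          have e2 : τ k ∉ x.1.toRight := by
            intro hc
            obtain ⟨k', hk'⟩ := (σ x).surjective (τ k)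
            have e3 : k' ∉ x.1.toLeft := fun h5 => (hσ x k').1 h5 (hk' ▸ hc)
            have e4 := (h.2 k' (h3 ▸ e3)).2
            have e5 : k' = k := τ.injective (e4.symm.trans hk')
            exact e3 (h3 ▸ e5 ▸ hk)
          simp [e1, e2]
        · have e1 : τ k ∈ x.1.toRight := by
            rw [← (h.2 k hk).2]
            by_contra hc
            exact hk (h3 ▸ (hσ x k).2 hc)
          have e2 : τ k ∈ y.1.toRight := by
            by_contra hc
            obtain ⟨k', hk'⟩ := (σ y).surjective (τ k)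
            have e3 : k' ∈ y.1.toLeft := (hσ y k').2 (hk' ▸ hc)
            have e5 : k' = k := τ.injective ((h.1 k' e3).trans hk')
            exact hk (e5 ▸ e3)
          simp [e1, e2]
      rw [← toLeft_disjSum_toRight (u := y.1), ← toLeft_disjSum_toRight (u := x.1), h3, h4]
    · simp
  have h5 := hli.fintype_card_le_finrank
  rw [Fintype.card_coe, hJ, card_powersetCard, card_univ, Fintype.card_sum, Fintype.card_fin,
    ← two_mul] at h5
  exact h5

end Pool.Agent.Lib.MP_8b1d3b_lc.PR
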