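import Pool.Agent.Lib.MP_8b1d3b_lc.PRLarge
import Pool.Agent.Lib.MP_8b1d3b_lc.PRAnti
import Pool.Agent.Lib.MP_8b1d3b_lc.PRPerm
import Pool.Agent.Lib.MP_8b1d3b_lc.PRNum

/-! The product rank of the permanent is at least `2 ^ (n - 3)`. -/

set_option autoImplicit false

namespace Pool.Agent.Lib.MP_8b1d3b_lc.PR

open Finset Module Submodule MvPolynomial

variable {K : Type*} [Field K] {n r : ℕ}

theorem affine_eq {σ : Type*} [Fintype σ] [DecidableEq σ] {p : MvPolynomial σ K}
    (hp : p.totalDegree ≤ 1) :
    p = C (p.coeff 0) + ∑ v, p.coeff (Finsupp.single v 1) • (X v : MvPolynomial σ K) := by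
  ext d
  simp only [coeff_add, coeff_sum, coeff_smul, coeff_X, coeff_C, smul_eq_mul]
  by_cases h0 : 0 = d
  · subst h0
    simp [Finsupp.single_eq_zero]
  by_cases h1 : ∃ v, d = Finsupp.single v 1
  · obtain ⟨v, rfl⟩ := h1
    simp [h0, Finsupp.single_left_inj]
  push Not at h1
  rw [if_neg h0, zero_add, sum_eq_zero fun v _ => by simp [(h1 v).symm]]
  by_contra hd
  have h2 := (le_totalDegree (mem_support_iff.mpr hd)).trans hp
  rcases Nat.le_one_iff_eq_zero_or_eq_one.mp h2 with h3 | h3
  · exact h0 ((Finsupp.degree_eq_zero_iff d).mp h3).symm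
  · obtain ⟨v, hv⟩ := (Finsupp.sum_eq_one_iff d).mp h3
    exact h1 v hv

theorem pd_affine {σ : Type*} [Fintype σ] [DecidableEq σ] {p : MvPolynomial σ K}
    (hp : p.totalDegree ≤ 1) (c : σ) : pderiv c p = C (p.coeff (Finsupp.single c 1)) := by
  conv_lhs => rw [affine_eq hp]
  rw [map_add, pderiv_C, zero_add, map_sum, sum_eq_single c]
  · simp [C_eq_smul_one]
  · intro d _ hd
    simp [pderiv_X_of_ne hd]
  · simp

theorem pd_prod_gen {σ γ : Type*} [DecidableEq γ] (c : σ) (f : γ → MvPolynomial σ K)
    (s : Finset γ) :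
    pderiv c (∏ k ∈ s, f k) = ∑ k ∈ s, pderiv c (f k) * ∏ j ∈ s.erase k, f j := by
  induction s using Finset.induction_on with
  | empty => simp
  | insert a s ha ih =>
    rw [prod_insert ha, pderiv_mul, ih, sum_insert ha, erase_insert ha, mul_sum]
    congr 1
    refine sum_congr rfl fun k hk => ?_
    have hne : a ≠ k := fun h => ha (h ▸ hk)
    rw [erase_insert_of_ne hne, prod_insert fun h => ha (mem_of_mem_erase h)]
    ring

theorem sum_erase_swap {β M : Type*} [Fintype β] [DecidableEq β] [AddCommMonoid M]
    (F : Finset β → β → M) :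
    ∑ T : Finset β, ∑ k ∈ T, F (T.erase k) k = ∑ T : Finset β, ∑ k ∈ Tᶜ, F T k := by
  rw [sum_comm' (t' := univ) (s' := fun k => univ.filter fun T : Finset β => k ∈ T) (by simp),
    sum_comm' (s := univ) (t := fun T : Finset β => Tᶜ) (t' := univ)
      (s' := fun k => univ.filter fun T : Finset β => k ∉ T) (by simp)]
  refine sum_congr rfl fun k _ => ?_
  refine sum_nbij' (fun T => T.erase k) (fun T => insert k T) (by simp) (by simp) ?_ ?_
    fun _ _ => rfl
  · intro T hT
    exact insert_erase (mem_filter.1 hT).2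
  · intro T hT
    exact erase_insert (mem_filter.1 hT).2

/-- Evaluation of a formal combination of subproducts. -/
noncomputable def ev (L : Fin r → Fin n → MvPolynomial (Fin n × Fin n) K) :
    (Fin r × Finset (Fin n) → K) →ₗ[K] MvPolynomial (Fin n × Fin n) K :=
  Fintype.linearCombination K fun x => ∏ k ∈ x.2ᶜ, L x.1 k

theorem ev_mul1 {L : Fin r → Fin n → MvPolynomial (Fin n × Fin n) K}
    (hL : ∀ l k, (L l k).totalDegree ≤ 1) (c : Fin n × Fin n) (b : Fin r × Finset (Fin n) → K) :
    ev L (mul1 (fun l k => (L l k).coeff (Finsupp.single c 1)) b) = pderiv c (ev L b) := by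
  unfold ev
  rw [Fintype.linearCombination_apply, Fintype.linearCombination_apply, map_sum,
    Fintype.sum_prod_type, Fintype.sum_prod_type]
  refine sum_congr rfl fun l _ => ?_
  have h := sum_erase_swap fun (T : Finset (Fin n)) k =>
    ((L l k).coeff (Finsupp.single c 1) * b (l, T)) • ∏ j ∈ Tᶜ.erase k, L l j
  refine Eq.trans (sum_congr rfl fun T _ => ?_) (h.trans (sum_congr rfl fun T _ => ?_))
  · simp only [mul1]
    rw [sum_smul]
    refine sum_congr rfl fun k hk => ?_
    rw [compl_erase, erase_insert fun h => mem_compl.1 h hk]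
  · rw [Derivation.map_smul, pd_prod_gen, smul_sum]
    refine sum_congr rfl fun k _ => ?_
    rw [pd_affine (hL l k), C_mul', smul_smul, mul_comm]

/-- The polynomials killed by the quadrics that kill the permanent. -/
def ZZ (K : Type*) [Field K] (n : ℕ) : Submodule K (MvPolynomial (Fin n × Fin n) K) where
  carrier := {p | (∀ i a b, pderiv (i, a) (pderiv (i, b) p) = 0) ∧
    (∀ i j a, pderiv (i, a) (pderiv (j, a) p) = 0) ∧
    ∀ i j a b, pderiv (i, a) (pderiv (j, b) p) = pderiv (i, b) (pderiv (j, a) p)}
  add_mem' := fun {p q} hp hq => ⟨fun i a b => by simp [hp.1 i a b, hq.1 i a b],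
    fun i j a => by simp [hp.2.1 i j a, hq.2.1 i j a],
    fun i j a b => by simp [hp.2.2 i j a b, hq.2.2 i j a b]⟩
  zero_mem' := by simp
  smul_mem' := fun c {p} hp => ⟨fun i a b => by simp [hp.1 i a b],
    fun i j a => by simp [hp.2.1 i j a], fun i j a b => by simp [hp.2.2 i j a b]⟩

theorem pd_mem_ZZ (c : Fin n × Fin n) {p : MvPolynomial (Fin n × Fin n) K} (hp : p ∈ ZZ K n) :
    pderiv c p ∈ ZZ K n := by
  have h : ∀ d d', pderiv d (pderiv d' (pderiv c p)) = pderiv c (pderiv d (pderiv d' p)) :=
    fun d d' => by rw [pd_comm d' c, pd_comm d c]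
  exact ⟨fun i a b => by rw [h, hp.1, map_zero], fun i j a => by rw [h, hp.2.1, map_zero],
    fun i j a b => by rw [h, h, hp.2.2]⟩

/-- The families of quadrics that map `W` into the kernel of `f`. -/
def good {M : Type*} [AddCommGroup M] [Module K M] (f : (Fin r × Finset (Fin n) → K) →ₗ[K] M)
    (W : Submodule K (Fin r × Finset (Fin n) → K)) :
    Submodule K (Fin r → Finset (Fin n) → K) where
  carrier := {q | ∀ b ∈ W, f (mul2 q b) = 0}
  add_mem' := fun {q q'} hq hq' b hb => by
    have : mul2 (q + q') b = mul2 q b + mul2 q' b := by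
      ext x
      simp [mul2, add_mul, sum_add_distrib]
    rw [this, map_add, hq b hb, hq' b hb, add_zero]
  zero_mem' := fun b _ => by
    have : mul2 0 b = 0 := by
      ext x
      simp [mul2]
    rw [this, map_zero]
  smul_mem' := fun c {q} hq b hb => by
    have : mul2 (c • q) b = c • mul2 q b := by
      ext x
      simp [mul2, mul_sum, mul_assoc]
    rw [this, map_smul, hq b hb, smul_zero]

theorem mul2_sub (q q' : Fin r → Finset (Fin n) → K) (b : Fin r × Finset (Fin n) → K) :
    mul2 (q - q') b = mul2 q b - mul2 q' b := by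
  ext x
  simp [mul2, sub_mul, sum_sub_distrib]

theorem product_rank (L : Fin r → Fin n → MvPolynomial (Fin n × Fin n) K)
    (hL : ∀ l k, (L l k).totalDegree ≤ 1) (h : ∑ l, ∏ k, L l k = per K n) : 2 ^ n ≤ 8 * r := by
  classical
  set row : Fin r → Fin n → Fin n × Fin n → K :=
    fun l k c => (L l k).coeff (Finsupp.single c 1) with hrow
  have hex : ∀ l, ∃ A : Finset (Fin n), LinearIndepOn K (row l) (A : Set (Fin n)) ∧
      ∀ k, row l k ∈ span K (row l '' A) := by
    intro l
    obtain ⟨b, -, -, h1, h2⟩ := exists_linearIndepOn_extension (K := K) (v := row l)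
      (linearIndepOn_empty K _) (Set.empty_subset Set.univ)
    exact ⟨b.toFinset, by simpa using h2, fun k => by simpa using h1 ⟨k, trivial, rfl⟩⟩
  choose A hA hspan using hex
  set W := (ZZ K n).comap (ev L) with hW
  have hNW : LinearMap.ker (ev L) ≤ W := LinearMap.ker_le_comap _
  have hcb : n.centralBinom ≤ finrank K (W.map (ev L)) := by
    apply centralBinom_le_finrank
    · have h1 : ev L (fun x => if x.2 = ∅ then 1 else 0) = per K n := by
        rw [← h]
        unfold ev
        rw [Fintype.linearCombination_apply, Fintype.sum_prod_type]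
        simp
      exact ⟨_, by
        change ev L _ ∈ ZZ K n
        rw [h1]
        exact ⟨per_row, per_col, per_min⟩, h1⟩
    · rintro c _ ⟨b, hb, rfl⟩
      exact ⟨_, by
        change ev L _ ∈ ZZ K n
        rw [ev_mul1 hL c b]
        exact pd_mem_ZZ c hb, ev_mul1 hL c b⟩
  have hD := finrank_map_le (key_injective A) (ev L) W hNW
  set D := Lds (key A) W \ Lds (key A) (LinearMap.ker (ev L)) with hDdef
  set F : Fin r → Finset (Finset (Fin n)) := fun l => univ.filter fun T => (l, T) ∈ D with hF
  have hDF : D.card ≤ ∑ l, (F l).card := by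
    have h1 : D ⊆ univ.biUnion fun l => (F l).image fun T => (l, T) := by
      rintro ⟨l, T⟩ hx
      exact mem_biUnion.2 ⟨l, mem_univ _, mem_image_of_mem _ (mem_filter.2 ⟨mem_univ _, hx⟩)⟩
    exact (card_le_card h1).trans (card_biUnion_le.trans (sum_le_sum fun l _ => card_image_le))
  have hev2 : ∀ c c' b, ev L (mul2 (fun l => sq K n (fun k => row l k c) fun k => row l k c') b) =
      pderiv c (pderiv c' (ev L b)) := by
    intro c c' b
    rw [← mul1_mul1 (fun l k => row l k c) (fun l k => row l k c'), ev_mul1 hL, ev_mul1 hL]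
  have hFl : ∀ l, (F l).card * 2 ^ n ≤ 8 * n.centralBinom := by
    intro l
    rcases le_total (4 * n) (15 * (A l).card) with hu | hu
    · obtain ⟨M, h2, hd, hc, hq⟩ := exists_lead_matching (row l) (A l) (hA l)
        ((good (ev L) W).map (LinearMap.proj l))
        (fun i a b => ⟨fun l => sq K n (fun k => row l k (i, a)) fun k => row l k (i, b),
          fun w hw => by rw [hev2]; exact hw.1 i a b, rfl⟩)
        (fun i j a => ⟨fun l => sq K n (fun k => row l k (i, a)) fun k => row l k (j, a),
          fun w hw => by rw [hev2]; exact hw.2.1 i j a, rfl⟩)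
        (fun i j a b => ⟨(fun l => sq K n (fun k => row l k (i, a)) fun k => row l k (j, b)) -
          fun l => sq K n (fun k => row l k (i, b)) fun k => row l k (j, a),
          fun w hw => by rw [mul2_sub, map_sub, hev2, hev2, hw.2.2 i j a b, sub_self], rfl⟩)
      have h3 := anti_bound h2 hd (F := F l)
        (U := univ.filter fun T => (l, T) ∈ Lds (key A) W)
        (fun T hT => mem_filter.2 ⟨mem_univ _, (mem_sdiff.1 (mem_filter.1 hT).2).1⟩)
        (fun T hT e he hdis => by
          obtain ⟨b, hb, hl⟩ := mem_LT.1 (mem_filter.1 hT).2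
          obtain ⟨_, ⟨q, hq1, rfl⟩, hq2, hq3⟩ := hq e he
          have h4 : (l, T ∪ e) ∈ Lds (key A) (LinearMap.ker (ev L)) :=
            mem_LT.2 ⟨mul2 q b, hq1 b hb, lead_mul2 hl (h2 e he) hq2 hq3 hdis⟩
          exact ⟨mem_filter.2 ⟨mem_univ _, LT_mono _ hNW h4⟩,
            fun h5 => (mem_sdiff.1 (mem_filter.1 h5).2).2 h4⟩)
      rw [Fintype.card_fin] at h3
      exact num_large h3 hu hc
    · obtain ⟨V, hV1, hV2, hV3⟩ := exists_prod_space (K := K)
        (fun o : Option (A l) => o.elim 1 fun k => L l k) n
      have hone : (1 : MvPolynomial (Fin n × Fin n) K) ∈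
          span K (Set.range fun o : Option (A l) => o.elim 1 fun k => L l k) :=
        subset_span ⟨none, rfl⟩
      have hform : ∀ k, L l k = (L l k).coeff 0 • 1 +
          Fintype.linearCombination K (fun c => X c) (row l k) := by
        intro k
        rw [Fintype.linearCombination_apply, ← C_eq_smul_one]
        exact affine_eq (hL l k)
      have hmem : ∀ k, L l k ∈
          span K (Set.range fun o : Option (A l) => o.elim 1 fun k => L l k) := by
        intro k
        have h1 : span K (row l '' A l) ≤
            (span K (Set.range fun o : Option (A l) => o.elim 1 fun k => L l k)).comap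
              (Fintype.linearCombination K fun c => X c) := by
          refine span_le.2 ?_
          rintro _ ⟨j, hj, rfl⟩
          have h2 := Submodule.sub_mem _ (subset_span (R := K)
            (s := Set.range fun o : Option (A l) => o.elim 1 fun k => L l k) ⟨some ⟨j, hj⟩, rfl⟩)
            (smul_mem _ ((L l j).coeff 0) hone)
          change L l j - _ ∈ _ at h2
          rw [sub_eq_of_eq_add' (hform j)] at h2
          exact h2
        rw [hform k]
        exact Submodule.add_mem _ (smul_mem _ _ hone) (h1 (hspan l k))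
      have h4 := card_le_of_notMem_LT (key A) (ev L) ((F l).image fun T => (l, T))
        (fun x hx => by
          obtain ⟨T, hT, rfl⟩ := mem_image.1 hx
          exact (mem_sdiff.1 (mem_filter.1 hT).2).2) V
        (fun x hx => by
          obtain ⟨T, -, rfl⟩ := mem_image.1 hx
          have h5 := hV3 (fun k => if k ∈ Tᶜ then L l k else 1) fun k => by
            split_ifs
            · exact hmem k
            · exact hone
          rw [prod_ite_mem, univ_inter] at h5
          unfold ev
          rwa [Fintype.linearCombination_apply_single, one_smul])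
      rw [card_image_of_injective _ (Prod.mk_right_injective l)] at h4
      rw [Fintype.card_option, Fintype.card_coe,
        show (A l).card + 1 + n - 1 = (A l).card + n by omega] at hV2
      exact num_small (h4.trans hV2) hu
  have h6 : n.centralBinom * 2 ^ n ≤ n.centralBinom * (8 * r) := by
    calc n.centralBinom * 2 ^ n ≤ (∑ l, (F l).card) * 2 ^ n :=
          Nat.mul_le_mul_right _ (hcb.trans (hD.trans hDF))
      _ = ∑ l, (F l).card * 2 ^ n := sum_mul _ _ _
      _ ≤ ∑ _l : Fin r, 8 * n.centralBinom := sum_le_sum fun l _ => hFl l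
      _ = _ := by simp; ring
  exact Nat.le_of_mul_le_mul_left h6 (Nat.centralBinom_pos n)

end Pool.Agent.Lib.MP_8b1d3b_lc.PR
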