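import Pool.Agent.Lib.MP_8b1d3b_lc.PRLead

/-! The operators on `K^{(l, T)}` and the weights. -/

set_option autoImplicit false

namespace Pool.Agent.Lib.MP_8b1d3b_lc.PR

open Finset Module

variable {K : Type*} [Field K] {n r : ℕ}

/-- Multiplication by a family of linear forms. -/
def mul1 (w : Fin r → Fin n → K) (b : Fin r × Finset (Fin n) → K) :
    Fin r × Finset (Fin n) → K :=
  fun x => ∑ k ∈ x.2, w x.1 k * b (x.1, x.2.erase k)

/-- Multiplication by a family of quadrics. -/
def mul2 (q : Fin r → Finset (Fin n) → K) (b : Fin r × Finset (Fin n) → K) :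
    Fin r × Finset (Fin n) → K :=
  fun x => ∑ e ∈ x.2.powersetCard 2, q x.1 e * b (x.1, x.2 \ e)

/-- The squarefree part of the product of two linear forms. -/
def sq (K : Type*) [Field K] (n : ℕ) :
    (Fin n → K) →ₗ[K] (Fin n → K) →ₗ[K] (Finset (Fin n) → K) :=
  LinearMap.mk₂ K
    (fun x y e => ∑ p ∈ (univ : Finset (Fin n)).offDiag with ({p.1, p.2} : Finset (Fin n)) = e,
      x p.1 * y p.2)
    (fun x x' y => by ext e; simp [add_mul, sum_add_distrib])
    (fun c x y => by ext e; simp [mul_sum, mul_assoc])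
    (fun x y y' => by ext e; simp [mul_add, sum_add_distrib])
    (fun c x y => by ext e; simp [mul_sum, mul_left_comm])

theorem sq_apply (x y : Fin n → K) (e : Finset (Fin n)) : sq K n x y e =
    ∑ p ∈ (univ : Finset (Fin n)).offDiag with ({p.1, p.2} : Finset (Fin n)) = e,
      x p.1 * y p.2 := rfl

theorem sq_comm (x y : Fin n → K) : sq K n x y = sq K n y x := by
  ext e
  rw [sq_apply, sq_apply]
  refine sum_nbij' Prod.swap Prod.swap ?_ ?_ (by simp) (by simp) (fun p _ => by simp [mul_comm])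
  all_goals
    rintro ⟨a, b⟩ h
    simp only [mem_offDiag, mem_univ, true_and, Prod.swap, mem_filter] at h ⊢
    exact ⟨fun h' => h.1 h'.symm, by rw [pair_comm]; exact h.2⟩

theorem sq_single {k k' : Fin n} (h : k ≠ k') :
    sq K n (Pi.single k 1) (Pi.single k' 1) = Pi.single {k, k'} 1 := by
  ext e
  rw [sq_apply, sum_filter, sum_eq_single (k, k')]
  · simp [Pi.single_apply, eq_comm]
  · rintro ⟨a, b⟩ _ hne
    by_cases ha : a = k
    · have hb : b ≠ k' := fun hb => hne (by rw [ha, hb])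
      simp [hb]
    · simp [ha]
  · intro hn
    exact absurd (mem_offDiag.2 ⟨mem_univ _, mem_univ _, h⟩) hn

theorem mul1_mul1 (w w' : Fin r → Fin n → K) (b : Fin r × Finset (Fin n) → K) :
    mul1 w (mul1 w' b) = mul2 (fun l => sq K n (w l) (w' l)) b := by
  ext ⟨l, X⟩
  simp only [mul1, mul2]
  have h1 : ∑ k ∈ X, w l k * ∑ k' ∈ X.erase k, w' l k' * b (l, (X.erase k).erase k') =
      ∑ p ∈ X.offDiag, w l p.1 * w' l p.2 * b (l, X \ {p.1, p.2}) := by
    rw [sum_finset_product' X.offDiag X (fun k => X.erase k)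
      (fun p => by simp only [mem_offDiag, mem_erase]; tauto)
      (f := fun k k' => w l k * w' l k' * b (l, X \ {k, k'}))]
    refine sum_congr rfl fun k _ => ?_
    rw [mul_sum]
    refine sum_congr rfl fun k' _ => ?_
    have : (X.erase k).erase k' = X \ {k, k'} := by
      ext z
      simp only [mem_erase, mem_sdiff, mem_insert, mem_singleton]
      tauto
    rw [this, mul_assoc]
  rw [h1, ← sum_fiberwise_of_maps_to (t := X.powersetCard 2)
    (g := fun p : Fin n × Fin n => ({p.1, p.2} : Finset (Fin n)))]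
  · refine sum_congr rfl fun e he => ?_
    rw [sq_apply, sum_mul]
    refine sum_congr ?_ fun p hp => by rw [(mem_filter.1 hp).2]
    ext p
    simp only [mem_filter, mem_offDiag, mem_univ, true_and]
    refine ⟨fun h => ⟨h.1.2.2, h.2⟩, fun h => ⟨⟨?_, ?_, h.1⟩, h.2⟩⟩
    · exact (mem_powersetCard.1 he).1 (h.2 ▸ by simp)
    · exact (mem_powersetCard.1 he).1 (h.2 ▸ by simp)
  · intro p hp
    obtain ⟨h1, h2, h3⟩ := mem_offDiag.1 hp
    exact mem_powersetCard.2 ⟨insert_subset h1 (singleton_subset_iff.2 h2), card_pair h3⟩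

/-- The weight of a set; elements of `A` are heavy. -/
def om (A T : Finset (Fin n)) : ℕ := ∑ k ∈ T, ((if k ∈ A then 2 ^ n else 0) + 2 ^ (k : ℕ))

theorem om_eq (A T : Finset (Fin n)) :
    om A T = (T ∩ A).card * 2 ^ n + ∑ k ∈ T.map Fin.valEmbedding, 2 ^ k := by
  unfold om
  rw [sum_add_distrib, ← sum_filter, filter_mem_eq_inter, sum_map]
  simp

theorem bin_lt (T : Finset (Fin n)) : ∑ k ∈ T.map Fin.valEmbedding, 2 ^ k < 2 ^ n :=
  Nat.geomSum_lt le_rfl fun k hk => by
    obtain ⟨j, -, rfl⟩ := mem_map.1 hk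
    exact j.2

theorem om_injective (A : Finset (Fin n)) : Function.Injective (om A) := by
  intro T T' h
  rw [om_eq, om_eq] at h
  have h1 := congrArg (· % 2 ^ n) h
  simp only [Nat.mul_add_mod_self_right, Nat.mod_eq_of_lt (bin_lt _)] at h1
  exact map_injective _ (geomSum_injective le_rfl h1)

theorem om_sdiff (A : Finset (Fin n)) {X e : Finset (Fin n)} (h : e ⊆ X) :
    om A (X \ e) + om A e = om A X := sum_sdiff h

theorem om_le {A e e' : Finset (Fin n)} (he : e ⊆ A) (h2 : e.card = 2) (he' : ¬ e' ⊆ A)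
    (h2' : e'.card = 2) : om A e' ≤ om A e := by
  rw [om_eq, om_eq, inter_eq_left.2 he, h2]
  have h1 : (e' ∩ A).card < e'.card :=
    card_lt_card ⟨inter_subset_left, fun h => he' (h.trans inter_subset_right)⟩
  have h3 : (e' ∩ A).card * 2 ^ n ≤ 1 * 2 ^ n := Nat.mul_le_mul_right _ (by omega)
  have := bin_lt e'
  omega

/-- The key of an index. -/
def key (A : Fin r → Finset (Fin n)) (x : Fin r × Finset (Fin n)) : Fin r ×ₗ ℕ :=
  toLex (x.1, om (A x.1) x.2)

theorem key_injective (A : Fin r → Finset (Fin n)) : Function.Injective (key A) := by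
  rintro ⟨l, T⟩ ⟨l', T'⟩ h
  have h1 := toLex.injective h
  simp only [Prod.mk.injEq] at h1
  obtain ⟨rfl, h2⟩ := h1
  rw [om_injective _ h2]

theorem lead_mul2 {A : Fin r → Finset (Fin n)} {b : Fin r × Finset (Fin n) → K} {l : Fin r}
    {T e : Finset (Fin n)} (hb : Lead (key A) b (l, T)) {q : Fin r → Finset (Fin n) → K}
    (h2 : e.card = 2) (hq : q l e ≠ 0)
    (hmax : ∀ e', e'.card = 2 → q l e' ≠ 0 → om (A l) e' ≤ om (A l) e) (hd : Disjoint e T) :
    Lead (key A) (mul2 q b) (l, T ∪ e) := by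
  have hT : (T ∪ e) \ e = T := union_sdiff_cancel_right hd.symm
  have hsum : om (A l) T + om (A l) e = om (A l) (T ∪ e) := by
    rw [← om_sdiff (A l) (subset_union_right : e ⊆ T ∪ e), hT]
  have hsame : ∀ X, b (l, X) ≠ 0 → om (A l) X ≤ om (A l) T := by
    intro X hX
    rcases Prod.Lex.toLex_le_toLex.1 (hb.2 _ hX) with h | h
    · exact absurd h (lt_irrefl _)
    · exact h.2
  constructor
  · simp only [mul2]
    rw [sum_eq_single e, hT]
    · exact mul_ne_zero hq hb.1
    · intro e' he' hne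
      by_contra h0
      obtain ⟨h3, h4⟩ := mem_powersetCard.1 he'
      have h5 := hmax e' h4 (left_ne_zero_of_mul h0)
      have h6 := hsame _ (right_ne_zero_of_mul h0)
      have h7 := om_sdiff (A l) h3
      exact hne (om_injective (A l) (by omega))
    · intro hn
      exact absurd (mem_powersetCard.2 ⟨subset_union_right, h2⟩) hn
  · rintro ⟨l', X⟩ hX
    obtain ⟨e', he', h0⟩ := exists_ne_zero_of_sum_ne_zero hX
    obtain ⟨h3, h4⟩ := mem_powersetCard.1 he'
    refine Prod.Lex.toLex_le_toLex.2 ?_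
    rcases Prod.Lex.toLex_le_toLex.1 (hb.2 _ (right_ne_zero_of_mul h0)) with h | h
    · exact Or.inl h
    · obtain ⟨h5, h6⟩ := h
      simp only at h5 h6 h3 h0 ⊢
      subst h5
      have h7 := hmax e' h4 (left_ne_zero_of_mul h0)
      have h8 := om_sdiff (A l') h3
      exact Or.inr ⟨rfl, by omega⟩

end Pool.Agent.Lib.MP_8b1d3b_lc.PR
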