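import Mathlib
import Pool.Agent.Lib.MP_8b1d3b_lc.PRMain

set_option autoImplicit false

namespace Pool.Agent.Lib.MP_8b1d3b_lc.ProductRankKept

theorem result (K : Type*) [Field K] (n r : ℕ)
    (L : Fin r → Fin n → MvPolynomial (Fin n × Fin n) K)
    (hL : ∀ l k, (L l k).totalDegree ≤ 1)
    (h : ∑ l, ∏ k, L l k = Matrix.permanent (Matrix.of fun i j : Fin n =>
      (MvPolynomial.X (i, j) : MvPolynomial (Fin n × Fin n) K))) :
    2 ^ n ≤ 8 * r :=
  Pool.Agent.Lib.MP_8b1d3b_lc.PR.product_rank L hL h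

end Pool.Agent.Lib.MP_8b1d3b_lc.ProductRankKept
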