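import Mathlib
import Pool.Agent.Lib.MP_8b1d3b_lc.SymDet

set_option autoImplicit false

namespace Pool.Agent.Lib.MP_8b1d3b_lc.SymmetricKept

theorem result (K : Type*) [Field K] [CharZero K] (n t l k : ℕ) (hl : 3 ≤ l) (hk : 2 ≤ k)
    (ht : 8 * l * k ≤ t) (e : Fin t × ZMod l ↪ Fin n) (c : Fin t → Equiv.Perm (Fin n))
    (hc : ∀ a b i, c a (e (b, i)) = e (b, if a = b then i + 1 else i))
    (m : ℕ) (g : Fin (m + 1) → MvPolynomial (Fin n × Fin n) K)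
    (V : Submodule K (MvPolynomial (Fin n × Fin n) K)) [FiniteDimensional K V]
    (M : Finset (Fin (m + 1))) (ch : Fin (m + 1) → Finset (Fin (m + 1)))
    (hg : ∀ i, g i ∈ Submodule.span K ({1} ∪ Set.range MvPolynomial.X ∪ g '' Set.Iio i) ∨
      (∃ j j', j < i ∧ j' < i ∧ g i = g j * g j' ∧ g i ∈ V) ∨
      (i ∈ M ∧ (∀ j ∈ ch i, j < i) ∧ g i = ∏ j ∈ ch i, g j))
    (hp : g (Fin.last m) =
      Matrix.permanent (Matrix.of fun i j : Fin n => MvPolynomial.X (i, j)))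
    (hV : ∀ a, ∀ f ∈ V, MvPolynomial.rename (Prod.map (c a) (c a)) f ∈ V)
    (hM : ∀ a, ∀ i ∈ M, ∃ i' ∈ M, (ch i').val.map g =
      (ch i).val.map fun j => MvPolynomial.rename (Prod.map (c a) (c a)) (g j)) :
    (8 / 5 : ℝ) ^ k ≤ k * (Module.finrank K V + 2 * M.card * (m + 1) ^ 2) :=
  Pool.Agent.Lib.MP_8b1d3b_lc.Sym.main1 K n t l k hl ht e c hc hk m g V M ch hg hp hV hM

end Pool.Agent.Lib.MP_8b1d3b_lc.SymmetricKept
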